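import Pool.Agent.N110.QDefs

/-!
Definitions: crepant self-maps, and the dynamical degrees of random products of self-maps.
-/

set_option autoImplicit false

open FF Pool.Agent.W602.GT Pool.Agent.Y172 Pool.Agent.R887 Pool.Agent.N110

namespace Pool.Agent.T2h12

section

variable {K : Type} [Field K] [Algebra ℂ K] {N : ℕ}

/-- The endomorphism `φ = f^*` is given by a dominant rational self-map `f` of `X`. The divisor
`K_X + Δ` is at most `f^* (K_X + Δ)` over the prime divisors of the target: if `P` is a prime
divisor of `X` and `Q` a divisor over `X` which is mapped onto `P` by `f`, with ramification index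
`e`, then the log discrepancy of `(X, Δ)` along `Q` is at least `e` times the log discrepancy
`1 - Δ P` of `(X, Δ)` along `P`. -/
def SelfPushLe (φ : K →ₐ[ℂ] K) (y : Fin (N + 1) → K) (n : ℕ) (Δ : Place ℂ K → ℚ) : Prop :=
  ∀ P : Place ℂ K, IsPrimeDivisor y P → ∀ (Q : Place ℂ K) (e : ℕ), LiesOver φ Q P e →
    ∃ α : ℚ, LogDisc y n Δ Q α ∧ e * (1 - Δ P) ≤ α

/-- The pull back `f_{v 0}^* ... f_{v (l - 1)}^*` by the composition of the `l` self-maps with the
indices `v 0, ..., v (l - 1)`, if `f i` stands for the pull back by the `i`-th self-map. -/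
noncomputable def wordMap {d : ℕ} (f : Fin d → (K →ₐ[ℂ] K)) {l : ℕ} (v : Fin l → Fin d) :
    K →ₐ[ℂ] K :=
  (List.ofFn fun i => f (v i)).prod

/-- The mean of exponent `s ≥ 0` (the geometric mean if `s = 0`, the arithmetic mean if `s = 1`) of
the degree `(g^* H) ^ p · H ^ (n - p)` of the composition `g` of `l` self-maps, which are chosen
independently at random; the `i`-th self-map is chosen with probability `w i`. -/
noncomputable def meanDegree {d : ℕ} (f : Fin d → (K →ₐ[ℂ] K)) (w : Fin d → ℝ)
    (y : Fin (N + 1) → K) (n : ℕ) (s : ℝ) (p l : ℕ) : ℝ :=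
  if s = 0 then ∏ v : Fin l → Fin d,
    (selfDegree (wordMap f v) y n p).toReal ^ (∏ i, w (v i))
  else (∑ v : Fin l → Fin d, (∏ i, w (v i)) *
    (selfDegree (wordMap f v) y n p).toReal ^ s) ^ (1 / s)

open scoped ENNReal in
/-- The `p`-th dynamical degree of exponent `s` of the random products: the upper limit, for
`l → ∞`, of the `l`-th root of the mean of exponent `s` of the degrees `(g^* H) ^ p · H ^ (n - p)`
of the compositions `g` of `l` self-maps. For `s = 0` it is the exponential of the Lyapunov
exponent of the degrees, that is, the almost sure growth rate of the degrees of a random product.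
For `d = 1` it is the dynamical degree of the self-map, for all `s`. -/
noncomputable def randomDegree {d : ℕ} (f : Fin d → (K →ₐ[ℂ] K)) (w : Fin d → ℝ)
    (y : Fin (N + 1) → K) (n : ℕ) (s : ℝ) (p : ℕ) : ℝ≥0∞ :=
  Filter.limsup (fun l : ℕ => ENNReal.ofReal (meanDegree f w y n s p l) ^ (1 / (l : ℝ)))
    Filter.atTop

end

end Pool.Agent.T2h12
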