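import Pool.Agent.T2h12.HasC
import Pool.Agent.T2h12.RDefs
import Pool.Agent.N110.QPlateau

/-!
The plateau theorem for the dynamical degrees of random products.
-/

set_option autoImplicit false
set_option linter.overlappingInstances false
set_option linter.unusedSectionVars false

open FF Module MvPolynomial Pool.Agent.W602.GT Pool.Agent.W603.LV
open Pool.Agent.Y172 Pool.Agent.Y191 Pool.Agent.R887 Pool.Agent.N110
open scoped ENNReal Topology

namespace Pool.Agent.T2h12

section

variable {K : Type} [Field K] [Algebra ℂ K] {N n : ℕ} {y : Fin (N + 1) → K}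

theorem wordMap_append {d : ℕ} (f : Fin d → (K →ₐ[ℂ] K)) {l k : ℕ} (u : Fin l → Fin d)
    (v : Fin k → Fin d) : wordMap f (Fin.append u v) = wordMap f u * wordMap f v := by
  unfold wordMap
  rw [← List.prod_append, ← List.ofFn_fin_append]
  congr 2
  funext i
  refine Fin.addCases (fun i => ?_) (fun i => ?_) i
  · rw [Fin.append_left, Fin.append_left]
  · rw [Fin.append_right, Fin.append_right]

/-- **The plateau theorem for random products.** -/
theorem random_plateau (hy : NormalModel y) (hn : Algebra.trdeg ℂ K = n)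
    {i : Fin (N + 1)} (hi : y i ≠ 0) {d : ℕ} {f : Fin d → (K →ₐ[ℂ] K)} {w : Fin d → ℝ}
    (hw : ∀ i, 0 ≤ w i) (hw1 : ∑ i, w i = 1) {s : ℝ} (hs : 0 ≤ s) {ν : ℕ} (hν : ν ≤ n)
    (hC : HasC hy hn hi (Set.range f) ν) :
    ∃ j, j + ν ≤ n ∧ ∀ a ≤ ν, ∀ p ≤ n,
      randomDegree f w y n s p ≤ randomDegree f w y n s (j + a) := by
  classical
  by_contra hcon
  push Not at hcon
  obtain ⟨p0, hp0, hmax⟩ := Finset.exists_max_image (Finset.range (n + 1))
    (fun p => randomDegree f w y n s p) ⟨0, by simp⟩
  rw [Finset.mem_range] at hp0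
  have hcon' : ∀ j, j + ν ≤ n → ∃ a ≤ ν,
      randomDegree f w y n s (j + a) < randomDegree f w y n s p0 := by
    intro j hj
    obtain ⟨a, ha, p, hp, hlt⟩ := hcon j hj
    exact ⟨a, ha, hlt.trans_le (hmax p (Finset.mem_range.2 (by omega)))⟩
  choose a ha halt using hcon'
  obtain ⟨B, hB⟩ : ∃ B : ℝ≥0∞, B = (Finset.range (n + 1)).sup fun j =>
      if hj : j + ν ≤ n then randomDegree f w y n s (j + a j hj) else 0 := ⟨_, rfl⟩
  have hBlt : B < randomDegree f w y n s p0 := by
    rw [hB, Finset.sup_lt_iff]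
    · intro j _
      split_ifs with hj
      · exact halt j hj
      · exact zero_le.trans_lt (halt 0 (by omega))
    · exact zero_le.trans_lt (halt 0 (by omega))
  obtain ⟨L, hL1, hL2⟩ := ENNReal.lt_iff_exists_nnreal_btwn.1 hBlt
  obtain ⟨L', hL3, hL4⟩ := ENNReal.lt_iff_exists_nnreal_btwn.1 hL2
  have hL0 : (0 : ℝ) < L := by
    have : (0 : ℝ≥0∞) < L := zero_le.trans_lt hL1
    exact_mod_cast this
  have hLL' : (L : ℝ) < L' := by exact_mod_cast hL3
  have hL'0 : (0 : ℝ) < L' := hL0.trans hLL'
  obtain ⟨𝒜, h𝒜, m, M, D, ν', c, ε, C₁, hνν', data⟩ := hC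
  have hν'n := data.hν
  -- the words
  obtain ⟨Fw, hFw⟩ : ∃ Fw : ∀ l, (Fin l → Fin d) → Cls ℂ (affS y i) → Cls ℂ (affS y i),
      Fw = fun l v => eCls hy hn hi (wordMap f v) := ⟨_, rfl⟩
  have hFW : ∀ l v, Fw l v ∈ EWrd hy hn hi (Set.range f) l := by
    intro l v
    rw [hFw]
    refine ⟨List.ofFn fun i => f (v i), List.length_ofFn, fun φ hφ => ?_, rfl⟩
    obtain ⟨i, rfl⟩ := List.mem_ofFn.1 hφ
    exact ⟨v i, rfl⟩
  have hFap : ∀ l k (u : Fin l → Fin d) (v : Fin k → Fin d), Fw (l + k) (Fin.append u v) =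
      Fw l u ∘ Fw k v := by
    intro l k u v
    rw [hFw]
    funext A
    change eCls hy hn hi (wordMap f (Fin.append u v)) A = _
    rw [wordMap_append, ← eCls_eCls]
    rfl
  have hdeg : ∀ p, p ≤ n → ∀ l (v : Fin l → Fin d), (selfDegree (wordMap f v) y n p).toReal =
      (I (Multiset.replicate p (Fw l v (hcls hy hi)) +
        Multiset.replicate (n - p) (hcls hy hi)) : ℝ) := by
    intro p hp l v
    rw [selfDegree_eq hy hn hi _ hp, ENNReal.toReal_natCast, hFw]
  have hdpos : ∀ p, p ≤ n → ∀ l (v : Fin l → Fin d),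
      0 < (I (Multiset.replicate p (Fw l v (hcls hy hi)) +
        Multiset.replicate (n - p) (hcls hy hi)) : ℝ) := fun p hp l v =>
    data.pos _ (by rw [Multiset.card_add, Multiset.card_replicate, Multiset.card_replicate]; omega)
  -- the bounds for the long words
  have hlong : ∀ j (hj : j + ν' ≤ n), ∃ l0 : ℕ, ∀ l, l0 ≤ l →
      meanDegree f w y n s (j + a j (by omega)) l ≤ (L : ℝ) ^ l := by
    intro j hj
    have hj' : j + ν ≤ n := by omega
    have h3 : randomDegree f w y n s (j + a j hj') < ENNReal.ofReal L := by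
      rw [ENNReal.ofReal_coe_nnreal]
      refine lt_of_le_of_lt ?_ hL1
      rw [hB]
      have h4 := Finset.le_sup (s := Finset.range (n + 1))
        (f := fun j => if hj : j + ν ≤ n then randomDegree f w y n s (j + a j hj) else 0)
        (Finset.mem_range.2 (by omega : j < n + 1))
      simp only [dif_pos hj'] at h4
      exact h4
    obtain ⟨l0, hl0⟩ := ev_of_limsup hL0 h3
    refine ⟨l0, fun l hl => ?_⟩
    exact (ENNReal.ofReal_le_ofReal_iff (by positivity)).1 (hl0 l hl)
  have hfin : ∃ A : ℝ, ∀ l, meanDegree f w y n s p0 l ≤ A * (L' : ℝ) ^ l := by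
    have hp0n : p0 ≤ n := by omega
    rcases hs.eq_or_lt with hs0 | hs0
    · -- the geometric mean
      subst hs0
      have hmean : ∀ p, p ≤ n → ∀ l, 0 < meanDegree f w y n 0 p l ∧
          Real.log (meanDegree f w y n 0 p l) = ∑ v : Fin l → Fin d, wt w v *
          Real.log (I (Multiset.replicate p (Fw l v (hcls hy hi)) +
            Multiset.replicate (n - p) (hcls hy hi)) : ℝ) := by
        intro p hp l
        have e1 : meanDegree f w y n 0 p l = ∏ v : Fin l → Fin d,
            (I (Multiset.replicate p (Fw l v (hcls hy hi)) +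
              Multiset.replicate (n - p) (hcls hy hi)) : ℝ) ^ (wt w v) := by
          unfold meanDegree
          rw [if_pos rfl]
          refine Finset.prod_congr rfl fun v _ => ?_
          rw [hdeg p hp l v]
          rfl
        have e2 : ∀ v : Fin l → Fin d, 0 < (I (Multiset.replicate p (Fw l v (hcls hy hi)) +
              Multiset.replicate (n - p) (hcls hy hi)) : ℝ) ^ (wt w v) := fun v =>
          Real.rpow_pos_of_pos (hdpos p hp l v) _
        rw [e1]
        refine ⟨Finset.prod_pos fun v _ => e2 v, ?_⟩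
        rw [Real.log_prod fun v _ => (e2 v).ne']
        refine Finset.sum_congr rfl fun v _ => ?_
        rw [Real.log_rpow (hdpos p hp l v)]
      obtain ⟨B', hB'⟩ := data.weighted_log h𝒜 hw hw1 hFW hFap hL0 hLL' (by
        intro j hj
        obtain ⟨l0, hl0⟩ := hlong j hj
        refine ⟨a j (by omega), (ha j (by omega)).trans hνν', l0, fun l hl => ?_⟩
        have hja : j + a j (by omega) ≤ n := by
          have := ha j (by omega)
          omega
        have h5 := hmean _ hja l
        rw [← h5.2]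
        have h6 := Real.log_le_log h5.1 (hl0 l hl)
        rwa [Real.log_pow] at h6)
      refine ⟨Real.exp B', fun l => ?_⟩
      have h5 := hmean p0 hp0n l
      have h6 := hB' l p0 hp0n
      beta_reduce at h6
      rw [← h5.2] at h6
      rw [← Real.exp_log h5.1]
      have h7 : Real.exp B' * (L' : ℝ) ^ l = Real.exp (B' + l * Real.log L') := by
        rw [Real.exp_add, Real.exp_nat_mul, Real.exp_log hL'0]
      rw [h7]
      exact Real.exp_le_exp.2 h6
    · -- the other means
      have hmean : ∀ p, p ≤ n → ∀ l, meanDegree f w y n s p l =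
          (∑ v : Fin l → Fin d, wt w v * (I (Multiset.replicate p (Fw l v (hcls hy hi)) +
            Multiset.replicate (n - p) (hcls hy hi)) : ℝ) ^ s) ^ (1 / s) := by
        intro p hp l
        unfold meanDegree
        rw [if_neg hs0.ne']
        congr 1
        refine Finset.sum_congr rfl fun v _ => ?_
        rw [hdeg p hp l v]
        rfl
      have hsum0 : ∀ p, p ≤ n → ∀ l, 0 ≤ ∑ v : Fin l → Fin d, wt w v *
          (I (Multiset.replicate p (Fw l v (hcls hy hi)) +
            Multiset.replicate (n - p) (hcls hy hi)) : ℝ) ^ s := fun p hp l =>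
        Finset.sum_nonneg fun v _ => mul_nonneg (wt_nonneg hw v)
          (Real.rpow_nonneg (hdpos p hp l v).le s)
      obtain ⟨A, hA⟩ := data.weighted h𝒜 hw hFW hFap hs0 (L := (L : ℝ) ^ s) (L' := (L' : ℝ) ^ s)
        (Real.rpow_pos_of_pos hL0 s) (Real.rpow_lt_rpow hL0.le hLL' hs0) (by
        intro j hj
        obtain ⟨l0, hl0⟩ := hlong j hj
        refine ⟨a j (by omega), (ha j (by omega)).trans hνν', 1, l0, fun l hl => ?_⟩
        have hja : j + a j (by omega) ≤ n := by
          have := ha j (by omega)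
          omega
        have h5 := hl0 l hl
        rw [hmean _ hja l] at h5
        have h6 := Real.rpow_le_rpow (Real.rpow_nonneg (hsum0 _ hja l) _) h5 hs0.le
        rw [← Real.rpow_mul (hsum0 _ hja l), one_div, inv_mul_cancel₀ hs0.ne',
          Real.rpow_one] at h6
        rw [one_mul]
        refine h6.trans (le_of_eq ?_)
        rw [← Real.rpow_natCast, ← Real.rpow_natCast, ← Real.rpow_mul hL0.le,
          ← Real.rpow_mul hL0.le, mul_comm])
      refine ⟨|A| ^ (1 / s), fun l => ?_⟩
      rw [hmean p0 hp0n l]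
      have h5 := hA l p0 hp0n
      beta_reduce at h5
      have h6 : A * ((L' : ℝ) ^ s) ^ l ≤ |A| * ((L' : ℝ) ^ l) ^ s := by
        have e1 : ((L' : ℝ) ^ s) ^ l = ((L' : ℝ) ^ l) ^ s := by
          rw [← Real.rpow_natCast, ← Real.rpow_natCast, ← Real.rpow_mul hL'0.le,
            ← Real.rpow_mul hL'0.le, mul_comm]
        rw [e1]
        exact mul_le_mul_of_nonneg_right (le_abs_self A) (by positivity)
      have h7 := Real.rpow_le_rpow (hsum0 p0 hp0n l) (h5.trans h6)
        (show 0 ≤ 1 / s by positivity)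
      refine h7.trans (le_of_eq ?_)
      rw [Real.mul_rpow (abs_nonneg A) (by positivity), ← Real.rpow_mul (by positivity),
        mul_one_div, div_self hs0.ne', Real.rpow_one]
  obtain ⟨A, hA⟩ := hfin
  have h3 : randomDegree f w y n s p0 ≤ ENNReal.ofReal L' :=
    limsup_of_bd (A := A) hL'0 fun l => ENNReal.ofReal_le_ofReal (hA l)
  rw [ENNReal.ofReal_coe_nnreal] at h3
  exact absurd hL4 (not_lt.2 h3)

end

end Pool.Agent.T2h12
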