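import Pool.Agent.T2h12.ESysK

/-!
The rank theorem for commuting dominant rational self-maps of klt pairs.
-/

set_option autoImplicit false
set_option linter.overlappingInstances false
set_option linter.unusedSectionVars false

open Filter Topology FF Module
open Pool.Agent.W602.GT Pool.Agent.W603.LV Pool.Agent.Y172 Pool.Agent.Y191 Pool.Agent.R887
open Pool.Agent.N110.RK Pool.Agent.N110.SE Pool.Agent.N110 Pool.Agent.W619.PQ
open scoped ENNReal

namespace Pool.Agent.T2h12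

section

variable {K : Type} [Field K] [Algebra ℂ K] {N n : ℕ} {y : Fin (N + 1) → K}

/-- the directions of subexponential growth -/
theorem space_of_esys (hy : NormalModel y) (hn : Algebra.trdeg ℂ K = n) (hn0 : 0 < n)
    {i : Fin (N + 1)} (hi : y i ≠ 0) {r : ℕ} {φ : (Fin r → ℕ) → (K →ₐ[ℂ] K)} {ν : ℕ}
    (hex : ∃ (m : ℕ → ℝ) (M : EffT y → ℕ → Cls ℂ (affS y i)) (c ε : ℝ),
      ESys n r (fun s : Multiset (Cls ℂ (affS y i)) => (I s : ℝ))
        (fun v => eCls hy hn hi (φ v))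
        (fun j => Real.log (mapDegree (φ (Pi.single j 1)) : ℝ))
        (mulCls (fin_affS i) (one_affS hi)) (hcls hy hi) m M ν c ε) :
    ∃ W : Submodule ℝ (Fin r → ℝ), r + ν ≤ finrank ℝ W + n ∧ ∀ w ∈ W, CorrSubexp φ y n w := by
  obtain ⟨m, M, c, ε, h⟩ := hex
  obtain ⟨W, hW1, hW2⟩ := semi_rank stmSJ h
  refine ⟨W, hW1, fun w hw δ hδ => ?_⟩
  obtain ⟨B, hB⟩ := hW2 w hw δ hδ
  refine ⟨B, fun l v hv => (stmSD hy hn hn0 hi v).trans (ENNReal.ofReal_le_ofReal ?_)⟩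
  refine le_trans (le_of_eq ?_) (hB l v hv)
  have hs : (Multiset.replicate n (hcls hy hi)).card = n := Multiset.card_replicate _ _
  have h1 := h.inv (ng v) (Multiset.replicate n (hcls hy hi)) hs
  have h2 := h.pos (Multiset.replicate n (hcls hy hi)) hs
  have h3 := I_emap hy hn hi (φ (ng v)) hs
  have h4 : (mapDegree (φ (ng v)) : ℝ) = Real.exp (∑ i, Real.log (mapDegree
      (φ (Pi.single i 1)) : ℝ) * (ng v i : ℝ)) := by
    beta_reduce at h1 h2
    rw [h3] at h1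
    push_cast at h1
    exact mul_right_cancel₀ h2.ne' h1
  rw [h4, Real.exp_neg, mul_comm, div_eq_mul_inv]

/-- **The rank theorem** for commuting dominant rational self-maps of klt pairs. -/
theorem comm_main (hy : NormalModel y) (hn : Algebra.trdeg ℂ K = n) (hn0 : 0 < n)
    {Δ : Place ℂ K → ℚ} (hΔ : Effective y Δ) {r s : ℕ} {φ : (Fin r → ℕ) → (K →ₐ[ℂ] K)}
    (hφ : ∀ u v, φ (u + v) = φ u * φ v) (hP : ∀ v, SelfPullLe (φ v) y n Δ) {κ : ℕ}
    (hκ : KappaGe y n Δ κ) (hrank : CorrRankGe φ y n s) :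
    s + κ ≤ n ∧ (Klt y n Δ → s + κ = n → 1 ≤ s → NumDimLt y n Δ (κ + 1)) := by
  classical
  obtain ⟨i, hi⟩ := hy.ne
  obtain ⟨x, E, hx, hE⟩ := exists_crd hn (k := ℂ) (K := K)
  have hfr : IsFrame E := fun F => ⟨fun j => F (x j),
    (Pool.Agent.W73.PG.PULL.expand x hx E hE F).symm⟩
  obtain ⟨c, hcfin, hc⟩ := exists_ordc hy hn hx hE
  have hc' : IsDisc y E c := hc
  obtain ⟨Hy, hHy, hHP⟩ := exists_hyp hy hi
  obtain ⟨m0, hm0, ω, E', hω, hω0, hind⟩ := hκ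
  obtain ⟨g, hg⟩ : ∃ g : Fin (κ + 1) → K, g = fun j => ω j E := ⟨_, rfl⟩
  have hgm : ∀ j, g j ∈ Lsp y c m0 (m0 • Δ) := fun j => by
    rw [hg]
    exact (isSection_iff hc' (hω j).1).1 (hω j)
  have hgj0 : g 0 ≠ 0 := by
    rw [hg]
    exact (Pool.Agent.N110.ratio_frame hfr (hω 0).1 (hω 0).1 hω0).1
  obtain ⟨ρ, hρ⟩ : ∃ ρ : Fin κ → K, ρ = fun j => g j.succ / g 0 := ⟨_, rfl⟩
  have e1 : (fun j : Fin κ => ω j.succ E' / ω 0 E') = ρ := by
    rw [hρ]
    funext j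
    rw [hg]
    exact (Pool.Agent.N110.ratio_frame hfr (hω 0).1 (hω j.succ).1 hω0).2
  rw [e1] at hind
  have hrV : ∀ j, g 0 * ρ j ∈ Lsp y c m0 (m0 • Δ) := by
    intro j
    rw [hρ]
    have e2 : g 0 * (g j.succ / g 0) = g j.succ := mul_div_cancel₀ _ hgj0
    change g 0 * (g j.succ / g 0) ∈ _
    rw [e2]
    exact hgm _
  have hκn : κ ≤ n := by
    have h1 := hind.cardinalMk_le_trdeg
    rw [hn, Cardinal.mk_fin] at h1
    exact_mod_cast h1
  have hJ : ∀ v, JPulls y c Δ x E (φ v) := fun v => jpulls_of hy hn (hP v) hx hE hfr hc'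
  refine ⟨?_, fun hklt hsκ hs => ?_⟩
  · obtain ⟨M, hM⟩ := exists_MSys hy hi hcfin hΔ.2 hHy hHP hHy (fun _ _ => le_rfl) hgj0 (hgm 0)
    have hES := esys_of hy hn hn0 hi hΔ.2 hx hE hfr hcfin hHy hHP hm0 hgj0 (hgm 0) hHy
      (fun _ _ => le_rfl) hM hφ hJ hκn one_pos (fun t ht k0 => by
        obtain ⟨k1, hk1⟩ := exists_nat_gt (1 / t)
        refine ⟨max k0 (max k1 1), le_max_left _ _, 1, le_rfl, ?_, fun v => ?_⟩
        · have h2 : (k1 : ℝ) ≤ ((max k0 (max k1 1) : ℕ) : ℝ) := by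
            exact_mod_cast (le_max_left _ _).trans (le_max_right _ _)
          rw [div_lt_iff₀ ht] at hk1
          push_cast at h2 ⊢
          nlinarith
        · exact low_kappa hy hn hi hκn hind hrV hHy hM
            ((le_max_right _ _).trans (le_max_right _ _)) le_rfl (φ v))
    obtain ⟨W, hW1, hW2⟩ := space_of_esys hy hn hn0 hi hES
    have := hrank W hW2
    omega
  · by_contra hnum
    obtain ⟨m, hm⟩ : ∃ m, n = m + 1 + κ := ⟨n - (κ + 1), by omega⟩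
    subst hm
    obtain ⟨A₀, hA₀, hHA, ε, hε, hlow⟩ := base_low hy hn hi hfr hc' hcfin hΔ.2 hHy hHP hm0 hgj0
      (by omega : κ + 1 ≤ m + 1 + κ) hnum
    obtain ⟨M, hM⟩ := exists_MSys hy hi hcfin hΔ.2 hHy hHP hA₀ hHA hgj0 (hgm 0)
    obtain ⟨ε', hε', hword⟩ := base_word hy hn hΔ hklt hx hE hfr hcfin hc' hm0 hgj0 (hgm 0) hind
      hrV hi hA₀ hM hε (fun t ht k0 => by
        obtain ⟨k, hk, b, hb1, hb, h2⟩ := hlow t ht (max k0 1)
        have hk1 : 1 ≤ k := (le_max_right _ _).trans hk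
        exact ⟨k, (le_max_left _ _).trans hk, b, hb1, hb, h2 (M k b) (hM.mem k b hk1 hb1)⟩)
    have hES := esys_of hy hn hn0 hi hΔ.2 hx hE hfr hcfin hHy hHP hm0 hgj0 (hgm 0) hA₀ hHA hM hφ hJ
      (by omega : κ + 1 ≤ m + 1 + κ) hε' (fun t ht k0 => by
        obtain ⟨k, hk, b, hb1, hb, h2⟩ := hword t ht k0
        refine ⟨k, hk, b, hb1, hb, fun v => ?_⟩
        have h3 := h2 (φ v) (hJ v)
        rwa [show m + 1 + κ - (κ + 1) = m by omega])
    obtain ⟨W, hW1, hW2⟩ := space_of_esys hy hn hn0 hi hES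
    have := hrank W hW2
    omega

end

end Pool.Agent.T2h12
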