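import Pool.Agent.T2h12.Word
import Pool.Agent.N110.QMap

/-!
The intersection numbers of the images of the spaces of sections under dominant self-maps: the
lower bound.
-/

set_option autoImplicit false
set_option linter.overlappingInstances false
set_option linter.unusedSectionVars false

open FF Module MvPolynomial Pool.Agent.W602.GT Pool.Agent.W603.LV
open Pool.Agent.Y172 Pool.Agent.Y191 Pool.Agent.R887 Pool.Agent.N110

namespace Pool.Agent.T2h12

section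

variable {K : Type} [Field K] [Algebra ℂ K] {N m κ : ℕ} {y : Fin (N + 1) → K}

/-- **The lower bound for the images of the spaces of sections.** -/
theorem base_word (hy : NormalModel y) (hn : Algebra.trdeg ℂ K = (m + 1 + κ : ℕ))
    {Δ : Place ℂ K → ℚ} (hΔ : Effective y Δ) (hklt : Klt y (m + 1 + κ) Δ)
    {x : Fin (m + 1 + κ) → K} {E : Fin (m + 1 + κ) → Derivation ℂ K K}
    (hx : IsTranscendenceBasis ℂ x) (hE : ∀ i j, E i (x j) = if i = j then 1 else 0)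
    (hfr : IsFrame E) {c : Place ℂ K → ℤ}
    (hcfin : {P | IsPrimeDivisor y P ∧ c P ≠ 0}.Finite) (hc : IsDisc y E c) {m0 : ℕ}
    (hm0 : 1 ≤ m0) {g0 : K} (hg0 : g0 ≠ 0) (hg0V : g0 ∈ Lsp y c m0 (m0 • Δ)) {r : Fin κ → K}
    (hr : AlgebraicIndependent ℂ r) (hrV : ∀ j, g0 * r j ∈ Lsp y c m0 (m0 • Δ))
    {i : Fin (N + 1)} (hi : y i ≠ 0) {A₀ : Place ℂ K → ℚ} (hA₀ : Effective y A₀)
    {M : ℕ → ℕ → Cls ℂ (affS y i)} (hM : MSys y i c Δ A₀ m0 g0 M) {ε : ℝ} (hε : 0 < ε)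
    (hlow : ∀ t : ℝ, 0 < t → ∀ k0 : ℕ, ∃ k, k0 ≤ k ∧ ∃ b : ℕ, 1 ≤ b ∧
      (b : ℝ) ≤ t * k ∧ ε * (k : ℝ) ^ (κ + 1) ≤ I (Multiset.replicate (κ + 1) (M k b) +
        Multiset.replicate (m + 1 + κ - (κ + 1)) (hcls hy hi))) :
    ∃ ε' : ℝ, 0 < ε' ∧ ∀ t : ℝ, 0 < t → ∀ k0 : ℕ, ∃ k, k0 ≤ k ∧ ∃ b : ℕ, 1 ≤ b ∧
      (b : ℝ) ≤ t * k ∧ ∀ φ : K →ₐ[ℂ] K, JPulls y c Δ x E φ → ε' * (k : ℝ) ^ (κ + 1) ≤
        I (Multiset.replicate (κ + 1) (eCls hy hn hi φ (M k b)) +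
          Multiset.replicate m (hcls hy hi)) := by
  classical
  obtain ⟨β, f, hf, hdom⟩ := dom_sections hy hi hcfin (hΔ.2)
  obtain ⟨βA, g, hg, hB⟩ := hdom A₀ hA₀
  obtain ⟨C, hC⟩ : ∃ C : ℕ, C = m0 * β + βA := ⟨_, rfl⟩
  obtain ⟨T, hT⟩ : ∃ T : Set K, T = insert 1 (Set.range r) := ⟨_, rfl⟩
  have hTf : T.Finite := by
    rw [hT]
    exact (Set.finite_range r).insert _
  have hT1 : (1 : K) ∈ T := by
    rw [hT]
    exact Set.mem_insert _ _
  have hrT : ∀ j, r j ∈ T := fun j => by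
    rw [hT]
    exact Set.mem_insert_of_mem _ ⟨j, rfl⟩
  have hTV : ∀ u ∈ Submodule.span ℂ T, g0 * u ∈ Lsp y c m0 (m0 • Δ) := by
    intro u hu
    induction hu using Submodule.span_induction with
    | mem z hz =>
      rw [hT] at hz
      rcases hz with rfl | ⟨j, rfl⟩
      · rwa [mul_one]
      · exact hrV j
    | zero =>
      rw [mul_zero]
      exact Submodule.zero_mem _
    | add z w _ _ h1 h2 =>
      rw [mul_add]
      exact Submodule.add_mem _ h1 h2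
    | smul a z _ h1 =>
      rw [mul_smul_comm]
      exact Submodule.smul_mem _ _ h1
  have hRd : ∀ u ∈ Submodule.span ℂ T, Bnd ℂ (affS y i) C (f ^ m0 * g0 * u) := by
    intro u hu
    have h1 := hB m0 0 (g0 * u) (by
      rw [zero_smul, add_zero]
      exact hTV u hu)
    rw [pow_zero, mul_one, zero_mul, add_zero, ← mul_assoc] at h1
    refine bnd_mono (fin_affS i) (one_affS hi) ?_ h1
    rw [hC]
    exact Nat.le_add_right _ _
  have hMB : ∀ k b, 1 ≤ k → 1 ≤ b → ∀ v ∈ (M k b).V,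
      Bnd ℂ (affS y i) (m0 * k * β + b * βA) ((f ^ m0 * g0) ^ k * g ^ b * v) := by
    intro k b hk hb v hv
    have h1 := hB (m0 * k) b (g0 ^ k * v) ((hM.mem k b hk hb v).1 hv)
    have e1 : f ^ (m0 * k) * g ^ b * (g0 ^ k * v) = (f ^ m0 * g0) ^ k * g ^ b * v := by
      rw [mul_pow, ← pow_mul]
      ring
    rwa [e1] at h1
  have hfg0 : f ^ m0 * g0 ≠ 0 := mul_ne_zero (pow_ne_zero _ hf) hg0
  have hMd : ∀ k b, 1 ≤ k → 1 ≤ b → b ≤ k → ∀ v ∈ (M k b).V, Dmn (affS y i) (C * k) v := by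
    intro k b hk hb hbk v hv
    have hle : m0 * k * β + b * βA ≤ C * k := by
      rw [hC]
      have : b * βA ≤ k * βA := Nat.mul_le_mul_right _ hbk
      calc m0 * k * β + b * βA ≤ m0 * k * β + k * βA := Nat.add_le_add_left this _
        _ = (m0 * β + βA) * k := by ring
    refine ⟨(f ^ m0 * g0) ^ k * g ^ b, mul_ne_zero (pow_ne_zero _ hfg0) (pow_ne_zero _ hg), ?_,
      bnd_mono (fin_affS i) (one_affS hi) hle (hMB k b hk hb v hv)⟩
    have := hMB k b hk hb 1 (M k b).one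
    rw [mul_one] at this
    exact bnd_mono (fin_affS i) (one_affS hi) hle this
  obtain ⟨c₀, hc₀, hmain⟩ := base_main hy hn hi rfl hr hTf hT1 hrT hfg0 hRd hMd hε hlow
  -- the sequence
  have hseq : ∀ q : ℕ, ∃ k b : ℕ, q + 1 ≤ k ∧ 1 ≤ b ∧ (b : ℝ) ≤ 1 / ((q : ℝ) + 1) * k ∧
      ∃ v ∈ (M k b).V, ∃ W, SelS W (Multiset.replicate κ
        (Submodule.span ℂ T) + Multiset.replicate m (Submodule.span ℂ (affS y i))) ∧
        c₀ * k ≤ dm ℂ (v ::ₘ W) := by
    intro q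
    obtain ⟨k, hk, b, hb1, hb, h1⟩ := hmain (1 / ((q : ℝ) + 1)) (by positivity) (q + 1)
    exact ⟨k, b, hk, hb1, hb, h1⟩
  choose k b hk hb1 hb v hv W hW hle using hseq
  have hk1 : ∀ q, 1 ≤ k q := fun q => le_trans (by omega) (hk q)
  obtain ⟨c₁, hc₁, r', hr'T, hr'i, l, P, hPd, hPr, hPl, hP⟩ := exists_pole hn
    (S := affS y i) (T := T) (fin_affS i) hTf hfg0 hg hk1
    (B := fun q => m0 * k q * β + b q * βA) (fun q => hMB _ _ (hk1 q) (hb1 q) _ (hv q)) hW hc₀ hle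
  obtain ⟨C', hC'1, hword⟩ := word_bound hy hn hΔ hklt hx hE hfr hc hm0 hg0 hg0V hr'i hPd hPr hPl hi
  have hC'0 : (0 : ℝ) < C' := by exact_mod_cast hC'1
  refine ⟨c₁ / (2 * C'), by positivity, fun t ht k0 => ?_⟩
  obtain ⟨q1, hq1⟩ := exists_nat_gt (1 / t)
  obtain ⟨q2, hq2⟩ := exists_nat_gt (2 * C' / c₁)
  obtain ⟨q, hq, hPq⟩ := hP (max k0 (max q1 q2))
  have hqk0 : k0 ≤ q := (le_max_left _ _).trans hq
  have hqq1 : q1 ≤ q := ((le_max_left _ _).trans (le_max_right _ _)).trans hq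
  have hqq2 : q2 ≤ q := ((le_max_right _ _).trans (le_max_right _ _)).trans hq
  have hkq := hk q
  have hkr : ((q : ℝ) + 1) ≤ k q := by exact_mod_cast hkq
  have hq0 : (0 : ℝ) ≤ q := Nat.cast_nonneg _
  have hk0r : (0 : ℝ) < k q := by linarith
  refine ⟨k q, by omega, b q, hb1 q, ?_, fun φ hφ => ?_⟩
  · refine (hb q).trans (mul_le_mul_of_nonneg_right ?_ hk0r.le)
    have h1 : 1 / t < q := hq1.trans_le (by exact_mod_cast hqq1)
    rw [div_lt_iff₀ ht] at h1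
    rw [div_le_iff₀ (by positivity)]
    nlinarith
  -- the number `T'`
  obtain ⟨T', hT'⟩ : ∃ T' : ℕ, T' = ⌊c₁ * k q / C'⌋₊ := ⟨_, rfl⟩
  have hbig : 2 ≤ c₁ * k q / C' := by
    rw [le_div_iff₀ hC'0]
    have h1 : 2 * C' / c₁ < q := hq2.trans_le (by exact_mod_cast hqq2)
    rw [div_lt_iff₀ hc₁] at h1
    nlinarith
  have hT'1 : T' ≤ c₁ * k q / C' := by rw [hT']; exact Nat.floor_le (by linarith)
  have hT'2 : c₁ / (2 * C') * k q ≤ T' := by
    have h1 : c₁ * k q / C' < T' + 1 := by rw [hT']; exact Nat.lt_floor_add_one _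
    have e1 : c₁ / (2 * C') * k q = c₁ * k q / C' / 2 := by
      field_simp
    rw [e1]
    linarith
  have hT'0 : 1 ≤ T' := by
    rw [hT']
    exact Nat.le_floor (by push_cast; linarith)
  have hTC : ((T' * C' : ℕ) : ℤ) ≤ -P.ord (v q) := by
    have h1 : (T' : ℝ) * C' ≤ c₁ * k q := by
      rwa [le_div_iff₀ hC'0] at hT'1
    have h2 : (((T' * C' : ℕ) : ℤ) : ℝ) ≤ ((-P.ord (v q) : ℤ) : ℝ) := by
      refine le_trans ?_ hPq
      push_cast
      exact h1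
    exact_mod_cast h2
  obtain ⟨Q', hQ', hdm⟩ := hword φ hφ (v q) T' hT'0 hTC
  rw [sel_rep] at hQ'
  obtain ⟨X, hX⟩ : ∃ X, X = toM fun j => φ (r' j) := ⟨_, rfl⟩
  rw [← hX] at hdm
  have hXc : X.card = κ := by rw [hX, toM_card]
  have hcard : (X + (φ (v q) ::ₘ Q')).card = m + 1 + κ := by
    rw [Multiset.card_add, Multiset.card_cons, hXc, hQ'.1]
    omega
  have h1 := dm_pow_all hn (hk1 q) X (φ (v q) ::ₘ Q') hcard
  rw [Multiset.add_cons, Multiset.add_cons, hXc] at h1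
  have hmemr : ∀ j, r' j ^ k q ∈ (M (k q) (b q)).V := by
    intro j
    rw [hM.mem _ _ (hk1 q) (hb1 q)]
    have h2 : (g0 * r' j) ^ k q ∈ Lsp y c (m0 * k q)
        ((m0 * k q) • Δ + (0 * k q) • A₀) := by
      refine pow_Lsp (b := 0) ?_ (hk1 q)
      rw [zero_smul, add_zero]
      exact hTV _ (hr'T j)
    rw [mul_pow] at h2
    exact Lsp_mono (by omega) hA₀.1 (fun P _ => le_rfl) h2
  have hsel : Sel (φ (v q) ::ₘ (X.map (fun x => x ^ k q) + Q'))
      (Multiset.replicate (κ + 1) (eCls hy hn hi φ (M (k q) (b q))) +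
        Multiset.replicate m (hcls hy hi)) := by
    rw [← Multiset.cons_add]
    refine sel_add ?_ (sel_rep.2 hQ')
    rw [sel_rep]
    refine ⟨by rw [Multiset.card_cons, Multiset.card_map, hXc], fun z hz => ?_⟩
    rcases Multiset.mem_cons.1 hz with rfl | hz
    · exact eCls_mem (hv q)
    · rw [Multiset.mem_map] at hz
      obtain ⟨w, hw, rfl⟩ := hz
      rw [hX] at hw
      obtain ⟨j, rfl⟩ := mem_toM.1 hw
      rw [← map_pow]
      exact eCls_mem (hmemr j)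
  have h2 := le_I (ctx hy hn hi) (by
    rw [Multiset.card_add, Multiset.card_replicate, Multiset.card_replicate]
    omega) hsel
  have h3 : k q ^ κ * T' ≤ I (Multiset.replicate (κ + 1) (eCls hy hn hi φ (M (k q) (b q))) +
        Multiset.replicate m (hcls hy hi)) :=
    (Nat.mul_le_mul_left _ hdm).trans (h1.trans h2)
  have h4 : (k q : ℝ) ^ κ * T' ≤ I (Multiset.replicate (κ + 1)
      (eCls hy hn hi φ (M (k q) (b q))) + Multiset.replicate m (hcls hy hi)) := by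
    exact_mod_cast h3
  refine le_trans ?_ h4
  calc c₁ / (2 * C') * (k q : ℝ) ^ (κ + 1) = (k q : ℝ) ^ κ * (c₁ / (2 * C') * k q) := by ring
    _ ≤ (k q : ℝ) ^ κ * T' := mul_le_mul_of_nonneg_left hT'2 (by positivity)

end

end Pool.Agent.T2h12
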