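import Pool.Agent.T2h12.SysB
import Pool.Agent.T2h12.BaseW
import Pool.Agent.N110.QAssem

/-!
The growth of the joint degrees, from lower bounds for the images of the spaces of sections.
-/

set_option autoImplicit false
set_option linter.overlappingInstances false
set_option linter.unusedSectionVars false

open FF Module MvPolynomial Pool.Agent.W602.GT Pool.Agent.W603.LV
open Pool.Agent.Y172 Pool.Agent.Y191 Pool.Agent.R887 Pool.Agent.N110

namespace Pool.Agent.T2h12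

section

variable {K : Type} [Field K] [Algebra ℂ K] {N n : ℕ} {y : Fin (N + 1) → K}

/-- the lower bound for the images of the spaces of sections -/
def EProp (hy : NormalModel y) (hn : Algebra.trdeg ℂ K = n) {i : Fin (N + 1)} (hi : y i ≠ 0)
    (M : ℕ → ℕ → Cls ℂ (affS y i)) (S : Set (K →ₐ[ℂ] K)) (j : ℕ) (ε : ℝ) : Prop :=
  ∀ (L : ℕ) (t : ℝ), 0 < t → ∀ k0 : ℕ, ∃ k, k0 ≤ k ∧ ∃ b : ℕ, 1 ≤ b ∧ (b : ℝ) ≤ t * k ∧
    ∀ w : List (K →ₐ[ℂ] K), w.length ≤ L → (∀ φ ∈ w, φ ∈ S) → ε * (k : ℝ) ^ j ≤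
      I (Multiset.replicate j (eCls hy hn hi w.prod (M k b)) +
        Multiset.replicate (n - j) (hcls hy hi))

theorem words_finite {S : Set (K →ₐ[ℂ] K)} (hS : S.Finite) (L : ℕ) :
    {w : List (K →ₐ[ℂ] K) | w.length ≤ L ∧ ∀ φ ∈ w, φ ∈ S}.Finite := by
  have := hS.to_subtype
  refine ((List.finite_length_le S L).image (fun l => l.map Subtype.val)).subset ?_
  rintro w ⟨hw, hwS⟩
  refine ⟨w.attach.map fun φ => ⟨φ.1, hwS φ.1 φ.2⟩, ?_, ?_⟩
  · change (w.attach.map _).length ≤ L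
    rw [List.length_map, List.length_attach]
    exact hw
  · change (w.attach.map _).map Subtype.val = w
    rw [List.map_map]
    exact w.attach_map_subtype_val

/-- the domination of the images -/
theorem word_dom (hy : NormalModel y) (hn : Algebra.trdeg ℂ K = n) {Δ : Place ℂ K → ℚ}
    {x : Fin n → K} {E : Fin n → Derivation ℂ K K}
    (hx : IsTranscendenceBasis ℂ x) (hE : ∀ i j, E i (x j) = if i = j then 1 else 0)
    (hfr : IsFrame E) {c : Place ℂ K → ℤ} {m0 : ℕ} (hm0 : 1 ≤ m0) {g0 : K} (hg0 : g0 ≠ 0)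
    {i : Fin (N + 1)} {A₀ : Place ℂ K → ℚ} (hA₀ : Effective y A₀)
    {M : ℕ → ℕ → Cls ℂ (affS y i)} (hM : MSys y i c Δ A₀ m0 g0 M) {β : ℕ} {f : K} (hf : f ≠ 0)
    (hdom : ∀ A, Effective y A → ∃ (βA : ℕ) (g : K), g ≠ 0 ∧
      ∀ m b : ℕ, ∀ h ∈ Lsp y c m (m • Δ + b • A),
        Bnd ℂ (affS y i) (m * β + b * βA) (f ^ m * g ^ b * h)) {ψ : K →ₐ[ℂ] K}
    (hψ : JPulls y c Δ x E ψ) : ∃ βψ : ℕ, ∀ k b, 1 ≤ k → 1 ≤ b → ∃ F : K, F ≠ 0 ∧
      ∀ v ∈ (M k b).V, Bnd ℂ (affS y i) (m0 * k * β + b * βψ) (F * ψ v) := by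
  obtain ⟨A', hA', h1⟩ := hψ A₀ hA₀
  obtain ⟨βA, g, hg, h2⟩ := hdom A' hA'
  refine ⟨βA, fun k b hk hb => ⟨f ^ (m0 * k) * g ^ b * (jac ψ x E ^ (m0 * k) * ψ (g0 ^ k)),
    ?_, fun v hv => ?_⟩⟩
  · have h3 := jac_ne hy.ess hn hx hE hfr ψ
    have h4 : ψ (g0 ^ k) ≠ 0 := by
      rw [Ne, map_eq_zero]
      exact pow_ne_zero _ hg0
    exact mul_ne_zero (mul_ne_zero (pow_ne_zero _ hf) (pow_ne_zero _ hg))
      (mul_ne_zero (pow_ne_zero _ h3) h4)
  · have h3 := h1 (m0 * k) b (Nat.mul_pos hm0 hk) _ ((hM.mem k b hk hb v).1 hv)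
    have h4 := h2 (m0 * k) b _ h3
    have e1 : f ^ (m0 * k) * g ^ b * (jac ψ x E ^ (m0 * k) * ψ (g0 ^ k)) * ψ v =
        f ^ (m0 * k) * g ^ b * (jac ψ x E ^ (m0 * k) * ψ (g0 ^ k * v)) := by
      rw [map_mul]
      ring
    rw [e1]
    exact h4

/-- **The growth of the joint degrees.** -/
theorem growth_word (hy : NormalModel y) (hn : Algebra.trdeg ℂ K = n) (hn0 : 0 < n)
    {Δ : Place ℂ K → ℚ} (hΔ : {P | IsPrimeDivisor y P ∧ Δ P ≠ 0}.Finite) {x : Fin n → K}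
    {E : Fin n → Derivation ℂ K K} (hx : IsTranscendenceBasis ℂ x)
    (hE : ∀ i j, E i (x j) = if i = j then 1 else 0) (hfr : IsFrame E) {c : Place ℂ K → ℤ}
    (hcfin : {P | IsPrimeDivisor y P ∧ c P ≠ 0}.Finite) {m0 : ℕ} (hm0 : 1 ≤ m0) {g0 : K}
    (hg0 : g0 ≠ 0) {i : Fin (N + 1)} (hi : y i ≠ 0) {A₀ : Place ℂ K → ℚ} (hA₀ : Effective y A₀)
    {M : ℕ → ℕ → Cls ℂ (affS y i)} (hM : MSys y i c Δ A₀ m0 g0 M) {S : Set (K →ₐ[ℂ] K)}
    (hS : S.Finite) (h1 : ∀ φ ∈ S, JPulls y c Δ x E φ) {ν₀ : ℕ} (hν₀ : ν₀ ≤ n) {ε₀ : ℝ}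
    (hε₀ : 0 < ε₀) (hlow : EProp hy hn hi M S ν₀ ε₀) :
    ∃ ν, ν₀ ≤ ν ∧ ν ≤ n ∧ ∀ L L' : ℝ, 0 < L → L < L' →
      (∀ j, j + ν ≤ n → ∃ a ≤ ν, ∃ A : ℝ, ∃ l0 : ℕ, ∀ w : List (K →ₐ[ℂ] K),
        l0 ≤ w.length → (∀ φ ∈ w, φ ∈ S) →
        (I (Multiset.replicate (j + a) (eCls hy hn hi w.prod (hcls hy hi)) +
          Multiset.replicate (n - (j + a)) (hcls hy hi)) : ℝ) ≤ A * L ^ w.length) →
      ∃ A : ℝ, ∀ w : List (K →ₐ[ℂ] K), (∀ φ ∈ w, φ ∈ S) → ∀ p, p ≤ n →
        (I (Multiset.replicate p (eCls hy hn hi w.prod (hcls hy hi)) +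
        Multiset.replicate (n - p) (hcls hy hi)) : ℝ) ≤ A * L' ^ w.length := by
  classical
  have hess := hy.ess
  have cx := ctx hy hn hi
  have hJ : ∀ w : List (K →ₐ[ℂ] K), (∀ φ ∈ w, φ ∈ S) → JPulls y c Δ x E w.prod := fun w hw =>
    JPulls.word hess hn hx hE h1 w hw
  obtain ⟨β, f, hf, hdom⟩ := dom_sections hy hi hcfin hΔ
  -- the largest `ν`
  obtain ⟨ν, hνd⟩ : ∃ ν, ν = Nat.findGreatest (fun j => ∃ ε : ℝ, 0 < ε ∧
    EProp hy hn hi M S j ε) n := ⟨_, rfl⟩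
  have hν0 : ν₀ ≤ ν := by rw [hνd]; exact Nat.le_findGreatest hν₀ ⟨ε₀, hε₀, hlow⟩
  have hν : ν ≤ n := by rw [hνd]; exact Nat.findGreatest_le n
  obtain ⟨ε, hε, hEν⟩ : ∃ ε : ℝ, 0 < ε ∧ EProp hy hn hi M S ν ε := by
    rw [hνd]
    exact Nat.findGreatest_spec (P := fun j => ∃ ε : ℝ, 0 < ε ∧ EProp hy hn hi M S j ε) hν₀
      ⟨ε₀, hε₀, hlow⟩
  have hnot : ν + 1 ≤ n → ∀ ε : ℝ, 0 < ε → ¬ EProp hy hn hi M S (ν + 1) ε := by
    intro h ε hε hcon
    exact Nat.findGreatest_is_greatest (P := fun j => ∃ ε : ℝ, 0 < ε ∧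
      EProp hy hn hi M S j ε) (n := n) (k := ν + 1) (by rw [← hνd]; omega) h ⟨ε, hε, hcon⟩
  refine ⟨ν, hν0, hν, fun L L' hL hlt hyp => ?_⟩
  -- the small words
  have hsmall : ∀ q : ℕ, ∃ (Lq : ℕ) (tq : ℝ) (kq : ℕ), 0 < tq ∧ ∀ k, kq ≤ k → ∀ b : ℕ, 1 ≤ b →
      (b : ℝ) ≤ tq * k → ∃ w : List (K →ₐ[ℂ] K), w.length ≤ Lq ∧ (∀ φ ∈ w, φ ∈ S) ∧
        (ν + 1 ≤ n → (I (Multiset.replicate (ν + 1) (eCls hy hn hi w.prod (M k b)) +
          Multiset.replicate (n - (ν + 1)) (hcls hy hi)) : ℝ) <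
            1 / ((q : ℝ) + 1) * (k : ℝ) ^ (ν + 1)) := by
    intro q
    by_cases hν1 : ν + 1 ≤ n
    · have h2 := hnot hν1 (1 / ((q : ℝ) + 1)) (by positivity)
      unfold EProp at h2
      push Not at h2
      obtain ⟨Lq, tq, htq, kq, h3⟩ := h2
      refine ⟨Lq, tq, kq, htq, fun k hk b hb1 hb => ?_⟩
      obtain ⟨w, hw, hwS, h4⟩ := h3 k hk b hb1 hb
      exact ⟨w, hw, hwS, fun _ => h4⟩
    · exact ⟨0, 1, 0, one_pos, fun k _ b _ _ => ⟨[], le_rfl, by simp, fun h => absurd h hν1⟩⟩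
  choose Lq tq kq0 htq hsmall using hsmall
  -- the domination
  have hdomw : ∀ w : List (K →ₐ[ℂ] K), ∃ βψ : ℕ, (∀ φ ∈ w, φ ∈ S) → ∀ k b, 1 ≤ k → 1 ≤ b →
      ∃ F : K, F ≠ 0 ∧ ∀ v ∈ (M k b).V,
        Bnd ℂ (affS y i) (m0 * k * β + b * βψ) (F * w.prod v) := by
    intro w
    by_cases hw : ∀ φ ∈ w, φ ∈ S
    · obtain ⟨βψ, h2⟩ := word_dom hy hn hx hE hfr hm0 hg0 hA₀ hM hf hdom (hJ w hw)
      exact ⟨βψ, fun _ => h2⟩
    · exact ⟨0, fun h => absurd h hw⟩
  choose βw hβw using hdomw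
  obtain ⟨Bq, hBq⟩ : ∃ Bq : ℕ → ℕ, ∀ q, Bq q =
      (words_finite hS (Lq q + q)).toFinset.sup βw := ⟨_, fun _ => rfl⟩
  have hBle : ∀ q w, w.length ≤ Lq q + q → (∀ φ ∈ w, φ ∈ S) → βw w ≤ Bq q := by
    intro q w hw hwS
    rw [hBq]
    exact Finset.le_sup ((Set.Finite.mem_toFinset _).2 ⟨hw, hwS⟩)
  -- the choice of `k` and `b`
  have hch : ∀ q : ℕ, ∃ k b : ℕ, max (kq0 q) (q + 1) ≤ k ∧ 1 ≤ b ∧
      (b : ℝ) ≤ min (tq q) (1 / ((Bq q : ℝ) + 1)) * k ∧
      ∀ w : List (K →ₐ[ℂ] K), w.length ≤ Lq q + q → (∀ φ ∈ w, φ ∈ S) → ε * (k : ℝ) ^ ν ≤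
        I (Multiset.replicate ν (eCls hy hn hi w.prod (M k b)) +
        Multiset.replicate (n - ν) (hcls hy hi)) := by
    intro q
    obtain ⟨k, hk, b, hb1, hb, h2⟩ := hEν (Lq q + q) (min (tq q) (1 / ((Bq q : ℝ) + 1)))
      (lt_min (htq q) (by positivity)) (max (kq0 q) (q + 1))
    exact ⟨k, b, hk, hb1, hb, h2⟩
  choose kq bq hkq hbq1 hbq hlowq using hch
  have hkq1 : ∀ q, q + 1 ≤ kq q := fun q => (le_max_right _ _).trans (hkq q)
  have hkq1' : ∀ q, 1 ≤ kq q := fun q => by have := hkq1 q; omega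
  have hkr : ∀ q, (0 : ℝ) < kq q := fun q => by exact_mod_cast hkq1' q
  have hwq : ∀ q, ∃ w : List (K →ₐ[ℂ] K), w.length ≤ Lq q ∧ (∀ φ ∈ w, φ ∈ S) ∧
        (ν + 1 ≤ n → (I (Multiset.replicate (ν + 1) (eCls hy hn hi w.prod (M (kq q) (bq q))) +
          Multiset.replicate (n - (ν + 1)) (hcls hy hi)) : ℝ) <
            1 / ((q : ℝ) + 1) * (kq q : ℝ) ^ (ν + 1)) := by
    intro q
    refine hsmall q (kq q) ((le_max_left _ _).trans (hkq q)) (bq q) (hbq1 q) ((hbq q).trans ?_)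
    exact mul_le_mul_of_nonneg_right (min_le_left _ _) (hkr q).le
  choose wq hwqL hwqS hwqI using hwq
  -- the system
  obtain ⟨𝒜, h𝒜⟩ : ∃ 𝒜 : Set (List (K →ₐ[ℂ] K)), 𝒜 = {w | ∀ φ ∈ w, φ ∈ S} := ⟨_, rfl⟩
  obtain ⟨Mq, hMq⟩ : ∃ Mq : 𝒜 → ℕ → Cls ℂ (affS y i), ∀ u q, Mq u q =
      eCls hy hn hi (u.1 ++ wq q).prod (M (kq q) (bq q)) := ⟨_, fun _ _ => rfl⟩
  have h𝒜m : ∀ u : 𝒜, ∀ φ ∈ u.1, φ ∈ S := by
    rintro ⟨u, hu⟩
    rw [h𝒜] at hu
    exact hu
  have h𝒜mem : ∀ u : List (K →ₐ[ℂ] K), (∀ φ ∈ u, φ ∈ S) → u ∈ 𝒜 := by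
    intro u hu
    rw [h𝒜]
    exact hu
  obtain ⟨D, hDV⟩ : ∃ D : Cls ℂ (affS y i) → ℕ → Cls ℂ (affS y i), ∀ a v, D a v =
      mulCls (fin_affS i) (one_affS hi) a (hpow hy hi (v - 1)) := ⟨_, fun _ _ => rfl⟩
  obtain ⟨t, ht⟩ : ∃ t : Multiset (Cls ℂ (affS y i)) → ℝ, t = fun s => (I s : ℝ) := ⟨_, rfl⟩
  obtain ⟨C₁, hC₁⟩ : ∃ C₁ : ℕ, C₁ = hS.toFinset.sup fun φ => I (eCls hy hn hi φ (hcls hy hi) ::ₘ
      Multiset.replicate (n - 1) (hcls hy hi)) := ⟨_, rfl⟩
  have data : SysB n t (EWrd hy hn hi S) (hcls hy hi) (fun q => (kq q : ℝ)) Mq D ν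
      ((m0 : ℝ) * β + 1) ε C₁ := by
    refine ⟨?_, ?_, hn0, hν, by positivity, hε, ?_, ?_, ?_, ?_, ?_, ?_, ?_, ?_, ?_, ?_, ?_, ?_,
      ?_, ?_⟩
    · -- pos
      intro s hs
      rw [ht]
      beta_reduce
      exact_mod_cast I_pos cx hs
    · -- ex
      rw [ht]
      exact exch cx
    · -- one
      refine ⟨[], rfl, by simp, ?_⟩
      funext A
      rw [List.prod_nil, eCls_one]
      rfl
    · -- zero_id
      rintro F ⟨w, hw, -, rfl⟩
      rw [List.length_eq_zero_iff] at hw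
      subst hw
      funext A
      rw [List.prod_nil, eCls_one]
      rfl
    · -- split
      rintro l k F ⟨w, hw, hwS, rfl⟩
      refine ⟨eCls hy hn hi (w.take l).prod, ⟨w.take l, by rw [List.length_take]; omega,
        fun φ hφ => hwS φ (List.mem_of_mem_take hφ), rfl⟩,
        eCls hy hn hi (w.drop l).prod, ⟨w.drop l, by rw [List.length_drop]; omega,
        fun φ hφ => hwS φ (List.mem_of_mem_drop hφ), rfl⟩, ?_⟩
      funext A
      change _ = eCls hy hn hi _ (eCls hy hn hi _ A)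
      rw [eCls_eCls, ← List.prod_append, List.take_append_drop]
    · -- deg
      rintro l F ⟨w, -, -, rfl⟩
      refine ⟨mapDegree w.prod, by exact_mod_cast mapDegree_pos hess hn w.prod, fun s hs => ?_⟩
      rw [ht]
      beta_reduce
      exact_mod_cast I_emap hy hn hi w.prod hs
    · -- H_deg
      rintro F ⟨w, hw, hwS, rfl⟩
      obtain ⟨φ, rfl⟩ := List.length_eq_one_iff.1 hw
      rw [List.prod_singleton, ht, hC₁]
      beta_reduce
      exact_mod_cast Finset.le_sup (f := fun φ => I (eCls hy hn hi φ (hcls hy hi) ::ₘ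
        Multiset.replicate (n - 1) (hcls hy hi))) (hS.mem_toFinset.2 (hwS φ (by simp)))
    · -- m_pos
      exact hkr
    · -- m_tend
      refine Filter.tendsto_atTop_mono (fun q => ?_) tendsto_natCast_atTop_atTop
      have := hkq1 q
      exact_mod_cast (by omega : q ≤ kq q)
    · -- M_f
      rintro k G ⟨w, -, hwS, rfl⟩ u
      refine ⟨⟨w ++ u.1, h𝒜mem _ (by
        intro φ hφ
        rcases List.mem_append.1 hφ with h | h
        · exact hwS φ h
        · exact h𝒜m u φ h)⟩, fun q => ?_⟩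
      intro l F _ s _
      rw [one_mul, hMq, hMq, eCls_eCls, ← List.prod_append, List.append_assoc]
    · -- M_le
      intro u
      filter_upwards [Filter.eventually_ge_atTop u.1.length] with q hq
      rintro l F ⟨w, -, -, rfl⟩ s hs
      rw [ht]
      have hlen : (u.1 ++ wq q).length ≤ Lq q + q := by
        rw [List.length_append]
        have := hwqL q
        omega
      have hS' : ∀ φ ∈ u.1 ++ wq q, φ ∈ S := by
        intro φ hφ
        rcases List.mem_append.1 hφ with h | h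
        · exact h𝒜m u φ h
        · exact hwqS q φ h
      obtain ⟨F, hF, hFb⟩ := hβw _ hS' (kq q) (bq q) (hkq1' q) (hbq1 q)
      have e1 := I_dom_emap hy hn hi w.prod (V := Mq u q)
        (B := m0 * kq q * β + bq q * βw (u.1 ++ wq q)) (f := F) hF
        (fun v hv => by
          rw [hMq] at hv
          obtain ⟨v', hv', rfl⟩ := hv
          exact hFb v' hv') hs
      have e2 : ((m0 * kq q * β + bq q * βw (u.1 ++ wq q) : ℕ) : ℝ) ≤
          ((m0 : ℝ) * β + 1) * kq q := by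
        have e3 := hBle q _ hlen hS'
        have e4 : (βw (u.1 ++ wq q) : ℝ) ≤ Bq q := by exact_mod_cast e3
        have e5 : (bq q : ℝ) ≤ 1 / ((Bq q : ℝ) + 1) * kq q := (hbq q).trans
          (mul_le_mul_of_nonneg_right (min_le_right _ _) (hkr q).le)
        rw [one_div, inv_mul_eq_div, le_div_iff₀ (by positivity)] at e5
        have e6 : (0 : ℝ) ≤ bq q := Nat.cast_nonneg _
        have e7 : (bq q : ℝ) * βw (u.1 ++ wq q) ≤ kq q := by
          have := mul_le_mul_of_nonneg_left e4 e6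
          linarith
        push_cast
        nlinarith
      calc ((I (eCls hy hn hi w.prod (Mq u q) ::ₘ s) : ℕ) : ℝ) ≤
            ((m0 * kq q * β + bq q * βw (u.1 ++ wq q) : ℕ) : ℝ) *
            (I (eCls hy hn hi w.prod (hcls hy hi) ::ₘ s) : ℝ) := by exact_mod_cast e1
        _ ≤ ((m0 : ℝ) * β + 1) * kq q * (I (eCls hy hn hi w.prod (hcls hy hi) ::ₘ s) : ℝ) :=
          mul_le_mul_of_nonneg_right e2 (Nat.cast_nonneg _)
    · -- D_add
      rintro a v hv l F ⟨w, -, -, rfl⟩ s hs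
      rw [ht, hDV]
      have e1 := I_add cx (D := eCls hy hn hi w.prod (mulCls (fin_affS i) (one_affS hi) a
        (hpow hy hi (v - 1)))) (V := eCls hy hn hi w.prod a)
        (V' := eCls hy hn hi w.prod (hpow hy hi (v - 1))) (by rw [eCls_mul]; exact le_rfl) hs
      have e2 := I_dom_emap hy hn hi w.prod (V := hpow hy hi (v - 1))
        (B := v - 1 + 1) (f := 1) one_ne_zero (hpow_bnd hy hi (v - 1)) hs
      have e3 : v - 1 + 1 = v := by omega
      rw [e3] at e2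
      beta_reduce
      exact_mod_cast e1.trans (Nat.add_le_add_left e2 _)
    · -- D_M
      intro a v hv s hs
      rw [ht, one_mul, hDV]
      refine Nat.cast_le.2 (I_mono cx (g := 1) one_ne_zero (fun w hw => ?_) hs)
      rw [one_mul]
      have := Submodule.mul_mem_mul hw (hpow hy hi (v - 1)).one
      rwa [mul_one] at this
    · -- D_H
      intro a v hv s hs
      rw [ht, hDV]
      have e1 := I_pow cx (V := hcls hy hi)
        (D := mulCls (fin_affS i) (one_affS hi) a (hpow hy hi (v - 1))) (q := v) hv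
        (fun w hw => by
          have e2 := hpow_pow hy hi (v - 1) w hw
          have e3 : v - 1 + 1 = v := by omega
          rw [e3] at e2
          have := Submodule.mul_mem_mul a.one e2
          rwa [one_mul] at this) hs
      beta_reduce
      exact_mod_cast e1
    · -- eps
      rintro l F ⟨w, hwl, hwS, rfl⟩ u
      filter_upwards [Filter.eventually_ge_atTop (l + u.1.length)] with q hq
      rw [ht, hMq, eCls_eCls, ← List.prod_append]
      refine hlowq q _ ?_ ?_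
      · rw [List.length_append, List.length_append]
        have := hwqL q
        omega
      · intro φ hφ
        rcases List.mem_append.1 hφ with h | h
        · exact hwS φ h
        rcases List.mem_append.1 h with h | h
        · exact h𝒜m u φ h
        · exact hwqS q φ h
    · -- zero
      intro hν1 u δ hδ
      obtain ⟨H, hH⟩ : ∃ H, H = hcls hy hi := ⟨_, rfl⟩
      obtain ⟨H', hH'⟩ : ∃ H', H' = eCls hy hn hi u.1.prod H := ⟨_, rfl⟩
      have htpos : ∀ s : Multiset (Cls ℂ (affS y i)), s.card = n → 0 < t s := by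
        intro s hs
        rw [ht]
        beta_reduce
        exact_mod_cast I_pos cx hs
      have htex : Exch n t := by
        rw [ht]
        exact exch cx
      -- `H` is at most a multiple of `H'`
      obtain ⟨β', hβ'⟩ : ∃ β' : ℝ, β' = 4 ^ (n - 1) * t (H ::ₘ Multiset.replicate (n - 1) H') /
        t (Multiset.replicate n H') := ⟨_, rfl⟩
      have hpn : 0 < t (Multiset.replicate n H') := htpos _ (Multiset.card_replicate _ _)
      have hpn1 : 0 < t (H ::ₘ Multiset.replicate (n - 1) H') := htpos _ (by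
        rw [Multiset.card_cons, Multiset.card_replicate]; omega)
      have hβ'0 : 0 < β' := by rw [hβ']; positivity
      have hle : Le n t β' H H' := by
        intro s hs
        have h2 := rkt1 htpos htex H' H s 0 (by rw [Multiset.card_zero]; omega)
        have hs' : s.card = n - 1 := by omega
        rw [hs', add_zero, add_zero, add_zero, show n - 1 + 1 = n by omega] at h2
        rw [hβ', div_mul_eq_mul_div, le_div_iff₀ hpn]
        linarith
      have hd0 : 0 < mapDegree u.1.prod := mapDegree_pos hess hn u.1.prod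
      have hd : (0 : ℝ) < mapDegree u.1.prod := by exact_mod_cast hd0
      obtain ⟨G, hG⟩ : ∃ G : ℝ, G = β' ^ (n - (ν + 1)) * mapDegree u.1.prod := ⟨_, rfl⟩
      have hG0 : 0 < G := by rw [hG]; positivity
      obtain ⟨q0, hq0⟩ := exists_nat_gt (G / δ)
      filter_upwards [Filter.eventually_ge_atTop q0] with q hq
      have h2 := hle.rep hβ'0.le (n - (ν + 1)) (Multiset.replicate (ν + 1) (Mq u q)) (by
        rw [Multiset.card_replicate]; omega)
      have h3 : t (Multiset.replicate (n - (ν + 1)) H' + Multiset.replicate (ν + 1) (Mq u q)) =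
          mapDegree u.1.prod * t (Multiset.replicate (n - (ν + 1)) H +
            Multiset.replicate (ν + 1) (eCls hy hn hi (wq q).prod (M (kq q) (bq q)))) := by
        have e1 : Multiset.replicate (n - (ν + 1)) H' + Multiset.replicate (ν + 1) (Mq u q) =
            (Multiset.replicate (n - (ν + 1)) H + Multiset.replicate (ν + 1)
              (eCls hy hn hi (wq q).prod (M (kq q) (bq q)))).map (eCls hy hn hi u.1.prod) := by
          rw [Multiset.map_add, Multiset.map_replicate, Multiset.map_replicate, eCls_eCls,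
            ← List.prod_append, ← hMq, hH']
        rw [e1, ht]
        beta_reduce
        rw [I_emap hy hn hi u.1.prod (by
          rw [Multiset.card_add, Multiset.card_replicate, Multiset.card_replicate]; omega)]
        push_cast
        rfl
      have h4 := hwqI q hν1
      rw [← hH] at h4
      have h5 : t (Multiset.replicate (n - (ν + 1)) H +
            Multiset.replicate (ν + 1) (eCls hy hn hi (wq q).prod (M (kq q) (bq q)))) ≤
          1 / ((q : ℝ) + 1) * (kq q : ℝ) ^ (ν + 1) := by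
        rw [add_comm (Multiset.replicate (n - (ν + 1)) H), ht]
        exact h4.le
      have hkk : (0 : ℝ) < (kq q : ℝ) ^ (ν + 1) := by
        have := hkr q
        positivity
      rw [← hH, add_comm (Multiset.replicate (ν + 1) (Mq u q))]
      refine h2.trans ?_
      rw [h3]
      have h6 : G * (1 / ((q : ℝ) + 1)) ≤ δ := by
        have h7 : G / δ < q + 1 := by
          have : (q0 : ℝ) ≤ q := by exact_mod_cast hq
          linarith
        rw [div_lt_iff₀ hδ] at h7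
        rw [mul_one_div, div_le_iff₀ (by positivity)]
        linarith
      calc β' ^ (n - (ν + 1)) * (mapDegree u.1.prod * t (Multiset.replicate (n - (ν + 1)) H +
            Multiset.replicate (ν + 1) (eCls hy hn hi (wq q).prod (M (kq q) (bq q))))) =
            G * t (Multiset.replicate (n - (ν + 1)) H + Multiset.replicate (ν + 1)
              (eCls hy hn hi (wq q).prod (M (kq q) (bq q)))) := by rw [hG]; ring
        _ ≤ G * (1 / ((q : ℝ) + 1) * (kq q : ℝ) ^ (ν + 1)) := mul_le_mul_of_nonneg_left h5 hG0.le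
        _ = G * (1 / ((q : ℝ) + 1)) * (kq q : ℝ) ^ (ν + 1) := by ring
        _ ≤ δ * (kq q : ℝ) ^ (ν + 1) := mul_le_mul_of_nonneg_right h6 hkk.le
  obtain ⟨A, hA⟩ := data.growth' ⟨⟨[], h𝒜mem _ (by simp)⟩⟩ hL hlt (by
    intro j hj
    obtain ⟨a, ha, A, l0, hA⟩ := hyp j hj
    refine ⟨a, ha, A, l0, fun l hl F hF => ?_⟩
    obtain ⟨w, hw, hwS, rfl⟩ := hF
    rw [ht, ← hw]
    exact hA w (by omega) hwS)
  refine ⟨A, fun w hwS p hp => ?_⟩
  have := hA w.length _ ⟨w, rfl, hwS, rfl⟩ p hp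
  rw [ht] at this
  exact this

end

end Pool.Agent.T2h12
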