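import Pool.Agent.N110.SE.Fin
import Pool.Agent.T2h12.EGrow
import Pool.Agent.N110.RK.Stat

/-!
The geometric system of commuting dominant rational self-maps of a klt pair.
-/

set_option autoImplicit false
set_option linter.overlappingInstances false
set_option linter.unusedSectionVars false

open Filter Topology FF Module
open Pool.Agent.W602.GT Pool.Agent.W603.LV Pool.Agent.Y172 Pool.Agent.Y191 Pool.Agent.R887
open Pool.Agent.N110.RK Pool.Agent.N110.SE Pool.Agent.N110 Pool.Agent.W619.PQ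

namespace Pool.Agent.T2h12

section

variable {K : Type} [Field K] [Algebra ℂ K] {N n : ℕ} {y : Fin (N + 1) → K}

theorem hyp_mem (hy : NormalModel y) {i : Fin (N + 1)} (hi : y i ≠ 0)
    {c : Place ℂ K → ℤ} {Δ Hy : Place ℂ K → ℚ} (hHy : Effective y Hy)
    (hHP : ∀ P l, IsPrimeDivisor y P → Centred y l P → Hy P = P.ord (y i / y l))
    {A₀ : Place ℂ K → ℚ} (hHA : ∀ P, IsPrimeDivisor y P → Hy P ≤ A₀ P)
    {m0 : ℕ} {g0 : K} (hg0V : g0 ∈ Lsp y c m0 (m0 • Δ)) {k b : ℕ} (hk : 1 ≤ k) (hb : 1 ≤ b)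
    (l : Fin (N + 1)) :
    g0 ^ k * (y l / y i) ∈ Lsp y c (m0 * k) ((m0 * k) • Δ + b • A₀) := by
  have h2 : g0 ^ k ∈ Lsp y c (m0 * k) ((m0 * k) • Δ + 0 • (0 : Place ℂ K → ℚ)) := by
    have := pow_Lsp (A := (0 : Place ℂ K → ℚ)) (b := 0) (g := g0) (m := m0) (Δ := Δ) (y := y)
      (c := c) (by rw [smul_zero, add_zero]; exact hg0V) hk
    rwa [zero_mul] at this
  have h3 := mul_hyp hy (eff_zero (y := y)) hHy hHP hi h2 l
  refine Lsp_mono (b := 0 + 1) (A := 0 + Hy) hb ?_ ?_ h3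
  · intro P hP
    rw [zero_add]
    exact hHy.1 P hP
  · intro P hP
    rw [zero_add]
    exact hHA P hP

theorem esys_of (hy : NormalModel y) (hn : Algebra.trdeg ℂ K = n) (hn0 : 0 < n)
    {i : Fin (N + 1)} (hi : y i ≠ 0) {Δ Hy : Place ℂ K → ℚ}
    (hΔ : {P | IsPrimeDivisor y P ∧ Δ P ≠ 0}.Finite) {x : Fin n → K}
    {E : Fin n → Derivation ℂ K K} (hx : IsTranscendenceBasis ℂ x)
    (hE : ∀ i j, E i (x j) = if i = j then 1 else 0) (hfr : IsFrame E) {c : Place ℂ K → ℤ}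
    (hcfin : {P | IsPrimeDivisor y P ∧ c P ≠ 0}.Finite) (hHy : Effective y Hy)
    (hHP : ∀ P l, IsPrimeDivisor y P → Centred y l P → Hy P = P.ord (y i / y l))
    {m0 : ℕ} (hm0 : 1 ≤ m0) {g0 : K}
    (hg0 : g0 ≠ 0) (hg0V : g0 ∈ Lsp y c m0 (m0 • Δ)) {A₀ : Place ℂ K → ℚ}
    (hA₀ : Effective y A₀) (hHA : ∀ P, IsPrimeDivisor y P → Hy P ≤ A₀ P)
    {M₀ : ℕ → ℕ → Cls ℂ (affS y i)} (hM : MSys y i c Δ A₀ m0 g0 M₀)
    {r : ℕ} {φ : (Fin r → ℕ) → (K →ₐ[ℂ] K)} (hφ : ∀ u v, φ (u + v) = φ u * φ v)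
    (hP : ∀ v, JPulls y c Δ x E (φ v)) {ν : ℕ} (hν : ν ≤ n) {ε : ℝ} (hε : 0 < ε)
    (hlow : ∀ t : ℝ, 0 < t → ∀ k0 : ℕ, ∃ k, k0 ≤ k ∧ ∃ b : ℕ, 1 ≤ b ∧ (b : ℝ) ≤ t * k ∧
      ∀ v, ε * (k : ℝ) ^ ν ≤ I (Multiset.replicate ν (eCls hy hn hi (φ v) (M₀ k b)) +
        Multiset.replicate (n - ν) (hcls hy hi))) :
    ∃ (m : ℕ → ℝ) (M : EffT y → ℕ → Cls ℂ (affS y i)) (c ε : ℝ),
      ESys n r (fun s : Multiset (Cls ℂ (affS y i)) => (I s : ℝ))
        (fun v => eCls hy hn hi (φ v))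
        (fun j => Real.log (mapDegree (φ (Pi.single j 1)) : ℝ))
        (mulCls (fin_affS i) (one_affS hi)) (hcls hy hi) m M ν c ε := by
  classical
  have hess := hy.ess
  have cx := ctx hy hn hi
  have hseq : ∀ q : ℕ, ∃ k b : ℕ, q + 1 ≤ k ∧ 1 ≤ b ∧ (b : ℝ) ≤ 1 / ((q : ℝ) + 1) * k ∧
      ∀ v, ε * (k : ℝ) ^ ν ≤ I (Multiset.replicate ν (eCls hy hn hi (φ v) (M₀ k b)) +
        Multiset.replicate (n - ν) (hcls hy hi)) := by
    intro q
    obtain ⟨k, hk, b, hb1, hb, h1⟩ := hlow (1 / ((q : ℝ) + 1)) (by positivity) (q + 1)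
    exact ⟨k, b, hk, hb1, hb, h1⟩
  choose k b hk hb1 hbt heps using hseq
  have hk1 : ∀ q, 1 ≤ k q := fun q => by have := hk q; omega
  have hkr : ∀ q, (0 : ℝ) < k q := fun q => by exact_mod_cast hk1 q
  have hmk1 : ∀ q, 1 ≤ m0 * k q := fun q => Nat.mul_pos hm0 (hk1 q)
  have hbk : ∀ q, b q * (q + 1) ≤ k q := by
    intro q
    have h1 := hbt q
    rw [one_div, inv_mul_eq_div, le_div_iff₀ (by positivity)] at h1
    exact_mod_cast h1
  have hmem : ∀ A : EffT y, ∀ q l, g0 ^ k q * (y l / y i) ∈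
      Lsp y c (m0 * k q) ((m0 * k q) • Δ + b q • (A₀ + A.A)) := by
    intro A q l
    have h2 := hyp_mem hy hi hHy hHP hHA hg0V (hk1 q) (hb1 q) l
    refine Lsp_mono le_rfl hA₀.1 (fun P hP => ?_) h2
    have := A.eff.1 P hP
    change A₀ P ≤ A₀ P + A.A P
    linarith
  have hgk : ∀ q, g0 ^ k q ≠ 0 := fun q => pow_ne_zero _ hg0
  obtain ⟨M, hMV⟩ : ∃ M : EffT y → ℕ → Cls ℂ (affS y i), ∀ A q,
      M A q = secCls hy hi hcfin hΔ (Effective.add' hA₀ A.eff) (m0 * k q) (b q) (hgk q)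
        (hmem A q) := ⟨_, fun _ _ => rfl⟩
  have hMmem : ∀ A q v, v ∈ (M A q).V ↔
      g0 ^ k q * v ∈ Lsp y c (m0 * k q) ((m0 * k q) • Δ + b q • (A₀ + A.A)) := by
    intro A q v
    rw [hMV]
    rfl
  have hBM : ∀ A q v, v ∈ (M₀ (k q) (b q)).V → v ∈ (M A q).V := by
    intro A q v hv
    rw [hMmem]
    have h2 := (hM.mem _ _ (hk1 q) (hb1 q) v).1 hv
    refine Lsp_mono le_rfl hA₀.1 (fun P hP => ?_) h2
    have := A.eff.1 P hP
    change A₀ P ≤ A₀ P + A.A P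
    linarith
  obtain ⟨β, f, hf, hdom⟩ := dom_sections hy hi hcfin hΔ
  obtain ⟨t, ht⟩ : ∃ t : Multiset (Cls ℂ (affS y i)) → ℝ, t = fun s => (I s : ℝ) := ⟨_, rfl⟩
  -- comparison after all maps
  have hLeW : ∀ (V V' : Cls ℂ (affS y i)) (g : K), g ≠ 0 → (∀ v ∈ V.V, g * v ∈ V'.V) →
      ∀ w, Le n t 1 (eCls hy hn hi (φ w) V) (eCls hy hn hi (φ w) V') := by
    intro V V' g hg0 hV w s hs
    rw [ht, one_mul]
    refine Nat.cast_le.2 (I_mono cx (g := φ w g) (by rwa [Ne, map_eq_zero]) ?_ hs)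
    rintro _ ⟨v, hv, rfl⟩
    exact ⟨g * v, hV v hv, map_mul (φ w) g v⟩
  -- pull back
  have hMpull : ∀ ψ : K →ₐ[ℂ] K, JPulls y c Δ x E ψ → ∀ A : EffT y,
      ∃ A' : EffT y, ∀ q, ∀ v ∈ (M A q).V,
        (jac ψ x E ^ (m0 * k q) * ψ (g0 ^ k q) / g0 ^ k q) * ψ v ∈ (M A' q).V := by
    intro ψ hψ A
    obtain ⟨B, hB, hB1⟩ := hψ (A₀ + A.A) (Effective.add' hA₀ A.eff)
    refine ⟨⟨B, hB⟩, fun q v hv => ?_⟩
    rw [hMmem] at hv ⊢
    have e1 := hB1 (m0 * k q) (b q) (hmk1 q) _ hv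
    have e2 : g0 ^ k q * (jac ψ x E ^ (m0 * k q) * ψ (g0 ^ k q) / g0 ^ k q * ψ v) =
        jac ψ x E ^ (m0 * k q) * ψ (g0 ^ k q * v) := by
      rw [map_mul]
      have := hgk q
      field_simp
    rw [e2]
    refine Lsp_mono le_rfl hB.1 (fun P hP => ?_) e1
    have := hA₀.1 P hP
    change B P ≤ A₀ P + B P
    linarith
  -- the degrees
  have hφ0 : ∀ z, φ 0 z = z := by
    intro z
    have h1 := hφ 0 0
    rw [add_zero] at h1
    have h2 : φ 0 z = φ 0 (φ 0 z) := by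
      conv_lhs => rw [h1]
      rfl
    exact ((φ 0).toRingHom.injective h2).symm
  have hφ0' : φ 0 = 1 := by
    ext z
    exact hφ0 z
  have hdpos : ∀ u, (0 : ℝ) < (mapDegree (φ u) : ℝ) := fun u => by
    exact_mod_cast mapDegree_pos hess hn (φ u)
  have hI : ∀ u (s : Multiset (Cls ℂ (affS y i))), s.card = n →
      t (s.map (eCls hy hn hi (φ u))) = (mapDegree (φ u) : ℝ) * t s := by
    intro u s hs
    rw [ht]
    beta_reduce
    exact_mod_cast I_emap hy hn hi (φ u) hs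
  have hmulD : ∀ u v, (mapDegree (φ (u + v)) : ℝ) = mapDegree (φ u) * mapDegree (φ v) := by
    intro u v
    have hs0 : (Multiset.replicate n (hcls hy hi)).card = n := Multiset.card_replicate _ _
    have h1 := hI (u + v) (Multiset.replicate n (hcls hy hi)) hs0
    have h2 := hI v (Multiset.replicate n (hcls hy hi)) hs0
    have h3 := hI u ((Multiset.replicate n (hcls hy hi)).map (eCls hy hn hi (φ v)))
      (by rw [Multiset.card_map]; exact hs0)
    rw [h2, Multiset.map_map] at h3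
    have e : (eCls hy hn hi (φ u)) ∘ (eCls hy hn hi (φ v)) = eCls hy hn hi (φ (u + v)) := by
      funext A
      change eCls hy hn hi (φ u) (eCls hy hn hi (φ v) A) = _
      rw [eCls_eCls, hφ]
    rw [e, h1] at h3
    have hpos : 0 < t (Multiset.replicate n (hcls hy hi)) := by
      rw [ht]
      beta_reduce
      exact_mod_cast I_pos cx hs0
    have h4 : (mapDegree (φ (u + v)) : ℝ) * t (Multiset.replicate n (hcls hy hi)) =
        (mapDegree (φ u) * mapDegree (φ v) : ℝ) * t (Multiset.replicate n (hcls hy hi)) := by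
      rw [h3]; ring
    exact mul_right_cancel₀ hpos.ne' h4
  have hexp : ∀ u : Fin r → ℕ, Real.exp (∑ j, Real.log (mapDegree (φ (Pi.single j 1)) : ℝ) *
      (u j : ℝ)) = mapDegree (φ u) := by
    intro u
    have h00 : (mapDegree (φ 0) : ℝ) = 1 := by
      have h1 := hmulD 0 0
      rw [add_zero] at h1
      have h2 := hdpos 0
      have h3 : (mapDegree (φ 0) : ℝ) * (mapDegree (φ 0) : ℝ) = (mapDegree (φ 0) : ℝ) * 1 := by
        rw [mul_one]; exact h1.symm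
      exact mul_left_cancel₀ h2.ne' h3
    let F : (Fin r → ℕ) →+ ℝ :=
      { toFun := fun u => Real.log (mapDegree (φ u) : ℝ)
        map_zero' := by rw [h00, Real.log_one]
        map_add' := fun u v => by rw [hmulD, Real.log_mul (hdpos u).ne' (hdpos v).ne'] }
    have h1 : F u = ∑ j, Real.log (mapDegree (φ (Pi.single j 1)) : ℝ) * (u j : ℝ) := by
      conv_lhs => rw [← Finset.univ_sum_single u]
      rw [map_sum]
      refine Finset.sum_congr rfl fun j _ => ?_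
      have e : (Pi.single j (u j) : Fin r → ℕ) = (u j) • Pi.single j 1 := by
        rw [← Pi.single_smul]
        simp
      rw [e, map_nsmul, nsmul_eq_mul, mul_comm]
      rfl
    rw [← h1]
    exact Real.exp_log (hdpos u)
  refine ⟨fun q => (k q : ℝ), M, (m0 : ℝ) * β + 1, ε, ?_⟩
  rw [← ht]
  refine ⟨?_, ?_, hn0, hν, by positivity, hε, ?_, ?_, ?_, ?_, ?_, ?_, ?_, ?_, ?_, ?_⟩
  · -- pos
    intro s hs
    rw [ht]
    beta_reduce
    exact_mod_cast I_pos cx hs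
  · -- ex
    rw [ht]
    exact exch cx
  · -- zero
    funext A
    beta_reduce
    rw [hφ0', eCls_one]
    rfl
  · -- add
    intro u v
    funext A
    change _ = eCls hy hn hi (φ u) (eCls hy hn hi (φ v) A)
    rw [eCls_eCls, hφ]
  · -- χ
    intro j
    exact Real.log_natCast_nonneg _
  · -- inv
    intro u s hs
    beta_reduce
    rw [hexp]
    exact hI u s hs
  · -- mul_t
    intro a b s hs
    rw [ht]
    beta_reduce
    have h1 := I_add cx (D := mulCls (fin_affS i) (one_affS hi) a b) (V := a) (V' := b)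
      le_rfl hs
    have h2 := I_mul_ge cx (D := mulCls (fin_affS i) (one_affS hi) a b) (V := a) (V' := b)
      le_rfl hs
    exact_mod_cast le_antisymm h1 h2
  · -- m_pos
    exact hkr
  · -- mono
    intro A A' hAA w q
    refine hLeW _ _ 1 one_ne_zero (fun v hv => ?_) w
    rw [one_mul]
    rw [hMmem] at hv ⊢
    refine Lsp_mono le_rfl (Effective.add' hA₀ A.eff).1 (fun P hP => ?_) hv
    have := hAA P hP
    change A₀ P + A.A P ≤ A₀ P + A'.A P
    linarith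
  · -- M_f
    intro u A
    obtain ⟨A', hA'⟩ := hMpull (φ u) (hP u) A
    refine ⟨A', fun w q => hLeW _ _
      (jac (φ u) x E ^ (m0 * k q) * (φ u) (g0 ^ k q) / g0 ^ k q)
      (div_ne_zero (mul_ne_zero (pow_ne_zero _ (jac_ne hess hn hx hE hfr (φ u)))
        (by rw [Ne, map_eq_zero]; exact hgk q)) (hgk q)) ?_ w⟩
    rintro _ ⟨v, hv, rfl⟩
    exact hA' q v hv
  · -- M_le
    intro A
    obtain ⟨βA, gA, hgA, hdomA⟩ := hdom (A₀ + A.A) (Effective.add' hA₀ A.eff)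
    filter_upwards [Filter.eventually_ge_atTop βA] with q hq
    intro s hs
    rw [ht]
    have e1 := I_dom cx (V := M A q) (H := hcls hy hi) (fun v hv => hv)
      (B := m0 * k q * β + b q * βA) (f := f ^ (m0 * k q) * gA ^ b q * g0 ^ k q)
      (mul_ne_zero (mul_ne_zero (pow_ne_zero _ hf) (pow_ne_zero _ hgA)) (hgk q))
      (fun v hv => by
        rw [mul_assoc (f ^ (m0 * k q) * gA ^ b q)]
        exact hdomA (m0 * k q) (b q) _ ((hMmem A q v).1 hv)) hs
    have e2 : ((m0 * k q * β + b q * βA : ℕ) : ℝ) ≤ ((m0 : ℝ) * β + 1) * k q := by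
      have e3 : m0 * k q * β + b q * βA ≤ (m0 * β + 1) * k q := by
        have e4 : b q * βA ≤ k q :=
          (Nat.mul_le_mul_left _ (by omega : βA ≤ q + 1)).trans (hbk q)
        nlinarith
      exact_mod_cast e3
    calc ((I (M A q ::ₘ s) : ℕ) : ℝ) ≤
          ((m0 * k q * β + b q * βA : ℕ) : ℝ) *
          (I (hcls hy hi ::ₘ s) : ℝ) := by exact_mod_cast e1
      _ ≤ ((m0 : ℝ) * β + 1) * k q * (I (hcls hy hi ::ₘ s) : ℝ) :=
        mul_le_mul_of_nonneg_right e2 (Nat.cast_nonneg _)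
  · -- eps
    intro u
    refine ⟨zeroE y, ?_⟩
    obtain ⟨Z, hZ⟩ : ∃ Z : EffT y, Z = zeroE y := ⟨_, rfl⟩
    rw [← hZ]
    refine Filter.Eventually.of_forall fun q => ?_
    have e6 : Le n t 1 (eCls hy hn hi (φ u) (M₀ (k q) (b q))) (eCls hy hn hi (φ u) (M Z q)) := by
      intro s hs
      rw [ht, one_mul]
      refine Nat.cast_le.2 (I_mono cx (g := 1) one_ne_zero ?_ hs)
      rintro _ ⟨v, hv, rfl⟩
      rw [one_mul]
      exact ⟨v, hBM Z q v hv, rfl⟩
    have e7 := e6.rep zero_le_one ν (Multiset.replicate (n - ν) (hcls hy hi))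
      (by rw [Multiset.card_replicate]; omega)
    rw [one_pow, one_mul, ht] at e7
    rw [ht]
    exact (heps q u).trans e7

/-- the lower bound of the Kodaira dimension for the images -/
theorem low_kappa (hy : NormalModel y) (hn : Algebra.trdeg ℂ K = n) {i : Fin (N + 1)}
    (hi : y i ≠ 0) {Δ : Place ℂ K → ℚ} {c : Place ℂ K → ℤ} {m0 : ℕ} {g0 : K} {κ : ℕ}
    (hκn : κ ≤ n) {r : Fin κ → K} (hr : AlgebraicIndependent ℂ r)
    (hrV : ∀ j, g0 * r j ∈ Lsp y c m0 (m0 • Δ)) {A₀ : Place ℂ K → ℚ} (hA₀ : Effective y A₀)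
    {M : ℕ → ℕ → Cls ℂ (affS y i)} (hM : MSys y i c Δ A₀ m0 g0 M) {k b : ℕ} (hk : 1 ≤ k)
    (hb : 1 ≤ b) (ψ : K →ₐ[ℂ] K) :
    (1 : ℝ) * (k : ℝ) ^ κ ≤ I (Multiset.replicate κ (eCls hy hn hi ψ (M k b)) +
        Multiset.replicate (n - κ) (hcls hy hi)) := by
  have cx := ctx hy hn hi
  have hr' : AlgebraicIndependent ℂ (fun j => ψ (r j)) := by
    have := hr.map' (f := ψ) ψ.toRingHom.injective
    exact this
  obtain ⟨W, hWc, hWH, hW0⟩ := exists_compl cx (hcls hy hi) (p := n - κ) (by omega) hr'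
  obtain ⟨X, hX⟩ : ∃ X, X = toM fun j => ψ (r j) := ⟨_, rfl⟩
  rw [← hX, add_comm] at hW0
  have hXc : X.card = κ := by rw [hX, toM_card]
  have h1 := dm_pow_all hn hk X W (by rw [Multiset.card_add, hXc, hWc]; omega)
  rw [hXc] at h1
  have hsel : Sel (X.map (fun x => x ^ k) + W)
      (Multiset.replicate κ (eCls hy hn hi ψ (M k b)) +
        Multiset.replicate (n - κ) (hcls hy hi)) := by
    refine sel_add ?_ (sel_rep.2 ⟨hWc, hWH⟩)
    rw [sel_rep]
    refine ⟨by rw [Multiset.card_map, hXc], fun z hz => ?_⟩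
    rw [Multiset.mem_map] at hz
    obtain ⟨w, hw, rfl⟩ := hz
    rw [hX] at hw
    obtain ⟨j, rfl⟩ := mem_toM.1 hw
    rw [← map_pow]
    refine eCls_mem ?_
    rw [hM.mem _ _ hk hb]
    have h2 : (g0 * r j) ^ k ∈ Lsp y c (m0 * k) ((m0 * k) • Δ + (0 * k) • A₀) := by
      refine pow_Lsp (b := 0) ?_ hk
      rw [zero_smul, add_zero]
      exact hrV j
    rw [mul_pow] at h2
    exact Lsp_mono (by omega) hA₀.1 (fun P _ => le_rfl) h2
  have h2 := le_I cx (by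
    rw [Multiset.card_add, Multiset.card_replicate, Multiset.card_replicate]
    omega) hsel
  rw [one_mul]
  have h3 : k ^ κ ≤ I (Multiset.replicate κ (eCls hy hn hi ψ (M k b)) +
        Multiset.replicate (n - κ) (hcls hy hi)) := by
    refine le_trans ?_ (h1.trans h2)
    exact Nat.le_mul_of_pos_right _ (Nat.pos_of_ne_zero hW0)
  exact_mod_cast h3

end

end Pool.Agent.T2h12
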