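import Pool.Agent.T2h12.CrepC
import Pool.Agent.T2h12.ESysK

/-!
The geometric system of commuting crepant dominant rational self-maps.
-/

set_option autoImplicit false
set_option linter.overlappingInstances false
set_option linter.unusedSectionVars false

open Filter Topology FF Module MvPolynomial
open Pool.Agent.W602.GT Pool.Agent.W603.LV Pool.Agent.Y172 Pool.Agent.Y191 Pool.Agent.R887
open Pool.Agent.N110.RK Pool.Agent.N110.SE Pool.Agent.N110 Pool.Agent.W619.PQ

namespace Pool.Agent.T2h12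

section

variable {K : Type} [Field K] [Algebra ℂ K] {N n : ℕ} {y : Fin (N + 1) → K}

theorem esys_crep (hy : NormalModel y) (hn : Algebra.trdeg ℂ K = n) (hn0 : 0 < n)
    {i : Fin (N + 1)} (hi : y i ≠ 0) {Δ : Place ℂ K → ℚ}
    (hΔ : {P | IsPrimeDivisor y P ∧ Δ P ≠ 0}.Finite)
    {r : ℕ} {φ : (Fin r → ℕ) → (K →ₐ[ℂ] K)} (hφ : ∀ u v, φ (u + v) = φ u * φ v)
    (h1 : ∀ v, SelfPullLe (φ v) y n Δ) (h2 : ∀ v, SelfPushLe (φ v) y n Δ)
    {ν : ℕ} (hν : ν ≤ n) (hnum : ¬ NumDimLt y n Δ ν) :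
    ∃ (m : ℕ → ℝ) (M : EffT y → ℕ → Cls ℂ (affS y i)) (c ε : ℝ),
      ESys n r (fun s : Multiset (Cls ℂ (affS y i)) => (I s : ℝ))
        (fun v => eCls hy hn hi (φ v))
        (fun j => Real.log (mapDegree (φ (Pi.single j 1)) : ℝ))
        (mulCls (fin_affS i) (one_affS hi)) (hcls hy hi) m M ν c ε := by
  classical
  have hess := hy.ess
  have cx := ctx hy hn hi
  obtain ⟨x, E, hx, hE⟩ := exists_crd hn (k := ℂ) (K := K)
  have hfr : IsFrame E := fun F => ⟨fun j => F (x j),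
    (Pool.Agent.W73.PG.PULL.expand x hx E hE F).symm⟩
  obtain ⟨c, hcfin, hc⟩ := exists_ordc hy hn hx hE
  have hc' : IsDisc y E c := hc
  have hP1 : ∀ v, EPulls y c Δ (φ v) := fun v => epulls_of hy hn (h1 v) hx hE hfr hc'
  have hP2 : ∀ v, JPush y c Δ x E (φ v) := fun v => jpush_of hy hn (h2 v) hx hE hfr hc'
  obtain ⟨Hy, hHy, hHP⟩ := exists_hyp hy hi
  obtain ⟨M₀, hM₀, hden⟩ := exists_den hΔ
  -- the sequence of sections
  unfold NumDimLt at hnum
  push Not at hnum
  obtain ⟨A0, hA0, ε, hε, hseq⟩ := hnum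
  have hseq' : ∀ q : ℕ, ∃ m b : ℕ, q + 1 ≤ m ∧ (b : ℝ) ≤ 1 / (q + 1) * m ∧
      ∃ g : Fin (ν + 1) → K, (∀ j, g j ∈ Lsp y c m (m • Δ + b • A0)) ∧ g 0 ≠ 0 ∧
      ∃ u : Fin (n - ν) → K, (∀ a, IsPencil y (u a)) ∧
        ε * m ^ ν < degreeOver u (fun j : Fin ν => g j.succ / g 0) := by
    intro q
    obtain ⟨m, b, hm, hb, u, hu, ω, E', hω, hω0, hlt⟩ := hseq (1 / ((q : ℝ) + 1))
      (by positivity) (q + 1)
    refine ⟨m, b, hm, hb, fun j => ω j E, fun j => ?_, ?_, u, hu, ?_⟩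
    · exact (isSection_iff hc' (hω j).1).1 (hω j)
    · exact (Pool.Agent.N110.ratio_frame hfr (hω 0).1 (hω 0).1 hω0).1
    · have e1 : (fun j : Fin ν => ω j.succ E / ω 0 E) = fun j : Fin ν => ω j.succ E' / ω 0 E' := by
        funext j
        exact ((Pool.Agent.N110.ratio_frame hfr (hω 0).1 (hω j.succ).1 hω0).2).symm
      rw [e1]
      exact hlt
  choose m b hm hb g hg hg0 u hu hdeg using hseq'
  -- the divisors
  obtain ⟨A1, hA1⟩ : ∃ A1, A1 = A0 + Hy := ⟨_, rfl⟩
  have hA1e : Effective y A1 := by rw [hA1]; exact Effective.add' hA0 hHy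
  obtain ⟨V, hV⟩ := exists_RSys hy hi hcfin hΔ hHy hHP hA0 (m := m) (b := b)
    (g := fun q => g q 0) hg0 (fun q => hg q 0)
  rw [← hA1] at hV
  have hVm : ∀ A q r, 1 ≤ r → ∀ v, v ∈ (V A q r).V ↔ g q 0 ^ r * v ∈
      Lsp y c (m q * r) ((m q * r) • Δ + ((b q + 1) * r) • (A1 + A.1)) := hV.mem
  have hm1 : ∀ q, 1 ≤ m q := fun q => by have := hm q; omega
  -- the levels
  obtain ⟨T, hT⟩ : ∃ T : ℕ → ℕ, ∀ q, T q = M₀ * q.factorial := ⟨_, fun _ => rfl⟩
  have hT1 : ∀ q, 1 ≤ T q := fun q => by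
    rw [hT]
    exact Nat.mul_pos hM₀ (Nat.factorial_pos _)
  have hTr : ∀ q, (1 : ℝ) ≤ T q := fun q => by exact_mod_cast hT1 q
  obtain ⟨m', hm'⟩ : ∃ m' : ℕ → ℕ, ∀ q, m' q = m q * T q := ⟨_, fun _ => rfl⟩
  obtain ⟨b', hb'⟩ : ∃ b' : ℕ → ℕ, ∀ q, b' q = (b q + 1) * T q := ⟨_, fun _ => rfl⟩
  obtain ⟨G, hG⟩ : ∃ G : ℕ → K, ∀ q, G q = g q 0 ^ T q := ⟨_, fun _ => rfl⟩
  have hG0 : ∀ q, G q ≠ 0 := fun q => by
    rw [hG]
    exact pow_ne_zero _ (hg0 q)
  have hmm' : ∀ q, m q ≤ m' q := fun q => by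
    rw [hm']
    exact Nat.le_mul_of_pos_right _ (hT1 q)
  have hm'1 : ∀ q, 1 ≤ m' q := fun q => (hm1 q).trans (hmm' q)
  obtain ⟨M, hM⟩ : ∃ M : EffT y → ℕ → Cls ℂ (affS y i), ∀ A q,
      M A q = V ⟨A.A, A.eff⟩ q (T q) := ⟨_, fun _ _ => rfl⟩
  have hMmem : ∀ A q v, v ∈ (M A q).V ↔
      G q * v ∈ Lsp y c (m' q) (m' q • Δ + b' q • (A1 + A.A)) := by
    intro A q v
    rw [hM, hG, hm', hb']
    exact hVm ⟨A.A, A.eff⟩ q (T q) (hT1 q) v
  obtain ⟨β, f, hf, hdom⟩ := dom_sections hy hi hcfin hΔ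
  obtain ⟨t, ht⟩ : ∃ t : Multiset (Cls ℂ (affS y i)) → ℝ, t = fun s => (I s : ℝ) := ⟨_, rfl⟩
  -- comparison after all maps
  have hLeW : ∀ (V V' : Cls ℂ (affS y i)) (g : K), g ≠ 0 → (∀ v ∈ V.V, g * v ∈ V'.V) →
      ∀ w, Le n t 1 (eCls hy hn hi (φ w) V) (eCls hy hn hi (φ w) V') := by
    intro V V' g hg0 hV w s hs
    rw [ht, one_mul]
    refine Nat.cast_le.2 (I_mono cx (g := φ w g) (by rwa [Ne, map_eq_zero]) ?_ hs)
    rintro _ ⟨v, hv, rfl⟩
    exact ⟨g * v, hV v hv, map_mul (φ w) g v⟩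
  -- pull back
  have hMpull : ∀ ψ : K →ₐ[ℂ] K, EPulls y c Δ ψ → ∀ A : EffT y,
      ∃ A' : EffT y, ∃ J : K, J ≠ 0 ∧ ∀ q, ∀ v ∈ (M A q).V,
        (J ^ m' q * ψ (G q) / G q) * ψ v ∈ (M A' q).V := by
    intro ψ hψ A
    obtain ⟨J, hJ, B, hB, hB1⟩ := hψ (A1 + A.A) (Effective.add' hA1e A.eff)
    refine ⟨⟨B, hB⟩, J, hJ, fun q v hv => ?_⟩
    rw [hMmem] at hv ⊢
    have e1 := hB1 (m' q) (b' q) (hm'1 q) _ hv
    have e2 : G q * (J ^ m' q * ψ (G q) / G q * ψ v) = J ^ m' q * ψ (G q * v) := by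
      rw [map_mul]
      have := hG0 q
      field_simp
    rw [e2]
    refine Lsp_mono le_rfl hB.1 (fun P hP => ?_) e1
    have := hA1e.1 P hP
    change B P ≤ A1 P + B P
    linarith
  obtain ⟨Z, hZ⟩ : ∃ Z : {A : Place ℂ K → ℚ // Effective y A}, Z = ⟨(zeroE y).A, (zeroE y).eff⟩ :=
    ⟨_, rfl⟩
  -- the lower bound at the lowest level
  have hVlow : ∀ q, ε * (m q : ℝ) ^ ν ≤
      t (Multiset.replicate ν (V Z q 1) + Multiset.replicate (n - ν) (hcls hy hi)) := by
    intro q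
    have hcard : (Multiset.replicate ν (V Z q 1) + Multiset.replicate (n - ν)
        (hcls hy hi)).card = n := by
      rw [Multiset.card_add, Multiset.card_replicate, Multiset.card_replicate]
      omega
    have e1 : degreeOver (u q) (fun j : Fin ν => g q j.succ / g q 0) =
        dm ℂ (toM (u q) + toM (fun j : Fin ν => g q j.succ / g q 0)) :=
      deg_dm (toM_set _) (toM_set _)
    obtain ⟨Q', hQ', e2⟩ := replace_pencils' hy hn hi (toM (u q))
      (toM (fun j : Fin ν => g q j.succ / g q 0))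
      (by rw [Multiset.card_add, toM_card, toM_card]; omega) (fun z hz => by
        obtain ⟨j, rfl⟩ := mem_toM.1 hz
        exact hu q j)
    rw [toM_card] at hQ'
    have hsel : Sel (toM (fun j : Fin ν => g q j.succ / g q 0))
        (Multiset.replicate ν (V Z q 1)) := by
      rw [sel_rep]
      refine ⟨toM_card _, fun z hz => ?_⟩
      obtain ⟨j, rfl⟩ := mem_toM.1 hz
      rw [hVm Z q 1 le_rfl, pow_one, mul_one, mul_one]
      have e3 : g q 0 * (g q j.succ / g q 0) = g q j.succ := mul_div_cancel₀ _ (hg0 q)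
      rw [e3]
      refine Lsp_mono (Nat.le_succ _) hA0.1 (fun P hP => ?_) (hg q j.succ)
      have e4 := hHy.1 P hP
      have e5 := Z.2.1 P hP
      rw [hA1]
      change A0 P ≤ A0 P + Hy P + Z.1 P
      linarith
    have e3 := le_I cx hcard (sel_add hsel hQ')
    have e4 : degreeOver (u q) (fun j : Fin ν => g q j.succ / g q 0) ≤
        I (Multiset.replicate ν (V Z q 1) + Multiset.replicate (n - ν) (hcls hy hi)) := by
      rw [e1]
      rw [add_comm] at e3
      exact e2.trans e3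
    rw [ht]
    exact (hdeg q).le.trans (Nat.cast_le.2 e4)
  -- the degrees
  have hφ0 : ∀ z, φ 0 z = z := by
    intro z
    have h1 := hφ 0 0
    rw [add_zero] at h1
    have h2 : φ 0 z = φ 0 (φ 0 z) := by
      conv_lhs => rw [h1]
      rfl
    exact ((φ 0).toRingHom.injective h2).symm
  have hφ0' : φ 0 = 1 := by
    ext z
    exact hφ0 z
  have hdpos : ∀ u, (0 : ℝ) < (mapDegree (φ u) : ℝ) := fun u => by
    exact_mod_cast mapDegree_pos hess hn (φ u)
  have hI : ∀ u (s : Multiset (Cls ℂ (affS y i))), s.card = n →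
      t (s.map (eCls hy hn hi (φ u))) = (mapDegree (φ u) : ℝ) * t s := by
    intro u s hs
    rw [ht]
    beta_reduce
    exact_mod_cast I_emap hy hn hi (φ u) hs
  have hmulD : ∀ u v, (mapDegree (φ (u + v)) : ℝ) = mapDegree (φ u) * mapDegree (φ v) := by
    intro u v
    have hs0 : (Multiset.replicate n (hcls hy hi)).card = n := Multiset.card_replicate _ _
    have h1 := hI (u + v) (Multiset.replicate n (hcls hy hi)) hs0
    have h2 := hI v (Multiset.replicate n (hcls hy hi)) hs0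
    have h3 := hI u ((Multiset.replicate n (hcls hy hi)).map (eCls hy hn hi (φ v)))
      (by rw [Multiset.card_map]; exact hs0)
    rw [h2, Multiset.map_map] at h3
    have e : (eCls hy hn hi (φ u)) ∘ (eCls hy hn hi (φ v)) = eCls hy hn hi (φ (u + v)) := by
      funext A
      change eCls hy hn hi (φ u) (eCls hy hn hi (φ v) A) = _
      rw [eCls_eCls, hφ]
    rw [e, h1] at h3
    have hpos : 0 < t (Multiset.replicate n (hcls hy hi)) := by
      rw [ht]
      beta_reduce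
      exact_mod_cast I_pos cx hs0
    have h4 : (mapDegree (φ (u + v)) : ℝ) * t (Multiset.replicate n (hcls hy hi)) =
        (mapDegree (φ u) * mapDegree (φ v) : ℝ) * t (Multiset.replicate n (hcls hy hi)) := by
      rw [h3]; ring
    exact mul_right_cancel₀ hpos.ne' h4
  have hexp : ∀ u : Fin r → ℕ, Real.exp (∑ j, Real.log (mapDegree (φ (Pi.single j 1)) : ℝ) *
      (u j : ℝ)) = mapDegree (φ u) := by
    intro u
    have h00 : (mapDegree (φ 0) : ℝ) = 1 := by
      have h1 := hmulD 0 0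
      rw [add_zero] at h1
      have h2 := hdpos 0
      have h3 : (mapDegree (φ 0) : ℝ) * (mapDegree (φ 0) : ℝ) = (mapDegree (φ 0) : ℝ) * 1 := by
        rw [mul_one]; exact h1.symm
      exact mul_left_cancel₀ h2.ne' h3
    let F : (Fin r → ℕ) →+ ℝ :=
      { toFun := fun u => Real.log (mapDegree (φ u) : ℝ)
        map_zero' := by rw [h00, Real.log_one]
        map_add' := fun u v => by rw [hmulD, Real.log_mul (hdpos u).ne' (hdpos v).ne'] }
    have h1 : F u = ∑ j, Real.log (mapDegree (φ (Pi.single j 1)) : ℝ) * (u j : ℝ) := by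
      conv_lhs => rw [← Finset.univ_sum_single u]
      rw [map_sum]
      refine Finset.sum_congr rfl fun j _ => ?_
      have e : (Pi.single j (u j) : Fin r → ℕ) = (u j) • Pi.single j 1 := by
        rw [← Pi.single_smul]
        simp
      rw [e, map_nsmul, nsmul_eq_mul, mul_comm]
      rfl
    rw [← h1]
    exact Real.exp_log (hdpos u)
  refine ⟨fun q => (m' q : ℝ), M, (β : ℝ) + 1, ε, ?_⟩
  rw [← ht]
  refine ⟨?_, ?_, hn0, hν, by positivity, hε, ?_, ?_, ?_, ?_, ?_, ?_, ?_, ?_, ?_, ?_⟩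
  · -- pos
    intro s hs
    rw [ht]
    beta_reduce
    exact_mod_cast I_pos cx hs
  · -- ex
    rw [ht]
    exact exch cx
  · -- zero
    funext A
    beta_reduce
    rw [hφ0', eCls_one]
    rfl
  · -- add
    intro u v
    funext A
    change _ = eCls hy hn hi (φ u) (eCls hy hn hi (φ v) A)
    rw [eCls_eCls, hφ]
  · -- χ
    intro j
    exact Real.log_natCast_nonneg _
  · -- inv
    intro u s hs
    beta_reduce
    rw [hexp]
    exact hI u s hs
  · -- mul_t
    intro a b s hs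
    rw [ht]
    beta_reduce
    have h1 := I_add cx (D := mulCls (fin_affS i) (one_affS hi) a b) (V := a) (V' := b)
      le_rfl hs
    have h2 := I_mul_ge cx (D := mulCls (fin_affS i) (one_affS hi) a b) (V := a) (V' := b)
      le_rfl hs
    exact_mod_cast le_antisymm h1 h2
  · -- m_pos
    intro q
    exact_mod_cast hm'1 q
  · -- mono
    intro A A' hAA w q
    refine hLeW _ _ 1 one_ne_zero (fun v hv => ?_) w
    rw [one_mul]
    rw [hMmem] at hv ⊢
    refine Lsp_mono le_rfl (Effective.add' hA1e A.eff).1 (fun P hP => ?_) hv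
    have := hAA P hP
    change A1 P + A.A P ≤ A1 P + A'.A P
    linarith
  · -- M_f
    intro u A
    obtain ⟨A', J, hJ, hA'⟩ := hMpull (φ u) (hP1 u) A
    refine ⟨A', fun w q => hLeW _ _ (J ^ m' q * (φ u) (G q) / G q)
      (div_ne_zero (mul_ne_zero (pow_ne_zero _ hJ) (by rw [Ne, map_eq_zero]; exact hG0 q))
        (hG0 q)) ?_ w⟩
    rintro _ ⟨v, hv, rfl⟩
    exact hA' q v hv
  · -- M_le
    intro A
    obtain ⟨βA, gA, hgA, hdomA⟩ := hdom (A1 + A.A) (Effective.add' hA1e A.eff)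
    filter_upwards [Filter.eventually_ge_atTop (2 * βA)] with q hq
    intro s hs
    rw [ht]
    have e1 := I_dom cx (V := M A q) (H := hcls hy hi) (fun v hv => hv)
      (B := m' q * β + b' q * βA) (f := f ^ m' q * gA ^ b' q * G q)
      (mul_ne_zero (mul_ne_zero (pow_ne_zero _ hf) (pow_ne_zero _ hgA)) (hG0 q))
      (fun v hv => by
        rw [mul_assoc (f ^ m' q * gA ^ b' q)]
        exact hdomA (m' q) (b' q) _ ((hMmem A q v).1 hv)) hs
    have e2 : ((m' q * β + b' q * βA : ℕ) : ℝ) ≤ ((β : ℝ) + 1) * m' q := by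
      rw [hm', hb']
      push_cast
      have hmq : ((q : ℝ) + 1) ≤ m q := by exact_mod_cast hm q
      have hbq := hb q
      have hq' : 2 * (βA : ℝ) ≤ q := by exact_mod_cast hq
      have hβ0 : (0 : ℝ) ≤ βA := Nat.cast_nonneg _
      have hm0 : (0 : ℝ) ≤ m q := Nat.cast_nonneg _
      have e3 : ((b q : ℝ) + 1) * βA ≤ m q := by
        have e4 : (b q : ℝ) * βA ≤ 1 / ((q : ℝ) + 1) * m q * βA :=
          mul_le_mul_of_nonneg_right hbq hβ0
        have e5 : 1 / ((q : ℝ) + 1) * m q * βA = m q * (βA / (q + 1)) := by ring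
        have e6 : (βA : ℝ) / (q + 1) ≤ 1 / 2 := by
          rw [div_le_div_iff₀ (by positivity) (by norm_num)]
          linarith
        have e7 := mul_le_mul_of_nonneg_left e6 hm0
        linarith
      have hT0 : (0 : ℝ) ≤ T q := Nat.cast_nonneg _
      have e8 := mul_le_mul_of_nonneg_right e3 hT0
      calc (m q : ℝ) * T q * β + (b q + 1) * T q * βA =
            m q * T q * β + (b q + 1) * βA * T q := by ring
        _ ≤ m q * T q * β + m q * T q := by linarith
        _ = (β + 1) * (m q * T q) := by ring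
    calc ((I (M A q ::ₘ s) : ℕ) : ℝ) ≤
          ((m' q * β + b' q * βA : ℕ) : ℝ) *
          (I (hcls hy hi ::ₘ s) : ℝ) := by exact_mod_cast e1
      _ ≤ ((β : ℝ) + 1) * m' q * (I (hcls hy hi ::ₘ s) : ℝ) :=
        mul_le_mul_of_nonneg_right e2 (Nat.cast_nonneg _)
  · -- eps
    intro u
    obtain ⟨d, hd1, hpush⟩ := hP2 u
    obtain ⟨B, hB, hpush⟩ := hpush (A1 + Z.1) (Effective.add' hA1e Z.2)
    obtain ⟨A', hA'⟩ : ∃ A' : EffT y, A' = ⟨B, hB⟩ := ⟨_, rfl⟩
    refine ⟨A', ?_⟩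
    filter_upwards [Filter.eventually_ge_atTop d] with q hq
    obtain ⟨ψ, hψ⟩ : ∃ ψ : K →ₐ[ℂ] K, ψ = φ u := ⟨_, rfl⟩
    rw [← hψ] at hpush ⊢
    have hj0 : jac ψ x E ≠ 0 := jac_ne hess hn hx hE hfr ψ
    obtain ⟨r0, hr0⟩ := Nat.dvd_factorial hd1 hq
    have hr01 : 1 ≤ r0 := by
      rcases Nat.eq_zero_or_pos r0 with h0 | h0
      · rw [h0, mul_zero] at hr0
        have := Nat.factorial_pos q
        omega
      · exact h0
    obtain ⟨r, hr⟩ : ∃ r, r = M₀ * r0 := ⟨_, rfl⟩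
    have hr1 : 1 ≤ r := by rw [hr]; exact Nat.mul_pos hM₀ hr01
    have hTrd : T q = r * d := by
      rw [hT, hr0, hr]
      ring
    -- the comparison
    have hcmp : ∀ s : Multiset (Cls ℂ (affS y i)), s.card + 1 = n →
        d * I (V Z q r ::ₘ s) ≤ 1 * I (eCls hy hn hi ψ (M A' q) ::ₘ s) := by
      intro s hs
      refine I_rat cx hd1 (h := G q / (jac ψ x E ^ (m q * r * d) * ψ (G q)))
        (div_ne_zero (hG0 q) (mul_ne_zero (pow_ne_zero _ hj0)
          (by rw [Ne, map_eq_zero]; exact hG0 q))) ?_ hs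
      intro v hv Q _
      by_cases hv0 : v = 0
      · refine ⟨1, (eCls hy hn hi ψ (M A' q)).one, one_ne_zero, ?_⟩
        rw [hv0, zero_pow (by omega), mul_zero, Q.ord_zero, Q.ord_one, mul_zero]
      rw [hVm Z q r hr1] at hv
      have hg'0 : g q 0 ^ r * v ≠ 0 := mul_ne_zero (pow_ne_zero _ (hg0 q)) hv0
      obtain ⟨h, hh0, hh, hQ⟩ := hpush (m q * r) ((b q + 1) * r) (Nat.mul_pos (hm1 q) hr1)
        (fun P hP => by
          obtain ⟨z, hz⟩ := hden P hP
          refine ⟨m q * r0 * z, ?_⟩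
          push_cast
          rw [← hz, hr]
          push_cast
          ring) _ hv hg'0 Q
      have hψG0 : ψ (G q) ≠ 0 := by rw [Ne, map_eq_zero]; exact hG0 q
      refine ⟨ψ (h / G q), eCls_mem ?_, ?_, ?_⟩
      · rw [hMmem]
        have e1 : G q * (h / G q) = h := mul_div_cancel₀ _ (hG0 q)
        rw [e1, hm', hb', hTrd, ← mul_assoc, ← mul_assoc]
        refine Lsp_mono le_rfl hB.1 (fun P hP => ?_) hh
        rw [hA']
        have h3 := hA1e.1 P hP
        change B P ≤ A1 P + B P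
        linarith
      · rw [Ne, map_eq_zero]
        exact div_ne_zero hh0 (hG0 q)
      · rw [Nat.cast_one, one_mul, map_div₀, Q.ord_div (by rwa [Ne, map_eq_zero]) hψG0]
        have e1 : G q / (jac ψ x E ^ (m q * r * d) * ψ (G q)) * v ^ d =
            (g q 0 ^ r * v / jac ψ x E ^ (m q * r)) ^ d / ψ (G q) := by
          rw [hG, hTrd, div_pow, mul_pow, ← pow_mul, ← pow_mul]
          field_simp
        rw [e1, Q.ord_div (pow_ne_zero _ (div_ne_zero hg'0 (pow_ne_zero _ hj0))) hψG0,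
          Q.ord_pow]
        linarith
    have hdr : (0 : ℝ) < d := by exact_mod_cast hd1
    have hrr : (0 : ℝ) < r := by exact_mod_cast hr1
    have hle1 : Le n t (1 / d) (V Z q r) (eCls hy hn hi ψ (M A' q)) := by
      intro s hs
      rw [ht, one_div, inv_mul_eq_div, le_div_iff₀ hdr]
      have h3 := hcmp s hs
      rw [one_mul] at h3
      rw [mul_comm]
      beta_reduce
      exact_mod_cast h3
    have hle2 : Le n t (1 / r) (V Z q 1) (V Z q r) := by
      intro s hs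
      rw [ht, one_div, inv_mul_eq_div, le_div_iff₀ hrr]
      have h3 := I_pow cx (V := V Z q 1) (D := V Z q r) hr1 (fun v hv => by
        rw [hVm Z q 1 le_rfl, pow_one, mul_one, mul_one] at hv
        rw [hVm Z q r hr1, ← mul_pow]
        exact pow_Lsp hv hr1) hs
      rw [mul_comm]
      beta_reduce
      exact_mod_cast h3
    have h3 := hle1.rep (by positivity) ν (Multiset.replicate (n - ν) (hcls hy hi))
      (by rw [Multiset.card_replicate]; omega)
    have h4 := hle2.rep (by positivity) ν (Multiset.replicate (n - ν) (hcls hy hi))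
      (by rw [Multiset.card_replicate]; omega)
    rw [one_div, inv_pow, inv_mul_eq_div, le_div_iff₀ (by positivity)] at h3 h4
    have h5 := hVlow q
    have e1 : (m' q : ℝ) = m q * r * d := by
      rw [hm', hTrd]
      push_cast
      ring
    rw [e1]
    calc ε * ((m q : ℝ) * r * d) ^ ν = ε * (m q : ℝ) ^ ν * (r : ℝ) ^ ν * (d : ℝ) ^ ν := by
          rw [mul_pow, mul_pow]
          ring
      _ ≤ t (Multiset.replicate ν (V Z q 1) + Multiset.replicate (n - ν) (hcls hy hi)) *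
          (r : ℝ) ^ ν * (d : ℝ) ^ ν := by gcongr
      _ ≤ t (Multiset.replicate ν (V Z q r) + Multiset.replicate (n - ν) (hcls hy hi)) *
          (d : ℝ) ^ ν := by gcongr
      _ ≤ _ := h3

end

end Pool.Agent.T2h12
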