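import Pool.Agent.T2h12.Push
import Pool.Agent.T2h12.RDefs

/-!
The push forward of sections by compositions of self-maps.
-/

set_option autoImplicit false
set_option linter.overlappingInstances false
set_option linter.unusedSectionVars false

open FF Module MvPolynomial Pool.Agent.W602.GT Pool.Agent.W603.LV
open Pool.Agent.Y172 Pool.Agent.Y191 Pool.Agent.R887 Pool.Agent.W619.PQ Pool.Agent.N110

namespace Pool.Agent.T2h12

section

variable {K : Type} [Field K] [Algebra ℂ K] {N n : ℕ} {y : Fin (N + 1) → K}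

/-- there is a place below a given place -/
theorem below_hom (hess : Algebra.EssFiniteType ℂ K) (hn : Algebra.trdeg ℂ K = n)
    (φ : K →ₐ[ℂ] K) (Q : Place ℂ K) : ∃ (P : Place ℂ K) (e : ℕ), LiesOver φ Q P e := by
  have key : ∀ {K' : Type} [Field K'] [Algebra ℂ K'] (hess' : Algebra.EssFiniteType ℂ K')
      (hn' : Algebra.trdeg ℂ K' = n) (ψ : K →ₐ[ℂ] K') (Q : Place ℂ K'),
      ∃ (P : Place ℂ K) (e : ℕ), LiesOver ψ Q P e := by
    intro K' _ _ hess' hn' ψ Q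
    let _ : Algebra K K' := ψ.toRingHom.toAlgebra
    have hst : IsScalarTower ℂ K K' :=
      IsScalarTower.of_algebraMap_eq fun c => (ψ.commutes c).symm
    have hfd : FiniteDimensional K K' := finite_map hn hn'
    exact ⟨bel K Q, ram K Q, over_bel K Q⟩
  exact key hess hn φ Q

/-- the push forward of sections, for all divisors -/
def JPush (y : Fin (N + 1) → K) (c : Place ℂ K → ℤ) (Δ : Place ℂ K → ℚ) (x : Fin n → K)
    (E : Fin n → Derivation ℂ K K) (φ : K →ₐ[ℂ] K) : Prop :=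
  ∃ d : ℕ, 1 ≤ d ∧ ∀ A : Place ℂ K → ℚ, Effective y A → ∃ A' : Place ℂ K → ℚ,
    Effective y A' ∧ ∀ m b : ℕ, 1 ≤ m → (∀ P, IsPrimeDivisor y P → ∃ z : ℤ, m * Δ P = z) →
      ∀ g ∈ Lsp y c m (m • Δ + b • A), g ≠ 0 → ∀ Q : Place ℂ K, ∃ h : K, h ≠ 0 ∧
        h ∈ Lsp y c (m * d) ((m * d) • Δ + (b * d) • A') ∧
        Q.ord (φ h) ≤ d * Q.ord (g / jac φ x E ^ m)

theorem JPush.one {x : Fin n → K} {E : Fin n → Derivation ℂ K K}
    (hE : ∀ i j, E i (x j) = if i = j then 1 else 0) (c : Place ℂ K → ℤ) (Δ : Place ℂ K → ℚ) :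
    JPush y c Δ x E 1 := by
  refine ⟨1, le_rfl, fun A hA => ⟨A, hA, fun m b _ _ g hg hg0 Q => ⟨g, hg0, ?_, ?_⟩⟩⟩
  · rwa [mul_one, mul_one]
  · rw [jac_one hE, one_pow, div_one, Nat.cast_one, one_mul]
    exact le_rfl

theorem JPush.mul (hess : Algebra.EssFiniteType ℂ K) (hn : Algebra.trdeg ℂ K = n) {x : Fin n → K}
    {E : Fin n → Derivation ℂ K K} (hx : IsTranscendenceBasis ℂ x)
    (hE : ∀ i j, E i (x j) = if i = j then 1 else 0) (hfr : IsFrame E) {c : Place ℂ K → ℤ}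
    {Δ : Place ℂ K → ℚ}
    {φ ψ : K →ₐ[ℂ] K} (h1 : JPush y c Δ x E φ) (h2 : JPush y c Δ x E ψ) :
    JPush y c Δ x E (φ * ψ) := by
  obtain ⟨d1, hd1, h1⟩ := h1
  obtain ⟨d2, hd2, h2⟩ := h2
  refine ⟨d1 * d2, Nat.mul_pos hd1 hd2, fun A hA => ?_⟩
  obtain ⟨A1, hA1, h1⟩ := h1 A hA
  obtain ⟨A2, hA2, h2⟩ := h2 A1 hA1
  refine ⟨A2, hA2, fun m b hm hint g hg hg0 Q => ?_⟩
  obtain ⟨f1, hf10, hf1, hQ1⟩ := h1 m b hm hint g hg hg0 Q
  obtain ⟨P, e, hPe⟩ := below_hom hess hn φ Q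
  obtain ⟨f2, hf20, hf2, hQ2⟩ := h2 (m * d1) (b * d1) (Nat.mul_pos hm hd1) (fun P hP => by
    obtain ⟨z, hz⟩ := hint P hP
    refine ⟨z * d1, ?_⟩
    push_cast
    rw [← hz]
    ring) f1 hf1 hf10 P
  refine ⟨f2, hf20, by rw [← mul_assoc, ← mul_assoc]; exact hf2, ?_⟩
  have hj1 : jac φ x E ≠ 0 := jac_ne hess hn hx hE hfr φ
  have hj2 : jac ψ x E ≠ 0 := jac_ne hess hn hx hE hfr ψ
  have hj2' : φ (jac ψ x E) ≠ 0 := by rwa [Ne, map_eq_zero]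
  rw [jac_mul hess hn hx hE, AlgHom.mul_apply]
  have e1 : Q.ord (φ (ψ f2)) = e * P.ord (ψ f2) := hPe.2 _
  have he0 : (0 : ℤ) ≤ e := Nat.cast_nonneg _
  have h3 := mul_le_mul_of_nonneg_left hQ2 he0
  have e2 : (e : ℤ) * (d2 * P.ord (f1 / jac ψ x E ^ (m * d1))) =
      d2 * (Q.ord (φ f1) - m * d1 * Q.ord (φ (jac ψ x E))) := by
    rw [P.ord_div hf10 (pow_ne_zero _ hj2), P.ord_pow, hPe.2, hPe.2]
    push_cast
    ring
  rw [e2, ← e1] at h3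
  rw [Q.ord_div hg0 (pow_ne_zero _ hj1), Q.ord_pow] at hQ1
  rw [Q.ord_div hg0 (pow_ne_zero _ (mul_ne_zero hj1 hj2')), Q.ord_pow, Q.ord_mul hj1 hj2']
  have hd20 : (0 : ℤ) ≤ d2 := Nat.cast_nonneg _
  have h4 := mul_le_mul_of_nonneg_left hQ1 hd20
  push_cast
  linarith

theorem JPush.word (hess : Algebra.EssFiniteType ℂ K) (hn : Algebra.trdeg ℂ K = n) {x : Fin n → K}
    {E : Fin n → Derivation ℂ K K} (hx : IsTranscendenceBasis ℂ x)
    (hE : ∀ i j, E i (x j) = if i = j then 1 else 0) (hfr : IsFrame E) {c : Place ℂ K → ℤ}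
    {Δ : Place ℂ K → ℚ} {S : Set (K →ₐ[ℂ] K)} (h : ∀ φ ∈ S, JPush y c Δ x E φ)
    (w : List (K →ₐ[ℂ] K)) (hw : ∀ φ ∈ w, φ ∈ S) : JPush y c Δ x E w.prod := by
  induction w with
  | nil => exact JPush.one hE c Δ
  | cons φ w ih =>
    rw [List.prod_cons]
    exact (h φ (hw φ (by simp))).mul hess hn hx hE hfr (ih fun ψ hψ => hw ψ (by simp [hψ]))

theorem jpush_of (hy : NormalModel y) (hn : Algebra.trdeg ℂ K = n) {Δ : Place ℂ K → ℚ}
    {φ : K →ₐ[ℂ] K} (hφ : SelfPushLe φ y n Δ) {x : Fin n → K}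
    {E : Fin n → Derivation ℂ K K} (hx : IsTranscendenceBasis ℂ x)
    (hE : ∀ i j, E i (x j) = if i = j then 1 else 0) (hfr : IsFrame E) {c : Place ℂ K → ℤ}
    (hc : IsDisc y E c) : JPush y c Δ x E φ :=
  push_dom hy hy hn hn φ hφ hE hfr hc hx hE hfr hc

/-- the denominators of a divisor -/
theorem exists_den {Δ : Place ℂ K → ℚ} (hΔ : {P | IsPrimeDivisor y P ∧ Δ P ≠ 0}.Finite) :
    ∃ M : ℕ, 1 ≤ M ∧ ∀ P, IsPrimeDivisor y P → ∃ z : ℤ, M * Δ P = z := by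
  classical
  refine ⟨∏ P ∈ hΔ.toFinset, (Δ P).den, Finset.prod_pos fun P _ => (Δ P).den_pos, fun P hP => ?_⟩
  by_cases h0 : Δ P = 0
  · exact ⟨0, by rw [h0]; simp⟩
  have hmem : P ∈ hΔ.toFinset := hΔ.mem_toFinset.2 ⟨hP, h0⟩
  rw [← Finset.mul_prod_erase _ _ hmem]
  refine ⟨(Δ P).num * ∏ P ∈ hΔ.toFinset.erase P, ((Δ P).den : ℤ), ?_⟩
  push_cast
  have h1 : (Δ P) * (Δ P).den = (Δ P).num := Rat.mul_den_eq_num _
  calc ((Δ P).den : ℚ) * (∏ P ∈ hΔ.toFinset.erase P, ((Δ P).den : ℚ)) * Δ P =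
        (Δ P * (Δ P).den) * ∏ P ∈ hΔ.toFinset.erase P, ((Δ P).den : ℚ) := by ring
    _ = _ := by rw [h1]

end

end Pool.Agent.T2h12
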