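import Pool.Agent.T2h12.HasC
import Pool.Agent.T2h12.JPush
import Pool.Agent.N110.Assem

/-!
The system for the words in a set of crepant self-maps.
-/

set_option autoImplicit false
set_option linter.overlappingInstances false
set_option linter.unusedSectionVars false

open FF Module MvPolynomial Pool.Agent.W602.GT Pool.Agent.W603.LV
open Pool.Agent.Y172 Pool.Agent.Y191 Pool.Agent.R887 Pool.Agent.N110 Pool.Agent.W619.PQ

namespace Pool.Agent.T2h12

section

variable {K : Type} [Field K] [Algebra ℂ K] {N n : ℕ} {y : Fin (N + 1) → K}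

/-- the spaces of sections of the multiples -/
structure RSys (y : Fin (N + 1) → K) (i : Fin (N + 1)) (c : Place ℂ K → ℤ)
    (Δ A1 : Place ℂ K → ℚ) (m b : ℕ → ℕ) (g : ℕ → K)
    (V : {A : Place ℂ K → ℚ // Effective y A} → ℕ → ℕ → Cls ℂ (affS y i)) : Prop where
  mem : ∀ A q r, 1 ≤ r → ∀ v, v ∈ (V A q r).V ↔
    g q ^ r * v ∈ Lsp y c (m q * r) ((m q * r) • Δ + (b q * r) • (A1 + A.1))

theorem exists_RSys (hy : NormalModel y) {i : Fin (N + 1)} (hi : y i ≠ 0)
    {c : Place ℂ K → ℤ} (hcfin : {P | IsPrimeDivisor y P ∧ c P ≠ 0}.Finite)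
    {Δ Hy : Place ℂ K → ℚ} (hΔ : {P | IsPrimeDivisor y P ∧ Δ P ≠ 0}.Finite)
    (hHy : Effective y Hy)
    (hHP : ∀ P l, IsPrimeDivisor y P → Centred y l P → Hy P = P.ord (y i / y l))
    {A0 : Place ℂ K → ℚ} (hA0 : Effective y A0) {m b : ℕ → ℕ} {g : ℕ → K}
    (hg0 : ∀ q, g q ≠ 0) (hg : ∀ q, g q ∈ Lsp y c (m q) (m q • Δ + b q • A0)) :
    ∃ V, RSys y i c Δ (A0 + Hy) m (fun q => b q + 1) g V := by
  have key : ∀ (A : {A : Place ℂ K → ℚ // Effective y A}) (q r : ℕ), ∃ B : Cls ℂ (affS y i),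
      1 ≤ r → ∀ v, v ∈ B.V ↔ g q ^ r * v ∈
        Lsp y c (m q * r) ((m q * r) • Δ + ((b q + 1) * r) • (A0 + Hy + A.1)) := by
    intro A q r
    by_cases hr : 1 ≤ r
    swap
    · exact ⟨hcls hy hi, fun h => absurd h hr⟩
    have hA1e : Effective y (A0 + Hy) := Effective.add' hA0 hHy
    have hmem : ∀ l, g q ^ r * (y l / y i) ∈
        Lsp y c (m q * r) ((m q * r) • Δ + ((b q + 1) * r) • (A0 + Hy + A.1)) := by
      intro l
      have h1 := mul_hyp hy hA0 hHy hHP hi (pow_Lsp (hg q) hr) l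
      refine Lsp_mono ?_ hA1e.1 (fun P hP => ?_) h1
      · have : 1 * 1 ≤ 1 * r := Nat.mul_le_mul_left _ hr
        calc b q * r + 1 ≤ b q * r + r := by omega
          _ = (b q + 1) * r := by ring
      · have := A.2.1 P hP
        change (A0 + Hy) P ≤ (A0 + Hy) P + A.1 P
        linarith
    exact ⟨secCls hy hi hcfin hΔ (Effective.add' hA1e A.2) (m q * r) ((b q + 1) * r)
      (pow_ne_zero r (hg0 q)) hmem, fun _ v => Iff.rfl⟩
  choose V hV using key
  exact ⟨V, ⟨fun A q r hr v => hV A q r hr v⟩⟩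

theorem hasC_crep (hy : NormalModel y) (hn : Algebra.trdeg ℂ K = n) (hn0 : 0 < n)
    {i : Fin (N + 1)} (hi : y i ≠ 0) {Δ : Place ℂ K → ℚ}
    (hΔ : {P | IsPrimeDivisor y P ∧ Δ P ≠ 0}.Finite)
    {S : Set (K →ₐ[ℂ] K)} (h1 : ∀ φ ∈ S, SelfPullLe φ y n Δ) (h2 : ∀ φ ∈ S, SelfPushLe φ y n Δ)
    {C₁ : ℕ} (hC₁ : ∀ φ ∈ S, I (eCls hy hn hi φ (hcls hy hi) ::ₘ
      Multiset.replicate (n - 1) (hcls hy hi)) ≤ C₁) {ν : ℕ} (hν : ν ≤ n)
    (hnum : ¬ NumDimLt y n Δ ν) (hnum' : ν + 1 ≤ n → NumDimLt y n Δ (ν + 1)) :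
    HasC hy hn hi S ν := by
  classical
  have hess := hy.ess
  have cx := ctx hy hn hi
  obtain ⟨x, E, hx, hE⟩ := exists_crd hn (k := ℂ) (K := K)
  have hfr : IsFrame E := fun F => ⟨fun j => F (x j),
    (Pool.Agent.W73.PG.PULL.expand x hx E hE F).symm⟩
  obtain ⟨c, hcfin, hc⟩ := exists_ordc hy hn hx hE
  have hc' : IsDisc y E c := hc
  have hP1 : ∀ w : List (K →ₐ[ℂ] K), (∀ φ ∈ w, φ ∈ S) → EPulls y c Δ w.prod :=
    EPulls.word fun φ hφ => epulls_of hy hn (h1 φ hφ) hx hE hfr hc'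
  have hP2 : ∀ w : List (K →ₐ[ℂ] K), (∀ φ ∈ w, φ ∈ S) → JPush y c Δ x E w.prod :=
    JPush.word hess hn hx hE hfr fun φ hφ => jpush_of hy hn (h2 φ hφ) hx hE hfr hc'
  obtain ⟨Hy, hHy, hHP⟩ := exists_hyp hy hi
  obtain ⟨M₀, hM₀, hden⟩ := exists_den hΔ
  -- the sequence of sections
  unfold NumDimLt at hnum
  push Not at hnum
  obtain ⟨A0, hA0, ε, hε, hseq⟩ := hnum
  have hseq' : ∀ q : ℕ, ∃ m b : ℕ, q + 1 ≤ m ∧ (b : ℝ) ≤ 1 / (q + 1) * m ∧
      ∃ g : Fin (ν + 1) → K, (∀ j, g j ∈ Lsp y c m (m • Δ + b • A0)) ∧ g 0 ≠ 0 ∧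
      ∃ u : Fin (n - ν) → K, (∀ a, IsPencil y (u a)) ∧
        ε * m ^ ν < degreeOver u (fun j : Fin ν => g j.succ / g 0) := by
    intro q
    obtain ⟨m, b, hm, hb, u, hu, ω, E', hω, hω0, hlt⟩ := hseq (1 / ((q : ℝ) + 1))
      (by positivity) (q + 1)
    refine ⟨m, b, hm, hb, fun j => ω j E, fun j => ?_, ?_, u, hu, ?_⟩
    · exact (isSection_iff hc' (hω j).1).1 (hω j)
    · exact (Pool.Agent.N110.ratio_frame hfr (hω 0).1 (hω 0).1 hω0).1
    · have e1 : (fun j : Fin ν => ω j.succ E / ω 0 E) = fun j : Fin ν => ω j.succ E' / ω 0 E' := by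
        funext j
        exact ((Pool.Agent.N110.ratio_frame hfr (hω 0).1 (hω j.succ).1 hω0).2).symm
      rw [e1]
      exact hlt
  choose m b hm hb g hg hg0 u hu hdeg using hseq'
  -- the divisors
  obtain ⟨A1, hA1⟩ : ∃ A1, A1 = A0 + Hy := ⟨_, rfl⟩
  have hA1e : Effective y A1 := by rw [hA1]; exact Effective.add' hA0 hHy
  obtain ⟨V, hV⟩ := exists_RSys hy hi hcfin hΔ hHy hHP hA0 (m := m) (b := b)
    (g := fun q => g q 0) hg0 (fun q => hg q 0)
  rw [← hA1] at hV
  have hVm : ∀ A q r, 1 ≤ r → ∀ v, v ∈ (V A q r).V ↔ g q 0 ^ r * v ∈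
      Lsp y c (m q * r) ((m q * r) • Δ + ((b q + 1) * r) • (A1 + A.1)) := hV.mem
  have hm1 : ∀ q, 1 ≤ m q := fun q => by have := hm q; omega
  -- the levels
  obtain ⟨T, hT⟩ : ∃ T : ℕ → ℕ, ∀ q, T q = M₀ * q.factorial := ⟨_, fun _ => rfl⟩
  have hT1 : ∀ q, 1 ≤ T q := fun q => by
    rw [hT]
    exact Nat.mul_pos hM₀ (Nat.factorial_pos _)
  have hTr : ∀ q, (1 : ℝ) ≤ T q := fun q => by exact_mod_cast hT1 q
  obtain ⟨m', hm'⟩ : ∃ m' : ℕ → ℕ, ∀ q, m' q = m q * T q := ⟨_, fun _ => rfl⟩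
  obtain ⟨b', hb'⟩ : ∃ b' : ℕ → ℕ, ∀ q, b' q = (b q + 1) * T q := ⟨_, fun _ => rfl⟩
  obtain ⟨G, hG⟩ : ∃ G : ℕ → K, ∀ q, G q = g q 0 ^ T q := ⟨_, fun _ => rfl⟩
  have hG0 : ∀ q, G q ≠ 0 := fun q => by
    rw [hG]
    exact pow_ne_zero _ (hg0 q)
  have hmm' : ∀ q, m q ≤ m' q := fun q => by
    rw [hm']
    exact Nat.le_mul_of_pos_right _ (hT1 q)
  have hm'1 : ∀ q, 1 ≤ m' q := fun q => (hm1 q).trans (hmm' q)
  obtain ⟨M, hM⟩ : ∃ M : {A : Place ℂ K → ℚ // Effective y A} → ℕ → Cls ℂ (affS y i), ∀ A q,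
      M A q = V A q (T q) := ⟨_, fun _ _ => rfl⟩
  have hMmem : ∀ A q v, v ∈ (M A q).V ↔
      G q * v ∈ Lsp y c (m' q) (m' q • Δ + b' q • (A1 + A.1)) := by
    intro A q v
    rw [hM, hG, hm', hb']
    exact hVm A q (T q) (hT1 q) v
  have hG1 : ∀ (A : {A : Place ℂ K → ℚ // Effective y A}) (q : ℕ), G q ∈ Lsp y c (m' q) (m' q • Δ + b' q • (A1 + A.1)) := by
    intro A q
    have := (hMmem A q 1).1 (M A q).one
    rwa [mul_one] at this
  obtain ⟨D, hDV⟩ : ∃ D : Cls ℂ (affS y i) → ℕ → Cls ℂ (affS y i), ∀ a v, D a v =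
      mulCls (fin_affS i) (one_affS hi) a (hpow hy hi (v - 1)) := ⟨_, fun _ _ => rfl⟩
  obtain ⟨β, f, hf, hdom⟩ := dom_sections hy hi hcfin hΔ
  obtain ⟨t, ht⟩ : ∃ t : Multiset (Cls ℂ (affS y i)) → ℝ, t = fun s => (I s : ℝ) := ⟨_, rfl⟩
  -- comparison after all maps
  have hLeW : ∀ (V V' : Cls ℂ (affS y i)) (g : K), g ≠ 0 → (∀ v ∈ V.V, g * v ∈ V'.V) →
      LeW n t (EWrd hy hn hi S) 1 V V' := by
    rintro V V' g hg0 hV l F ⟨w, -, -, rfl⟩ s hs
    rw [ht, one_mul]
    refine Nat.cast_le.2 (I_mono cx (g := w.prod g) (by rwa [Ne, map_eq_zero]) ?_ hs)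
    rintro _ ⟨v, hv, rfl⟩
    exact ⟨g * v, hV v hv, map_mul w.prod g v⟩
  have hdir : ∀ A A' : {A : Place ℂ K → ℚ // Effective y A}, (∀ P, IsPrimeDivisor y P →
      A.1 P ≤ A'.1 P) → ∀ q, LeW n t (EWrd hy hn hi S) 1 (M A q) (M A' q) := by
    intro A A' hAA q
    refine hLeW _ _ 1 one_ne_zero fun v hv => ?_
    rw [one_mul]
    rw [hMmem] at hv ⊢
    refine Lsp_mono le_rfl (Effective.add' hA1e A.2).1 (fun P hP => ?_) hv
    have := hAA P hP
    change A1 P + A.1 P ≤ A1 P + A'.1 P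
    linarith
  -- pull back
  have hMpull : ∀ ψ : K →ₐ[ℂ] K, EPulls y c Δ ψ → ∀ A : {A : Place ℂ K → ℚ // Effective y A},
      ∃ A' : {A : Place ℂ K → ℚ // Effective y A}, ∃ J : K, J ≠ 0 ∧ ∀ q, ∀ v ∈ (M A q).V,
        (J ^ m' q * ψ (G q) / G q) * ψ v ∈ (M A' q).V := by
    intro ψ hψ A
    obtain ⟨J, hJ, B, hB, hB1⟩ := hψ (A1 + A.1) (Effective.add' hA1e A.2)
    refine ⟨⟨B, hB⟩, J, hJ, fun q v hv => ?_⟩
    rw [hMmem] at hv ⊢
    have e1 := hB1 (m' q) (b' q) (hm'1 q) _ hv
    have e2 : G q * (J ^ m' q * ψ (G q) / G q * ψ v) = J ^ m' q * ψ (G q * v) := by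
      rw [map_mul]
      have := hG0 q
      field_simp
    rw [e2]
    refine Lsp_mono le_rfl hB.1 (fun P hP => ?_) e1
    have := hA1e.1 P hP
    change B P ≤ A1 P + B P
    linarith
  obtain ⟨Z, hZ⟩ : ∃ Z : {A : Place ℂ K → ℚ // Effective y A}, Z = ⟨0, fun _ _ => le_rfl, by
    refine Set.finite_empty.subset ?_
    rintro P ⟨-, h⟩
    exact h rfl⟩ := ⟨_, rfl⟩
  have hZ0 : Z.1 = 0 := by rw [hZ]
  -- the lower bound at the lowest level
  have hVlow : ∀ q, ε * (m q : ℝ) ^ ν ≤
      t (Multiset.replicate ν (V Z q 1) + Multiset.replicate (n - ν) (hcls hy hi)) := by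
    intro q
    have hcard : (Multiset.replicate ν (V Z q 1) + Multiset.replicate (n - ν)
        (hcls hy hi)).card = n := by
      rw [Multiset.card_add, Multiset.card_replicate, Multiset.card_replicate]
      omega
    have e1 : degreeOver (u q) (fun j : Fin ν => g q j.succ / g q 0) =
        dm ℂ (toM (u q) + toM (fun j : Fin ν => g q j.succ / g q 0)) :=
      deg_dm (toM_set _) (toM_set _)
    obtain ⟨Q', hQ', e2⟩ := replace_pencils' hy hn hi (toM (u q))
      (toM (fun j : Fin ν => g q j.succ / g q 0))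
      (by rw [Multiset.card_add, toM_card, toM_card]; omega) (fun z hz => by
        obtain ⟨j, rfl⟩ := mem_toM.1 hz
        exact hu q j)
    rw [toM_card] at hQ'
    have hsel : Sel (toM (fun j : Fin ν => g q j.succ / g q 0))
        (Multiset.replicate ν (V Z q 1)) := by
      rw [sel_rep]
      refine ⟨toM_card _, fun z hz => ?_⟩
      obtain ⟨j, rfl⟩ := mem_toM.1 hz
      rw [hVm Z q 1 le_rfl, pow_one, mul_one, mul_one]
      have e3 : g q 0 * (g q j.succ / g q 0) = g q j.succ := mul_div_cancel₀ _ (hg0 q)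
      rw [e3]
      refine Lsp_mono (Nat.le_succ _) hA0.1 (fun P hP => ?_) (hg q j.succ)
      have e4 := hHy.1 P hP
      have e5 := Z.2.1 P hP
      rw [hA1]
      change A0 P ≤ A0 P + Hy P + Z.1 P
      linarith
    have e3 := le_I cx hcard (sel_add hsel hQ')
    have e4 : degreeOver (u q) (fun j : Fin ν => g q j.succ / g q 0) ≤
        I (Multiset.replicate ν (V Z q 1) + Multiset.replicate (n - ν) (hcls hy hi)) := by
      rw [e1]
      rw [add_comm] at e3
      exact e2.trans e3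
    rw [ht]
    exact (hdeg q).le.trans (Nat.cast_le.2 e4)
  have data : SysC n t (EWrd hy hn hi S) (hcls hy hi) (fun q => (m' q : ℝ)) M D ν
      (β + 1) ε C₁ := by
    refine ⟨?_, ?_, hn0, hν, by positivity, hε, ?_, ?_, ?_, ewrd_comp hy hn hi S, ?_, ?_, ?_, ?_,
      ?_, ?_, ?_, ?_, ?_, ?_, ?_⟩
    · -- pos
      intro s hs
      rw [ht]
      beta_reduce
      exact_mod_cast I_pos cx hs
    · -- ex
      rw [ht]
      exact exch cx
    · -- one
      refine ⟨[], rfl, by simp, ?_⟩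
      funext A
      rw [List.prod_nil, eCls_one]
      rfl
    · -- zero_id
      rintro F ⟨w, hw, -, rfl⟩
      rw [List.length_eq_zero_iff] at hw
      subst hw
      funext A
      rw [List.prod_nil, eCls_one]
      rfl
    · -- split
      rintro l k F ⟨w, hw, hwS, rfl⟩
      refine ⟨eCls hy hn hi (w.take l).prod, ⟨w.take l, by rw [List.length_take]; omega,
        fun φ hφ => hwS φ (List.mem_of_mem_take hφ), rfl⟩,
        eCls hy hn hi (w.drop l).prod, ⟨w.drop l, by rw [List.length_drop]; omega,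
        fun φ hφ => hwS φ (List.mem_of_mem_drop hφ), rfl⟩, ?_⟩
      funext A
      change _ = eCls hy hn hi _ (eCls hy hn hi _ A)
      rw [eCls_eCls, ← List.prod_append, List.take_append_drop]
    · -- deg
      rintro l F ⟨w, -, -, rfl⟩
      refine ⟨mapDegree w.prod, by exact_mod_cast mapDegree_pos hess hn w.prod, fun s hs => ?_⟩
      rw [ht]
      beta_reduce
      exact_mod_cast I_emap hy hn hi w.prod hs
    · -- H_deg
      rintro F ⟨w, hw, hwS, rfl⟩
      obtain ⟨φ, rfl⟩ := List.length_eq_one_iff.1 hw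
      rw [List.prod_singleton, ht]
      beta_reduce
      exact_mod_cast hC₁ φ (hwS φ (by simp))
    · -- m_pos
      intro q
      exact_mod_cast hm'1 q
    · -- m_tend
      refine Filter.tendsto_atTop_mono (fun q => ?_) tendsto_natCast_atTop_atTop
      have := hm q
      have := hmm' q
      exact_mod_cast (by omega : q ≤ m' q)
    · -- M_f
      rintro k F ⟨w, -, hwS, rfl⟩ A
      obtain ⟨A', J, hJ, hA'⟩ := hMpull w.prod (hP1 w hwS) A
      refine ⟨A', fun q => hLeW _ _ (J ^ m' q * w.prod (G q) / G q)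
        (div_ne_zero (mul_ne_zero (pow_ne_zero _ hJ) (by rw [Ne, map_eq_zero]; exact hG0 q))
          (hG0 q)) ?_⟩
      rintro _ ⟨v, hv, rfl⟩
      exact hA' q v hv
    · -- M_le
      intro A
      obtain ⟨βA, gA, hgA, hdomA⟩ := hdom (A1 + A.1) (Effective.add' hA1e A.2)
      filter_upwards [Filter.eventually_ge_atTop (2 * βA)] with q hq
      rintro l F ⟨w, -, -, rfl⟩ s hs
      rw [ht]
      have e1 := I_dom_emap hy hn hi w.prod (V := M A q)
        (B := m' q * β + b' q * βA) (f := f ^ m' q * gA ^ b' q * G q)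
        (mul_ne_zero (mul_ne_zero (pow_ne_zero _ hf) (pow_ne_zero _ hgA)) (hG0 q))
        (fun v hv => by
          rw [mul_assoc]
          exact hdomA (m' q) (b' q) _ ((hMmem A q v).1 hv)) hs
      have e2 : ((m' q * β + b' q * βA : ℕ) : ℝ) ≤ ((β : ℝ) + 1) * m' q := by
        rw [hm', hb']
        push_cast
        have hmq : ((q : ℝ) + 1) ≤ m q := by exact_mod_cast hm q
        have hbq := hb q
        have hq' : 2 * (βA : ℝ) ≤ q := by exact_mod_cast hq
        have hβ0 : (0 : ℝ) ≤ βA := Nat.cast_nonneg _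
        have hm0 : (0 : ℝ) ≤ m q := Nat.cast_nonneg _
        have e3 : ((b q : ℝ) + 1) * βA ≤ m q := by
          have e4 : (b q : ℝ) * βA ≤ 1 / ((q : ℝ) + 1) * m q * βA :=
            mul_le_mul_of_nonneg_right hbq hβ0
          have e5 : 1 / ((q : ℝ) + 1) * m q * βA = m q * (βA / (q + 1)) := by ring
          have e6 : (βA : ℝ) / (q + 1) ≤ 1 / 2 := by
            rw [div_le_div_iff₀ (by positivity) (by norm_num)]
            linarith
          have e7 := mul_le_mul_of_nonneg_left e6 hm0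
          linarith
        have hT0 : (0 : ℝ) ≤ T q := Nat.cast_nonneg _
        have e8 := mul_le_mul_of_nonneg_right e3 hT0
        calc (m q : ℝ) * T q * β + (b q + 1) * T q * βA =
              m q * T q * β + (b q + 1) * βA * T q := by ring
          _ ≤ m q * T q * β + m q * T q := by linarith
          _ = (β + 1) * (m q * T q) := by ring
      calc ((I (eCls hy hn hi w.prod (M A q) ::ₘ s) : ℕ) : ℝ) ≤
            ((m' q * β + b' q * βA : ℕ) : ℝ) *
            (I (eCls hy hn hi w.prod (hcls hy hi) ::ₘ s) : ℝ) := by exact_mod_cast e1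
        _ ≤ ((β : ℝ) + 1) * m' q * (I (eCls hy hn hi w.prod (hcls hy hi) ::ₘ s) : ℝ) :=
          mul_le_mul_of_nonneg_right e2 (Nat.cast_nonneg _)
    · -- D_add
      rintro a v hv l F ⟨w, -, -, rfl⟩ s hs
      rw [ht, hDV]
      have e1 := I_add cx (D := eCls hy hn hi w.prod (mulCls (fin_affS i) (one_affS hi) a
        (hpow hy hi (v - 1)))) (V := eCls hy hn hi w.prod a)
        (V' := eCls hy hn hi w.prod (hpow hy hi (v - 1))) (by rw [eCls_mul]; exact le_rfl) hs
      have e2 := I_dom_emap hy hn hi w.prod (V := hpow hy hi (v - 1))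
        (B := v - 1 + 1) (f := 1) one_ne_zero (hpow_bnd hy hi (v - 1)) hs
      have e3 : v - 1 + 1 = v := by omega
      rw [e3] at e2
      beta_reduce
      exact_mod_cast e1.trans (Nat.add_le_add_left e2 _)
    · -- D_M
      intro a v hv s hs
      rw [ht, one_mul, hDV]
      refine Nat.cast_le.2 (I_mono cx (g := 1) one_ne_zero (fun w hw => ?_) hs)
      rw [one_mul]
      have := Submodule.mul_mem_mul hw (hpow hy hi (v - 1)).one
      rwa [mul_one] at this
    · -- D_H
      intro a v hv s hs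
      rw [ht, hDV]
      have e1 := I_pow cx (V := hcls hy hi)
        (D := mulCls (fin_affS i) (one_affS hi) a (hpow hy hi (v - 1))) (q := v) hv
        (fun w hw => by
          have e2 := hpow_pow hy hi (v - 1) w hw
          have e3 : v - 1 + 1 = v := by omega
          rw [e3] at e2
          have := Submodule.mul_mem_mul a.one e2
          rwa [one_mul] at this) hs
      beta_reduce
      exact_mod_cast e1
    · -- eps
      rintro l F ⟨w, -, hwS, rfl⟩ A
      obtain ⟨d, hd1, hpush⟩ := hP2 w hwS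
      obtain ⟨B, hB, hpush⟩ := hpush (A1 + Z.1) (Effective.add' hA1e Z.2)
      obtain ⟨A', hA'⟩ : ∃ A' : {A : Place ℂ K → ℚ // Effective y A},
          A' = ⟨A.1 + B, Effective.add' A.2 hB⟩ := ⟨_, rfl⟩
      refine ⟨A', hdir A A' fun P hP => ?_, ?_⟩
      · rw [hA']
        have := hB.1 P hP
        change A.1 P ≤ A.1 P + B P
        linarith
      filter_upwards [Filter.eventually_ge_atTop d] with q hq
      obtain ⟨φ, hφ⟩ : ∃ φ : K →ₐ[ℂ] K, φ = w.prod := ⟨_, rfl⟩
      rw [← hφ] at hpush ⊢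
      have hj0 : jac φ x E ≠ 0 := jac_ne hess hn hx hE hfr φ
      obtain ⟨r0, hr0⟩ := Nat.dvd_factorial hd1 hq
      have hr01 : 1 ≤ r0 := by
        rcases Nat.eq_zero_or_pos r0 with h0 | h0
        · rw [h0, mul_zero] at hr0
          have := Nat.factorial_pos q
          omega
        · exact h0
      obtain ⟨r, hr⟩ : ∃ r, r = M₀ * r0 := ⟨_, rfl⟩
      have hr1 : 1 ≤ r := by rw [hr]; exact Nat.mul_pos hM₀ hr01
      have hTrd : T q = r * d := by
        rw [hT, hr0, hr]
        ring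
      -- the comparison
      have hcmp : ∀ s : Multiset (Cls ℂ (affS y i)), s.card + 1 = n →
          d * I (V Z q r ::ₘ s) ≤ 1 * I (eCls hy hn hi φ (M A' q) ::ₘ s) := by
        intro s hs
        refine I_rat cx hd1 (h := G q / (jac φ x E ^ (m q * r * d) * φ (G q)))
          (div_ne_zero (hG0 q) (mul_ne_zero (pow_ne_zero _ hj0)
            (by rw [Ne, map_eq_zero]; exact hG0 q))) ?_ hs
        intro v hv Q _
        by_cases hv0 : v = 0
        · refine ⟨1, (eCls hy hn hi φ (M A' q)).one, one_ne_zero, ?_⟩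
          rw [hv0, zero_pow (by omega), mul_zero, Q.ord_zero, Q.ord_one, mul_zero]
        rw [hVm Z q r hr1] at hv
        have hg'0 : g q 0 ^ r * v ≠ 0 := mul_ne_zero (pow_ne_zero _ (hg0 q)) hv0
        obtain ⟨h, hh0, hh, hQ⟩ := hpush (m q * r) ((b q + 1) * r) (Nat.mul_pos (hm1 q) hr1)
          (fun P hP => by
            obtain ⟨z, hz⟩ := hden P hP
            refine ⟨m q * r0 * z, ?_⟩
            push_cast
            rw [← hz, hr]
            push_cast
            ring) _ hv hg'0 Q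
        have hφG0 : φ (G q) ≠ 0 := by rw [Ne, map_eq_zero]; exact hG0 q
        refine ⟨φ (h / G q), eCls_mem ?_, ?_, ?_⟩
        · rw [hMmem]
          have e1 : G q * (h / G q) = h := mul_div_cancel₀ _ (hG0 q)
          rw [e1, hm', hb', hTrd, ← mul_assoc, ← mul_assoc]
          refine Lsp_mono le_rfl hB.1 (fun P hP => ?_) hh
          rw [hA']
          have h3 := hA1e.1 P hP
          have h4 := A.2.1 P hP
          change B P ≤ A1 P + (A.1 P + B P)
          linarith
        · rw [Ne, map_eq_zero]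
          exact div_ne_zero hh0 (hG0 q)
        · rw [Nat.cast_one, one_mul, map_div₀, Q.ord_div (by rwa [Ne, map_eq_zero]) hφG0]
          have e1 : G q / (jac φ x E ^ (m q * r * d) * φ (G q)) * v ^ d =
              (g q 0 ^ r * v / jac φ x E ^ (m q * r)) ^ d / φ (G q) := by
            rw [hG, hTrd, div_pow, mul_pow, ← pow_mul, ← pow_mul]
            field_simp
          rw [e1, Q.ord_div (pow_ne_zero _ (div_ne_zero hg'0 (pow_ne_zero _ hj0))) hφG0,
            Q.ord_pow]
          linarith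
      have hdr : (0 : ℝ) < d := by exact_mod_cast hd1
      have hrr : (0 : ℝ) < r := by exact_mod_cast hr1
      have hle1 : Le n t (1 / d) (V Z q r) (eCls hy hn hi φ (M A' q)) := by
        intro s hs
        rw [ht, one_div, inv_mul_eq_div, le_div_iff₀ hdr]
        have h3 := hcmp s hs
        rw [one_mul] at h3
        rw [mul_comm]
        beta_reduce
        exact_mod_cast h3
      have hle2 : Le n t (1 / r) (V Z q 1) (V Z q r) := by
        intro s hs
        rw [ht, one_div, inv_mul_eq_div, le_div_iff₀ hrr]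
        have h3 := I_pow cx (V := V Z q 1) (D := V Z q r) hr1 (fun v hv => by
          rw [hVm Z q 1 le_rfl, pow_one, mul_one, mul_one] at hv
          rw [hVm Z q r hr1, ← mul_pow]
          exact pow_Lsp hv hr1) hs
        rw [mul_comm]
        beta_reduce
        exact_mod_cast h3
      have h3 := hle1.rep (by positivity) ν (Multiset.replicate (n - ν) (hcls hy hi))
        (by rw [Multiset.card_replicate]; omega)
      have h4 := hle2.rep (by positivity) ν (Multiset.replicate (n - ν) (hcls hy hi))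
        (by rw [Multiset.card_replicate]; omega)
      rw [one_div, inv_pow, inv_mul_eq_div, le_div_iff₀ (by positivity)] at h3 h4
      have h5 := hVlow q
      have e1 : (m' q : ℝ) = m q * r * d := by
        rw [hm', hTrd]
        push_cast
        ring
      rw [e1]
      calc ε * ((m q : ℝ) * r * d) ^ ν = ε * (m q : ℝ) ^ ν * (r : ℝ) ^ ν * (d : ℝ) ^ ν := by
            rw [mul_pow, mul_pow]
            ring
        _ ≤ t (Multiset.replicate ν (V Z q 1) + Multiset.replicate (n - ν) (hcls hy hi)) *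
            (r : ℝ) ^ ν * (d : ℝ) ^ ν := by gcongr
        _ ≤ t (Multiset.replicate ν (V Z q r) + Multiset.replicate (n - ν) (hcls hy hi)) *
            (d : ℝ) ^ ν := by gcongr
        _ ≤ _ := h3
    · -- zero
      intro hν1 A δ hδ
      obtain ⟨tt, htt, m0, hnd⟩ := hnum' hν1 (A1 + A.1) (Effective.add' hA1e A.2) δ hδ
      obtain ⟨q0, hq0⟩ := exists_nat_gt (2 / tt)
      filter_upwards [Filter.eventually_ge_atTop (max m0 (q0 + 1))] with q hq
      have hq1 : m0 ≤ q := (le_max_left _ _).trans hq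
      have hq2 : q0 + 1 ≤ q := (le_max_right _ _).trans hq
      rw [ht]
      have hcard : (Multiset.replicate (ν + 1) (M A q) + Multiset.replicate (n - (ν + 1))
          (hcls hy hi)).card = n := by
        rw [Multiset.card_add, Multiset.card_replicate, Multiset.card_replicate]
        omega
      obtain ⟨W, hW, e⟩ := exists_max cx hcard
      obtain ⟨W1, W2, s1, s2, rfl⟩ := sel_add_right hW
      rw [sel_rep] at s1 s2
      obtain ⟨w1, hw1⟩ := exists_fin W1 s1.1
      obtain ⟨w2, hw2⟩ := exists_fin W2 s2.1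
      have hw1m : ∀ j, w1 j ∈ (M A q).V := by
        intro j
        have h3 : w1 j ∈ {x | x ∈ W1} := by
          rw [hw1]
          exact ⟨j, rfl⟩
        exact s1.2 _ h3
      have hw2m : ∀ j, w2 j ∈ Submodule.span ℂ (affS y i) := by
        intro j
        have h3 : w2 j ∈ {x | x ∈ W2} := by
          rw [hw2]
          exact ⟨j, rfl⟩
        exact s2.2 _ h3
      have hbt : ((b' q : ℕ) : ℝ) ≤ tt * m' q := by
        rw [hb', hm']
        push_cast
        have hmq : ((q : ℝ) + 1) ≤ m q := by exact_mod_cast hm q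
        have hbq := hb q
        have hq2' : (q0 : ℝ) + 1 ≤ q := by exact_mod_cast hq2
        have e1 : 1 / ((q : ℝ) + 1) ≤ tt / 2 := by
          rw [div_le_div_iff₀ (by positivity) (by norm_num)]
          have e2 : 2 / tt * tt = 2 := by field_simp
          have e3 := mul_lt_mul_of_pos_right hq0 htt
          rw [e2] at e3
          nlinarith
        have e2 : (1 : ℝ) ≤ 1 / ((q : ℝ) + 1) * m q := by
          rw [one_div, inv_mul_eq_div, le_div_iff₀ (by positivity), one_mul]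
          exact hmq
        have e3 : 1 / ((q : ℝ) + 1) * m q ≤ tt / 2 * m q :=
          mul_le_mul_of_nonneg_right e1 (Nat.cast_nonneg _)
        have e4 : (b q : ℝ) + 1 ≤ tt * m q := by linarith
        have hT0 : (0 : ℝ) ≤ T q := Nat.cast_nonneg _
        have e5 := mul_le_mul_of_nonneg_right e4 hT0
        linarith
      have hbd := hnd (m' q) (b' q) (by have := hm q; have := hmm' q; omega) hbt w2
        (fun a => pencil_span hi (hw2m a))
        (Fin.cons (frm x (m' q) (G q)) fun j => frm x (m' q) (G q * w1 j)) E (fun j => by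
          refine Fin.cases ?_ (fun j => ?_) j
          · rw [Fin.cons_zero, isSection_iff hc' (frm_pluri x _ _), frm_self hE]
            exact hG1 A q
          · rw [Fin.cons_succ, isSection_iff hc' (frm_pluri x _ _), frm_self hE]
            exact (hMmem A q _).1 (hw1m j)) (by
          rw [Fin.cons_zero, frm_self hE]
          exact hG0 q)
      have e1 : (fun j : Fin (ν + 1) => (Fin.cons (frm x (m' q) (G q))
          (fun j => frm x (m' q) (G q * w1 j)) : Fin (ν + 1 + 1) → _ → K) j.succ E /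
          (Fin.cons (frm x (m' q) (G q)) (fun j => frm x (m' q) (G q * w1 j)) :
            Fin (ν + 1 + 1) → _ → K) 0 E) = w1 := by
        funext j
        rw [Fin.cons_succ, Fin.cons_zero, frm_self hE, frm_self hE]
        exact mul_div_cancel_left₀ _ (hG0 q)
      rw [e1, deg_dm hw2 hw1, add_comm W2 W1, e] at hbd
      exact hbd
  refine ⟨{A : Place ℂ K → ℚ // Effective y A}, ⟨Z⟩, fun q => (m' q : ℝ), M, D, ν, β + 1, ε, C₁,
    le_rfl, ?_⟩
  rw [ht] at data
  exact data

end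

end Pool.Agent.T2h12
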