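import Pool.Agent.T2h12.WgtL
import Pool.Agent.N110.QAssem

/-!
The existence of a system for the words in a set of self-maps.
-/

set_option autoImplicit false
set_option linter.overlappingInstances false
set_option linter.unusedSectionVars false

open FF Module MvPolynomial Pool.Agent.W602.GT Pool.Agent.W603.LV
open Pool.Agent.Y172 Pool.Agent.Y191 Pool.Agent.R887 Pool.Agent.N110

namespace Pool.Agent.T2h12

section

open Multiset Filter Topology

variable {α 𝒜 : Type*} {n : ℕ} {t : Multiset α → ℝ} {W : ℕ → Set (α → α)} {H : α} {m : ℕ → ℝ}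
  {M : 𝒜 → ℕ → α} {D : α → ℕ → α} {ν : ℕ} {c ε C₁ : ℝ}

theorem SysC.of_sysB (h : SysB n t W H m M D ν c ε C₁)
    (hcomp : ∀ l k, ∀ F ∈ W l, ∀ G ∈ W k, F ∘ G ∈ W (l + k)) : SysC n t W H m M D ν c ε C₁ where
  pos := h.pos
  ex := h.ex
  hn := h.hn
  hν := h.hν
  hc := h.hc
  hε := h.hε
  one := h.one
  zero_id := h.zero_id
  split := h.split
  comp := hcomp
  deg := h.deg
  H_deg := h.H_deg
  m_pos := h.m_pos
  m_tend := h.m_tend
  M_f := h.M_f
  M_le := h.M_le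
  D_add := h.D_add
  D_M := h.D_M
  D_H := h.D_H
  eps := fun l F hF a => ⟨a, fun q _ F _ s _ => (one_mul (t (F (M a q) ::ₘ s))).ge,
    h.eps l F hF a⟩
  zero := h.zero

theorem SysC.of_sys (h : Sys n t W H m M D ν c ε C₁)
    (hcomp : ∀ l k, ∀ F ∈ W l, ∀ G ∈ W k, F ∘ G ∈ W (l + k)) : SysC n t W H m M D ν c ε C₁ where
  pos := h.pos
  ex := h.ex
  hn := h.hn
  hν := h.hν
  hc := h.hc
  hε := h.hε
  one := h.one
  zero_id := h.zero_id
  split := h.split
  comp := hcomp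
  deg := h.deg
  H_deg := h.H_deg
  m_pos := h.m_pos
  m_tend := h.m_tend
  M_f := h.M_f
  M_le := h.M_le
  D_add := h.D_add
  D_M := h.D_M
  D_H := h.D_H
  eps := fun l F hF a => by
    obtain ⟨a0, ha0⟩ := h.eps l F hF
    obtain ⟨a', ha'⟩ := h.dir a a0
    refine ⟨a', fun q => (ha' q).1, ?_⟩
    filter_upwards [ha0] with q hq
    have h1 := ((ha' q).2 l F hF).rep zero_le_one ν (replicate (n - ν) H)
      (by have := h.hν; rw [card_replicate]; omega)
    rw [one_pow, one_mul] at h1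
    exact hq.trans h1
  zero := h.zero

end

variable {K : Type} [Field K] [Algebra ℂ K] {N n : ℕ} {y : Fin (N + 1) → K}

theorem ewrd_comp (hy : NormalModel y) (hn : Algebra.trdeg ℂ K = n) {i : Fin (N + 1)}
    (hi : y i ≠ 0) (S : Set (K →ₐ[ℂ] K)) : ∀ l k, ∀ F ∈ EWrd hy hn hi S l,
      ∀ G ∈ EWrd hy hn hi S k, F ∘ G ∈ EWrd hy hn hi S (l + k) := by
  rintro l k F ⟨w, hw, hwS, rfl⟩ G ⟨w', hw', hwS', rfl⟩
  refine ⟨w ++ w', by rw [List.length_append, hw, hw'], fun φ hφ => ?_, ?_⟩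
  · rcases List.mem_append.1 hφ with h | h
    · exact hwS φ h
    · exact hwS' φ h
  · funext A
    rw [List.prod_append, ← eCls_eCls]
    rfl

/-- there is a system for the words in `S` -/
def HasC (hy : NormalModel y) (hn : Algebra.trdeg ℂ K = n) {i : Fin (N + 1)}
    (hi : y i ≠ 0) (S : Set (K →ₐ[ℂ] K)) (ν₀ : ℕ) : Prop :=
  ∃ (𝒜 : Type) (_ : Nonempty 𝒜) (m : ℕ → ℝ) (M : 𝒜 → ℕ → Cls ℂ (affS y i))
    (D : Cls ℂ (affS y i) → ℕ → Cls ℂ (affS y i)) (ν : ℕ) (c ε C₁ : ℝ), ν₀ ≤ ν ∧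
    SysC n (fun s => (I s : ℝ)) (EWrd hy hn hi S) (hcls hy hi) m M D ν c ε C₁

end Pool.Agent.T2h12
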