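import Pool.Agent.T2h12.EGrow
import Pool.Agent.N110.QPlateau
import Pool.Agent.N110.RK.Stat

/-!
The plateau theorem for dominant self-maps of klt pairs, one above the Kodaira dimension.
-/

set_option autoImplicit false
set_option linter.overlappingInstances false
set_option linter.unusedSectionVars false

open FF Module MvPolynomial Pool.Agent.W602.GT Pool.Agent.W603.LV
open Pool.Agent.Y172 Pool.Agent.Y191 Pool.Agent.R887 Pool.Agent.N110
open scoped ENNReal Topology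

namespace Pool.Agent.T2h12

section

variable {K : Type} [Field K] [Algebra ℂ K] {N n : ℕ} {y : Fin (N + 1) → K}

/-- the plateau, from the growth of the joint degrees -/
theorem plateau_of_growth (hy : NormalModel y) (hn : Algebra.trdeg ℂ K = n)
    {i : Fin (N + 1)} (hi : y i ≠ 0) {S : Set (K →ₐ[ℂ] K)} {ν : ℕ} (hν : ν ≤ n)
    (hg : ∀ L L' : ℝ, 0 < L → L < L' →
      (∀ j, j + ν ≤ n → ∃ a ≤ ν, ∃ A : ℝ, ∃ l0 : ℕ, ∀ w : List (K →ₐ[ℂ] K),
        l0 ≤ w.length → (∀ φ ∈ w, φ ∈ S) →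
        (I (Multiset.replicate (j + a) (eCls hy hn hi w.prod (hcls hy hi)) +
          Multiset.replicate (n - (j + a)) (hcls hy hi)) : ℝ) ≤ A * L ^ w.length) →
      ∃ A : ℝ, ∀ w : List (K →ₐ[ℂ] K), (∀ φ ∈ w, φ ∈ S) → ∀ p, p ≤ n →
        (I (Multiset.replicate p (eCls hy hn hi w.prod (hcls hy hi)) +
        Multiset.replicate (n - p) (hcls hy hi)) : ℝ) ≤ A * L' ^ w.length) :
    ∃ j, j + ν ≤ n ∧ ∀ a ≤ ν, ∀ p ≤ n, selfJointDegree S y n p ≤ selfJointDegree S y n (j + a) := by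
  classical
  by_contra hcon
  push Not at hcon
  obtain ⟨d, hd⟩ : ∃ d : ℕ → ℕ → ℝ≥0∞, ∀ p l, d p l = ⨆ (w : List (K →ₐ[ℂ] K))
      (_ : w.length = l) (_ : ∀ φ ∈ w, φ ∈ S), selfDegree w.prod y n p := ⟨_, fun _ _ => rfl⟩
  have hdyn : ∀ p, selfJointDegree S y n p =
      Filter.limsup (fun l : ℕ => d p l ^ (1 / (l : ℝ))) Filter.atTop := by
    intro p
    unfold selfJointDegree
    congr 1
    funext l
    rw [hd]
  obtain ⟨p0, hp0, hmax⟩ := Finset.exists_max_image (Finset.range (n + 1))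
    (fun p => selfJointDegree S y n p) ⟨0, by simp⟩
  rw [Finset.mem_range] at hp0
  have hcon' : ∀ j, j + ν ≤ n → ∃ a ≤ ν, selfJointDegree S y n (j + a) < selfJointDegree S y n p0 := by
    intro j hj
    obtain ⟨a, ha, p, hp, hlt⟩ := hcon j hj
    exact ⟨a, ha, hlt.trans_le (hmax p (Finset.mem_range.2 (by omega)))⟩
  choose a ha halt using hcon'
  obtain ⟨B, hB⟩ : ∃ B : ℝ≥0∞, B = (Finset.range (n + 1)).sup fun j =>
      if hj : j + ν ≤ n then selfJointDegree S y n (j + a j hj) else 0 := ⟨_, rfl⟩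
  have hBlt : B < selfJointDegree S y n p0 := by
    rw [hB, Finset.sup_lt_iff]
    · intro j _
      split_ifs with hj
      · exact halt j hj
      · exact zero_le.trans_lt (halt 0 (by omega))
    · exact zero_le.trans_lt (halt 0 (by omega))
  obtain ⟨L, hL1, hL2⟩ := ENNReal.lt_iff_exists_nnreal_btwn.1 hBlt
  obtain ⟨L', hL3, hL4⟩ := ENNReal.lt_iff_exists_nnreal_btwn.1 hL2
  have hL0 : (0 : ℝ) < L := by
    have : (0 : ℝ≥0∞) < L := zero_le.trans_lt hL1
    exact_mod_cast this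
  have hLL' : (L : ℝ) < L' := by exact_mod_cast hL3
  obtain ⟨A, hA⟩ := hg L L' hL0 hLL' (by
    intro j hj
    have h3 : selfJointDegree S y n (j + a j hj) < ENNReal.ofReal L := by
      rw [ENNReal.ofReal_coe_nnreal]
      refine lt_of_le_of_lt ?_ hL1
      rw [hB]
      have h4 := Finset.le_sup (s := Finset.range (n + 1))
        (f := fun j => if hj : j + ν ≤ n then selfJointDegree S y n (j + a j hj) else 0)
        (Finset.mem_range.2 (by omega : j < n + 1))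
      simp only [dif_pos hj] at h4
      exact h4
    have ha' := ha j hj
    rw [hdyn] at h3
    obtain ⟨l0, hl0⟩ := ev_of_limsup hL0 h3
    refine ⟨a j hj, ha', 1, l0, fun w hw hwS => ?_⟩
    have h4 := hl0 w.length hw
    have h5 : selfDegree w.prod y n (j + a j hj) ≤ d (j + a j hj) w.length := by
      rw [hd]
      exact le_iSup_of_le w (le_iSup_of_le rfl (le_iSup_of_le hwS le_rfl))
    have h6 := h5.trans h4
    rw [selfDegree_eq hy hn hi w.prod (by omega)] at h6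
    have h7 := (ENNReal.le_ofReal_iff_toReal_le (ENNReal.natCast_ne_top _) (by positivity)).1 h6
    rw [one_mul]
    simpa using h7)
  have h3 : selfJointDegree S y n p0 ≤ ENNReal.ofReal L' := by
    rw [hdyn p0]
    refine limsup_of_bd (A := A) (hL0.trans hLL') fun l => ?_
    rw [hd]
    refine iSup_le fun w => iSup_le fun hw => iSup_le fun hwS => ?_
    rw [selfDegree_eq hy hn hi w.prod (by omega : p0 ≤ n), ← ENNReal.ofReal_natCast]
    refine ENNReal.ofReal_le_ofReal ?_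
    rw [← hw]
    exact hA w hwS p0 (by omega)
  rw [ENNReal.ofReal_coe_nnreal] at h3
  exact absurd hL4 (not_lt.2 h3)

/-- **The plateau theorem for dominant self-maps of klt pairs.** -/
theorem hyp_plateau (hy : NormalModel y) (hn : Algebra.trdeg ℂ K = n) {Δ : Place ℂ K → ℚ}
    (hΔ : Effective y Δ) (hklt : Klt y n Δ) {S : Set (K →ₐ[ℂ] K)} (hS : S.Finite)
    (h1 : ∀ φ ∈ S, SelfPullLe φ y n Δ) {κ : ℕ} (hκ : KappaGe y n Δ κ) (hκn : κ + 1 ≤ n)
    (hnum : ¬ NumDimLt y n Δ (κ + 1)) :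
    ∃ j, j + (κ + 1) ≤ n ∧ ∀ a ≤ κ + 1, ∀ p ≤ n,
      selfJointDegree S y n p ≤ selfJointDegree S y n (j + a) := by
  classical
  obtain ⟨m, hm⟩ : ∃ m, n = m + 1 + κ := ⟨n - (κ + 1), by omega⟩
  subst hm
  obtain ⟨i, hi⟩ := hy.ne
  obtain ⟨x, E, hx, hE⟩ := exists_crd hn (k := ℂ) (K := K)
  have hfr : IsFrame E := fun F => ⟨fun j => F (x j),
    (Pool.Agent.W73.PG.PULL.expand x hx E hE F).symm⟩
  obtain ⟨c, hcfin, hc⟩ := exists_ordc hy hn hx hE
  have hc' : IsDisc y E c := hc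
  obtain ⟨Hy, hHy, hHP⟩ := exists_hyp hy hi
  obtain ⟨m0, hm0, ω, E', hω, hω0, hind⟩ := hκ
  obtain ⟨g, hg⟩ : ∃ g : Fin (κ + 1) → K, g = fun j => ω j E := ⟨_, rfl⟩
  have hgm : ∀ j, g j ∈ Lsp y c m0 (m0 • Δ) := fun j => by
    rw [hg]
    exact (isSection_iff hc' (hω j).1).1 (hω j)
  have hgj0 : g 0 ≠ 0 := by
    rw [hg]
    exact (Pool.Agent.N110.ratio_frame hfr (hω 0).1 (hω 0).1 hω0).1
  obtain ⟨r, hr⟩ : ∃ r : Fin κ → K, r = fun j => g j.succ / g 0 := ⟨_, rfl⟩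
  have e1 : (fun j : Fin κ => ω j.succ E' / ω 0 E') = r := by
    rw [hr]
    funext j
    rw [hg]
    exact (Pool.Agent.N110.ratio_frame hfr (hω 0).1 (hω j.succ).1 hω0).2
  rw [e1] at hind
  have hrV : ∀ j, g 0 * r j ∈ Lsp y c m0 (m0 • Δ) := by
    intro j
    rw [hr]
    have e2 : g 0 * (g j.succ / g 0) = g j.succ := mul_div_cancel₀ _ hgj0
    change g 0 * (g j.succ / g 0) ∈ _
    rw [e2]
    exact hgm _
  obtain ⟨A₀, hA₀, hHA, ε, hε, hlow⟩ := base_low hy hn hi hfr hc' hcfin hΔ.2 hHy hHP hm0 hgj0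
    (by omega : κ + 1 ≤ m + 1 + κ) hnum
  obtain ⟨M, hM⟩ := exists_MSys hy hi hcfin hΔ.2 hHy hHP hA₀ hHA hgj0 (hgm 0)
  obtain ⟨ε', hε', hword⟩ := base_word hy hn hΔ hklt hx hE hfr hcfin hc' hm0 hgj0 (hgm 0) hind
    hrV hi hA₀ hM hε (fun t ht k0 => by
      obtain ⟨k, hk, b, hb1, hb, h2⟩ := hlow t ht (max k0 1)
      have hk1 : 1 ≤ k := (le_max_right _ _).trans hk
      exact ⟨k, (le_max_left _ _).trans hk, b, hb1, hb, h2 (M k b) (hM.mem k b hk1 hb1)⟩)
  have hJ1 : ∀ φ ∈ S, JPulls y c Δ x E φ := fun φ hφ => jpulls_of hy hn (h1 φ hφ) hx hE hfr hc'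
  have hEP : EProp hy hn hi M S (κ + 1) ε' := by
    intro L t ht k0
    obtain ⟨k, hk, b, hb1, hb, h2⟩ := hword t ht k0
    refine ⟨k, hk, b, hb1, hb, fun w _ hwS => ?_⟩
    have h3 := h2 w.prod (JPulls.word hy.ess hn hx hE hJ1 w hwS)
    rwa [show m + 1 + κ - (κ + 1) = m by omega]
  obtain ⟨ν, hν1, hν2, hgr⟩ := growth_word hy hn (by omega) hΔ.2 hx hE hfr hcfin hm0 hgj0 hi hA₀
    hM hS hJ1 hκn hε' hEP
  obtain ⟨j, hj, h⟩ := plateau_of_growth hy hn hi hν2 hgr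
  exact ⟨j, by omega, fun a ha p hp => h a (by omega) p hp⟩

end

end Pool.Agent.T2h12
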