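import Pool.Agent.T2h12.Rnd
import Pool.Agent.T2h12.CrepC
import Pool.Agent.T2h12.NefC
import Pool.Agent.T2h12.EGrowC
import Pool.Agent.T2h12.Plat

/-!
The systems for nef, crepant and klt pairs.
-/

set_option autoImplicit false
set_option linter.overlappingInstances false
set_option linter.unusedSectionVars false

open FF Module MvPolynomial Pool.Agent.W602.GT Pool.Agent.W603.LV
open Pool.Agent.Y172 Pool.Agent.Y191 Pool.Agent.R887 Pool.Agent.N110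

namespace Pool.Agent.T2h12

section

variable {K : Type} [Field K] [Algebra ℂ K] {N n : ℕ} {y : Fin (N + 1) → K}

theorem HasC.mono {hy : NormalModel y} {hn : Algebra.trdeg ℂ K = n} {i : Fin (N + 1)}
    {hi : y i ≠ 0} {S : Set (K →ₐ[ℂ] K)} {ν ν' : ℕ} (h : HasC hy hn hi S ν') (hν : ν ≤ ν') :
    HasC hy hn hi S ν := by
  obtain ⟨𝒜, h𝒜, m, M, D, ν'', c, ε, C₁, h1, data⟩ := h
  exact ⟨𝒜, h𝒜, m, M, D, ν'', c, ε, C₁, hν.trans h1, data⟩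

/-- the systems for nef pairs, and for crepant maps -/
theorem hasC_num (hy : NormalModel y) (hn : Algebra.trdeg ℂ K = n) (hn0 : 0 < n)
    {i : Fin (N + 1)} (hi : y i ≠ 0) {Δ : Place ℂ K → ℚ}
    (hΔ : {P | IsPrimeDivisor y P ∧ Δ P ≠ 0}.Finite)
    {S : Set (K →ₐ[ℂ] K)} (h1 : ∀ φ ∈ S, SelfPullLe φ y n Δ)
    (h2 : LogNef y n Δ ∨ ∀ φ ∈ S, SelfPushLe φ y n Δ)
    {C₁ : ℕ} (hC₁ : ∀ φ ∈ S, I (eCls hy hn hi φ (hcls hy hi) ::ₘ
      Multiset.replicate (n - 1) (hcls hy hi)) ≤ C₁) {ν : ℕ} (hν : ν ≤ n)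
    (hnum : ¬ NumDimLt y n Δ ν) : HasC hy hn hi S ν := by
  classical
  obtain ⟨ν', hν'⟩ : ∃ ν', ν' = Nat.findGreatest (fun j => ¬ NumDimLt y n Δ j) n := ⟨_, rfl⟩
  have hle : ν ≤ ν' := by rw [hν']; exact Nat.le_findGreatest hν hnum
  have hν'n : ν' ≤ n := by rw [hν']; exact Nat.findGreatest_le n
  have hnum1 : ¬ NumDimLt y n Δ ν' := by
    rw [hν']
    exact Nat.findGreatest_spec (P := fun j => ¬ NumDimLt y n Δ j) hν hnum
  have hnum2 : ν' + 1 ≤ n → NumDimLt y n Δ (ν' + 1) := by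
    intro h
    by_contra hcon
    exact Nat.findGreatest_is_greatest (P := fun j => ¬ NumDimLt y n Δ j) (n := n)
      (k := ν' + 1) (by rw [← hν']; omega) h hcon
  rcases h2 with hnef | hpush
  · exact (hasC_nef hy hn hn0 hi hΔ hnef h1 hC₁ hν'n hnum1 hnum2).mono hle
  · exact (hasC_crep hy hn hn0 hi hΔ h1 hpush hC₁ hν'n hnum1 hnum2).mono hle

/-- the systems for klt pairs -/
theorem hasC_klt (hy : NormalModel y) (hn : Algebra.trdeg ℂ K = n) {i : Fin (N + 1)}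
    (hi : y i ≠ 0) {Δ : Place ℂ K → ℚ}
    (hΔ : Effective y Δ) (hklt : Klt y n Δ) {S : Set (K →ₐ[ℂ] K)} (hS : S.Finite)
    (h1 : ∀ φ ∈ S, SelfPullLe φ y n Δ) {κ : ℕ} (hκ : KappaGe y n Δ κ) (hκn : κ + 1 ≤ n)
    (hnum : ¬ NumDimLt y n Δ (κ + 1)) : HasC hy hn hi S (κ + 1) := by
  classical
  obtain ⟨m, hm⟩ : ∃ m, n = m + 1 + κ := ⟨n - (κ + 1), by omega⟩
  subst hm
  obtain ⟨x, E, hx, hE⟩ := exists_crd hn (k := ℂ) (K := K)
  have hfr : IsFrame E := fun F => ⟨fun j => F (x j),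
    (Pool.Agent.W73.PG.PULL.expand x hx E hE F).symm⟩
  obtain ⟨c, hcfin, hc⟩ := exists_ordc hy hn hx hE
  have hc' : IsDisc y E c := hc
  obtain ⟨Hy, hHy, hHP⟩ := exists_hyp hy hi
  obtain ⟨m0, hm0, ω, E', hω, hω0, hind⟩ := hκ
  obtain ⟨g, hg⟩ : ∃ g : Fin (κ + 1) → K, g = fun j => ω j E := ⟨_, rfl⟩
  have hgm : ∀ j, g j ∈ Lsp y c m0 (m0 • Δ) := fun j => by
    rw [hg]
    exact (isSection_iff hc' (hω j).1).1 (hω j)
  have hgj0 : g 0 ≠ 0 := by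
    rw [hg]
    exact (Pool.Agent.N110.ratio_frame hfr (hω 0).1 (hω 0).1 hω0).1
  obtain ⟨r, hr⟩ : ∃ r : Fin κ → K, r = fun j => g j.succ / g 0 := ⟨_, rfl⟩
  have e1 : (fun j : Fin κ => ω j.succ E' / ω 0 E') = r := by
    rw [hr]
    funext j
    rw [hg]
    exact (Pool.Agent.N110.ratio_frame hfr (hω 0).1 (hω j.succ).1 hω0).2
  rw [e1] at hind
  have hrV : ∀ j, g 0 * r j ∈ Lsp y c m0 (m0 • Δ) := by
    intro j
    rw [hr]
    have e2 : g 0 * (g j.succ / g 0) = g j.succ := mul_div_cancel₀ _ hgj0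
    change g 0 * (g j.succ / g 0) ∈ _
    rw [e2]
    exact hgm _
  obtain ⟨A₀, hA₀, hHA, ε, hε, hlow⟩ := base_low hy hn hi hfr hc' hcfin hΔ.2 hHy hHP hm0 hgj0
    (by omega : κ + 1 ≤ m + 1 + κ) hnum
  obtain ⟨M, hM⟩ := exists_MSys hy hi hcfin hΔ.2 hHy hHP hA₀ hHA hgj0 (hgm 0)
  obtain ⟨ε', hε', hword⟩ := base_word hy hn hΔ hklt hx hE hfr hcfin hc' hm0 hgj0 (hgm 0) hind
    hrV hi hA₀ hM hε (fun t ht k0 => by
      obtain ⟨k, hk, b, hb1, hb, h2⟩ := hlow t ht (max k0 1)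
      have hk1 : 1 ≤ k := (le_max_right _ _).trans hk
      exact ⟨k, (le_max_left _ _).trans hk, b, hb1, hb, h2 (M k b) (hM.mem k b hk1 hb1)⟩)
  have hJ1 : ∀ φ ∈ S, JPulls y c Δ x E φ := fun φ hφ => jpulls_of hy hn (h1 φ hφ) hx hE hfr hc'
  have hEP : EProp hy hn hi M S (κ + 1) ε' := by
    intro L t ht k0
    obtain ⟨k, hk, b, hb1, hb, h2⟩ := hword t ht k0
    refine ⟨k, hk, b, hb1, hb, fun w _ hwS => ?_⟩
    have h3 := h2 w.prod (JPulls.word hy.ess hn hx hE hJ1 w hwS)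
    rwa [show m + 1 + κ - (κ + 1) = m by omega]
  exact hasC_word hy hn (by omega) hΔ.2 hx hE hfr hcfin hm0 hgj0 hi hA₀ hM hS hJ1 hκn hε' hEP

end

end Pool.Agent.T2h12
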