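import Pool.Agent.T2h12.GrowC
import Pool.Agent.T2h12.CrepE
import Pool.Agent.T2h12.Comm
import Pool.Agent.T2h12.RFin

/-!
The plateau theorem for the joint dynamical degrees and the rank theorem, for crepant dominant
rational self-maps.
-/

set_option autoImplicit false
set_option linter.overlappingInstances false
set_option linter.unusedSectionVars false

open Filter Topology FF Module
open Pool.Agent.W602.GT Pool.Agent.W603.LV Pool.Agent.Y172 Pool.Agent.Y191 Pool.Agent.R887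
open Pool.Agent.N110.RK Pool.Agent.N110.SE Pool.Agent.N110 Pool.Agent.W619.PQ
open scoped ENNReal

namespace Pool.Agent.T2h12

section

variable {K : Type} [Field K] [Algebra ℂ K] {N n : ℕ} {y : Fin (N + 1) → K}

/-- the plateau of the joint dynamical degrees, from a system -/
theorem hasC_plateau (hy : NormalModel y) (hn : Algebra.trdeg ℂ K = n) {i : Fin (N + 1)}
    (hi : y i ≠ 0) {S : Set (K →ₐ[ℂ] K)} {ν : ℕ} (h : HasC hy hn hi S ν) :
    ∃ j, j + ν ≤ n ∧ ∀ a ≤ ν, ∀ p ≤ n, selfJointDegree S y n p ≤ selfJointDegree S y n (j + a) := by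
  classical
  obtain ⟨𝒜, h𝒜, m, M, D, ν', c, ε, C₁, hνν, data⟩ := h
  have hν' : ν' ≤ n := data.hν
  obtain ⟨j, hj, h⟩ := plateau_of_growth hy hn hi (S := S) hν' (fun L L' hL hlt hyp => by
    obtain ⟨A, hA⟩ := data.growth' h𝒜 hL hlt (by
      intro j hj
      obtain ⟨a, ha, A, l0, hA⟩ := hyp j hj
      refine ⟨a, ha, A, l0, fun l hl F hF => ?_⟩
      obtain ⟨w, hw, hwS, rfl⟩ := hF
      have h1 := hA w (by rw [hw]; exact hl) hwS
      rw [hw] at h1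
      exact h1)
    refine ⟨A, fun w hwS p hp => ?_⟩
    exact hA w.length _ ⟨w, rfl, hwS, rfl⟩ p hp)
  exact ⟨j, by omega, fun a ha p hp => h a (by omega) p hp⟩

/-- **The plateau theorem** for crepant self-maps. -/
theorem crep_plateau (hy : NormalModel y) (hn : Algebra.trdeg ℂ K = n) (hn0 : 0 < n)
    {Δ : Place ℂ K → ℚ} (hΔ : {P | IsPrimeDivisor y P ∧ Δ P ≠ 0}.Finite)
    {S : Set (K →ₐ[ℂ] K)} (h1 : ∀ φ ∈ S, SelfPullLe φ y n Δ) (h2 : ∀ φ ∈ S, SelfPushLe φ y n Δ)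
    {C₁ : ℕ} (hC₁ : ∀ φ ∈ S, selfDegree φ y n 1 ≤ C₁) {ν : ℕ} (hν : ν ≤ n)
    (hnum : ¬ NumDimLt y n Δ ν) :
    ∃ j, j + ν ≤ n ∧ ∀ a ≤ ν, ∀ p ≤ n, selfJointDegree S y n p ≤ selfJointDegree S y n (j + a) := by
  obtain ⟨i, hi⟩ := hy.ne
  refine hasC_plateau hy hn hi (hasC_num hy hn hn0 hi hΔ h1 (Or.inr h2) (C₁ := C₁)
    (fun φ hφ => ?_) hν hnum)
  have h3 := hC₁ φ hφ
  rw [selfDegree_eq hy hn hi φ (by omega : 1 ≤ n), Nat.cast_le, Multiset.replicate_one,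
    Multiset.singleton_add] at h3
  exact h3

/-- **The rank theorem** for commuting crepant self-maps. -/
theorem crep_rank (hy : NormalModel y) (hn : Algebra.trdeg ℂ K = n) (hn0 : 0 < n)
    {Δ : Place ℂ K → ℚ} (hΔ : {P | IsPrimeDivisor y P ∧ Δ P ≠ 0}.Finite) {r s : ℕ}
    {φ : (Fin r → ℕ) → (K →ₐ[ℂ] K)} (hφ : ∀ u v, φ (u + v) = φ u * φ v)
    (h1 : ∀ v, SelfPullLe (φ v) y n Δ) (h2 : ∀ v, SelfPushLe (φ v) y n Δ)
    (hrank : CorrRankGe φ y n s) {ν : ℕ} (hν : ν ≤ n) (hνs : n < s + ν) :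
    NumDimLt y n Δ ν := by
  by_contra hnum
  obtain ⟨i, hi⟩ := hy.ne
  obtain ⟨W, hW1, hW⟩ := space_of_esys hy hn hn0 hi
    (esys_crep hy hn hn0 hi hΔ hφ h1 h2 hν hnum)
  have := hrank W hW
  omega

end

end Pool.Agent.T2h12
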