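import Pool.Agent.T2h12.Lin
import Pool.Agent.N110.Pair
import Pool.Agent.N110.Conv

/-!
The degree of an algebraic relation in one variable, and the degree of the field.
-/

set_option autoImplicit false
set_option linter.overlappingInstances false
set_option linter.unusedSectionVars false

open FF Module IntermediateField Pool.Agent.R887 Pool.Agent.N110

namespace Pool.Agent.T2h12

section

variable {B : Type*} [CommRing B]

open scoped Polynomial.Bivariate in
open Polynomial in
theorem swap_coeff (G : B[X][Y]) (i j : ℕ) :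
    ((Bivariate.swap G).coeff i).coeff j = (G.coeff j).coeff i := by
  classical
  induction G using Polynomial.induction_on' with
  | add p q hp hq => rw [map_add, coeff_add, coeff_add, coeff_add, coeff_add, hp, hq]
  | monomial n f =>
    induction f using Polynomial.induction_on' with
    | add p q hp hq =>
      rw [map_add, map_add, coeff_add, coeff_add, coeff_add, coeff_add, hp, hq]
    | monomial m r =>
      rw [Bivariate.swap_monomial_monomial, coeff_monomial, coeff_monomial]
      by_cases h1 : m = i
      · by_cases h2 : n = j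
        · rw [if_pos h1, if_pos h2, coeff_monomial, coeff_monomial, if_pos h2, if_pos h1]
        · rw [if_pos h1, if_neg h2, coeff_monomial, if_neg h2, coeff_zero]
      · by_cases h2 : n = j
        · rw [if_neg h1, if_pos h2, coeff_monomial, if_neg h1, coeff_zero]
        · rw [if_neg h1, if_neg h2, coeff_zero, coeff_zero]

open scoped Polynomial.Bivariate in
open Polynomial in
theorem natDegree_swap_ge (G : B[X][Y]) (j : ℕ) :
    (G.coeff j).natDegree ≤ (Bivariate.swap G).natDegree := by
  by_cases h0 : G.coeff j = 0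
  · rw [h0, natDegree_zero]
    exact Nat.zero_le _
  refine le_natDegree_of_ne_zero fun h1 => ?_
  have h2 := swap_coeff G (G.coeff j).natDegree j
  rw [h1, coeff_zero] at h2
  exact h0 (leadingCoeff_eq_zero.1 h2.symm)

end

section

variable {k K : Type} [Field k] [Field K] [Algebra k K] {m : ℕ}

/-- the elements of the generated field are quotients -/
theorem exists_frac (u : Fin m → K) (z : K) {c : K}
    (hc : c ∈ gen k (z ::ₘ toM u)) : ∃ a b : Polynomial (MvPolynomial (Fin m) k),
      Polynomial.eval₂ (MvPolynomial.aeval u : MvPolynomial (Fin m) k →ₐ[k] K) z b ≠ 0 ∧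
      c * Polynomial.eval₂ (MvPolynomial.aeval u : MvPolynomial (Fin m) k →ₐ[k] K) z b =
        Polynomial.eval₂ (MvPolynomial.aeval u : MvPolynomial (Fin m) k →ₐ[k] K) z a := by
  classical
  obtain ⟨ev, hev⟩ : ∃ ev : Polynomial (MvPolynomial (Fin m) k) →+* K,
      ev = Polynomial.eval₂RingHom
        ((MvPolynomial.aeval u : MvPolynomial (Fin m) k →ₐ[k] K) : MvPolynomial (Fin m) k →+* K) z :=
    ⟨_, rfl⟩
  have hev' : ∀ f, ev f = Polynomial.eval₂
      (MvPolynomial.aeval u : MvPolynomial (Fin m) k →ₐ[k] K) z f := fun f => by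
    rw [hev]
    rfl
  have hgen : ∀ x : K, x ∈ (Algebra.adjoin k {x | x ∈ z ::ₘ toM u} : Subalgebra k K) →
      ∃ f, ev f = x := by
    intro x hx
    induction hx using Algebra.adjoin_induction with
    | mem x hx =>
      rcases Multiset.mem_cons.1 (show x ∈ z ::ₘ toM u from hx) with rfl | hx
      · exact ⟨Polynomial.X, by rw [hev', Polynomial.eval₂_X]⟩
      · obtain ⟨j, rfl⟩ := mem_toM.1 hx
        refine ⟨Polynomial.C (MvPolynomial.X j), ?_⟩
        rw [hev', Polynomial.eval₂_C]
        exact MvPolynomial.aeval_X _ _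
    | algebraMap r =>
      refine ⟨Polynomial.C (MvPolynomial.C r), ?_⟩
      rw [hev', Polynomial.eval₂_C]
      exact MvPolynomial.aeval_C _ _
    | add x y _ _ hx hy =>
      obtain ⟨f, rfl⟩ := hx
      obtain ⟨g, rfl⟩ := hy
      exact ⟨f + g, map_add _ _ _⟩
    | mul x y _ _ hx hy =>
      obtain ⟨f, rfl⟩ := hx
      obtain ⟨g, rfl⟩ := hy
      exact ⟨f * g, map_mul _ _ _⟩
  unfold gen at hc
  rw [IntermediateField.mem_adjoin_iff_div] at hc
  obtain ⟨r, hr, s, hs, rfl⟩ := hc
  by_cases hs0 : s = 0
  · refine ⟨0, 1, ?_, ?_⟩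
    · rw [Polynomial.eval₂_one]
      exact one_ne_zero
    · rw [hs0, div_zero, zero_mul, Polynomial.eval₂_zero]
  · obtain ⟨f, hf⟩ := hgen r hr
    obtain ⟨g, hg⟩ := hgen s hs
    refine ⟨f, g, ?_, ?_⟩
    · rw [← hev', hg]
      exact hs0
    · rw [← hev', ← hev', hf, hg, div_mul_cancel₀ _ hs0]

/-- common denominators -/
theorem exists_common (u : Fin m → K) (z : K) {D : ℕ} {c : Fin D → K}
    (hc : ∀ i, c i ∈ gen k (z ::ₘ toM u)) :
    ∃ (a : Fin D → Polynomial (MvPolynomial (Fin m) k)) (b : K), b ≠ 0 ∧
      ∀ i, c i * b = Polynomial.eval₂ (MvPolynomial.aeval u : MvPolynomial (Fin m) k →ₐ[k] K) z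
        (a i) := by
  classical
  choose a b hb hab using fun i => exists_frac u z (hc i)
  obtain ⟨ev, hev⟩ : ∃ ev : Polynomial (MvPolynomial (Fin m) k) →+* K,
      ev = Polynomial.eval₂RingHom
        ((MvPolynomial.aeval u : MvPolynomial (Fin m) k →ₐ[k] K) : MvPolynomial (Fin m) k →+* K) z :=
    ⟨_, rfl⟩
  have hev' : ∀ f, Polynomial.eval₂
      (MvPolynomial.aeval u : MvPolynomial (Fin m) k →ₐ[k] K) z f = ev f := fun f => by
    rw [hev]
    rfl
  simp only [hev'] at hb hab ⊢
  refine ⟨fun i => a i * ∏ j ∈ Finset.univ.erase i, b j, ∏ j, ev (b j),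
    Finset.prod_ne_zero_iff.2 fun j _ => hb j, fun i => ?_⟩
  rw [map_mul, map_prod, ← hab, mul_assoc, Finset.mul_prod_erase Finset.univ (fun j => ev (b j))
    (Finset.mem_univ i)]

variable [CharZero k] [Algebra.EssFiniteType k K]

open scoped Polynomial.Bivariate in
open Polynomial in
/-- **The degree in one variable.** -/
theorem deg_bound (hn : Algebra.trdeg k K = (m + 1 : ℕ)) {x : Fin (m + 1) → K}
    (hx : AlgebraicIndependent k x) {z : K} {F : (MvPolynomial (Fin (m + 1)) k)[X]}
    (hF : ∀ G : (MvPolynomial (Fin (m + 1)) k)[X],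
      eval₂ (MvPolynomial.aeval x : MvPolynomial (Fin (m + 1)) k →ₐ[k] K) z G = 0 → F ∣ G)
    {p : Fin (m + 1) → k} (hp : p 0 ≠ 0) {d : ℕ} (hd : 1 ≤ d)
    (hd2 : d ≤ (chg p (F.coeff 0)).natDegree) :
    d ≤ dm k (z ::ₘ toM fun j : Fin m => x j.succ - algebraMap k K (p j.succ / p 0) * x 0) := by
  classical
  obtain ⟨u, hu⟩ : ∃ u : Fin m → K, u = fun j : Fin m =>
      x j.succ - algebraMap k K (p j.succ / p 0) * x 0 := ⟨_, rfl⟩
  obtain ⟨v, hv⟩ : ∃ v : K, v = algebraMap k K (p 0)⁻¹ * x 0 := ⟨_, rfl⟩
  rw [← hu]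
  let _ : Algebra (MvPolynomial (Fin m) k) K :=
    ((MvPolynomial.aeval u : MvPolynomial (Fin m) k →ₐ[k] K) :
      MvPolynomial (Fin m) k →+* K).toAlgebra
  have hal : ∀ f : MvPolynomial (Fin m) k, algebraMap (MvPolynomial (Fin m) k) K f =
      MvPolynomial.aeval u f := fun f => rfl
  -- the evaluation
  have hev1 : ∀ f : (MvPolynomial (Fin m) k)[X], aeval v f =
      MvPolynomial.aeval x (chgInv p f) := by
    intro f
    have e1 : (aeval v : (MvPolynomial (Fin m) k)[X] →ₐ[MvPolynomial (Fin m) k] K).toRingHom =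
        ((MvPolynomial.aeval x : MvPolynomial (Fin (m + 1)) k →ₐ[k] K) :
          MvPolynomial (Fin (m + 1)) k →+* K).comp (chgInv p) := by
      apply Polynomial.ringHom_ext'
      · apply MvPolynomial.ringHom_ext
        · intro c
          change aeval v (C (MvPolynomial.C c)) =
            MvPolynomial.aeval x (chgInv p (C (MvPolynomial.C c)))
          rw [aeval_C, hal, MvPolynomial.aeval_C, chgInv_C, MvPolynomial.aeval_C,
            MvPolynomial.algebraMap_eq, MvPolynomial.aeval_C]
        · intro j
          change aeval v (C (MvPolynomial.X j)) =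
            MvPolynomial.aeval x (chgInv p (C (MvPolynomial.X j)))
          rw [aeval_C, hal, MvPolynomial.aeval_X, chgInv_C, MvPolynomial.aeval_X, map_sub, map_mul,
            MvPolynomial.aeval_X, MvPolynomial.aeval_X, MvPolynomial.aeval_C, hu]
      · change aeval v X = MvPolynomial.aeval x (chgInv p X)
        rw [aeval_X, chgInv_X, map_mul, MvPolynomial.aeval_X, MvPolynomial.aeval_C, hv]
    exact DFunLike.congr_fun e1 f
  have hev2 : ∀ G : (MvPolynomial (Fin m) k)[X][Y], aevalAeval v z G =
      eval₂ (MvPolynomial.aeval x : MvPolynomial (Fin (m + 1)) k →ₐ[k] K) z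
        (G.map (chgInv p)) := by
    intro G
    induction G using Polynomial.induction_on' with
    | add a b ha hb => rw [map_add, ha, hb, Polynomial.map_add, eval₂_add]
    | monomial i a =>
      rw [← C_mul_X_pow_eq_monomial, map_mul, map_pow, aevalAeval_Y, aevalAeval_C, hev1,
        Polynomial.map_mul, Polynomial.map_pow, map_C, map_X, eval₂_mul, eval₂_C,
        eval₂_pow, eval₂_X]
      rfl
  -- divisibility
  have hdiv : ∀ G : (MvPolynomial (Fin m) k)[X][Y], aevalAeval v z G = 0 →
      F.map (chg p : MvPolynomial (Fin (m + 1)) k →+* (MvPolynomial (Fin m) k)[X]) ∣ G := by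
    intro G hG
    rw [hev2] at hG
    have h1 := Polynomial.map_dvd (chg p : MvPolynomial (Fin (m + 1)) k →+* (MvPolynomial (Fin m) k)[X]) (hF _ hG)
    rw [Polynomial.map_map] at h1
    have h2 : (chg p : MvPolynomial (Fin (m + 1)) k →+* (MvPolynomial (Fin m) k)[X]).comp (chgInv p) = RingHom.id _ := by
      apply RingHom.ext
      intro f
      exact chg_chgInv hp f
    rwa [h2, Polynomial.map_id] at h1
  obtain ⟨F', hF'⟩ : ∃ F', F' = F.map (chg p : MvPolynomial (Fin (m + 1)) k →+* (MvPolynomial (Fin m) k)[X]) := ⟨_, rfl⟩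
  rw [← hF'] at hdiv
  have hdF : d ≤ (Bivariate.swap F').natDegree := by
    refine hd2.trans ?_
    have h1 := natDegree_swap_ge F' 0
    rw [hF', coeff_map] at h1
    rw [hF']
    exact h1
  have hdeg : ∀ G : (MvPolynomial (Fin m) k)[X][Y], G ≠ 0 → aevalAeval v z (Bivariate.swap G) = 0 →
      d ≤ G.natDegree := by
    intro G hG0 hG
    obtain ⟨H, hH⟩ := hdiv _ hG
    have h1 := congrArg Bivariate.swap hH
    rw [Bivariate.swap_swap_apply, map_mul] at h1
    have h2 : Bivariate.swap F' ≠ 0 := by
      intro h0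
      rw [h0, zero_mul] at h1
      exact hG0 h1
    have h3 : Bivariate.swap H ≠ 0 := by
      intro h0
      rw [h0, mul_zero] at h1
      exact hG0 h1
    rw [h1, natDegree_mul h2 h3]
    omega
  -- the independence of `u`
  have hind : AlgebraicIndependent k u := by
    rw [AlgebraicIndependent]
    intro f g hfg
    have h1 : aeval v (C f) = (aeval v (C g) : K) := by
      rw [aeval_C, aeval_C, hal, hal]
      exact hfg
    rw [hev1, hev1] at h1
    have h2 := hx h1
    have h3 := congrArg (chg p) h2
    rw [chg_chgInv hp, chg_chgInv hp] at h3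
    exact C_injective h3
  have hInd : Ind (m + 1) k (toM u) := by
    unfold Ind
    rw [toM_card]
    have h1 : gen k (toM u) = IntermediateField.adjoin k (Set.range u) := by
      unfold gen
      congr 1
      ext w
      exact mem_toM
    have h2 : Algebra.trdeg k (gen k (toM u)) + Algebra.trdeg (gen k (toM u)) K =
        Algebra.trdeg k K := _root_.trdeg_add_eq k (gen k (toM u)) (A := K)
    have h3 : (m : Cardinal) ≤ Algebra.trdeg k (gen k (toM u)) := by
      have hu' : AlgebraicIndependent k (fun j => (⟨u j, by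
          rw [h1]
          exact IntermediateField.subset_adjoin _ _ ⟨j, rfl⟩⟩ : gen k (toM u))) := by
        refine AlgebraicIndependent.of_comp (gen k (toM u)).val ?_
        exact hind
      have := hu'.cardinalMk_le_trdeg
      simpa using this
    rw [hn] at h2
    have h4 : Algebra.trdeg (gen k (toM u)) K + m ≤ Algebra.trdeg k (gen k (toM u)) +
        Algebra.trdeg (gen k (toM u)) K := by
      rw [add_comm]
      gcongr
    rw [h2] at h4
    exact h4
  -- `z` is transcendental
  have hz : Transcendental (gen k (toM u)) z := by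
    intro halg
    obtain ⟨f, hf0, hf⟩ := halg
    obtain ⟨a, b, hb, hab⟩ := exists_common (k := k) u 0 (c := fun i : Fin (f.natDegree + 1) =>
      (f.coeff i : K)) (fun i => by
        have : (f.coeff i : K) ∈ gen k (toM u) := (f.coeff i).2
        refine (IntermediateField.adjoin.mono _ _ _ ?_ : gen k (toM u) ≤ gen k (0 ::ₘ toM u)) this
        intro w hw
        exact Multiset.mem_cons_of_mem (show w ∈ toM u from hw))
    -- the polynomials with constant coefficients in the last variable
    obtain ⟨g, hg⟩ : ∃ g : Fin (f.natDegree + 1) → MvPolynomial (Fin m) k,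
        ∀ i, MvPolynomial.aeval u (g i) = (f.coeff i : K) * b := by
      refine ⟨fun i => (a i).coeff 0, fun i => ?_⟩
      rw [hab, eval₂_at_zero]
      rfl
    obtain ⟨G, hG⟩ : ∃ G : (MvPolynomial (Fin m) k)[X],
        G = ∑ i : Fin (f.natDegree + 1), monomial (i : ℕ) (g i) := ⟨_, rfl⟩
    have hG0 : G ≠ 0 := by
      intro h0
      have h1 := congrArg (fun q => q.coeff f.natDegree) h0
      simp only [hG, finsetSum_coeff, coeff_monomial, coeff_zero] at h1
      rw [Finset.sum_eq_single (Fin.last f.natDegree)] at h1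
      · rw [Fin.val_last, if_pos rfl] at h1
        have h2 := hg (Fin.last f.natDegree)
        rw [h1, map_zero, Fin.val_last] at h2
        have h3 : (f.coeff f.natDegree : K) ≠ 0 := by
          intro h4
          apply hf0
          rw [← leadingCoeff_eq_zero]
          exact Subtype.ext h4
        exact (mul_ne_zero h3 hb) h2.symm
      · intro i _ hi
        rw [if_neg]
        intro h
        exact hi (Fin.ext (by rw [Fin.val_last]; exact h))
      · intro h
        exact absurd (Finset.mem_univ _) h
    have hGz : aeval z G = 0 := by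
      rw [hG, map_sum]
      have h1 : ∀ i : Fin (f.natDegree + 1), aeval z (monomial (i : ℕ) (g i)) =
          (f.coeff i : K) * z ^ (i : ℕ) * b := by
        intro i
        rw [aeval_monomial, hal, hg]
        ring
      rw [Finset.sum_congr rfl fun i _ => h1 i, ← Finset.sum_mul]
      have h2 : aeval z f = ∑ i : Fin (f.natDegree + 1), (f.coeff i : K) * z ^ (i : ℕ) := by
        rw [aeval_eq_sum_range, Finset.sum_range]
        rfl
      rw [← h2, hf, zero_mul]
    have h1 := hdeg (C G) (C_ne_zero.2 hG0) (by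
      rw [Bivariate.aevalAeval_swap, aevalAeval_C]
      exact hGz)
    rw [natDegree_C] at h1
    omega
  have hdm : dm k (z ::ₘ toM u) ≠ 0 := (hInd.cons hz).dm_ne (by
    rw [Multiset.card_cons, toM_card])
  -- the linear dependence of the powers of `v`
  have hfd : FiniteDimensional (gen k (z ::ₘ toM u)) K :=
    FiniteDimensional.of_finrank_pos (Nat.pos_of_ne_zero hdm)
  obtain ⟨D, hD⟩ : ∃ D, D = dm k (z ::ₘ toM u) := ⟨_, rfl⟩
  have hdep : ¬ LinearIndependent (gen k (z ::ₘ toM u)) (fun i : Fin (D + 1) => v ^ (i : ℕ)) := by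
    intro h
    have h1 := h.fintype_card_le_finrank
    rw [Fintype.card_fin] at h1
    unfold dm at hD
    omega
  rw [Fintype.not_linearIndependent_iff] at hdep
  obtain ⟨c, hc, i0, hi0⟩ := hdep
  obtain ⟨a, b, hb, hab⟩ := exists_common (k := k) u z (c := fun i => (c i : K)) fun i => (c i).2
  obtain ⟨G, hG⟩ : ∃ G : (MvPolynomial (Fin m) k)[X][Y],
      G = ∑ i : Fin (D + 1), monomial (i : ℕ) (a i) := ⟨_, rfl⟩
  have haeval : ∀ i, aeval z (a i) = (c i : K) * b := fun i => by
    rw [hab]
    rfl
  have hG0 : G ≠ 0 := by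
    intro h0
    have h1 := congrArg (fun q => q.coeff (i0 : ℕ)) h0
    simp only [hG, finsetSum_coeff, coeff_monomial, coeff_zero] at h1
    rw [Finset.sum_eq_single i0] at h1
    · rw [if_pos rfl] at h1
      have h2 := haeval i0
      rw [h1, map_zero] at h2
      exact (mul_ne_zero (fun h4 => hi0 (Subtype.ext h4)) hb) h2.symm
    · intro i _ hi
      rw [if_neg]
      intro h
      exact hi (Fin.ext h)
    · intro h
      exact absurd (Finset.mem_univ _) h
  have hGdeg : G.natDegree ≤ D := by
    rw [hG]
    refine natDegree_sum_le_of_forall_le _ _ fun i _ => ?_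
    refine (natDegree_monomial_le _).trans ?_
    omega
  have h1 := hdeg G hG0 (by
    rw [Bivariate.aevalAeval_swap, hG, map_sum]
    have h2 : ∀ i : Fin (D + 1), aevalAeval z v (monomial (i : ℕ) (a i)) =
        (c i : K) * v ^ (i : ℕ) * b := by
      intro i
      rw [← C_mul_X_pow_eq_monomial, map_mul, map_pow, aevalAeval_Y, aevalAeval_C, haeval]
      ring
    rw [Finset.sum_congr rfl fun i _ => h2 i, ← Finset.sum_mul]
    have h3 : ∑ i : Fin (D + 1), (c i : K) * v ^ (i : ℕ) = 0 := hc
    rw [h3, zero_mul])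
  rw [← hD]
  omega

end

end Pool.Agent.T2h12
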