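import Pool.Agent.T2h12.Rel
import Pool.Agent.T2h12.DegB
import Pool.Agent.Y172.Cov2

/-!
The degree of a function with a zero of high order at a place, compared with the order of the
Jacobian determinant of the coordinates at this place.
-/

set_option autoImplicit false
set_option linter.overlappingInstances false
set_option linter.unusedSectionVars false

open FF Module Pool.Agent.W602.GT Pool.Agent.W603.LV Pool.Agent.R887 Pool.Agent.N110
open Pool.Agent.Y172

namespace Pool.Agent.T2h12

section

variable {k K : Type} [Field k] [Field K] [Algebra k K] {n : ℕ}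

theorem der_aeval (D : Derivation k K K) (x : Fin n → K) (a : MvPolynomial (Fin n) k) :
    D (MvPolynomial.aeval x a) =
      ∑ j, D (x j) * MvPolynomial.aeval x (MvPolynomial.pderiv j a) := by
  classical
  induction a using MvPolynomial.induction_on with
  | C c =>
    rw [MvPolynomial.aeval_C, D.map_algebraMap]
    symm
    refine Finset.sum_eq_zero fun j _ => ?_
    rw [MvPolynomial.pderiv_C, map_zero, mul_zero]
  | add p q hp hq =>
    rw [map_add, map_add, hp, hq, ← Finset.sum_add_distrib]
    refine Finset.sum_congr rfl fun j _ => ?_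
    rw [map_add, map_add, mul_add]
  | mul_X p i hp =>
    rw [map_mul, MvPolynomial.aeval_X, D.leibniz, hp, smul_eq_mul, smul_eq_mul, Finset.mul_sum]
    have h1 : ∀ j, D (x j) * MvPolynomial.aeval x (MvPolynomial.pderiv j (p * MvPolynomial.X i)) =
        x i * (D (x j) * MvPolynomial.aeval x (MvPolynomial.pderiv j p)) +
          (if j = i then MvPolynomial.aeval x p * D (x i) else 0) := by
      intro j
      rw [MvPolynomial.pderiv_mul, MvPolynomial.pderiv_X, map_add, map_mul, map_mul,
        MvPolynomial.aeval_X]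
      by_cases h : j = i
      · subst h
        rw [Pi.single_eq_same, map_one, if_pos rfl]
        ring
      · rw [Pi.single_eq_of_ne (Ne.symm h), map_zero, if_neg h]
        ring
    rw [Finset.sum_congr rfl fun j _ => h1 j, Finset.sum_add_distrib, Finset.sum_ite_eq' Finset.univ i,
      if_pos (Finset.mem_univ _), add_comm]

theorem ge_mva (P : Place k K) {f : Fin n → K} (hf : ∀ j, Ge P 0 (f j))
    (H : MvPolynomial (Fin n) k) : Ge P 0 (MvPolynomial.aeval f H) := by
  induction H using MvPolynomial.induction_on with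
  | C a => rw [MvPolynomial.aeval_C]; exact Ge.const a
  | add p q hp hq => rw [map_add]; exact hp.add hq
  | mul_X p j hp => rw [map_mul, MvPolynomial.aeval_X]; simpa using hp.mul (hf j)

theorem exists_pderiv [CharZero k] {a : MvPolynomial (Fin n) k} (ha : 1 ≤ a.totalDegree) :
    ∃ j, MvPolynomial.pderiv j a ≠ 0 ∧
      (MvPolynomial.pderiv j a).totalDegree + 1 ≤ a.totalDegree := by
  classical
  have ha0 : a ≠ 0 := by
    rintro rfl
    rw [MvPolynomial.totalDegree_zero] at ha
    omega
  obtain ⟨s, hs, hsd⟩ := Finset.exists_mem_eq_sup a.support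
    (MvPolynomial.support_nonempty.2 ha0) (fun s => s.sum fun _ e => e)
  have hsd' : a.totalDegree = s.sum fun _ e => e := hsd
  have hj : ∃ j, s j ≠ 0 := by
    by_contra hcon
    push Not at hcon
    have : s = 0 := Finsupp.ext hcon
    rw [this, Finsupp.sum_zero_index] at hsd'
    omega
  obtain ⟨j, hj⟩ := hj
  have hs1 : s - Finsupp.single j 1 + Finsupp.single j 1 = s := by
    refine tsub_add_cancel_of_le ?_
    rw [Finsupp.single_le_iff]
    omega
  refine ⟨j, ?_, ?_⟩
  · intro h0
    have h1 := MvPolynomial.coeff_pderiv (i := j) a (s - Finsupp.single j 1)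
    rw [h0, MvPolynomial.coeff_zero, hs1] at h1
    rcases mul_eq_zero.1 h1.symm with h2 | h2
    · exact (MvPolynomial.mem_support_iff.1 hs) h2
    · obtain ⟨c, hc⟩ : ∃ c : ℕ, c = (s - Finsupp.single j 1 : Fin n →₀ ℕ) j := ⟨_, rfl⟩
      rw [← hc] at h2
      have h3 : ((c + 1 : ℕ) : k) = 0 := by
        push_cast
        exact h2
      exact absurd (Nat.cast_eq_zero.1 h3) (by omega)
  · have h1 : (MvPolynomial.pderiv j a).totalDegree ≤ a.totalDegree - 1 := by
      refine Finset.sup_le fun m hm => ?_
      have h2 : MvPolynomial.coeff (m + Finsupp.single j 1) a ≠ 0 := by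
        intro h0
        rw [MvPolynomial.mem_support_iff, MvPolynomial.coeff_pderiv, h0, zero_mul] at hm
        exact hm rfl
      have h3 := MvPolynomial.le_totalDegree (MvPolynomial.mem_support_iff.2 h2)
      rw [Finsupp.sum_add_index' (fun _ => rfl) (fun _ _ _ => rfl),
        Finsupp.sum_single_index rfl] at h3
      omega
    omega

/-- **The order of a polynomial in the coordinates.** -/
theorem ord_aeval_le [CharZero k] {Q : Place k K} {x : Fin n → K} (hreg : ∀ j, Q.Reg (x j))
    {Λ : Fin n → Derivation k K K} (hΛ : ∀ a, DerLog Q (Λ a))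
    (hdet : (Matrix.of fun a j => Λ a (x j)).det ≠ 0) {A : ℕ}
    (hA : Q.ord (Matrix.of fun a j => Λ a (x j)).det ≤ A) (d : ℕ) :
    ∀ a : MvPolynomial (Fin n) k, a ≠ 0 → a.totalDegree = d →
      MvPolynomial.aeval x a ≠ 0 ∧ Q.ord (MvPolynomial.aeval x a) ≤ (d * A : ℕ) := by
  classical
  induction d using Nat.strong_induction_on with
  | _ d ih =>
    intro a ha hd
    rcases Nat.eq_zero_or_pos d with hd0 | hd0
    · subst hd0
      rw [MvPolynomial.totalDegree_eq_zero_iff_eq_C] at hd
      rw [hd] at ha ⊢
      have hc : MvPolynomial.coeff 0 a ≠ 0 := by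
        intro h
        rw [h, map_zero] at ha
        exact ha rfl
      rw [MvPolynomial.aeval_C, Q.ord_const hc]
      refine ⟨?_, by positivity⟩
      rwa [Ne, map_eq_zero]
    · obtain ⟨j, hj0, hj1⟩ := exists_pderiv (a := a) (by omega)
      obtain ⟨h1, h2⟩ := ih _ (by omega) _ hj0 rfl
      obtain ⟨M, hM⟩ : ∃ M : Matrix (Fin n) (Fin n) K, M = Matrix.of fun a j => Λ a (x j) :=
        ⟨_, rfl⟩
      rw [← hM] at hdet hA
      obtain ⟨g, hg⟩ : ∃ g : Fin n → K, g = fun j =>
          MvPolynomial.aeval x (MvPolynomial.pderiv j a) := ⟨_, rfl⟩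
      obtain ⟨v, hv⟩ : ∃ v : Fin n → K, v = fun b => Λ b (MvPolynomial.aeval x a) := ⟨_, rfl⟩
      have h3 : M.mulVec g = v := by
        funext b
        rw [hv, hM, hg]
        change ∑ j : Fin n, Λ b (x j) * MvPolynomial.aeval x (MvPolynomial.pderiv j a) = Λ b _
        rw [der_aeval]
      have h4 : M.adjugate.mulVec v = M.det • g := by
        rw [← h3, Matrix.mulVec_mulVec, Matrix.adjugate_mul, Matrix.smul_mulVec, Matrix.one_mulVec]
      have h5 : M.det * g j = ∑ b, M.adjugate j b * v b := by
        have := congrFun h4 j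
        rw [Pi.smul_apply, smul_eq_mul] at this
        rw [← this]
        rfl
      have hMreg : ∀ a b, Ge Q 0 (M a b) := by
        intro a b
        rw [hM]
        exact DerLog.ge (hΛ a) (hreg b)
      have hadj : ∀ a b, Ge Q 0 (M.adjugate a b) := by
        intro a b
        rw [Matrix.adjugate_apply]
        refine Pool.Agent.W619.PQ.ge_det Q _ fun i l => ?_
        rw [Matrix.updateRow_apply]
        split_ifs
        · rw [Pi.single_apply]
          split_ifs
          · exact Ge.one
          · exact Ge.zero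
        · exact hMreg i l
      have hgj : g j ≠ 0 := by
        rw [hg]
        exact h1
      have h6 : Ge Q (Q.ord (MvPolynomial.aeval x a)) (∑ b, M.adjugate j b * v b) := by
        refine Ge.sum _ _ fun b _ => ?_
        have h7 : Ge Q (Q.ord (MvPolynomial.aeval x a)) (v b) := by
          rw [hv]
          exact DerLog.ge (hΛ b) (ge_ord Q _)
        have := (hadj j b).mul h7
        rwa [zero_add] at this
      have hne : MvPolynomial.aeval x a ≠ 0 := by
        intro h0
        have h7 : v = 0 := by
          funext b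
          rw [hv]
          change Λ b _ = 0
          rw [h0, map_zero]
        rw [h7] at h5
        simp only [Pi.zero_apply, mul_zero, Finset.sum_const_zero] at h5
        exact (mul_ne_zero hdet hgj) h5
      refine ⟨hne, ?_⟩
      rw [← h5] at h6
      have h7 := h6.resolve_left (mul_ne_zero hdet hgj)
      rw [Q.ord_mul hdet hgj] at h7
      have h8 : Q.ord (g j) ≤ (((MvPolynomial.pderiv j a).totalDegree * A : ℕ) : ℤ) := by
        rw [hg]
        exact h2
      have h9 : (MvPolynomial.pderiv j a).totalDegree * A + A ≤ d * A := by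
        have : (MvPolynomial.pderiv j a).totalDegree + 1 ≤ d := by omega
        calc _ = ((MvPolynomial.pderiv j a).totalDegree + 1) * A := by ring
          _ ≤ d * A := Nat.mul_le_mul_right _ this
      have h10 : (((MvPolynomial.pderiv j a).totalDegree * A : ℕ) : ℤ) + A ≤ ((d * A : ℕ) : ℤ) := by
        exact_mod_cast h9
      linarith

end

section

variable {k K : Type} [Field k] [CharZero k] [Field K] [Algebra k K] [Algebra.EssFiniteType k K]
  {m : ℕ}

/-- **The degree of a function with a zero of high order.** -/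
theorem alpha (hn : Algebra.trdeg k K = (m + 1 : ℕ)) {Q : Place k K} {x : Fin (m + 1) → K}
    (hreg : ∀ j, Q.Reg (x j)) {Λ : Fin (m + 1) → Derivation k K K} (hΛ : ∀ a, DerLog Q (Λ a))
    (hdet : (Matrix.of fun a j => Λ a (x j)).det ≠ 0) {A : ℕ}
    (hA : Q.ord (Matrix.of fun a j => Λ a (x j)).det ≤ A) (hA1 : 1 ≤ A) {z : K} {T : ℕ}
    (hT1 : 1 ≤ T) (hT : ((T * A : ℕ) : ℤ) ≤ Q.ord z) :
    ∃ p : Fin (m + 1) → ℕ, p 0 ≠ 0 ∧
      T ≤ dm k (z ::ₘ toM fun j : Fin m => x j.succ - ((p j.succ : K) / (p 0 : K)) * x 0) := by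
  classical
  have hz0 : z ≠ 0 := by
    rintro rfl
    rw [Q.ord_zero] at hT
    have : 1 ≤ T * A := Nat.mul_pos hT1 hA1
    omega
  have hQz : 0 ≤ Q.ord z := le_trans (Int.natCast_nonneg _) hT
  have key := fun a ha => ord_aeval_le hreg hΛ hdet hA _ a ha rfl
  have hx : AlgebraicIndependent k x := by
    rw [AlgebraicIndependent, injective_iff_map_eq_zero]
    intro a ha
    by_contra h0
    exact (key a h0).1 ha
  have hb : IsTranscendenceBasis k x := hx.isTranscendenceBasis_of_lift_trdeg_le_of_finite (by
    rw [hn]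
    simp)
  let _ : Algebra (MvPolynomial (Fin (m + 1)) k) K :=
    ((MvPolynomial.aeval x : MvPolynomial (Fin (m + 1)) k →ₐ[k] K) :
      MvPolynomial (Fin (m + 1)) k →+* K).toAlgebra
  have hst : IsScalarTower k (MvPolynomial (Fin (m + 1)) k) K :=
    IsScalarTower.of_algebraMap_eq fun c => by
      change _ = MvPolynomial.aeval x (algebraMap k _ c)
      rw [AlgHom.commutes]
  have hfs : FaithfulSMul (MvPolynomial (Fin (m + 1)) k) K := by
    rw [faithfulSMul_iff_algebraMap_injective]
    exact hx
  have hzalg : IsAlgebraic (MvPolynomial (Fin (m + 1)) k) z := by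
    have h1 := hb.isAlgebraic
    have h2 := h1.isAlgebraic z
    have h3 : (MvPolynomial.aeval x : MvPolynomial (Fin (m + 1)) k →ₐ[k] K).range =
        Algebra.adjoin k (Set.range x) := (Algebra.adjoin_range_eq_range_aeval k x).symm
    rw [← h3] at h2
    obtain ⟨f, hf0, hf⟩ := h2
    have hsurj : Function.Surjective
        ((MvPolynomial.aeval x : MvPolynomial (Fin (m + 1)) k →ₐ[k] K).rangeRestrict) :=
      AlgHom.rangeRestrict_surjective _
    obtain ⟨g, hg⟩ := Polynomial.map_surjective
      ((MvPolynomial.aeval x : MvPolynomial (Fin (m + 1)) k →ₐ[k] K).rangeRestrict :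
        MvPolynomial (Fin (m + 1)) k →+*
          (MvPolynomial.aeval x : MvPolynomial (Fin (m + 1)) k →ₐ[k] K).range) hsurj f
    refine ⟨g, ?_, ?_⟩
    · rintro rfl
      rw [Polynomial.map_zero] at hg
      exact hf0 hg.symm
    · rw [← hg, Polynomial.aeval_def, Polynomial.eval₂_map] at hf
      exact hf
  obtain ⟨F, hF0, hFz, hF⟩ := exists_rel hzalg
  have ha0 : F.coeff 0 ≠ 0 := by
    intro h0
    obtain ⟨G, hG⟩ := Polynomial.X_dvd_iff.2 h0
    have hG0 : G ≠ 0 := by
      rintro rfl
      rw [mul_zero] at hG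
      exact hF0 hG
    have h1 : Polynomial.aeval z G = 0 := by
      rw [hG, map_mul, Polynomial.aeval_X] at hFz
      exact (mul_eq_zero.1 hFz).resolve_left hz0
    have h2 := Polynomial.degree_le_of_dvd (hF G h1) hG0
    rw [hG, Polynomial.degree_mul, Polynomial.degree_X, Polynomial.degree_eq_natDegree hG0] at h2
    have h3 : ((1 + G.natDegree : ℕ) : WithBot ℕ) ≤ (G.natDegree : WithBot ℕ) := by
      push_cast
      exact h2
    have h4 : 1 + G.natDegree ≤ G.natDegree := by exact_mod_cast h3
    omega
  have hcoef : ∀ i, Ge Q 0 (algebraMap (MvPolynomial (Fin (m + 1)) k) K (F.coeff i)) := fun i =>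
    ge_mva Q hreg _
  have hval : Ge Q (Q.ord z) (algebraMap (MvPolynomial (Fin (m + 1)) k) K (F.coeff 0)) := by
    have h1 := Polynomial.X_mul_divX_add F
    have h2 := congrArg (Polynomial.aeval z) h1
    rw [hFz, map_add, map_mul, Polynomial.aeval_X, Polynomial.aeval_C] at h2
    have h3 : algebraMap (MvPolynomial (Fin (m + 1)) k) K (F.coeff 0) =
        -(z * Polynomial.aeval z F.divX) := by
      rw [eq_neg_iff_add_eq_zero, add_comm]
      exact h2
    rw [h3]
    have h4 : Ge Q 0 (Polynomial.aeval z F.divX) := by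
      rw [Polynomial.aeval_eq_sum_range]
      refine Ge.sum _ _ fun i _ => ?_
      rw [Algebra.smul_def, Polynomial.coeff_divX]
      have h5 := (ge_ord Q z).pow i
      have h6 : Ge Q 0 (z ^ i) := h5.mono (by positivity)
      have := (hcoef (i + 1)).mul h6
      rwa [zero_add] at this
    have := ((ge_ord Q z).mul h4).neg
    rwa [add_zero] at this
  obtain ⟨h1, h2⟩ := key _ ha0
  have h3 : T ≤ (F.coeff 0).totalDegree := by
    have h4 : Q.ord z ≤ Q.ord (MvPolynomial.aeval x (F.coeff 0)) := hval.resolve_left h1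
    have h5 : ((T * A : ℕ) : ℤ) ≤ (((F.coeff 0).totalDegree * A : ℕ) : ℤ) := hT.trans (h4.trans h2)
    have h6 : T * A ≤ (F.coeff 0).totalDegree * A := by exact_mod_cast h5
    exact Nat.le_of_mul_le_mul_right h6 (by omega)
  obtain ⟨p, hp0, hp⟩ := exists_chg ha0
  refine ⟨p, hp0, ?_⟩
  have h4 := deg_bound (F := F) hn hx (z := z) (fun G hG => hF G hG)
    (p := fun i => (p i : k)) (by exact_mod_cast hp0) hT1 (h3.trans hp)
  have h5 : (fun j : Fin m => x j.succ - algebraMap k K ((p j.succ : k) / (p 0 : k)) * x 0) =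
      fun j : Fin m => x j.succ - ((p j.succ : K) / (p 0 : K)) * x 0 := by
    funext j
    rw [map_div₀, map_natCast, map_natCast]
  rw [h5] at h4
  exact h4

end

end Pool.Agent.T2h12
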