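import Pool.Agent.N110.Cls

/-!
Countably many subspaces are avoided; common functions for countably many tuples.
-/

set_option autoImplicit false
set_option linter.overlappingInstances false
set_option linter.unusedSectionVars false

open FF Module IntermediateField Pool.Agent.R887 Pool.Agent.N110

namespace Pool.Agent.T2h12

section

variable {K : Type} [Field K] [Algebra ℂ K] {n : ℕ}

/-- countably many subspaces are avoided -/
theorem avoid_ct {d : ℕ} {s : Fin d → K} {U : Set (Submodule ℂ K)} (hU : U.Countable)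
    (h : ∀ X ∈ U, ∃ e ∈ Submodule.span ℂ (Set.range s), e ∉ X) :
    ∃ v ∈ Submodule.span ℂ (Set.range s), ∀ X ∈ U, v ∉ X := by
  classical
  have key : ∀ X ∈ U, {t : ℂ | ∑ i : Fin d, t ^ (i : ℕ) • s i ∈ X}.Finite := by
    intro X hX
    obtain ⟨e, he, heX⟩ := h X hX
    have h1 : ∃ i, s i ∉ X := by
      by_contra hcon
      push Not at hcon
      apply heX
      have : Submodule.span ℂ (Set.range s) ≤ X := by
        rw [Submodule.span_le]
        rintro _ ⟨i, rfl⟩
        exact hcon i
      exact this he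
    obtain ⟨i, hi⟩ := h1
    have h2 : (Submodule.Quotient.mk (s i) : K ⧸ X) ≠ 0 := by
      rwa [Ne, Submodule.Quotient.mk_eq_zero]
    obtain ⟨f, hf⟩ : ∃ f : Module.Dual ℂ (K ⧸ X), f (Submodule.Quotient.mk (s i)) ≠ 0 := by
      by_contra hcon
      push Not at hcon
      exact h2 ((Module.forall_dual_apply_eq_zero_iff ℂ _).1 hcon)
    obtain ⟨p, hp⟩ : ∃ p : Polynomial ℂ, p = ∑ j : Fin d,
        Polynomial.monomial (j : ℕ) (f (Submodule.Quotient.mk (s j))) := ⟨_, rfl⟩
    have hp0 : p ≠ 0 := by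
      intro h0
      have h3 := congrArg (fun q => q.coeff (i : ℕ)) h0
      simp only [hp, Polynomial.finsetSum_coeff, Polynomial.coeff_monomial,
        Polynomial.coeff_zero] at h3
      rw [Finset.sum_eq_single i] at h3
      · rw [if_pos rfl] at h3
        exact hf h3
      · intro j _ hj
        rw [if_neg]
        intro hji
        exact hj (Fin.ext hji)
      · intro hi
        exact absurd (Finset.mem_univ _) hi
    refine (Multiset.toFinset p.roots).finite_toSet.subset ?_
    intro t ht
    rw [Finset.mem_coe, Multiset.mem_toFinset, Polynomial.mem_roots hp0, Polynomial.IsRoot.def]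
    have h4 : f (Submodule.Quotient.mk (∑ i : Fin d, t ^ (i : ℕ) • s i)) = 0 := by
      have : (Submodule.Quotient.mk (∑ i : Fin d, t ^ (i : ℕ) • s i) : K ⧸ X) = 0 := by
        rw [Submodule.Quotient.mk_eq_zero]
        exact ht
      rw [this, map_zero]
    have h5 : f (Submodule.Quotient.mk (∑ i : Fin d, t ^ (i : ℕ) • s i)) = p.eval t := by
      rw [hp, Polynomial.eval_finsetSum]
      have h6 : (Submodule.Quotient.mk (∑ i : Fin d, t ^ (i : ℕ) • s i) : K ⧸ X) =
          ∑ i : Fin d, t ^ (i : ℕ) • (Submodule.Quotient.mk (s i) : K ⧸ X) := by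
        rw [← Submodule.mkQ_apply, map_sum]
        rfl
      rw [h6, map_sum]
      refine Finset.sum_congr rfl fun j _ => ?_
      rw [map_smul, Polynomial.eval_monomial, smul_eq_mul, mul_comm]
    rw [← h5]
    exact h4
  have h1 : (⋃ X ∈ U, {t : ℂ | ∑ i : Fin d, t ^ (i : ℕ) • s i ∈ X}).Countable :=
    hU.biUnion fun X hX => (key X hX).countable
  have h2 : (⋃ X ∈ U, {t : ℂ | ∑ i : Fin d, t ^ (i : ℕ) • s i ∈ X}) ≠ Set.univ := by
    intro h3
    rw [h3] at h1
    exact not_countable_complex h1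
  obtain ⟨t, ht⟩ := (Set.ne_univ_iff_exists_notMem _).1 h2
  simp only [Set.mem_iUnion, not_exists] at ht
  refine ⟨∑ i : Fin d, t ^ (i : ℕ) • s i, ?_, fun X hX hX' => ht X hX hX'⟩
  exact Submodule.sum_mem _ fun i _ => Submodule.smul_mem _ _ (Submodule.subset_span ⟨i, rfl⟩)

/-- the multiset `W` of functions is chosen in the multiset `L` of spaces -/
def SelS (W : Multiset K) (L : Multiset (Submodule ℂ K)) : Prop :=
  Multiset.Rel (fun x (V : Submodule ℂ K) => x ∈ V) W L

theorem SelS.card {W : Multiset K} {L : Multiset (Submodule ℂ K)} (h : SelS W L) :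
    W.card = L.card := Multiset.card_eq_card_of_rel h

theorem selS_cons_right {W : Multiset K} {V : Submodule ℂ K} {L : Multiset (Submodule ℂ K)}
    (h : SelS W (V ::ₘ L)) : ∃ x W', x ∈ V ∧ SelS W' L ∧ W = x ::ₘ W' := by
  unfold SelS at h
  rw [Multiset.rel_cons_right] at h
  exact h

/-- **Common functions for countably many tuples.** -/
theorem common_seq (hn : Algebra.trdeg ℂ K = n) (L : Multiset (Submodule ℂ K))
    (hL : ∀ V ∈ L, ∃ (d : ℕ) (s : Fin d → K), V = Submodule.span ℂ (Set.range s)) :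
    ∀ (W Q : ℕ → Multiset K), (∀ q, SelS (W q) L) → (∀ q, (W q + Q q).card = n) →
      (∀ q, dm ℂ (W q + Q q) ≠ 0) →
      ∃ W', SelS W' L ∧ ∀ q, dm ℂ (W q + Q q) ≤ dm ℂ (W' + Q q) := by
  classical
  induction L using Multiset.induction_on with
  | empty =>
    intro W Q h1 _ _
    refine ⟨0, Multiset.Rel.zero, fun q => ?_⟩
    have e1 : W q = 0 := Multiset.card_eq_zero.1 (by rw [(h1 q).card]; rfl)
    rw [e1]
  | cons V L ih =>
    intro W Q h1 h2 h3
    have h4 : ∀ q, ∃ x W', x ∈ V ∧ SelS W' L ∧ W q = x ::ₘ W' := fun q => selS_cons_right (h1 q)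
    choose x W' hx hW' hW using h4
    have hcard : ∀ q, (W' q + Q q).card + 1 = n := by
      intro q
      have := h2 q
      rw [hW, Multiset.cons_add, Multiset.card_cons] at this
      exact this
    have hne : ∀ q, dm ℂ (x q ::ₘ (W' q + Q q)) ≠ 0 := by
      intro q
      have := h3 q
      rwa [hW, Multiset.cons_add] at this
    have hU := fun q => improve hn (hcard q) (hne q)
    choose U hU1 hU2 using hU
    obtain ⟨d, s, rfl⟩ := hL V (Multiset.mem_cons_self _ _)
    obtain ⟨v, hv, hvU⟩ := avoid_ct (s := s) (U := ⋃ q, (U q : Set (Submodule ℂ K)))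
      (Set.countable_iUnion fun q => (U q).finite_toSet.countable) (fun X hX => by
        obtain ⟨q, hq⟩ := Set.mem_iUnion.1 hX
        exact ⟨x q, hx q, hU1 q X hq⟩)
    have h5 : ∀ q, dm ℂ (x q ::ₘ (W' q + Q q)) ≤ dm ℂ (v ::ₘ (W' q + Q q)) := fun q =>
      hU2 q v fun X hX => hvU X (Set.mem_iUnion.2 ⟨q, hX⟩)
    obtain ⟨W'', hW'', h6⟩ := ih (fun V hV => hL V (Multiset.mem_cons_of_mem hV)) W'
      (fun q => v ::ₘ Q q) hW' (fun q => by
        rw [Multiset.add_cons, Multiset.card_cons]
        exact hcard q) (fun q => by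
        rw [Multiset.add_cons]
        exact (Nat.pos_of_ne_zero (hne q) |>.trans_le (h5 q)).ne')
    refine ⟨v ::ₘ W'', Multiset.Rel.cons hv hW'', fun q => ?_⟩
    have h7 := h6 q
    rw [Multiset.add_cons, Multiset.add_cons] at h7
    rw [hW, Multiset.cons_add, Multiset.cons_add]
    exact (h5 q).trans h7

end

end Pool.Agent.T2h12
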