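import Pool.Agent.N110.Assem
import Pool.Agent.R887.Frm

/-!
The spaces of sections are finite dimensional, the orders of their nonzero elements are bounded.
Coordinates among the affine coordinates.
-/

set_option autoImplicit false
set_option linter.overlappingInstances false
set_option linter.unusedSectionVars false

open FF Module IntermediateField MvPolynomial Pool.Agent.W602.GT Pool.Agent.W603.LV
open Pool.Agent.Y172 Pool.Agent.Y191 Pool.Agent.R887 Pool.Agent.N110

namespace Pool.Agent.T2h12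

section

variable {K : Type} [Field K] [Algebra ℂ K] {N n : ℕ} {y : Fin (N + 1) → K}

theorem fin_Lsp (hy : NormalModel y) (hn : Algebra.trdeg ℂ K = n) {Δ : Place ℂ K → ℚ}
    (hΔ : Effective y Δ) {x : Fin n → K} {E : Fin n → Derivation ℂ K K}
    (hE : ∀ i j, E i (x j) = if i = j then 1 else 0)
    {c : Place ℂ K → ℤ} (hc : IsDisc y E c) {m : ℕ} (hm : 1 ≤ m) :
    Module.Finite ℂ (Lsp y c m (m • Δ)) := by
  classical
  have hZ : Effective y (0 : Place ℂ K → ℚ) := ⟨fun _ _ => le_rfl, by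
    refine Set.finite_empty.subset ?_
    rintro P ⟨-, h⟩
    exact h rfl⟩
  obtain ⟨C, hC⟩ := sec_growth hy hn hΔ hZ E
  have h1 : Module.rank ℂ (Lsp y c m (m • Δ)) ≤ (C * m ^ n : ℕ) := by
    refine rank_le fun s hs => ?_
    have h2 := hs.map' (Lsp y c m (m • Δ)).subtype (Submodule.ker_subtype _)
    have h3 := h2.comp s.equivFin.symm s.equivFin.symm.injective
    refine hC m hm _ _ h3 fun i => ?_
    refine ⟨frm x m ((s.equivFin.symm i).1 : K), ?_, frm_self hE m _⟩
    rw [isSection_iff hc (frm_pluri x m _), frm_self hE, add_zero]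
    exact (s.equivFin.symm i).1.2
  exact Module.rank_lt_aleph0_iff.1 (lt_of_le_of_lt h1 Cardinal.natCast_lt_aleph0)

/-- the orders of the nonzero elements of a space of finite dimension are bounded -/
theorem ord_bdd (V : Submodule ℂ K) [Module.Finite ℂ V] (P : Place ℂ K) :
    ∃ C : ℕ, ∀ g ∈ V, g ≠ 0 → P.ord g ≤ C := by
  classical
  obtain ⟨f, hf⟩ : ∃ f : ℕ →o (Submodule ℂ V)ᵒᵈ, ∀ k : ℕ, ∀ v : V,
      v ∈ (OrderDual.ofDual (f k)) ↔ ((v : K) = 0 ∨ (k : ℤ) ≤ P.ord (v : K)) := by
    refine ⟨⟨fun k => OrderDual.toDual ((geSub ℂ P (k : ℤ)).comap V.subtype), ?_⟩, ?_⟩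
    · intro a b hab
      rw [OrderDual.toDual_le_toDual]
      intro v hv
      rw [Submodule.mem_comap, mem_geSub] at hv ⊢
      refine hv.imp_right fun h => le_trans ?_ h
      exact_mod_cast hab
    · intro k v
      change v ∈ (geSub ℂ P (k : ℤ)).comap V.subtype ↔ _
      rw [Submodule.mem_comap, mem_geSub]
      rfl
  obtain ⟨N, hN⟩ := IsArtinian.monotone_stabilizes f
  refine ⟨N, fun g hg hg0 => ?_⟩
  by_contra hcon
  push Not at hcon
  have h1 : (⟨g, hg⟩ : V) ∈ OrderDual.ofDual (f N) := (hf N _).2 (Or.inr hcon.le)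
  obtain ⟨M, hM⟩ : ∃ M : ℕ, N ≤ M ∧ P.ord g < M :=
    ⟨max N ((P.ord g).toNat + 1), le_max_left _ _, by
      have : (((P.ord g).toNat + 1 : ℕ) : ℤ) ≤ ((max N ((P.ord g).toNat + 1) : ℕ) : ℤ) := by
        exact_mod_cast le_max_right _ _
      have h2 := Int.self_le_toNat (P.ord g)
      push_cast at this ⊢
      omega⟩
  rw [hN M hM.1] at h1
  rcases (hf M _).1 h1 with h2 | h2
  · exact hg0 h2
  · have h3 := hM.2
    have h4 : (M : ℤ) ≤ P.ord g := h2
    omega

/-- coordinates among the affine coordinates -/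
theorem exists_affine_basis (hy : NormalModel y) (hn : Algebra.trdeg ℂ K = n)
    {j : Fin (N + 1)} (hj : y j ≠ 0) :
    ∃ X : Fin n → K, IsTranscendenceBasis ℂ X ∧ ∀ l, X l ∈ affS y j := by
  classical
  have h1 : Algebra.IsAlgebraic (Algebra.adjoin ℂ (affS y j)) K := by
    have h2 : Algebra.IsAlgebraic (IntermediateField.adjoin ℂ (affS y j)) K :=
      alg_of_top (hy.field j hj)
    open scoped algebraAdjoinAdjoin in
    exact Algebra.IsAlgebraic.trans _ (IntermediateField.adjoin ℂ (affS y j)) K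
  obtain ⟨t, hts, ht⟩ := exists_isTranscendenceBasis_subset (R := ℂ) (affS y j)
  have h3 := ht.cardinalMk_eq_trdeg
  rw [hn] at h3
  have h4 : Cardinal.lift.{0} (Cardinal.mk t) = Cardinal.lift.{0} (Cardinal.mk (Fin n)) := by
    rw [h3]
    simp
  obtain ⟨e⟩ := Cardinal.lift_mk_eq'.1 h4
  refine ⟨fun i => ((e.symm i : t) : K), (isTranscendenceBasis_equiv e.symm).2 ht, fun l => ?_⟩
  exact hts (e.symm l).2

end

end Pool.Agent.T2h12
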