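import Pool.Agent.R887.Defs

/-!
Definition: Kawamata log terminal pairs.
-/

set_option autoImplicit false

open FF Pool.Agent.W602.GT Pool.Agent.Y172 Pool.Agent.R887

namespace Pool.Agent.T2h12

section

variable {K : Type} [Field K] [Algebra ℂ K] {N : ℕ}

/-- The pair `(X, Δ)` is Kawamata log terminal, `n` being the dimension of `X`: for every regular
function `s ≠ 0` on an affine chart `y j ≠ 0` of `X` the pair `(X, Δ + ε div s)` is log canonical on
this chart for some rational `ε > 0`; this means that the log discrepancy of `(X, Δ)` along every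
prime divisor `Q` over the chart is at least `ε` times the order of `s` along `Q`. -/
def Klt (y : Fin (N + 1) → K) (n : ℕ) (Δ : Place ℂ K → ℚ) : Prop :=
  ∀ j, y j ≠ 0 → ∀ s ∈ chart y j, s ≠ 0 → ∃ ε : ℚ, 0 < ε ∧
    ∀ Q : Place ℂ K, Divisorial n Q → Centred y j Q → LogDisc y n Δ Q (ε * Q.ord s)

end

end Pool.Agent.T2h12
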