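import Pool.Agent.T2h12.JPull
import Pool.Agent.T2h12.Fin
import Pool.Agent.T2h12.Klt

/-!
The Jacobian determinant of the affine coordinates with respect to the lifts of logarithmic vector
fields under self-maps which preserve a Kawamata log terminal pair with `K_X + Δ` effective.
-/

set_option autoImplicit false
set_option linter.overlappingInstances false
set_option linter.unusedSectionVars false

open FF Module MvPolynomial Pool.Agent.W602.GT Pool.Agent.W603.LV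
open Pool.Agent.Y172 Pool.Agent.Y191 Pool.Agent.R887 Pool.Agent.N110

namespace Pool.Agent.T2h12

section

variable {K : Type} [Field K] [Algebra ℂ K] {N n : ℕ} {y : Fin (N + 1) → K}

theorem eff_zero : Effective y (0 : Place ℂ K → ℚ) := ⟨fun _ _ => le_rfl, by
  refine Set.finite_empty.subset ?_
  rintro P ⟨-, h⟩
  exact h rfl⟩

/-- the orders of sections on logarithmic vector fields -/
theorem sec_log (hy : NormalModel y) (hn : Algebra.trdeg ℂ K = n) {Δ : Place ℂ K → ℚ}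
    {F : Fin n → Derivation ℂ K K} (hF : IsFrame F) {Q : Place ℂ K}
    (hQ : Divisorial n Q) {j : Fin (N + 1)} (hj : Centred y j Q) {α : ℚ}
    (hα : LogDisc y n Δ Q α) {m : ℕ} (hm : 1 ≤ m) {ω : (Fin n → Derivation ℂ K K) → K}
    (hω : IsSection y n m (m • Δ) ω) {D : Fin n → Derivation ℂ K K}
    (hD : ∀ i, DerLog Q (D i)) : ω D = 0 ∨ (m : ℚ) * α ≤ Q.ord (ω D) := by
  have hess := hy.ess
  obtain ⟨s, -, -, hs⟩ := disc_bound2 (Δ := Δ) (n := n) hy (eff_zero (y := y)) hF j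
  have h1 := hs Q hj α hα m 0 hm ω (by rw [smul_zero, add_zero]; exact hω)
  have h2 := log_gain (P := Q) hn hQ hω.1 (c := ((m * (α - 1) : ℚ) : ℝ)) (fun G hG => by
    refine (h1 G hG).imp_right fun h3 => ?_
    have h4 : (m * (α - 1) : ℚ) ≤ Q.ord (ω G) := by
      refine le_trans (le_of_eq ?_) h3
      push_cast
      ring
    exact_mod_cast h4) hD
  refine h2.imp_right fun h3 => ?_
  have h4 : ((m * (α - 1) + m : ℚ) : ℝ) ≤ ((Q.ord (ω D) : ℚ) : ℝ) := by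
    push_cast
    push_cast at h3
    exact h3
  have h5 : (m * (α - 1) + m : ℚ) ≤ Q.ord (ω D) := by exact_mod_cast h4
  refine le_trans (le_of_eq ?_) h5
  ring

theorem smul_Lsp_zero {c : Place ℂ K → ℤ} {Δ : Place ℂ K → ℚ} {x : Fin n → K}
    {E : Fin n → Derivation ℂ K K} {φ : K →ₐ[ℂ] K} (hφ : JPulls y c Δ x E φ) {m : ℕ} (hm : 1 ≤ m)
    {g : K} (hg : g ∈ Lsp y c m (m • Δ)) : jac φ x E ^ m * φ g ∈ Lsp y c m (m • Δ) := by
  obtain ⟨A', -, h⟩ := hφ 0 (eff_zero (y := y))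
  have := h m 0 hm g (by rw [smul_zero, add_zero]; exact hg)
  rwa [zero_smul, add_zero] at this

/-- the pull back is surjective on sections -/
theorem pull_surj (hess : Algebra.EssFiniteType ℂ K) (hn : Algebra.trdeg ℂ K = n)
    {c : Place ℂ K → ℤ} {Δ : Place ℂ K → ℚ} {x : Fin n → K}
    {E : Fin n → Derivation ℂ K K} (hx : IsTranscendenceBasis ℂ x)
    (hE : ∀ i j, E i (x j) = if i = j then 1 else 0) (hfr : IsFrame E)
    {φ : K →ₐ[ℂ] K} (hφ : JPulls y c Δ x E φ) {m : ℕ} (hm : 1 ≤ m)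
    (hV : Module.Finite ℂ (Lsp y c m (m • Δ))) {g : K} (hg : g ∈ Lsp y c m (m • Δ)) :
    ∃ g' ∈ Lsp y c m (m • Δ), jac φ x E ^ m * φ g' = g := by
  let T : Lsp y c m (m • Δ) →ₗ[ℂ] Lsp y c m (m • Δ) :=
    { toFun := fun v => ⟨jac φ x E ^ m * φ v, smul_Lsp_zero hφ hm v.2⟩
      map_add' := fun v w => Subtype.ext (by
        change jac φ x E ^ m * φ ((v : K) + w) = jac φ x E ^ m * φ v + jac φ x E ^ m * φ w
        rw [map_add, mul_add])
      map_smul' := fun a v => Subtype.ext (by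
        change jac φ x E ^ m * φ (a • (v : K)) = a • (jac φ x E ^ m * φ v)
        rw [map_smul, mul_smul_comm]) }
  have hinj : Function.Injective T := by
    rw [injective_iff_map_eq_zero]
    intro v hv
    have h1 : jac φ x E ^ m * φ (v : K) = 0 := congrArg Subtype.val hv
    have h2 := (mul_eq_zero.1 h1).resolve_left (pow_ne_zero _ (jac_ne hess hn hx hE hfr φ))
    rw [map_eq_zero] at h2
    exact Subtype.ext h2
  obtain ⟨v, hv⟩ := (LinearMap.injective_iff_surjective.1 hinj) ⟨g, hg⟩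
  exact ⟨v, v.2, congrArg Subtype.val hv⟩

/-- **The comparison of the Jacobian determinants.** -/
theorem lct (hy : NormalModel y) (hn : Algebra.trdeg ℂ K = n) {Δ : Place ℂ K → ℚ}
    (hΔ : Effective y Δ) (hklt : Klt y n Δ) {x : Fin n → K}
    {E : Fin n → Derivation ℂ K K} (hx : IsTranscendenceBasis ℂ x)
    (hE : ∀ i j, E i (x j) = if i = j then 1 else 0) (hfr : IsFrame E)
    {c : Place ℂ K → ℤ} (hc : IsDisc y E c) {m0 : ℕ} (hm0 : 1 ≤ m0) {g0 : K} (hg0 : g0 ≠ 0)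
    (hg0V : g0 ∈ Lsp y c m0 (m0 • Δ)) (P : Place ℂ K) {Λ : Fin n → Derivation ℂ K K}
    (hΛ : ∀ i, DerLog P (Λ i)) (hΛ0 : (Matrix.of fun i j => Λ i (x j)).det ≠ 0) :
    ∃ C : ℕ, 1 ≤ C ∧ ∀ φ : K →ₐ[ℂ] K, JPulls y c Δ x E φ → ∀ (Q : Place ℂ K) (e : ℕ),
      LiesOver φ Q P e → Divisorial n Q → ∀ Λ' : Fin n → Derivation ℂ K K,
      (∀ i f, Λ' i (φ f) = φ (Λ i f)) → ∃ j, y j ≠ 0 ∧ ∃ X : Fin n → K,
        (∀ l, X l ∈ affS y j) ∧ (∀ l, Q.Reg (X l)) ∧
        (Matrix.of fun i l => Λ' i (X l)).det ≠ 0 ∧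
        Q.ord (Matrix.of fun i l => Λ' i (X l)).det ≤ C * e := by
  classical
  have hess := hy.ess
  have hV := fin_Lsp hy hn hΔ hE hc hm0
  obtain ⟨CV, hCV⟩ := ord_bdd (Lsp y c m0 (m0 • Δ)) P
  obtain ⟨d, hd⟩ : ∃ d, d = (Matrix.of fun i j => Λ i (x j)).det := ⟨_, rfl⟩
  rw [← hd] at hΛ0
  obtain ⟨C1, hC1⟩ : ∃ C1 : ℕ, C1 = m0 * (P.ord d).toNat + CV := ⟨_, rfl⟩
  have hC1b : ∀ g ∈ Lsp y c m0 (m0 • Δ), g ≠ 0 → P.ord (d ^ m0 * g) ≤ C1 := by
    intro g hg hg0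
    rw [P.ord_mul (pow_ne_zero _ hΛ0) hg0, P.ord_pow, hC1]
    have h1 := hCV g hg hg0
    have h2 := Int.self_le_toNat (P.ord d)
    have h3 : (m0 : ℤ) * P.ord d ≤ m0 * (P.ord d).toNat :=
      mul_le_mul_of_nonneg_left h2 (Int.natCast_nonneg _)
    push_cast
    linarith
  -- the charts
  have hch : ∀ j, ∃ (X : Fin n → K) (F : Fin n → Derivation ℂ K K) (s : K) (ε : ℚ), y j ≠ 0 →
      IsTranscendenceBasis ℂ X ∧ (∀ l, X l ∈ affS y j) ∧
      (∀ i l, F i (X l) = if i = l then 1 else 0) ∧ s ≠ 0 ∧ s * frm x m0 g0 F ∈ chart y j ∧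
      s ∈ chart y j ∧ 0 < ε ∧ ∀ Q : Place ℂ K, Divisorial n Q → Centred y j Q →
        LogDisc y n Δ Q (ε * Q.ord s) := by
    intro j
    by_cases hj : y j = 0
    · exact ⟨x, E, 0, 0, fun h => absurd hj h⟩
    · obtain ⟨X, hX, hXs⟩ := exists_affine_basis hy hn hj
      choose F hF using fun i : Fin n => exists_der _ hX fun l => if i = l then 1 else 0
      have := hy.frac hj
      obtain ⟨a, s, hs, has⟩ := IsFractionRing.div_surjective (A := chart y j)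
        (frm x m0 g0 F)
      have hs0 : (s : K) ≠ 0 := by
        intro h
        exact nonZeroDivisors.ne_zero hs (Subtype.ext h)
      obtain ⟨ε, hε, hεQ⟩ := hklt j hj s s.2 hs0
      refine ⟨X, F, s, ε, fun _ => ⟨hX, hXs, hF, hs0, ?_, s.2, hε, hεQ⟩⟩
      have e1 : (s : K) * frm x m0 g0 F = a := by
        rw [← has]
        change (s : K) * ((a : K) / (s : K)) = a
        rw [mul_div_cancel₀ _ hs0]
      rw [e1]
      exact a.2
  choose X F s ε hch using hch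
  obtain ⟨C, hC⟩ : ∃ C : ℕ, C = 1 + ∑ j, ⌈(C1 : ℚ) * (1 + 1 / ε j)⌉₊ := ⟨_, rfl⟩
  refine ⟨C, by omega, fun φ hφ Q e hQ hQd Λ' hΛ' => ?_⟩
  obtain ⟨g1, hg1, hg1e⟩ := pull_surj hess hn hx hE hfr hφ hm0 hV hg0V
  have hg10 : g1 ≠ 0 := by
    rintro rfl
    rw [map_zero, mul_zero] at hg1e
    exact hg0 hg1e.symm
  -- the value on the lifts
  have hval : frm x m0 g0 Λ' = φ (d ^ m0 * g1) := by
    have h1 : (Matrix.of fun i j => Λ' i (φ (x j))) = (Matrix.of fun i j => Λ' i (x j)) *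
        (Matrix.of fun i j => E i (φ (x j))) := by
      ext i j
      rw [Matrix.mul_apply, Matrix.of_apply]
      have h2 := Pool.Agent.W73.PG.PULL.expand x hx E hE (Λ' i)
      have h3 : Λ' i (φ (x j)) = (∑ l, Λ' i (x l) • E l) (φ (x j)) := by rw [h2]
      rw [h3, sum_smul_apply]
      rfl
    have h2 : (Matrix.of fun i j => Λ' i (φ (x j))).det = φ d := by
      rw [hd]
      have h3 : (Matrix.of fun i j => Λ' i (φ (x j))) =
          φ.toRingHom.mapMatrix (Matrix.of fun i j => Λ i (x j)) := by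
        ext i j
        exact hΛ' i (x j)
      rw [h3]
      exact (RingHom.map_det φ.toRingHom _).symm
    have h3 := congrArg Matrix.det h1
    rw [h2, Matrix.det_mul] at h3
    unfold frm
    rw [map_mul, map_pow, h3, mul_pow, ← hg1e]
    unfold jac
    ring
  have hval0 : frm x m0 g0 Λ' ≠ 0 := by
    rw [hval, Ne, map_eq_zero]
    exact mul_ne_zero (pow_ne_zero _ hΛ0) hg10
  have hvalQ : Q.ord (frm x m0 g0 Λ') ≤ e * C1 := by
    rw [hval, hQ.2]
    exact mul_le_mul_of_nonneg_left (hC1b g1 hg1 hg10) (Int.natCast_nonneg _)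
  obtain ⟨j, hj⟩ := exists_centred hy Q
  obtain ⟨hX, hXs, hF, hs0, hsF, hsc, hε, hεQ⟩ := hch j hj.1
  refine ⟨j, hj.1, X j, hXs, fun l => ?_, ?_⟩
  · obtain ⟨i, hi⟩ := hXs l
    rw [← hi]
    exact hj.2 i
  have hcoord := pluri_coord hX hF (frm_pluri x m0 g0) Λ'
  obtain ⟨dd, hdd⟩ : ∃ dd, dd = (Matrix.of fun i l => Λ' i (X j l)).det := ⟨_, rfl⟩
  rw [← hdd] at hcoord ⊢
  have hdd0 : dd ≠ 0 := by
    rintro rfl
    rw [zero_pow (by omega), zero_mul] at hcoord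
    exact hval0 hcoord
  have hF0 : frm x m0 g0 (F j) ≠ 0 := by
    intro h0
    rw [h0, mul_zero] at hcoord
    exact hval0 hcoord
  refine ⟨hdd0, ?_⟩
  have hlogΛ : ∀ i, DerLog Q (Λ' i) := fun i => lift_log_hom hess hn hn φ hQ (hΛ i) (hΛ' i)
  have hsec : IsSection y n m0 (m0 • Δ) (frm x m0 g0) := by
    rw [isSection_iff hc (frm_pluri x m0 g0), frm_self hE]
    exact hg0V
  have h1 := (sec_log hy hn hfr hQd hj (hεQ Q hQd hj) hm0 hsec hlogΛ).resolve_left hval0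
  have h2 := Q.ord_mul (pow_ne_zero m0 hdd0) hF0
  rw [← hcoord, Q.ord_pow] at h2
  have h3 : 0 ≤ Q.ord (s j) + Q.ord (frm x m0 g0 (F j)) := by
    have h4 := hj.reg _ hsF
    rw [Q.reg_iff (mul_ne_zero hs0 hF0), Q.ord_mul hs0 hF0] at h4
    exact h4
  -- the rational estimates
  have hm0' : (1 : ℚ) ≤ m0 := by exact_mod_cast hm0
  have hvalQ' : (Q.ord (frm x m0 g0 Λ') : ℚ) ≤ e * C1 := by exact_mod_cast hvalQ
  have h3' : (0 : ℚ) ≤ Q.ord (s j) + Q.ord (frm x m0 g0 (F j)) := by exact_mod_cast h3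
  have h2' : (Q.ord (frm x m0 g0 Λ') : ℚ) = m0 * Q.ord dd + Q.ord (frm x m0 g0 (F j)) := by
    exact_mod_cast h2
  have he0 : (0 : ℚ) ≤ e := Nat.cast_nonneg _
  have hC10 : (0 : ℚ) ≤ C1 := Nat.cast_nonneg _
  have hsQ : (0 : ℤ) ≤ Q.ord (s j) := (Q.reg_iff hs0).1 (hj.reg _ hsc)
  have hsQ' : (0 : ℚ) ≤ Q.ord (s j) := by exact_mod_cast hsQ
  have h4 : (Q.ord (s j) : ℚ) ≤ e * C1 * (1 / ε j) := by
    rw [mul_one_div, le_div_iff₀ hε]
    have h5 : (m0 : ℚ) * (ε j * Q.ord (s j)) ≤ e * C1 := h1.trans hvalQ'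
    have h6 : ε j * Q.ord (s j) ≤ m0 * (ε j * Q.ord (s j)) := by
      have : 0 ≤ ε j * Q.ord (s j) := mul_nonneg hε.le hsQ'
      nlinarith
    rw [mul_comm]
    linarith
  have h5 : (m0 : ℚ) * Q.ord dd ≤ e * (C1 * (1 + 1 / ε j)) := by
    have : (m0 : ℚ) * Q.ord dd = Q.ord (frm x m0 g0 Λ') - Q.ord (frm x m0 g0 (F j)) := by
      rw [h2']
      ring
    rw [this]
    nlinarith
  have h6 : (C1 * (1 + 1 / ε j) : ℚ) ≤ C := by
    refine (Nat.le_ceil _).trans ?_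
    rw [hC]
    have h7 := Finset.single_le_sum (f := fun j => ⌈(C1 : ℚ) * (1 + 1 / ε j)⌉₊)
      (fun _ _ => Nat.zero_le _) (Finset.mem_univ j)
    exact_mod_cast h7.trans (Nat.le_add_left _ _)
  have h7 : (m0 : ℚ) * Q.ord dd ≤ C * e := by
    refine h5.trans ?_
    rw [mul_comm]
    exact mul_le_mul_of_nonneg_right h6 he0
  by_cases hneg : Q.ord dd ≤ 0
  · exact hneg.trans (by positivity)
  · push Not at hneg
    have h8 : (0 : ℚ) < Q.ord dd := by exact_mod_cast hneg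
    have h9 : (Q.ord dd : ℚ) ≤ C * e := by nlinarith
    exact_mod_cast h9

end

end Pool.Agent.T2h12
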