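import Pool.Agent.T2h12.Split
import Pool.Agent.T2h12.Lct

/-!
The spaces of sections of multiples of an effective divisor, and the lower bound for their
intersection numbers from the numerical dimension.
-/

set_option autoImplicit false
set_option linter.overlappingInstances false
set_option linter.unusedSectionVars false

open FF Module Pool.Agent.W602.GT Pool.Agent.W603.LV
open Pool.Agent.Y172 Pool.Agent.Y191 Pool.Agent.R887 Pool.Agent.N110

namespace Pool.Agent.T2h12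

section

variable {K : Type} [Field K] [Algebra ℂ K] {N n : ℕ} {y : Fin (N + 1) → K}

theorem mul_Lsp {c : Place ℂ K → ℤ} {m m' : ℕ} {D D' : Place ℂ K → ℚ} {g g' : K}
    (hg : g ∈ Lsp y c m D) (hg' : g' ∈ Lsp y c m' D') : g * g' ∈ Lsp y c (m + m') (D + D') := by
  intro P hP
  by_cases h0 : g * g' = 0
  · exact Or.inl h0
  right
  have hg0 : g ≠ 0 := left_ne_zero_of_mul h0
  have hg0' : g' ≠ 0 := right_ne_zero_of_mul h0
  have h1 := (hg P hP).resolve_left hg0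
  have h2 := (hg' P hP).resolve_left hg0'
  rw [P.ord_mul hg0 hg0', Pi.add_apply]
  push_cast
  linarith

theorem pow_Lsp {c : Place ℂ K → ℤ} {m b : ℕ} {Δ A : Place ℂ K → ℚ} {g : K}
    (hg : g ∈ Lsp y c m (m • Δ + b • A)) {k : ℕ} (hk : 1 ≤ k) :
    g ^ k ∈ Lsp y c (m * k) ((m * k) • Δ + (b * k) • A) := by
  intro P hP
  by_cases hg0 : g = 0
  · left
    rw [hg0, zero_pow (by omega)]
  right
  have h1 := (hg P hP).resolve_left hg0
  rw [P.ord_pow]
  rw [Pi.add_apply, Pi.smul_apply, Pi.smul_apply, nsmul_eq_mul, nsmul_eq_mul] at h1 ⊢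
  have hk0 : (0 : ℚ) ≤ k := Nat.cast_nonneg _
  have h2 := mul_le_mul_of_nonneg_left h1 hk0
  push_cast
  nlinarith

/-- the spaces of sections, relative to powers of a section -/
structure MSys (y : Fin (N + 1) → K) (i : Fin (N + 1)) (c : Place ℂ K → ℤ) (Δ A₀ : Place ℂ K → ℚ)
    (m0 : ℕ) (g0 : K) (M : ℕ → ℕ → Cls ℂ (affS y i)) : Prop where
  mem : ∀ k b, 1 ≤ k → 1 ≤ b → ∀ v, v ∈ (M k b).V ↔
    g0 ^ k * v ∈ Lsp y c (m0 * k) ((m0 * k) • Δ + b • A₀)

theorem exists_MSys (hy : NormalModel y) {i : Fin (N + 1)} (hi : y i ≠ 0)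
    {c : Place ℂ K → ℤ} (hcfin : {P | IsPrimeDivisor y P ∧ c P ≠ 0}.Finite)
    {Δ Hy : Place ℂ K → ℚ} (hΔ : {P | IsPrimeDivisor y P ∧ Δ P ≠ 0}.Finite)
    (hHy : Effective y Hy)
    (hHP : ∀ P l, IsPrimeDivisor y P → Centred y l P → Hy P = P.ord (y i / y l))
    {A₀ : Place ℂ K → ℚ} (hA₀ : Effective y A₀) (hHA : ∀ P, IsPrimeDivisor y P → Hy P ≤ A₀ P)
    {m0 : ℕ} {g0 : K} (hg0 : g0 ≠ 0) (hg0V : g0 ∈ Lsp y c m0 (m0 • Δ)) :
    ∃ M : ℕ → ℕ → Cls ℂ (affS y i), MSys y i c Δ A₀ m0 g0 M := by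
  have key : ∀ k b : ℕ, ∃ B : Cls ℂ (affS y i), 1 ≤ k → 1 ≤ b → ∀ v, v ∈ B.V ↔
      g0 ^ k * v ∈ Lsp y c (m0 * k) ((m0 * k) • Δ + b • A₀) := by
    intro k b
    by_cases hk : 1 ≤ k
    swap
    · exact ⟨hcls hy hi, fun h => absurd h hk⟩
    by_cases hb : 1 ≤ b
    swap
    · exact ⟨hcls hy hi, fun _ h => absurd h hb⟩
    have h1 : ∀ l, g0 ^ k * (y l / y i) ∈ Lsp y c (m0 * k) ((m0 * k) • Δ + b • A₀) := by
      intro l
      have h2 : g0 ^ k ∈ Lsp y c (m0 * k) ((m0 * k) • Δ + 0 • (0 : Place ℂ K → ℚ)) := by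
        have := pow_Lsp (A := (0 : Place ℂ K → ℚ)) (b := 0) (g := g0) (m := m0) (Δ := Δ) (y := y)
          (c := c) (by rw [smul_zero, add_zero]; exact hg0V) hk
        rwa [zero_mul] at this
      have h3 := mul_hyp hy (eff_zero (y := y)) hHy hHP hi h2 l
      refine Lsp_mono (b := 0 + 1) (A := 0 + Hy) hb ?_ ?_ h3
      · intro P hP
        rw [zero_add]
        exact hHy.1 P hP
      · intro P hP
        rw [zero_add]
        exact hHA P hP
    exact ⟨secCls hy hi hcfin hΔ hA₀ (m0 * k) b (pow_ne_zero k hg0) h1, fun _ _ v => Iff.rfl⟩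
  choose M hM using key
  exact ⟨M, ⟨hM⟩⟩

/-- **The lower bound from the numerical dimension.** -/
theorem base_low (hy : NormalModel y) (hn : Algebra.trdeg ℂ K = n) {i : Fin (N + 1)}
    (hi : y i ≠ 0) {E : Fin n → Derivation ℂ K K}
    (hfr : IsFrame E) {c : Place ℂ K → ℤ} (hc : IsDisc y E c)
    (hcfin : {P | IsPrimeDivisor y P ∧ c P ≠ 0}.Finite) {Δ Hy : Place ℂ K → ℚ}
    (hΔ : {P | IsPrimeDivisor y P ∧ Δ P ≠ 0}.Finite) (hHy : Effective y Hy)
    (hHP : ∀ P l, IsPrimeDivisor y P → Centred y l P → Hy P = P.ord (y i / y l))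
    {m0 : ℕ} (hm0 : 1 ≤ m0) {g0 : K} (hg0 : g0 ≠ 0) {ν : ℕ}
    (hν : ν ≤ n) (hnum : ¬ NumDimLt y n Δ ν) : ∃ A₀, Effective y A₀ ∧
      (∀ P, IsPrimeDivisor y P → Hy P ≤ A₀ P) ∧ ∃ ε : ℝ, 0 < ε ∧ ∀ t : ℝ, 0 < t → ∀ k0 : ℕ,
      ∃ k, k0 ≤ k ∧ ∃ b : ℕ, 1 ≤ b ∧ (b : ℝ) ≤ t * k ∧ ∀ B : Cls ℂ (affS y i),
        (∀ v, v ∈ B.V ↔ g0 ^ k * v ∈ Lsp y c (m0 * k) ((m0 * k) • Δ + b • A₀)) →
        ε * (k : ℝ) ^ ν ≤ I (Multiset.replicate ν B + Multiset.replicate (n - ν)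
          (hcls hy hi)) := by
  classical
  have cx := ctx hy hn hi
  unfold NumDimLt at hnum
  push Not at hnum
  obtain ⟨A, hA, ε, hε, hseq⟩ := hnum
  obtain ⟨A₀, hA₀⟩ : ∃ A₀, A₀ = A + Hy := ⟨_, rfl⟩
  have hA₀e : Effective y A₀ := by rw [hA₀]; exact Effective.add' hA hHy
  refine ⟨A₀, hA₀e, fun P hP => ?_, ε, hε, fun t ht k0 => ?_⟩
  · rw [hA₀, Pi.add_apply]
    have := hA.1 P hP
    linarith
  have hm0' : (0 : ℝ) < m0 := by exact_mod_cast hm0
  obtain ⟨k1, hk1⟩ := exists_nat_gt (2 / t)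
  obtain ⟨k, b, hk, hb, u, hu, ω, E', hω, hω0, hlt⟩ := hseq (t / (2 * m0)) (by positivity)
    (max (max k0 k1) 1)
  have hkk0 : k0 ≤ k := ((le_max_left _ _).trans (le_max_left _ _)).trans hk
  have hkk1 : k1 ≤ k := ((le_max_right _ _).trans (le_max_left _ _)).trans hk
  have hk1' : 1 ≤ k := (le_max_right _ _).trans hk
  refine ⟨k, hkk0, m0 * b + 1, by omega, ?_, fun B hB => ?_⟩
  · have h1 : (m0 : ℝ) * b ≤ t / 2 * k := by
      have h2 := mul_le_mul_of_nonneg_left hb hm0'.le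
      have h3 : (m0 : ℝ) * (t / (2 * m0) * k) = t / 2 * k := by
        field_simp
      rwa [h3] at h2
    have h2 : 1 ≤ t / 2 * k := by
      have h3 : 2 / t < k := hk1.trans_le (by exact_mod_cast hkk1)
      rw [div_lt_iff₀ ht] at h3
      linarith
    push_cast
    linarith
  -- functions
  obtain ⟨g, hg⟩ : ∃ g : Fin (ν + 1) → K, g = fun j => ω j E := ⟨_, rfl⟩
  have hgm : ∀ j, g j ∈ Lsp y c k (k • Δ + b • A) := fun j => by
    rw [hg]
    exact (isSection_iff hc (hω j).1).1 (hω j)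
  have hgj0 : g 0 ≠ 0 := by
    rw [hg]
    exact (Pool.Agent.N110.ratio_frame hfr (hω 0).1 (hω 0).1 hω0).1
  have e1 : (fun j : Fin ν => ω j.succ E' / ω 0 E') = fun j : Fin ν => g j.succ / g 0 := by
    funext j
    rw [hg]
    exact (Pool.Agent.N110.ratio_frame hfr (hω 0).1 (hω j.succ).1 hω0).2
  rw [e1] at hlt
  have hgp : ∀ j, g j ^ m0 ∈ Lsp y c (m0 * k) ((m0 * k) • Δ + (m0 * b) • A) := by
    intro j
    have := pow_Lsp (hgm j) hm0
    rwa [mul_comm k m0, mul_comm b m0] at this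
  -- the auxiliary space
  have haux : ∀ l, g 0 ^ m0 * (y l / y i) ∈
      Lsp y c (m0 * k) ((m0 * k) • Δ + (m0 * b + 1) • A₀) := by
    intro l
    rw [hA₀]
    exact mul_hyp hy hA hHy hHP hi (hgp 0) l
  obtain ⟨B', hB'⟩ : ∃ B' : Cls ℂ (affS y i), ∀ v, v ∈ B'.V ↔
      g 0 ^ m0 * v ∈ Lsp y c (m0 * k) ((m0 * k) • Δ + (m0 * b + 1) • A₀) :=
    ⟨secCls hy hi hcfin hΔ hA₀e (m0 * k) (m0 * b + 1) (pow_ne_zero m0 hgj0) haux, fun v => Iff.rfl⟩
  have hmono : ∀ j, g j ^ m0 ∈ Lsp y c (m0 * k) ((m0 * k) • Δ + (m0 * b + 1) • A₀) := by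
    intro j
    refine Lsp_mono (by omega) hA.1 (fun P hP => ?_) (hgp j)
    rw [hA₀, Pi.add_apply]
    have := hHy.1 P hP
    linarith
  obtain ⟨w, hw⟩ : ∃ w : Fin ν → K, w = fun j => g j.succ / g 0 := ⟨_, rfl⟩
  have hwB' : ∀ j, w j ^ m0 ∈ B'.V := by
    intro j
    rw [hB', hw]
    have e2 : g 0 ^ m0 * (g j.succ / g 0) ^ m0 = g j.succ ^ m0 := by
      rw [← mul_pow, mul_div_cancel₀ _ hgj0]
    rw [e2]
    exact hmono _
  -- comparison
  have hcmp : Le n (fun s : Multiset (Cls ℂ (affS y i)) => (I s : ℝ)) 1 B' B := by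
    intro s hs
    rw [one_mul]
    refine Nat.cast_le.2 (I_mono cx (g := g 0 ^ m0 / g0 ^ k)
      (div_ne_zero (pow_ne_zero _ hgj0) (pow_ne_zero _ hg0)) (fun v hv => ?_) hs)
    rw [hB]
    have e2 : g0 ^ k * (g 0 ^ m0 / g0 ^ k * v) = g 0 ^ m0 * v := by
      have := pow_ne_zero k hg0
      field_simp
    rw [e2]
    exact (hB' v).1 hv
  have h1 := hcmp.rep zero_le_one ν (Multiset.replicate (n - ν) (hcls hy hi))
    (by rw [Multiset.card_replicate]; omega)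
  rw [one_pow, one_mul] at h1
  refine le_trans ?_ h1
  have hcard : (Multiset.replicate ν B' + Multiset.replicate (n - ν) (hcls hy hi)).card = n := by
    rw [Multiset.card_add, Multiset.card_replicate, Multiset.card_replicate]
    omega
  -- pencils
  rw [← hw] at hlt
  have h2 := dm_pow_all hn hm0 (toM w) (toM u) (by
    rw [Multiset.card_add, toM_card, toM_card]; omega)
  obtain ⟨Q', hQ', hle'⟩ := replace_pencils' hy hn hi (toM u) ((toM w).map fun x => x ^ m0)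
    (by rw [Multiset.card_add, toM_card, Multiset.card_map, toM_card]; omega) (fun z hz => by
      obtain ⟨j, rfl⟩ := mem_toM.1 hz
      exact hu j)
  rw [toM_card] at hQ'
  have hsel : Sel ((toM w).map fun x => x ^ m0) (Multiset.replicate ν B') := by
    rw [sel_rep]
    refine ⟨by rw [Multiset.card_map, toM_card], fun z hz => ?_⟩
    rw [Multiset.mem_map] at hz
    obtain ⟨a, ha, rfl⟩ := hz
    obtain ⟨j, rfl⟩ := mem_toM.1 ha
    exact hwB' j
  have h3 := le_I cx hcard (sel_add hsel hQ')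
  rw [add_comm (toM u)] at hle'
  rw [add_comm Q'] at hle'
  have h4 : dm ℂ (toM w + toM u) ≤ I (Multiset.replicate ν B' +
      Multiset.replicate (n - ν) (hcls hy hi)) := by
    refine le_trans ?_ (h2.trans (hle'.trans h3))
    exact Nat.le_mul_of_pos_left _ (pow_pos (by omega) _)
  have e3 : degreeOver u w = dm ℂ (toM w + toM u) :=
    (deg_dm (toM_set _) (toM_set _)).trans (congrArg (dm ℂ) (add_comm _ _))
  rw [e3] at hlt
  refine hlt.le.trans ?_
  exact_mod_cast h4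

end

end Pool.Agent.T2h12
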