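import Pool.Agent.T2h12.BaseA
import Pool.Agent.T2h12.Avoid

/-!
The growth of the sections over the base of the pluricanonical map: functions in the spaces
`M k b` whose degree, relative to `κ` functions from a fixed space and hyperplane sections,
grows linearly.
-/

set_option autoImplicit false
set_option linter.overlappingInstances false
set_option linter.unusedSectionVars false

open FF Module Pool.Agent.W602.GT Pool.Agent.W603.LV
open Pool.Agent.Y172 Pool.Agent.Y191 Pool.Agent.R887 Pool.Agent.N110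

namespace Pool.Agent.T2h12

section

variable {K : Type} [Field K] [Algebra ℂ K] {n : ℕ}

theorem expand_D (hn : Algebra.trdeg ℂ K = n) {S : Set K} (hS : S.Finite) (h1 : (1 : K) ∈ S)
    {T : Set K} (hT : T.Finite) (hT1 : (1 : K) ∈ T) {I₀ C k vv : ℕ}
    (hI : ∀ Z : Multiset K, Z.card = n → (∀ z ∈ Z, z ∈ Submodule.span ℂ S) → dm ℂ Z ≤ I₀)
    (hTd : ∀ r ∈ Submodule.span ℂ T, Dmn S C r) {HV : Submodule ℂ K} (hH1 : (1 : K) ∈ HV)
    (hHV : ∀ z ∈ HV, Dmn S vv z)
    (hD : ∀ z ∈ (Submodule.span ℂ T) ^ k * HV, Dmn S (C * k) z) {v : K} (hv : Dmn S (C * k) v)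
    {L : Multiset K} (hL : ∀ z ∈ L, z ∈ Submodule.span ℂ S) {κ R : ℕ}
    (hR : ∀ Y : Multiset K, Y.card = κ → (∀ y ∈ Y, y ∈ Submodule.span ℂ T) →
      dm ℂ (v ::ₘ (Y + L)) ≤ R) (hcard : 1 + κ + L.card = n) (X : Multiset K) :
    ∀ Y : Multiset K, X.card + Y.card = κ → (∀ x ∈ X, x ∈ (Submodule.span ℂ T) ^ k * HV) →
      (∀ y ∈ Y, y ∈ Submodule.span ℂ T) → dm ℂ (v ::ₘ (X + Y + L)) ≤
        k ^ X.card * R + X.card * (k ^ X.card * (vv * (C ^ κ * I₀))) := by
  classical
  have hone : (1 : K) ∈ (Submodule.span ℂ T) ^ k := by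
    have := Submodule.pow_mem_pow (Submodule.span ℂ T) (Submodule.subset_span hT1) k
    rwa [one_pow] at this
  induction X using Multiset.induction_on with
  | empty =>
    intro Y hc _ hY
    rw [Multiset.card_zero, zero_add] at hc
    rw [Multiset.card_zero, pow_zero, one_mul, zero_mul, add_zero, zero_add]
    exact hR Y hc hY
  | cons z X ih =>
    intro Y hc hX hY
    rw [Multiset.card_cons] at hc
    have hW : (v ::ₘ (X + Y + L)).card + 1 = n := by
      rw [Multiset.card_cons, Multiset.card_add, Multiset.card_add]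
      omega
    have hXc : ∀ x ∈ X, x ∈ (Submodule.span ℂ T) ^ k * HV := fun x hx =>
      hX x (Multiset.mem_cons_of_mem hx)
    obtain ⟨u₁, hu₁, u₂, hu₂, hle⟩ := prod_split hn hone hH1 (hX z (Multiset.mem_cons_self _ _)) hW
    obtain ⟨u, hu, hle1⟩ := pow_split hn hT hT1 hu₁ hW
    have hih := ih (u ::ₘ Y) (by rw [Multiset.card_cons]; omega) hXc (by
      intro y hy
      rcases Multiset.mem_cons.1 hy with rfl | hy
      · exact hu
      · exact hY y hy)
    have e1 : v ::ₘ (X + u ::ₘ Y + L) = u ::ₘ (v ::ₘ (X + Y + L)) := by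
      rw [Multiset.add_cons, Multiset.cons_add, Multiset.cons_swap]
    rw [e1] at hih
    obtain ⟨h, hh, hle2⟩ := (hHV u₂ hu₂).one_le hn hS h1 hW
    -- the domination
    have h3 : dm ℂ (h ::ₘ (v ::ₘ (X + Y + L))) ≤ (C * k) ^ (X.card + 1) * (C ^ Y.card * I₀) := by
      have e2 : h ::ₘ (v ::ₘ (X + Y + L)) = (v ::ₘ X) + (h ::ₘ (Y + L)) := by
        rw [Multiset.cons_add, Multiset.add_cons, Multiset.cons_swap, add_assoc]
      rw [e2]
      have h4 := dom_all hn hS h1 (B := C * k) (I₀ := C ^ Y.card * I₀) (v ::ₘ X) (h ::ₘ (Y + L))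
        (by rw [← e2, Multiset.card_cons]; exact hW) (by
          intro x hx
          rcases Multiset.mem_cons.1 hx with rfl | hx
          · exact hv
          · exact hD x (hXc x hx)) (by
          intro Z hZ hZs
          have e3 : Z + (h ::ₘ (Y + L)) = Y + (h ::ₘ (Z + L)) := by
            rw [Multiset.add_cons, Multiset.add_cons, ← add_assoc, ← add_assoc, add_comm Z Y]
          rw [e3]
          rw [Multiset.card_cons] at hZ
          refine dom_all hn hS h1 (B := C) (I₀ := I₀) Y (h ::ₘ (Z + L)) ?_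
            (fun x hx => hTd x (hY x hx)) ?_
          · rw [Multiset.card_add, Multiset.card_cons, Multiset.card_add, hZ]
            omega
          · intro Z' hZ' hZs'
            refine hI _ ?_ ?_
            · rw [Multiset.card_add, Multiset.card_cons, Multiset.card_add, hZ, hZ']
              omega
            · intro z hz
              rcases Multiset.mem_add.1 hz with hz | hz
              · exact hZs' z hz
              rcases Multiset.mem_cons.1 hz with rfl | hz
              · exact hh
              rcases Multiset.mem_add.1 hz with hz | hz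
              · exact hZs z hz
              · exact hL z hz)
      rwa [Multiset.card_cons] at h4
    have e4 : (C * k) ^ (X.card + 1) * (C ^ Y.card * I₀) =
        k ^ (X.card + 1) * (C ^ κ * I₀) := by
      have : κ = X.card + 1 + Y.card := by omega
      rw [this, pow_add, mul_pow]
      ring
    rw [e4] at h3
    have e5 : v ::ₘ (z ::ₘ X + Y + L) = z ::ₘ (v ::ₘ (X + Y + L)) := by
      rw [Multiset.cons_add, Multiset.cons_add, Multiset.cons_swap]
    rw [e5, Multiset.card_cons]
    calc dm ℂ (z ::ₘ (v ::ₘ (X + Y + L))) ≤ k * dm ℂ (u ::ₘ (v ::ₘ (X + Y + L))) +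
          vv * dm ℂ (h ::ₘ (v ::ₘ (X + Y + L))) := hle.trans (Nat.add_le_add hle1 hle2)
      _ ≤ k * (k ^ X.card * R + X.card * (k ^ X.card * (vv * (C ^ κ * I₀)))) +
          vv * (k ^ (X.card + 1) * (C ^ κ * I₀)) :=
        Nat.add_le_add (Nat.mul_le_mul_left _ hih) (Nat.mul_le_mul_left _ h3)
      _ = k ^ (X.card + 1) * R +
          (X.card + 1) * (k ^ (X.card + 1) * (vv * (C ^ κ * I₀))) := by ring

end

end Pool.Agent.T2h12
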