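import Pool.Agent.Y172.Cov2

/-!
A minor whose order is at most the order of the determinant.
-/

set_option autoImplicit false
set_option linter.overlappingInstances false
set_option linter.unusedSectionVars false

open FF Pool.Agent.W602.GT Pool.Agent.W603.LV

namespace Pool.Agent.T2h12

section

variable {k K : Type} [Field k] [Field K] [Algebra k K]

theorem exists_minor (Q : Place k K) {p : ℕ} (κ : ℕ) :
    ∀ (M : Matrix (Fin (p + κ)) (Fin (p + κ)) K), (∀ i j, Ge Q 0 (M i j)) → M.det ≠ 0 →
    ∃ J : Fin p → Fin (p + κ), (Matrix.of fun a b => M (Fin.castAdd κ a) (J b)).det ≠ 0 ∧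
      Q.ord (Matrix.of fun a b => M (Fin.castAdd κ a) (J b)).det ≤ Q.ord M.det := by
  classical
  induction κ with
  | zero =>
    intro M _ h0
    refine ⟨fun i => i, h0, le_rfl⟩
  | succ κ ih =>
    intro M hM h0
    have hdet := Matrix.det_succ_row M (Fin.last (p + κ))
    obtain ⟨j, hj0, hj⟩ : ∃ j : Fin (p + κ + 1),
        (M.submatrix (Fin.last (p + κ)).succAbove j.succAbove).det ≠ 0 ∧
        Q.ord (M.submatrix (Fin.last (p + κ)).succAbove j.succAbove).det ≤ Q.ord M.det := by
      by_contra hcon
      push Not at hcon
      have h1 : Ge Q (Q.ord M.det + 1) M.det := by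
        have h2 : Ge Q (Q.ord M.det + 1) (∑ j : Fin (p + κ + 1),
            (-1) ^ ((Fin.last (p + κ) : ℕ) + j) * M (Fin.last (p + κ)) j *
            (M.submatrix (Fin.last (p + κ)).succAbove j.succAbove).det) := by
          refine Ge.sum _ _ fun j _ => ?_
          have h3 : Ge Q 0 (((-1) ^ ((Fin.last (p + κ) : ℕ) + j) : K)) := by
            have := (Ge.one (P := Q)).neg.pow ((Fin.last (p + κ) : ℕ) + j)
            rwa [mul_zero] at this
          have h4 : Ge Q (Q.ord M.det + 1)
              (M.submatrix (Fin.last (p + κ)).succAbove j.succAbove).det := by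
            by_cases h5 : (M.submatrix (Fin.last (p + κ)).succAbove j.succAbove).det = 0
            · exact Or.inl h5
            · exact Or.inr (by have := hcon j h5; omega)
          have h5 := (h3.mul (hM (Fin.last (p + κ)) j)).mul h4
          rwa [zero_add, zero_add] at h5
        exact Eq.subst (motive := fun t => Ge Q (Q.ord M.det + 1) t) hdet.symm h2
      have := h1.resolve_left h0
      omega
    obtain ⟨J, hJ0, hJ⟩ := ih _ (fun a b => hM _ _) hj0
    refine ⟨fun b => j.succAbove (J b), ?_, ?_⟩
    · have e1 : (Matrix.of fun (a b : Fin p) => M (Fin.castAdd (κ + 1) a) (j.succAbove (J b))) =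
          Matrix.of fun a b => (M.submatrix (Fin.last (p + κ)).succAbove j.succAbove)
            (Fin.castAdd κ a) (J b) := by
        ext a b
        rw [Matrix.of_apply, Matrix.of_apply, Matrix.submatrix_apply, Fin.succAbove_last]
        rfl
      rw [e1]
      exact hJ0
    · have e1 : (Matrix.of fun (a b : Fin p) => M (Fin.castAdd (κ + 1) a) (j.succAbove (J b))) =
          Matrix.of fun a b => (M.submatrix (Fin.last (p + κ)).succAbove j.succAbove)
            (Fin.castAdd κ a) (J b) := by
        ext a b
        rw [Matrix.of_apply, Matrix.of_apply, Matrix.submatrix_apply, Fin.succAbove_last]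
        rfl
      rw [e1]
      exact hJ.trans hj

end

end Pool.Agent.T2h12
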