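import Pool.Agent.R887.Infty
import Pool.Agent.N110.QMap
import Pool.Agent.T2h12.Row

/-!
Frames of logarithmic vector fields, some of which are tangent to the fibres of given functions.
-/

set_option autoImplicit false
set_option linter.overlappingInstances false
set_option linter.unusedSectionVars false

open FF Module MvPolynomial Pool.Agent.W602.GT Pool.Agent.W603.LV
open Pool.Agent.Y172 Pool.Agent.Y191 Pool.Agent.R887 Pool.Agent.N110

namespace Pool.Agent.T2h12

section

variable {K : Type} [Field K] [Algebra ℂ K]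

/-- a place which is trivial on a subfield -/
def upPlace (F : IntermediateField ℂ K) (P : Place ℂ K) (h : ∀ f ∈ F, f ≠ 0 → P.ord f = 0) :
    Place F K where
  ord := P.ord
  ord_zero := P.ord_zero
  ord_mul := P.ord_mul
  ord_add := P.ord_add
  ord_const := fun {c} hc => h _ c.2 (by
    change algebraMap F K c ≠ 0
    rwa [Ne, map_eq_zero])
  surj := P.surj

/-- regular vector fields become logarithmic -/
theorem log_of_reg {P : Place ℂ K} {z : K} (hz : 0 < P.ord z) {D : Derivation ℂ K K}
    (hD : DerReg P D) : DerLog P (z • D) := by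
  intro f
  by_cases hf : f = 0
  · rw [hf, div_zero]
    exact P.reg_zero
  have h1 := ge_der_reg hD f
  have h2 : Ge P 1 z := Or.inr hz
  have h3 := h2.mul h1
  have h4 := ge_div hf h3
  have e1 : (1 : ℤ) + (P.ord f - 1) - P.ord f = 0 := by ring
  rw [e1] at h4
  exact h4

theorem der_eq {n : ℕ} {Z : Fin n → K} (hZ : IsTranscendenceBasis ℂ Z)
    {F : Fin n → Derivation ℂ K K} (hF : ∀ i j, F i (Z j) = if i = j then 1 else 0)
    (D : Derivation ℂ K K) : D = ∑ j, D (Z j) • F j :=
  (Pool.Agent.W73.PG.PULL.expand Z hZ F hF D).symm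

theorem exists_frame {κ m : ℕ} (hess : Algebra.EssFiniteType ℂ K)
    (hn : Algebra.trdeg ℂ K = (m + 1 + κ : ℕ)) {r : Fin κ → K} (hr : AlgebraicIndependent ℂ r)
    {P : Place ℂ K} (hPd : Divisorial (m + 1 + κ) P)
    (htriv : ∀ f ∈ IntermediateField.adjoin ℂ (Set.range r), f ≠ 0 → P.ord f = 0)
    {l : Fin m → K} (hl : ∀ F : MvPolynomial (Fin m) (IntermediateField.adjoin ℂ (Set.range r)),
      F ≠ 0 → aeval l F ≠ 0 ∧ P.ord (aeval l F) = 0)
    {x : Fin (m + 1 + κ) → K} {E : Fin (m + 1 + κ) → Derivation ℂ K K}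
    (hx : IsTranscendenceBasis ℂ x) (hE : ∀ i j, E i (x j) = if i = j then 1 else 0) :
    ∃ Λ : Fin (m + 1 + κ) → Derivation ℂ K K, (∀ i, DerLog P (Λ i)) ∧
      (∀ a j, Λ (Fin.castAdd κ a) (r j) = 0) ∧ (Matrix.of fun i j => Λ i (x j)).det ≠ 0 := by
  classical
  obtain ⟨F, hF⟩ : ∃ F, F = IntermediateField.adjoin ℂ (Set.range r) := ⟨_, rfl⟩
  rw [← hF] at htriv
  have hcz : CharZero F := charZero_of_injective_algebraMap (algebraMap ℂ F).injective
  have hess' : Algebra.EssFiniteType F K := Algebra.EssFiniteType.of_comp ℂ _ K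
  -- the coordinates in the small field
  have hrF : ∀ j, r j ∈ F := fun j => by
    rw [hF]
    exact IntermediateField.subset_adjoin _ _ ⟨j, rfl⟩
  obtain ⟨r', hr'⟩ : ∃ r' : Fin κ → F, r' = fun j => ⟨r j, hrF j⟩ := ⟨_, rfl⟩
  have hr'i : AlgebraicIndependent ℂ r' := by
    refine AlgebraicIndependent.of_comp F.val ?_
    rw [hr']
    exact hr
  have hr'b : IsTranscendenceBasis ℂ r' := by
    rw [hr'i.isTranscendenceBasis_iff_isAlgebraic]
    have h1 : IntermediateField.adjoin ℂ (Set.range r') = ⊤ := by
      apply IntermediateField.map_injective F.val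
      rw [IntermediateField.adjoin_map, ← Set.range_comp]
      have h2 : (F.val ∘ r') = r := by
        rw [hr']
        rfl
      rw [h2, ← hF]
      ext z
      constructor
      · intro hz
        exact ⟨⟨z, hz⟩, trivial, rfl⟩
      · rintro ⟨w, -, rfl⟩
        exact w.2
    have h2 : Algebra.IsAlgebraic (IntermediateField.adjoin ℂ (Set.range r')) F := alg_of_top h1
    open scoped IntermediateField.algebraAdjoinAdjoin in
    exact Algebra.IsAlgebraic.trans _ (IntermediateField.adjoin ℂ (Set.range r')) F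
  have htr : Algebra.trdeg ℂ F = (κ : ℕ) := by
    rw [← hr'b.cardinalMk_eq_trdeg]
    simp
  have hnF : Algebra.trdeg F K = (m + 1 : ℕ) := by
    have h1 : Algebra.trdeg ℂ F + Algebra.trdeg F K = Algebra.trdeg ℂ K :=
      _root_.trdeg_add_eq ℂ F (A := K)
    rw [htr, hn, add_comm] at h1
    push_cast at h1
    rw [Cardinal.add_nat_inj] at h1
    exact_mod_cast h1
  obtain ⟨P', hP'⟩ : ∃ P' : Place F K, P' = upPlace F P htriv := ⟨_, rfl⟩
  have hP'o : ∀ f, P'.ord f = P.ord f := fun f => by rw [hP']; rfl
  have hdiv : Divisorial (m + 1) P' := by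
    subst hF
    refine ⟨l, fun G hG => ?_⟩
    rw [hP'o]
    exact hl G hG
  obtain ⟨y', E', i0, hloc⟩ := exists_loc hnF hdiv
  -- coordinates of the field
  have hsum : IsTranscendenceBasis ℂ (Sum.elim y' (algebraMap F K ∘ r')) := hr'b.sumElim_comp hloc.bas
  obtain ⟨Z, hZd⟩ : ∃ Z : Fin (m + 1 + κ) → K, Z = Fin.addCases y' r := ⟨_, rfl⟩
  have hZl : ∀ a, Z (Fin.castAdd κ a) = y' a := fun a => by
    rw [hZd]
    exact Fin.addCases_left a
  have hZr : ∀ b, Z (Fin.natAdd (m + 1) b) = r b := fun b => by
    rw [hZd]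
    exact Fin.addCases_right b
  have hZ : IsTranscendenceBasis ℂ Z := by
    have h1 : Z = Sum.elim y' (algebraMap F K ∘ r') ∘ finSumFinEquiv.symm := by
      funext i
      refine Fin.addCases (fun a => ?_) (fun b => ?_) i
      · rw [hZl, Function.comp_apply, finSumFinEquiv_symm_apply_castAdd, Sum.elim_inl]
      · rw [hZr, Function.comp_apply, finSumFinEquiv_symm_apply_natAdd, Sum.elim_inr, hr']
        rfl
    rw [h1]
    exact (isTranscendenceBasis_equiv finSumFinEquiv.symm).2 hsum
  choose G hG using fun i : Fin (m + 1 + κ) => exists_der _ hZ fun j => if i = j then 1 else 0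
  -- the relative vector fields
  have hrel : ∀ a, (E' a).restrictScalars ℂ = G (Fin.castAdd κ a) := by
    intro a
    have h1 := der_eq hZ hG ((E' a).restrictScalars ℂ)
    rw [h1, Finset.sum_eq_single (Fin.castAdd κ a)]
    · have h2 : ((E' a).restrictScalars ℂ) (Z (Fin.castAdd κ a)) = 1 := by
        rw [hZl]
        change E' a (y' a) = 1
        rw [hloc.dual, if_pos rfl]
      rw [h2, one_smul]
    · intro i _ hi
      have h2 : ((E' a).restrictScalars ℂ) (Z i) = 0 := by
        revert hi
        refine Fin.addCases (fun b hi => ?_) (fun b _ => ?_) i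
        · rw [hZl]
          change E' a (y' b) = 0
          rw [hloc.dual, if_neg]
          rintro rfl
          exact hi rfl
        · rw [hZr]
          change E' a (r b) = 0
          have h3 : r b = algebraMap F K (r' b) := by
            rw [hr']
            rfl
          rw [h3, Derivation.map_algebraMap]
      rw [h2, zero_smul]
    · intro h
      exact absurd (Finset.mem_univ _) h
  -- scaling
  have hz : 0 < P.ord (y' i0) := by
    have := hloc.unif
    rw [hP'o] at this
    omega
  have hz0 : y' i0 ≠ 0 := hloc.ne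
  choose cc hcc using fun i => reg_scale hn hPd hz (G i)
  obtain ⟨d, hd⟩ : ∃ d : Fin (m + 1 + κ) → K, d = Fin.addCases (lc y' i0)
      (fun b => y' i0 ^ (cc (Fin.natAdd (m + 1) b) + 1)) := ⟨_, rfl⟩
  have hdl : ∀ a, d (Fin.castAdd κ a) = lc y' i0 a := fun a => by
    rw [hd]
    exact Fin.addCases_left a
  have hdr : ∀ b, d (Fin.natAdd (m + 1) b) = y' i0 ^ (cc (Fin.natAdd (m + 1) b) + 1) := fun b => by
    rw [hd]
    exact Fin.addCases_right b
  have hd0 : ∀ i, d i ≠ 0 := by
    intro i
    refine Fin.addCases (fun a => ?_) (fun b => ?_) i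
    · rw [hdl]
      unfold lc
      split_ifs
      · exact hz0
      · exact one_ne_zero
    · rw [hdr]
      exact pow_ne_zero _ hz0
  refine ⟨fun i => d i • G i, fun i => ?_, fun a j => ?_, ?_⟩
  · refine Fin.addCases (fun a => ?_) (fun b => ?_) i
    · change DerLog P (d (Fin.castAdd κ a) • G (Fin.castAdd κ a))
      rw [hdl, ← hrel]
      intro f
      have h1 := hloc.log a f
      rcases h1 with h1 | h1
      · exact Or.inl h1
      · right
        rw [hP'o] at h1
        exact h1
    · change DerLog P (d (Fin.natAdd (m + 1) b) • G (Fin.natAdd (m + 1) b))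
      rw [hdr, pow_succ, mul_comm, mul_smul]
      exact log_of_reg hz (hcc _ _ le_rfl)
  · change d _ * G _ (r j) = 0
    rw [← hZr, hG, if_neg, mul_zero]
    intro h
    have h1 := congrArg Fin.val h
    rw [Fin.val_castAdd, Fin.val_natAdd] at h1
    have := a.2
    omega
  · have h1 : (Matrix.of fun i j => (d i • G i) (Z j)) = Matrix.diagonal d := by
      ext i j
      rw [Matrix.of_apply, Matrix.diagonal_apply]
      change d i * G i (Z j) = _
      rw [hG]
      by_cases h : i = j
      · rw [if_pos h, if_pos h, mul_one]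
      · rw [if_neg h, if_neg h, mul_zero]
    have h2 : (Matrix.of fun i j => (d i • G i) (Z j)) =
        (Matrix.of fun i j => (d i • G i) (x j)) * (Matrix.of fun i j => E i (Z j)) := by
      ext i j
      rw [Matrix.of_apply, Matrix.mul_apply]
      have h3 := der_eq hx hE (d i • G i)
      have h4 : (d i • G i) (Z j) = (∑ l, (d i • G i) (x l) • E l) (Z j) := by rw [← h3]
      rw [h4, sum_smul_apply]
      rfl
    intro h0
    have h3 := congrArg Matrix.det h2
    rw [h1, Matrix.det_mul, h0, zero_mul, Matrix.det_diagonal] at h3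
    exact (Finset.prod_ne_zero_iff.2 fun i _ => hd0 i) h3

end

end Pool.Agent.T2h12
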