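import Pool.Agent.T2h12.Lct
import Pool.Agent.T2h12.Frame
import Pool.Agent.T2h12.Alpha

/-!
The degrees of the images of a function with a pole of high order.
-/

set_option autoImplicit false
set_option linter.overlappingInstances false
set_option linter.unusedSectionVars false

open FF Module MvPolynomial Pool.Agent.W602.GT Pool.Agent.W603.LV
open Pool.Agent.Y172 Pool.Agent.Y191 Pool.Agent.R887 Pool.Agent.N110

namespace Pool.Agent.T2h12

section

variable {K : Type} [Field K] [Algebra ℂ K]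

/-- a derivation which is zero on generators is zero on the field -/
theorem der_adjoin {D : Derivation ℂ K K} {S : Set K} (h : ∀ s ∈ S, D s = 0) :
    ∀ f ∈ IntermediateField.adjoin ℂ S, D f = 0 := by
  intro f hf
  induction hf using IntermediateField.adjoin_induction with
  | mem x hx => exact h x hx
  | algebraMap c => exact D.map_algebraMap c
  | add x y _ _ hx hy => rw [map_add, hx, hy, add_zero]
  | mul x y _ _ hx hy => rw [D.leibniz, hx, hy, smul_zero, smul_zero, add_zero]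
  | inv x _ hx => rw [D.leibniz_inv, hx, smul_zero]

/-- a derivation as a derivation over a larger field -/
def upDer (F : IntermediateField ℂ K) (D : Derivation ℂ K K) (h : ∀ f ∈ F, D f = 0) :
    Derivation F K K where
  toFun := D
  map_add' := D.map_add
  map_smul' := fun c v => by
    have h1 : c • v = (c : K) * v := rfl
    rw [h1, D.leibniz, h _ c.2, smul_zero, add_zero]
    rfl
  map_one_eq_zero' := D.map_one_eq_zero
  leibniz' := D.leibniz

theorem trdeg_over {κ p : ℕ} (hn : Algebra.trdeg ℂ K = (p + κ : ℕ)) {r : Fin κ → K}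
    (hr : AlgebraicIndependent ℂ r) :
    Algebra.trdeg (IntermediateField.adjoin ℂ (Set.range r)) K = (p : ℕ) := by
  obtain ⟨F, hF⟩ : ∃ F, F = IntermediateField.adjoin ℂ (Set.range r) := ⟨_, rfl⟩
  rw [← hF]
  have hrF : ∀ j, r j ∈ F := fun j => by
    rw [hF]
    exact IntermediateField.subset_adjoin _ _ ⟨j, rfl⟩
  obtain ⟨r', hr'⟩ : ∃ r' : Fin κ → F, r' = fun j => ⟨r j, hrF j⟩ := ⟨_, rfl⟩
  have hr'i : AlgebraicIndependent ℂ r' := by
    refine AlgebraicIndependent.of_comp F.val ?_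
    rw [hr']
    exact hr
  have hr'b : IsTranscendenceBasis ℂ r' := by
    rw [hr'i.isTranscendenceBasis_iff_isAlgebraic]
    have h1 : IntermediateField.adjoin ℂ (Set.range r') = ⊤ := by
      apply IntermediateField.map_injective F.val
      rw [IntermediateField.adjoin_map, ← Set.range_comp]
      have h2 : (F.val ∘ r') = r := by
        rw [hr']
        rfl
      rw [h2, ← hF]
      ext z
      constructor
      · intro hz
        exact ⟨⟨z, hz⟩, trivial, rfl⟩
      · rintro ⟨w, -, rfl⟩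
        exact w.2
    have h2 : Algebra.IsAlgebraic (IntermediateField.adjoin ℂ (Set.range r')) F := alg_of_top h1
    open scoped IntermediateField.algebraAdjoinAdjoin in
    exact Algebra.IsAlgebraic.trans _ (IntermediateField.adjoin ℂ (Set.range r')) F
  have htr : Algebra.trdeg ℂ F = (κ : ℕ) := by
    rw [← hr'b.cardinalMk_eq_trdeg]
    simp
  have h1 : Algebra.trdeg ℂ F + Algebra.trdeg F K = Algebra.trdeg ℂ K :=
    _root_.trdeg_add_eq ℂ F (A := K)
  rw [htr, hn, add_comm] at h1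
  push_cast at h1
  rw [Cardinal.add_nat_inj] at h1
  exact h1

theorem gen_inv (z : K) (W : Multiset K) : gen ℂ (z⁻¹ ::ₘ W) = gen ℂ (z ::ₘ W) := by
  have key : ∀ u : K, gen ℂ (u⁻¹ ::ₘ W) ≤ gen ℂ (u ::ₘ W) := by
    intro u
    unfold gen
    rw [IntermediateField.adjoin_le_iff]
    intro x hx
    rcases Multiset.mem_cons.1 (show x ∈ u⁻¹ ::ₘ W from hx) with rfl | hx
    · exact inv_mem (IntermediateField.subset_adjoin _ _ (Multiset.mem_cons_self _ _))
    · exact IntermediateField.subset_adjoin _ _ (Multiset.mem_cons_of_mem hx)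
  refine le_antisymm (key z) ?_
  have := key z⁻¹
  rwa [inv_inv] at this

theorem dm_over {κ : ℕ} (r : Fin κ → K) (W : Multiset K) :
    dm (IntermediateField.adjoin ℂ (Set.range r)) W = dm ℂ (W + toM r) := by
  unfold dm
  have h1 : gen ℂ (W + toM r) =
      (gen (IntermediateField.adjoin ℂ (Set.range r)) W).restrictScalars ℂ := by
    unfold gen
    rw [IntermediateField.adjoin_adjoin_left]
    congr 1
    ext x
    change x ∈ W + toM r ↔ x ∈ Set.range r ∪ {x | x ∈ W}
    rw [Multiset.mem_add, mem_toM]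
    change _ ↔ (x ∈ Set.range r ∨ x ∈ W)
    rw [Set.mem_range]
    exact or_comm
  rw [h1]
  rfl

end

section

variable {K : Type} [Field K] [Algebra ℂ K] {N κ m : ℕ} {y : Fin (N + 1) → K}

/-- **The degrees of the images of a function with a pole of high order.** -/
theorem word_bound (hy : NormalModel y) (hn : Algebra.trdeg ℂ K = (m + 1 + κ : ℕ))
    {Δ : Place ℂ K → ℚ} (hΔ : Effective y Δ) (hklt : Klt y (m + 1 + κ) Δ)
    {x : Fin (m + 1 + κ) → K} {E : Fin (m + 1 + κ) → Derivation ℂ K K}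
    (hx : IsTranscendenceBasis ℂ x) (hE : ∀ i j, E i (x j) = if i = j then 1 else 0)
    (hfr : IsFrame E) {c : Place ℂ K → ℤ} (hc : IsDisc y E c) {m0 : ℕ} (hm0 : 1 ≤ m0) {g0 : K}
    (hg0 : g0 ≠ 0) (hg0V : g0 ∈ Lsp y c m0 (m0 • Δ)) {r : Fin κ → K}
    (hr : AlgebraicIndependent ℂ r) {P : Place ℂ K} (hPd : Divisorial (m + 1 + κ) P)
    (htriv : ∀ f ∈ IntermediateField.adjoin ℂ (Set.range r), f ≠ 0 → P.ord f = 0)
    {l : Fin m → K} (hl : ∀ F : MvPolynomial (Fin m) (IntermediateField.adjoin ℂ (Set.range r)),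
      F ≠ 0 → aeval l F ≠ 0 ∧ P.ord (aeval l F) = 0) {i : Fin (N + 1)} (hi : y i ≠ 0) :
    ∃ C : ℕ, 1 ≤ C ∧ ∀ φ : K →ₐ[ℂ] K, JPulls y c Δ x E φ → ∀ (v : K) (T : ℕ), 1 ≤ T →
      ((T * C : ℕ) : ℤ) ≤ -P.ord v → ∃ Q' : Multiset K,
        Sel Q' (Multiset.replicate m (hcls hy hi)) ∧
        T ≤ dm ℂ (φ v ::ₘ ((toM fun j => φ (r j)) + Q')) := by
  classical
  have hess := hy.ess
  obtain ⟨Λ, hΛ, hΛr, hΛ0⟩ := exists_frame hess hn hr hPd htriv hl hx hE
  obtain ⟨C, hC1, hC⟩ := lct hy hn hΔ hklt hx hE hfr hc hm0 hg0 hg0V P hΛ hΛ0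
  refine ⟨C, hC1, fun φ hφ v T hT1 hT => ?_⟩
  obtain ⟨Q, e, hQ, hQd⟩ := above_hom hess hn hn φ hPd
  choose Λ' hΛ' using fun i => lift_hom hess hn hn φ (Λ i)
  obtain ⟨j, hj, X, hXs, hXr, hdet, hdetQ⟩ := hC φ hφ Q e hQ hQd Λ' hΛ'
  have hlog : ∀ i, DerLog Q (Λ' i) := fun i => lift_log_hom hess hn hn φ hQ (hΛ i) (hΛ' i)
  obtain ⟨J, hJ0, hJ⟩ := exists_minor Q κ (Matrix.of fun i l => Λ' i (X l))
    (fun a b => DerLog.ge (hlog a) (hXr b)) hdet
  -- the base field
  obtain ⟨F, hF⟩ : ∃ F, F = IntermediateField.adjoin ℂ (Set.range fun j => φ (r j)) := ⟨_, rfl⟩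
  have hFmap : F = (IntermediateField.adjoin ℂ (Set.range r)).map φ := by
    rw [hF, IntermediateField.adjoin_map, ← Set.range_comp]
    rfl
  have htriv' : ∀ f ∈ F, f ≠ 0 → Q.ord f = 0 := by
    intro f hf hf0
    rw [hFmap] at hf
    obtain ⟨g, hg, rfl⟩ := hf
    have hg0 : g ≠ 0 := by
      rintro rfl
      exact hf0 (map_zero φ)
    change Q.ord (φ g) = 0
    rw [hQ.2, htriv g hg hg0, mul_zero]
  have hker : ∀ a : Fin (m + 1), ∀ f ∈ F, Λ' (Fin.castAdd κ a) f = 0 := by
    intro a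
    rw [hF]
    refine der_adjoin ?_
    rintro _ ⟨j, rfl⟩
    rw [hΛ', hΛr, map_zero]
  have hr' : AlgebraicIndependent ℂ (fun j => φ (r j)) := by
    have := hr.map' (f := φ) φ.toRingHom.injective
    exact this
  have hnF : Algebra.trdeg F K = (m + 1 : ℕ) := by
    rw [hF]
    exact trdeg_over (p := m + 1) hn hr'
  have hcz : CharZero F := charZero_of_injective_algebraMap (algebraMap ℂ F).injective
  have hess' : Algebra.EssFiniteType F K := Algebra.EssFiniteType.of_comp ℂ _ K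
  have he1 : 1 ≤ e := hQ.1
  have hv0 : v ≠ 0 := by
    rintro rfl
    rw [P.ord_zero, neg_zero] at hT
    have : 1 ≤ T * C := Nat.mul_pos hT1 hC1
    omega
  obtain ⟨p, hp0, hp⟩ := alpha (k := F) (K := K) (m := m) hnF (Q := upPlace F Q htriv')
    (x := fun b => X (J b)) (fun b => hXr (J b))
    (Λ := fun a => upDer F (Λ' (Fin.castAdd κ a)) (hker a))
    (fun a f => hlog (Fin.castAdd κ a) f) (A := C * e) hJ0 (by
      refine hJ.trans (hdetQ.trans (le_of_eq ?_))
      push_cast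
      ring) (Nat.mul_pos hC1 he1) (z := (φ v)⁻¹) hT1 (by
      change ((T * (C * e) : ℕ) : ℤ) ≤ Q.ord (φ v)⁻¹
      rw [Q.ord_inv, hQ.2]
      have h1 := mul_le_mul_of_nonneg_left hT (show (0 : ℤ) ≤ e from Int.natCast_nonneg _)
      have h2 : ((T * (C * e) : ℕ) : ℤ) = e * ((T * C : ℕ) : ℤ) := by
        push_cast
        ring
      rw [h2]
      linarith)
  obtain ⟨u, hu⟩ : ∃ u : Fin m → K, u = fun b : Fin m => X (J b.succ) -
      ((p b.succ : K) / (p 0 : K)) * X (J 0) := ⟨_, rfl⟩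
  rw [← hu] at hp
  have hus : ∀ b, u b ∈ Submodule.span ℂ (affS y j) := by
    intro b
    rw [hu]
    refine Submodule.sub_mem _ (Submodule.subset_span (hXs _)) ?_
    have e1 : ((p b.succ : K) / (p 0 : K)) * X (J 0) =
        ((p b.succ : ℂ) / (p 0 : ℂ)) • X (J 0) := by
      rw [Algebra.smul_def, map_div₀, map_natCast, map_natCast]
    rw [e1]
    exact Submodule.smul_mem _ _ (Submodule.subset_span (hXs _))
  have hdm : dm F ((φ v)⁻¹ ::ₘ toM u) = dm ℂ (toM u + (φ v ::ₘ toM fun j => φ (r j))) := by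
    rw [hF, dm_over, Multiset.cons_add]
    unfold dm
    rw [gen_inv, Multiset.add_cons]
  rw [hdm] at hp
  obtain ⟨Q', hQ', hle⟩ := replace_pencils' hy hn hi (toM u) (φ v ::ₘ toM fun j => φ (r j))
    (by rw [Multiset.card_add, Multiset.card_cons, toM_card, toM_card]; ring) (fun z hz => by
      obtain ⟨b, rfl⟩ := mem_toM.1 hz
      exact pencil_span hj (hus b))
  rw [toM_card] at hQ'
  refine ⟨Q', hQ', hp.trans (hle.trans (le_of_eq ?_))⟩
  congr 1
  rw [Multiset.add_cons, add_comm Q']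

end

end Pool.Agent.T2h12
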