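import Pool.Agent.T2h12.BaseB
import Pool.Agent.T2h12.WB

/-!
The growth of the sections over the base of the pluricanonical map, part 2.
-/

set_option autoImplicit false
set_option linter.overlappingInstances false
set_option linter.unusedSectionVars false

open FF Module Pool.Agent.W602.GT Pool.Agent.W603.LV
open Pool.Agent.Y172 Pool.Agent.Y191 Pool.Agent.R887 Pool.Agent.N110

namespace Pool.Agent.T2h12

theorem base_arith (κ : ℕ) {ε C1 C2 : ℝ} (hε : 0 < ε) (hC1 : 0 < C1) (hC2 : 0 ≤ C2) :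
    ∃ θ : ℝ, 0 < θ ∧ θ ≤ 1 / 2 ∧ ∀ k vv R : ℝ, 1 ≤ k → 0 ≤ R → θ * k ≤ vv → vv ≤ 2 * (θ * k) →
      ε * k ^ (κ + 1) * (k ^ κ * vv) ^ κ ≤ C1 * (k ^ κ * R + κ * (k ^ κ * (vv * C2))) ^ (κ + 1) →
      θ * k ≤ R := by
  obtain ⟨C3, hC3⟩ : ∃ C3 : ℝ, C3 = 1 + 2 * κ * C2 := ⟨_, rfl⟩
  have hκ0 : (0 : ℝ) ≤ κ := Nat.cast_nonneg _
  have hC3p : 0 < C3 := by
    rw [hC3]
    positivity
  obtain ⟨G, hG⟩ : ∃ G : ℝ, G = C1 * C3 ^ (κ + 1) := ⟨_, rfl⟩
  have hGp : 0 < G := by
    rw [hG]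
    positivity
  obtain ⟨θ, hθ⟩ : ∃ θ : ℝ, θ = min (1 / 2) (ε / (2 * G)) := ⟨_, rfl⟩
  have hθ0 : 0 < θ := by
    rw [hθ]
    exact lt_min (by norm_num) (by positivity)
  refine ⟨θ, hθ0, by rw [hθ]; exact min_le_left _ _, fun k vv R hk hR0 h1 h2 h3 => ?_⟩
  by_contra hcon
  push Not at hcon
  have hk0 : 0 < k := by linarith
  have hvv0 : 0 < vv := lt_of_lt_of_le (by positivity) h1
  have hkκ : 0 < k ^ κ := by positivity
  have hle1 : k ^ κ * R + κ * (k ^ κ * (vv * C2)) ≤ k ^ (κ + 1) * (θ * C3) := by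
    have e1 : k ^ (κ + 1) * (θ * C3) = k ^ κ * (θ * k) + κ * (k ^ κ * (2 * (θ * k) * C2)) := by
      rw [hC3, pow_succ]
      ring
    rw [e1]
    refine add_le_add (mul_le_mul_of_nonneg_left hcon.le hkκ.le) ?_
    refine mul_le_mul_of_nonneg_left ?_ hκ0
    refine mul_le_mul_of_nonneg_left ?_ hkκ.le
    exact mul_le_mul_of_nonneg_right h2 hC2
  have hle2 : (k ^ κ * R + κ * (k ^ κ * (vv * C2))) ^ (κ + 1) ≤
      (k ^ (κ + 1) * (θ * C3)) ^ (κ + 1) := pow_le_pow_left₀ (by positivity) hle1 _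
  have hle3 : ε * k ^ (κ + 1) * (k ^ κ * (θ * k)) ^ κ ≤ ε * k ^ (κ + 1) * (k ^ κ * vv) ^ κ := by
    refine mul_le_mul_of_nonneg_left ?_ (by positivity)
    exact pow_le_pow_left₀ (by positivity) (mul_le_mul_of_nonneg_left h1 hkκ.le) _
  have h4 := hle3.trans (h3.trans (mul_le_mul_of_nonneg_left hle2 hC1.le))
  have e2 : ε * k ^ (κ + 1) * (k ^ κ * (θ * k)) ^ κ = (k ^ (κ + 1)) ^ (κ + 1) * θ ^ κ * ε := by
    have e3 : k ^ κ * (θ * k) = θ * k ^ (κ + 1) := by
      rw [pow_succ]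
      ring
    rw [e3, mul_pow, pow_succ (k ^ (κ + 1)) κ]
    ring
  have e4 : C1 * (k ^ (κ + 1) * (θ * C3)) ^ (κ + 1) =
      (k ^ (κ + 1)) ^ (κ + 1) * θ ^ κ * (θ * G) := by
    rw [mul_pow, mul_pow, hG, pow_succ θ κ]
    ring
  rw [e2, e4] at h4
  have h5 : ε ≤ θ * G := le_of_mul_le_mul_left h4 (by positivity)
  have h6 : θ * G ≤ ε / 2 := by
    have : θ ≤ ε / (2 * G) := by
      rw [hθ]
      exact min_le_right _ _
    calc θ * G ≤ ε / (2 * G) * G := mul_le_mul_of_nonneg_right this hGp.le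
      _ = ε / 2 := by field_simp
  linarith

section

variable {K : Type} [Field K] [Algebra ℂ K] {N n : ℕ} {y : Fin (N + 1) → K}

theorem selS_rep {k : ℕ} {V : Submodule ℂ K} {W : Multiset K} :
    SelS W (Multiset.replicate k V) ↔ W.card = k ∧ ∀ x ∈ W, x ∈ V := by
  induction k generalizing W with
  | zero =>
    rw [Multiset.replicate_zero]
    constructor
    · intro h
      have e1 : W = 0 := Multiset.card_eq_zero.1 (by rw [h.card]; rfl)
      subst e1
      exact ⟨rfl, by simp⟩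
    · rintro ⟨h, -⟩
      have e1 : W = 0 := Multiset.card_eq_zero.1 h
      subst e1
      exact Multiset.Rel.zero
  | succ k ih =>
    rw [Multiset.replicate_succ]
    constructor
    · intro h
      obtain ⟨x, W', hx, hW', rfl⟩ := selS_cons_right h
      obtain ⟨h1, h2⟩ := ih.1 hW'
      refine ⟨by rw [Multiset.card_cons, h1], fun z hz => ?_⟩
      rcases Multiset.mem_cons.1 hz with rfl | hz
      · exact hx
      · exact h2 z hz
    · rintro ⟨h1, h2⟩
      obtain ⟨x, W', hW', -⟩ := Multiset.card_eq_succ_iff.1 h1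
      subst hW'
      rw [Multiset.card_cons] at h1
      exact Multiset.Rel.cons (h2 x (Multiset.mem_cons_self _ _))
        (ih.2 ⟨by omega, fun z hz => h2 z (Multiset.mem_cons_of_mem hz)⟩)

theorem selS_add {W W' : Multiset K} {s s' : Multiset (Submodule ℂ K)} (h : SelS W s)
    (h' : SelS W' s') : SelS (W + W') (s + s') := Multiset.Rel.add h h'

theorem selS_add_right {W : Multiset K} {s s' : Multiset (Submodule ℂ K)}
    (h : SelS W (s + s')) : ∃ W1 W2, SelS W1 s ∧ SelS W2 s' ∧ W = W1 + W2 := by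
  unfold SelS at h
  rw [Multiset.rel_add_right] at h
  exact h

/-- a transcendence basis with given algebraically independent elements -/
theorem exists_compl {S : Set K} (cx : Ctx n ℂ S) (H : Cls ℂ S) {κ p : ℕ}
    (hnp : n = p + κ) {r : Fin κ → K} (hr : AlgebraicIndependent ℂ r) :
    ∃ W : Multiset K, W.card = p ∧ (∀ x ∈ W, x ∈ H.V) ∧ dm ℂ (W + toM r) ≠ 0 := by
  have hess := cx.ess
  have key : ∀ j, j ≤ p → ∃ W : Multiset K, W.card = j ∧ (∀ x ∈ W, x ∈ H.V) ∧
      Ind n ℂ (W + toM r) ∧ (n : Cardinal) ≤ Algebra.trdeg (gen ℂ (W + toM r)) K +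
        ((W + toM r).card : ℕ) := by
    intro j
    induction j with
    | zero =>
      intro _
      refine ⟨0, rfl, by simp, ?_, ?_⟩
      · rw [zero_add]
        unfold Ind gen
        rw [toM_set, trdeg_over (by rw [cx.hn, hnp]) hr, toM_card, hnp]
        push_cast
        rfl
      · rw [← cx.hn]
        exact trdeg_le_gen _
    | succ j ih =>
      intro hj
      obtain ⟨W, hW, hWH, hi, hl⟩ := ih (by omega)
      have h1 : Algebra.trdeg (gen ℂ (W + toM r)) K ≠ 0 := by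
        intro h0
        rw [h0, zero_add, Multiset.card_add, toM_card, hW] at hl
        have : n ≤ j + κ := by exact_mod_cast hl
        omega
      have h2 : Algebra.Transcendental (gen ℂ (W + toM r)) K := _root_.trdeg_ne_zero_iff.1 h1
      obtain ⟨z, hz⟩ := h2.transcendental
      obtain ⟨e, he, hez⟩ := exists_transc H.big hz
      refine ⟨e ::ₘ W, by rw [Multiset.card_cons, hW], ?_, ?_, ?_⟩
      · intro x hx
        rcases Multiset.mem_cons.1 hx with rfl | hx
        · exact he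
        · exact hWH x hx
      · rw [Multiset.cons_add]
        exact hi.cons hez
      · rw [← cx.hn]
        exact trdeg_le_gen _
  obtain ⟨W, hW, hWH, hi, -⟩ := key p le_rfl
  exact ⟨W, hW, hWH, hi.dm_ne (by rw [Multiset.card_add, toM_card, hW, hnp])⟩

end

end Pool.Agent.T2h12
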