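import Pool.Agent.T2h12.BaseC

/-!
The growth of the sections over the base of the pluricanonical map, part 3.
-/

set_option autoImplicit false
set_option linter.overlappingInstances false
set_option linter.unusedSectionVars false

open FF Module Pool.Agent.W602.GT Pool.Agent.W603.LV
open Pool.Agent.Y172 Pool.Agent.Y191 Pool.Agent.R887 Pool.Agent.N110

namespace Pool.Agent.T2h12

section

variable {K : Type} [Field K] [Algebra ℂ K] {N n : ℕ} {y : Fin (N + 1) → K}

theorem bnd_mono {S : Set K} (hS : S.Finite) (h1 : (1 : K) ∈ S) {B B' : ℕ} (hB : B ≤ B') {f : K}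
    (h : Bnd ℂ S B f) : Bnd ℂ S B' f := by
  obtain ⟨μ, hμ⟩ := exists_isMin (k := ℂ) hS ⟨1, h1, one_ne_zero⟩
  refine bnd_of_ge hμ h1 fun P => (hμ.ge h P).mono ?_
  have h2 := hμ.nonpos h1 P
  have h3 : (B : ℤ) ≤ B' := by exact_mod_cast hB
  nlinarith

theorem Dmn.mono {S : Set K} (hS : S.Finite) (h1 : (1 : K) ∈ S) {B B' : ℕ} (hB : B ≤ B') {z : K}
    (h : Dmn S B z) : Dmn S B' z := by
  obtain ⟨f, hf, h2, h3⟩ := h
  exact ⟨f, hf, bnd_mono hS h1 hB h2, bnd_mono hS h1 hB h3⟩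

theorem rbnd (hy : NormalModel y) {i : Fin (N + 1)} (hi : y i ≠ 0) {T : Set K}
    {C : ℕ} {fR : K} (hRd : ∀ u ∈ Submodule.span ℂ T, Bnd ℂ (affS y i) C (fR * u)) (k v : ℕ) :
    ∀ z ∈ (Submodule.span ℂ T) ^ k * (hpow hy hi v).V,
      Bnd ℂ (affS y i) (C * k + (v + 1)) (fR ^ k * z) := by
  obtain ⟨μ, hμ⟩ := exists_isMin (k := ℂ) (fin_affS (y := y) i) ⟨1, one_affS hi, one_ne_zero⟩
  have key : ∀ k : ℕ, ∀ z ∈ (Submodule.span ℂ T) ^ k, ∀ P : Place ℂ K,
      Ge P (((C * k : ℕ) : ℤ) * μ P) (fR ^ k * z) := by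
    intro k
    induction k with
    | zero =>
      intro z hz P
      rw [pow_zero, Submodule.mem_one] at hz
      obtain ⟨c, rfl⟩ := hz
      rw [Nat.mul_zero, Nat.cast_zero, zero_mul, pow_zero, one_mul]
      exact Ge.const c
    | succ k ih =>
      intro z hz P
      rw [pow_succ] at hz
      induction hz using Submodule.mul_induction_on' with
      | mem_mul_mem u hu w hw =>
        have h1 := (ih u hu P).mul (hμ.ge (hRd w hw) P)
        have e1 : fR ^ (k + 1) * (u * w) = fR ^ k * u * (fR * w) := by ring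
        rw [e1]
        refine h1.mono ?_
        push_cast
        linarith
      | add u _ w _ h1 h2 =>
        rw [mul_add (fR ^ (k + 1))]
        exact h1.add h2
  intro z hz
  refine bnd_of_ge hμ (one_affS hi) fun P => ?_
  induction hz using Submodule.mul_induction_on' with
  | mem_mul_mem u hu w hw =>
    have h1 := (key k u hu P).mul (hμ.ge (hpow_bnd hy hi v w hw) P)
    have e1 : fR ^ k * (u * w) = fR ^ k * u * (1 * w) := by ring
    rw [e1]
    refine h1.mono ?_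
    push_cast
    linarith
  | add u _ w _ h1 h2 =>
    rw [mul_add]
    exact h1.add h2

theorem exists_rCls (hy : NormalModel y) {i : Fin (N + 1)} (hi : y i ≠ 0) {T : Set K}
    (hT1 : (1 : K) ∈ T) {C : ℕ} {fR : K} (hfR : fR ≠ 0)
    (hRd : ∀ u ∈ Submodule.span ℂ T, Bnd ℂ (affS y i) C (fR * u)) (k v : ℕ) :
    ∃ D : Cls ℂ (affS y i), D.V = (Submodule.span ℂ T) ^ k * (hpow hy hi v).V := by
  have hone : (1 : K) ∈ (Submodule.span ℂ T) ^ k := by
    have := Submodule.pow_mem_pow (Submodule.span ℂ T) (Submodule.subset_span hT1) k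
    rwa [one_pow] at this
  refine ⟨⟨(Submodule.span ℂ T) ^ k * (hpow hy hi v).V, ?_, ?_, ?_⟩, rfl⟩
  · have := Submodule.mul_mem_mul hone (hpow hy hi v).one
    rwa [one_mul] at this
  · refine alg_mono ?_ (hpow hy hi v).big
    refine IntermediateField.adjoin.mono _ _ _ fun a ha => ?_
    have := Submodule.mul_mem_mul hone ha
    rwa [one_mul] at this
  · exact ⟨C * k + (v + 1), fR ^ k, pow_ne_zero _ hfR, rbnd hy hi hRd k v⟩

/-- **The growth over the base.** -/
theorem base_main (hy : NormalModel y) (hn : Algebra.trdeg ℂ K = n) {i : Fin (N + 1)}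
    (hi : y i ≠ 0) {m κ : ℕ} (hmk : n = m + 1 + κ) {M : ℕ → ℕ → Cls ℂ (affS y i)}
    {r : Fin κ → K} (hr : AlgebraicIndependent ℂ r) {T : Set K} (hTf : T.Finite)
    (hT1 : (1 : K) ∈ T) (hrT : ∀ j, r j ∈ T) {C : ℕ} {fR : K} (hfR : fR ≠ 0)
    (hRd : ∀ u ∈ Submodule.span ℂ T, Bnd ℂ (affS y i) C (fR * u))
    (hMd : ∀ k b, 1 ≤ k → 1 ≤ b → b ≤ k → ∀ v ∈ (M k b).V, Dmn (affS y i) (C * k) v)
    {ε : ℝ} (hε : 0 < ε) (hlow : ∀ t : ℝ, 0 < t → ∀ k0 : ℕ, ∃ k, k0 ≤ k ∧ ∃ b : ℕ, 1 ≤ b ∧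
      (b : ℝ) ≤ t * k ∧ ε * (k : ℝ) ^ (κ + 1) ≤ I (Multiset.replicate (κ + 1) (M k b) +
        Multiset.replicate (n - (κ + 1)) (hcls hy hi))) :
    ∃ c : ℝ, 0 < c ∧ ∀ t : ℝ, 0 < t → ∀ k0 : ℕ, ∃ k, k0 ≤ k ∧ ∃ b : ℕ, 1 ≤ b ∧
      (b : ℝ) ≤ t * k ∧ ∃ v ∈ (M k b).V, ∃ W, SelS W (Multiset.replicate κ
        (Submodule.span ℂ T) + Multiset.replicate m (Submodule.span ℂ (affS y i))) ∧
        c * k ≤ dm ℂ (v ::ₘ W) := by
  classical
  have cx := ctx hy hn hi
  obtain ⟨I₀, hI₀⟩ : ∃ I₀ : ℕ, I₀ = I (Multiset.replicate n (hcls hy hi)) := ⟨_, rfl⟩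
  have hI : ∀ Z : Multiset K, Z.card = n → (∀ z ∈ Z, z ∈ Submodule.span ℂ (affS y i)) →
      dm ℂ Z ≤ I₀ := by
    intro Z hZ hZs
    rw [hI₀]
    exact le_I cx (by rw [Multiset.card_replicate]) (sel_rep.2 ⟨hZ, hZs⟩)
  obtain ⟨C₀, hC₀, hchain⟩ := seq_chain κ
  have hC2 : (0 : ℝ) ≤ ((C + 1 : ℕ) : ℝ) ^ κ * I₀ := by positivity
  obtain ⟨θ, hθ0, hθ2, har⟩ := base_arith κ hε hC₀ hC2
  refine ⟨θ / 2, by positivity, fun t ht k0 => ?_⟩
  obtain ⟨k1, hk1⟩ := exists_nat_gt (1 / θ)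
  obtain ⟨k, hk, b, hb1, hb, hlow'⟩ := hlow (min t 1) (lt_min ht one_pos) (max k0 (max 1 k1))
  have hkk0 : k0 ≤ k := (le_max_left _ _).trans hk
  have hk1' : 1 ≤ k := ((le_max_left _ _).trans (le_max_right _ _)).trans hk
  have hkk1 : k1 ≤ k := ((le_max_right _ _).trans (le_max_right _ _)).trans hk
  have hkr : (1 : ℝ) ≤ k := by exact_mod_cast hk1'
  have hk0r : (0 : ℝ) < k := by linarith
  have hbt : (b : ℝ) ≤ t * k := hb.trans (mul_le_mul_of_nonneg_right (min_le_left _ _) hk0r.le)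
  have hbk : b ≤ k := by
    have : (b : ℝ) ≤ 1 * k := hb.trans (mul_le_mul_of_nonneg_right (min_le_right _ _) hk0r.le)
    rw [one_mul] at this
    exact_mod_cast this
  refine ⟨k, hkk0, b, hb1, hbt, ?_⟩
  by_contra hcon
  push Not at hcon
  -- the number `vv`
  have hθk : 1 ≤ θ * k := by
    have h1 : 1 / θ < k := hk1.trans_le (by exact_mod_cast hkk1)
    rw [div_lt_iff₀ hθ0] at h1
    linarith
  obtain ⟨vv, hvv⟩ : ∃ vv : ℕ, vv = ⌈θ * k⌉₊ := ⟨_, rfl⟩
  have hv1 : θ * k ≤ vv := by rw [hvv]; exact Nat.le_ceil _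
  have hv2 : (vv : ℝ) ≤ 2 * (θ * k) := by
    have : (vv : ℝ) < θ * k + 1 := by rw [hvv]; exact Nat.ceil_lt_add_one (by positivity)
    linarith
  have hv3 : vv ≤ k := by
    have h1 : (vv : ℝ) ≤ k := by
      have h2 : θ * k ≤ 1 / 2 * k := mul_le_mul_of_nonneg_right hθ2 hk0r.le
      linarith
    exact_mod_cast h1
  have hv4 : 1 ≤ vv := by
    have : (0 : ℝ) < vv := by linarith
    exact_mod_cast this
  obtain ⟨v', rfl⟩ : ∃ v', vv = v' + 1 := ⟨vv - 1, by omega⟩
  -- the number `R`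
  obtain ⟨R, hR⟩ : ∃ R : ℕ, R = ⌊θ / 2 * k⌋₊ := ⟨_, rfl⟩
  have hRle : (R : ℝ) ≤ θ / 2 * k := by rw [hR]; exact Nat.floor_le (by positivity)
  have hdmR : ∀ v ∈ (M k b).V, ∀ W, SelS W (Multiset.replicate κ (Submodule.span ℂ T) +
      Multiset.replicate m (Submodule.span ℂ (affS y i))) → dm ℂ (v ::ₘ W) ≤ R := by
    intro v hv W hW
    rw [hR]
    exact Nat.le_floor (hcon v hv W hW).le
  -- the class `D`
  obtain ⟨D, hD⟩ := exists_rCls hy hi hT1 hfR hRd k v'
  obtain ⟨A, hA⟩ : ∃ A, A = M k b := ⟨_, rfl⟩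
  obtain ⟨H, hH⟩ : ∃ H, H = hcls hy hi := ⟨_, rfl⟩
  have hHV : H.V = Submodule.span ℂ (affS y i) := by rw [hH]; rfl
  obtain ⟨a, ha⟩ : ∃ a : ℕ → ℝ, a = fun j => (I (Multiset.replicate (κ + 1 - j) A +
    (Multiset.replicate j D + Multiset.replicate m H)) : ℝ) := ⟨_, rfl⟩
  have hcj : ∀ j, j ≤ κ + 1 → (Multiset.replicate (κ + 1 - j) A +
      (Multiset.replicate j D + Multiset.replicate m H)).card = n := by
    intro j hj
    rw [Multiset.card_add, Multiset.card_add, Multiset.card_replicate, Multiset.card_replicate,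
      Multiset.card_replicate]
    omega
  have hapos : ∀ j ≤ κ + 1, 0 < a j := by
    intro j hj
    rw [ha]
    exact Nat.cast_pos.2 (I_pos cx (hcj j hj))
  have halc : ∀ j, j + 2 ≤ κ + 1 → a j * a (j + 2) ≤ 4 * a (j + 1) ^ 2 := by
    intro j hj
    obtain ⟨R', hR'⟩ : ∃ R', R' = Multiset.replicate (κ + 1 - (j + 2)) A +
      (Multiset.replicate j D + Multiset.replicate m H) := ⟨_, rfl⟩
    have e0 : a j = (I (A ::ₘ A ::ₘ R') : ℝ) := by
      have : κ + 1 - j = κ + 1 - (j + 2) + 1 + 1 := by omega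
      simp only [ha]
      rw [this, Multiset.replicate_succ, Multiset.replicate_succ, Multiset.cons_add,
        Multiset.cons_add, hR']
    have e1 : a (j + 1) = (I (A ::ₘ D ::ₘ R') : ℝ) := by
      have : κ + 1 - (j + 1) = κ + 1 - (j + 2) + 1 := by omega
      simp only [ha]
      rw [this, Multiset.replicate_succ, Multiset.replicate_succ, Multiset.cons_add,
        Multiset.cons_add, Multiset.add_cons, hR']
    have e2 : a (j + 2) = (I (D ::ₘ D ::ₘ R') : ℝ) := by
      simp only [ha]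
      rw [Multiset.replicate_succ, Multiset.replicate_succ, Multiset.cons_add,
        Multiset.cons_add, Multiset.add_cons, Multiset.add_cons, hR']
    have h1 := exch cx R' (by
      rw [hR', Multiset.card_add, Multiset.card_add, Multiset.card_replicate,
        Multiset.card_replicate, Multiset.card_replicate]
      omega) A A D D
    simp only at h1
    rw [← e0, ← e1, ← e2] at h1
    linarith
  have hch := hchain a hapos halc
  -- the lower bound for `a 0`
  have h0 : ε * (k : ℝ) ^ (κ + 1) ≤ a 0 := by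
    have : n - (κ + 1) = m := by omega
    rw [this] at hlow'
    simp only [ha]
    rw [Nat.sub_zero, Multiset.replicate_zero, zero_add, hA, hH]
    exact hlow'
  -- the lower bound for `a (κ + 1)`
  have h1 : (k : ℝ) ^ κ * ((v' + 1 : ℕ) : ℝ) ≤ a (κ + 1) := by
    obtain ⟨W, hWc, hWH, hW0⟩ := exists_compl cx H (p := m + 1) hmk hr
    obtain ⟨h, W', hW', -⟩ := Multiset.card_eq_succ_iff.1 hWc
    subst hW'
    rw [Multiset.card_cons] at hWc
    have hc1 : (toM r + (h ::ₘ W')).card = n := by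
      rw [Multiset.card_add, toM_card, Multiset.card_cons]
      omega
    have h2 := dm_pow_all hn hk1' (toM r) (h ::ₘ W') hc1
    rw [toM_card, Multiset.add_cons] at h2
    have h3 := dm_pow hn (z := h) (W := (toM r).map (fun x => x ^ k) + W') (by
      rw [Multiset.card_add, Multiset.card_map, toM_card]
      omega) hv4
    have h4 : 1 ≤ dm ℂ (h ::ₘ (toM r + W')) := by
      have : h ::ₘ W' + toM r = h ::ₘ (toM r + W') := by
        rw [Multiset.cons_add, add_comm]
      rw [this] at hW0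
      exact Nat.one_le_iff_ne_zero.2 hW0
    rw [Multiset.add_cons] at h2
    have h5 : k ^ κ * (v' + 1) ≤ dm ℂ ((h ^ (v' + 1)) ::ₘ ((toM r).map (fun x => x ^ k) + W')) := by
      calc k ^ κ * (v' + 1) = (v' + 1) * (k ^ κ * 1) := by ring
        _ ≤ (v' + 1) * (k ^ κ * dm ℂ (h ::ₘ (toM r + W'))) :=
          Nat.mul_le_mul_left _ (Nat.mul_le_mul_left _ h4)
        _ ≤ (v' + 1) * dm ℂ (h ::ₘ ((toM r).map (fun x => x ^ k) + W')) :=
          Nat.mul_le_mul_left _ h2
        _ ≤ _ := h3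
    have hone : (1 : K) ∈ (Submodule.span ℂ T) ^ k := by
      have := Submodule.pow_mem_pow (Submodule.span ℂ T) (Submodule.subset_span hT1) k
      rwa [one_pow] at this
    have hs1 : Sel (h ^ (v' + 1) ::ₘ (toM r).map (fun x => x ^ k)) (Multiset.replicate (κ + 1) D) := by
      rw [sel_rep]
      refine ⟨by rw [Multiset.card_cons, Multiset.card_map, toM_card], fun z hz => ?_⟩
      rw [hD]
      rcases Multiset.mem_cons.1 hz with rfl | hz
      · have h6 : h ∈ (hcls hy hi).V := by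
          rw [← hH]
          exact hWH h (Multiset.mem_cons_self _ _)
        have := Submodule.mul_mem_mul hone (hpow_pow hy hi v' h h6)
        rwa [one_mul] at this
      · rw [Multiset.mem_map] at hz
        obtain ⟨x, hx, rfl⟩ := hz
        obtain ⟨j, rfl⟩ := mem_toM.1 hx
        have := Submodule.mul_mem_mul (Submodule.pow_mem_pow (Submodule.span ℂ T)
          (Submodule.subset_span (hrT j)) k) (hpow hy hi v').one
        rwa [mul_one] at this
    have hs2 : Sel W' (Multiset.replicate m H) := by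
      rw [sel_rep]
      exact ⟨by omega, fun z hz => hWH z (Multiset.mem_cons_of_mem hz)⟩
    have h6 := le_I cx (by
      rw [Multiset.card_add, Multiset.card_replicate, Multiset.card_replicate]
      omega) (sel_add hs1 hs2)
    rw [Multiset.cons_add] at h6
    have h7 := h5.trans h6
    simp only [ha]
    rw [Nat.sub_self, Multiset.replicate_zero, zero_add]
    exact_mod_cast h7
  -- the upper bound for `a κ`
  have h2 : a κ ≤ (k : ℝ) ^ κ * R + κ * ((k : ℝ) ^ κ * (((v' + 1 : ℕ) : ℝ) *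
      (((C + 1 : ℕ) : ℝ) ^ κ * I₀))) := by
    obtain ⟨W, hW, hWe⟩ := exists_max cx (hcj κ (by omega))
    obtain ⟨W1, W2, hs1, hs2, rfl⟩ := sel_add_right hW
    obtain ⟨W3, W4, hs3, hs4, rfl⟩ := sel_add_right hs2
    rw [sel_rep] at hs1 hs3 hs4
    have hc1 : W1.card = 1 := by
      rw [hs1.1]
      omega
    obtain ⟨v, rfl⟩ := Multiset.card_eq_one.1 hc1
    have hv : v ∈ A.V := hs1.2 v (Multiset.mem_singleton_self v)
    rw [hHV] at hs4
    have hbd := rbnd hy hi hRd k v'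
    have hDd : ∀ z ∈ (Submodule.span ℂ T) ^ k * (hpow hy hi v').V,
        Dmn (affS y i) ((C + 1) * k) z := by
      intro z hz
      have h3 : Dmn (affS y i) (C * k + (v' + 1)) z := by
        refine ⟨fR ^ k, pow_ne_zero _ hfR, ?_, hbd z hz⟩
        have h4 : (1 : K) ∈ (Submodule.span ℂ T) ^ k * (hpow hy hi v').V := by
          rw [← hD]
          exact D.one
        have h5 := hbd 1 h4
        rwa [mul_one] at h5
      refine h3.mono (fin_affS i) (one_affS hi) ?_
      rw [add_mul, one_mul]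
      omega
    have hex := expand_D hn (fin_affS i) (one_affS hi) hTf hT1 (I₀ := I₀) (C := C + 1) (k := k)
      (vv := v' + 1) hI (fun r hr => by
        have h3 : Dmn (affS y i) C r := by
          refine ⟨fR, hfR, ?_, hRd r hr⟩
          have := hRd 1 (Submodule.subset_span hT1)
          rwa [mul_one] at this
        exact h3.mono (fin_affS i) (one_affS hi) (by omega)) (hpow hy hi v').one (fun z hz => by
        refine ⟨1, one_ne_zero, ?_, hpow_bnd hy hi v' z hz⟩
        have := hpow_bnd hy hi v' 1 (hpow hy hi v').one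
        rwa [one_mul] at this) hDd (v := v) (by
        refine (hMd k b hk1' hb1 hbk v (by rw [← hA]; exact hv)).mono (fin_affS i)
          (one_affS hi) ?_
        rw [add_mul]
        omega) (L := W4) hs4.2 (κ := κ) (R := R) (fun Y hY hYs =>
        hdmR v (by rw [← hA]; exact hv) (Y + W4) (selS_add (selS_rep.2 ⟨hY, hYs⟩)
          (selS_rep.2 hs4))) (by rw [hs4.1]; omega) W3 0 (by rw [Multiset.card_zero, hs3.1, add_zero])
        (fun x hx => by rw [← hD]; exact hs3.2 x hx) (by simp)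
    rw [add_zero, hs3.1] at hex
    have e1 : {v} + (W3 + W4) = v ::ₘ (W3 + W4) := by
      rw [Multiset.singleton_add]
    rw [e1] at hWe
    simp only [ha]
    rw [← hWe]
    exact_mod_cast hex
  -- conclusion
  have h3 := har k ((v' + 1 : ℕ) : ℝ) R hkr (Nat.cast_nonneg _) hv1 hv2 (by
    have hp0 : (0 : ℝ) ≤ (k : ℝ) ^ κ * ((v' + 1 : ℕ) : ℝ) := by positivity
    have h4 : ((k : ℝ) ^ κ * ((v' + 1 : ℕ) : ℝ)) ^ κ ≤ a (κ + 1) ^ κ := pow_le_pow_left₀ hp0 h1 _
    calc ε * (k : ℝ) ^ (κ + 1) * ((k : ℝ) ^ κ * ((v' + 1 : ℕ) : ℝ)) ^ κ ≤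
          a 0 * a (κ + 1) ^ κ := mul_le_mul h0 h4 (by positivity) (hapos 0 (by omega)).le
      _ ≤ C₀ * a κ ^ (κ + 1) := hch
      _ ≤ _ := mul_le_mul_of_nonneg_left (pow_le_pow_left₀ (hapos κ (by omega)).le h2 _) hC₀.le)
  have h5 : θ / 2 * (k : ℝ) < θ * k := by
    have : 0 < θ / 2 * k := by positivity
    linarith
  linarith

end

end Pool.Agent.T2h12
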