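import Pool.Agent.N832.CC.NormA
import Pool.Agent.R887.Frm
import Pool.Agent.N110.Pull

/-!
The orders of the coefficients of the minimal polynomial of a function along a divisor.
-/

set_option autoImplicit false
set_option linter.overlappingInstances false
set_option linter.unusedSectionVars false

open FF Module Pool.Agent.W602.GT Pool.Agent.W603.LV
open Pool.Agent.Y172 Pool.Agent.W619.PQ Pool.Agent.N832.CC

namespace Pool.Agent.T2h12

section

variable {K L : Type} [Field K] [Field L] [Algebra ℂ K] [Algebra ℂ L]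
  [Algebra K L] [IsScalarTower ℂ K L] [FiniteDimensional K L]

/-- **The orders of the coefficients of the minimal polynomial.** -/
theorem ord_coeff (P : Place ℂ K) {z : L} {s : ℤ}
    (h : ∀ (Q : Place ℂ L) (e : ℕ), Over Q P e → z = 0 ∨ e * s ≤ Q.ord z) (i : ℕ) :
    (minpoly K z).coeff i = 0 ∨
      (((minpoly K z).natDegree - i : ℕ) : ℤ) * s ≤ P.ord ((minpoly K z).coeff i) := by
  obtain ⟨τ, hτ0, hτ⟩ := P.surj
  have hτ0' : algebraMap K L τ ≠ 0 := by rwa [Ne, map_eq_zero]
  let iA : Algebra P.O L := ((algebraMap K L).comp P.O.subtype).toAlgebra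
  have hst : IsScalarTower P.O K L := IsScalarTower.of_algebraMap_eq fun _ => rfl
  have hc0 : τ ^ (-s) ≠ 0 := zpow_ne_zero _ hτ0
  have hint : IsIntegral P.O ((τ ^ (-s)) • z) := by
    refine integral_of_over P fun Q e hQ => ?_
    rcases h Q e hQ with hz | h1
    · rw [hz, smul_zero]
      exact Q.reg_zero
    by_cases hz : z = 0
    · rw [hz, smul_zero]
      exact Q.reg_zero
    right
    rw [Algebra.smul_def, Q.ord_mul (by rwa [Ne, map_eq_zero]) hz, hQ.2, P.ord_zpow, hτ]
    linarith
  have h1 := minpoly.isIntegrallyClosed_eq_field_fractions' K hint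
  have h2 := IsIntegrallyClosed.minpoly_smul (R := K) (S := L) hc0
    (Algebra.IsIntegral.isIntegral (R := K) z)
  have h3 : (minpoly K ((τ ^ (-s)) • z)).coeff i =
      (minpoly K z).coeff i * (τ ^ (-s)) ^ ((minpoly K z).natDegree - i) := by
    rw [h2, Polynomial.coeff_scaleRoots]
  have h4 : P.Reg ((minpoly K ((τ ^ (-s)) • z)).coeff i) := by
    rw [h1, Polynomial.coeff_map]
    exact ((minpoly P.O ((τ ^ (-s)) • z)).coeff i).2
  by_cases h0 : (minpoly K z).coeff i = 0
  · exact Or.inl h0
  right
  rw [h3] at h4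
  have h5 := (P.reg_iff (mul_ne_zero h0 (pow_ne_zero _ hc0))).1 h4
  rw [P.ord_mul h0 (pow_ne_zero _ hc0), P.ord_pow, P.ord_zpow, hτ] at h5
  linarith

/-- a root is bounded below by the coefficients -/
theorem ord_root (Q : Place ℂ L) {z : L} (hz : z ≠ 0) : ∃ i, 1 ≤ i ∧
    i ≤ (minpoly K z).natDegree ∧ (minpoly K z).coeff ((minpoly K z).natDegree - i) ≠ 0 ∧
    Q.ord (algebraMap K L ((minpoly K z).coeff ((minpoly K z).natDegree - i))) ≤ i * Q.ord z := by
  classical
  obtain ⟨p, hp⟩ : ∃ p, p = minpoly K z := ⟨_, rfl⟩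
  rw [← hp]
  have hint : IsIntegral K z := Algebra.IsIntegral.isIntegral z
  have hmon : p.Monic := by rw [hp]; exact minpoly.monic hint
  have hroot : Polynomial.aeval z p = 0 := by rw [hp]; exact minpoly.aeval K z
  by_contra hcon
  push Not at hcon
  rw [Polynomial.aeval_eq_sum_range, Finset.sum_range_succ, hmon.coeff_natDegree, one_smul]
    at hroot
  have h1 : Ge Q (p.natDegree * Q.ord z + 1) (∑ i ∈ Finset.range p.natDegree,
      p.coeff i • z ^ i) := by
    refine Ge.sum _ _ fun j hj => ?_
    rw [Finset.mem_range] at hj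
    by_cases h0 : p.coeff j = 0
    · left
      rw [h0, zero_smul]
    have h2 := hcon (p.natDegree - j) (by omega) (by omega) (by
      rwa [show p.natDegree - (p.natDegree - j) = j by omega])
    rw [show p.natDegree - (p.natDegree - j) = j by omega] at h2
    right
    rw [Algebra.smul_def, Q.ord_mul (by rwa [Ne, map_eq_zero]) (pow_ne_zero _ hz), Q.ord_pow]
    have h3 : ((p.natDegree - j : ℕ) : ℤ) = p.natDegree - j := by
      rw [Nat.cast_sub hj.le]
    rw [h3] at h2
    linarith
  have h2 : z ^ p.natDegree = -∑ i ∈ Finset.range p.natDegree, p.coeff i • z ^ i := by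
    linear_combination hroot
  have h3 := h1.neg
  rw [← h2] at h3
  have h4 := h3.resolve_left (pow_ne_zero _ hz)
  rw [Q.ord_pow] at h4
  omega

end

end Pool.Agent.T2h12
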