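import Pool.Agent.T2h12.CrepM

/-!
The construction of systems of maps from geometric data: general form.
-/

set_option autoImplicit false
set_option linter.overlappingInstances false
set_option linter.unusedSectionVars false

open Filter Topology FF Module
open Pool.Agent.W602.GT Pool.Agent.W603.LV Pool.Agent.Y172 Pool.Agent.Y191 Pool.Agent.R887
open Pool.Agent.N110.RK Pool.Agent.N110.SE Pool.Agent.N110 Pool.Agent.W619.PQ

namespace Pool.Agent.T2h12

section

variable {K : Type} [Field K] [Algebra ℂ K] {N n : ℕ} {y : Fin (N + 1) → K}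

/-- comparison of spaces after all endomorphisms -/
def LeA (hy : NormalModel y) (hn : Algebra.trdeg ℂ K = n) {i : Fin (N + 1)} (hi : y i ≠ 0)
    (c : ℝ) (V V' : Cls ℂ (affS y i)) : Prop :=
  ∀ (ψ : K →ₐ[ℂ] K) (s : Multiset (Cls ℂ (affS y i))), s.card + 1 = n →
    (I (eCls hy hn hi ψ V ::ₘ s) : ℝ) ≤ c * I (eCls hy hn hi ψ V' ::ₘ s)

theorem LeA.refl (hy : NormalModel y) (hn : Algebra.trdeg ℂ K = n) {i : Fin (N + 1)}
    (hi : y i ≠ 0) (V : Cls ℂ (affS y i)) : LeA hy hn hi 1 V V := fun ψ s _ => by rw [one_mul]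

theorem LeA.trans {hy : NormalModel y} {hn : Algebra.trdeg ℂ K = n} {i : Fin (N + 1)}
    {hi : y i ≠ 0} {c c' : ℝ} (hc : 0 ≤ c) {V V' V'' : Cls ℂ (affS y i)}
    (h : LeA hy hn hi c V V') (h' : LeA hy hn hi c' V' V'') : LeA hy hn hi (c * c') V V'' := by
  intro ψ s hs
  refine (h ψ s hs).trans ?_
  rw [mul_assoc]
  exact mul_le_mul_of_nonneg_left (h' ψ s hs) hc

theorem LeA.emap {hy : NormalModel y} {hn : Algebra.trdeg ℂ K = n} {i : Fin (N + 1)}
    {hi : y i ≠ 0} {c : ℝ} {V V' : Cls ℂ (affS y i)}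
    (h : LeA hy hn hi c V V') (φ : K →ₐ[ℂ] K) :
    LeA hy hn hi c (eCls hy hn hi φ V) (eCls hy hn hi φ V') := by
  intro ψ s hs
  rw [eCls_eCls, eCls_eCls]
  exact h (ψ * φ) s hs

theorem LeA.of_mul {hy : NormalModel y} {hn : Algebra.trdeg ℂ K = n} {i : Fin (N + 1)}
    {hi : y i ≠ 0} {V V' : Cls ℂ (affS y i)} {g : K} (hg : g ≠ 0)
    (h : ∀ v ∈ V.V, g * v ∈ V'.V) : LeA hy hn hi 1 V V' := by
  intro ψ s hs
  rw [one_mul]
  refine Nat.cast_le.2 (I_mono (ctx hy hn hi) (g := ψ g) (by rwa [Ne, map_eq_zero]) ?_ hs)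
  rintro _ ⟨v, hv, rfl⟩
  exact ⟨g * v, h v hv, map_mul ψ g v⟩

theorem LeA.le {hy : NormalModel y} {hn : Algebra.trdeg ℂ K = n} {i : Fin (N + 1)}
    {hi : y i ≠ 0} {c : ℝ} {V V' : Cls ℂ (affS y i)} (h : LeA hy hn hi c V V') :
    Le n (fun s : Multiset (Cls ℂ (affS y i)) => (I s : ℝ)) c V V' := by
  intro s hs
  have := h 1 s hs
  rwa [eCls_one, eCls_one] at this

/-- the geometric data -/
structure GSys (hy : NormalModel y) (hn : Algebra.trdeg ℂ K = n) {i : Fin (N + 1)}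
    (hi : y i ≠ 0) {𝒜 : Type} (m : ℕ → ℕ) (M : 𝒜 → ℕ → Cls ℂ (affS y i)) (c : ℝ) : Prop where
  hc : 0 < c
  m_pos : ∀ q, 1 ≤ m q
  m_tend : ∀ q, q ≤ m q
  M_le : ∀ a, ∀ᶠ q in atTop, LeA hy hn hi (c * m q) (M a q) (hcls hy hi)

/-- the pull back of the spaces of a system by an endomorphism -/
def PullG (hy : NormalModel y) (hn : Algebra.trdeg ℂ K = n) {i : Fin (N + 1)}
    (hi : y i ≠ 0) {𝒜 : Type} (M : 𝒜 → ℕ → Cls ℂ (affS y i)) (φ : K →ₐ[ℂ] K) : Prop :=
  ∀ a, ∃ a', ∀ q, LeA hy hn hi 1 (eCls hy hn hi φ (M a q)) (M a' q)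

theorem PullG.one {hy : NormalModel y} {hn : Algebra.trdeg ℂ K = n} {i : Fin (N + 1)}
    {hi : y i ≠ 0} {𝒜 : Type} (M : 𝒜 → ℕ → Cls ℂ (affS y i)) : PullG hy hn hi M 1 :=
  fun a => ⟨a, fun q => by rw [eCls_one]; exact LeA.refl hy hn hi _⟩

theorem PullG.mul {hy : NormalModel y} {hn : Algebra.trdeg ℂ K = n} {i : Fin (N + 1)}
    {hi : y i ≠ 0} {𝒜 : Type} {M : 𝒜 → ℕ → Cls ℂ (affS y i)} {φ ψ : K →ₐ[ℂ] K}
    (h1 : PullG hy hn hi M φ) (h2 : PullG hy hn hi M ψ) : PullG hy hn hi M (φ * ψ) := by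
  intro a
  obtain ⟨a', ha'⟩ := h2 a
  obtain ⟨a'', ha''⟩ := h1 a'
  refine ⟨a'', fun q => ?_⟩
  rw [← eCls_eCls]
  have := ((ha' q).emap φ).trans zero_le_one (ha'' q)
  rwa [one_mul] at this

theorem PullG.word {hy : NormalModel y} {hn : Algebra.trdeg ℂ K = n} {i : Fin (N + 1)}
    {hi : y i ≠ 0} {𝒜 : Type} {M : 𝒜 → ℕ → Cls ℂ (affS y i)} {S : Set (K →ₐ[ℂ] K)}
    (h : ∀ φ ∈ S, PullG hy hn hi M φ) (w : List (K →ₐ[ℂ] K)) (hw : ∀ φ ∈ w, φ ∈ S) :
    PullG hy hn hi M w.prod := by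
  induction w with
  | nil => exact PullG.one M
  | cons φ w ih =>
    rw [List.prod_cons]
    exact (h φ (hw φ (by simp))).mul (ih fun ψ hψ => hw ψ (by simp [hψ]))

/-- **The system for the words.** -/
theorem hasC_gen (hy : NormalModel y) (hn : Algebra.trdeg ℂ K = n) (hn0 : 0 < n)
    {i : Fin (N + 1)} (hi : y i ≠ 0) {𝒜 : Type} [Nonempty 𝒜] {m : ℕ → ℕ}
    {M : 𝒜 → ℕ → Cls ℂ (affS y i)} {c : ℝ} (h : GSys hy hn hi m M c)
    {S : Set (K →ₐ[ℂ] K)} (hpull : ∀ φ ∈ S, PullG hy hn hi M φ)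
    {C₁ : ℕ} (hC₁ : ∀ φ ∈ S, I (eCls hy hn hi φ (hcls hy hi) ::ₘ
      Multiset.replicate (n - 1) (hcls hy hi)) ≤ C₁) {ν : ℕ} (hν : ν ≤ n) {ε : ℝ} (hε : 0 < ε)
    (heps : ∀ w : List (K →ₐ[ℂ] K), (∀ φ ∈ w, φ ∈ S) → ∀ a, ∃ a',
      (∀ q, LeA hy hn hi 1 (M a q) (M a' q)) ∧ ∀ᶠ q in atTop, ε * (m q : ℝ) ^ ν ≤
        I (Multiset.replicate ν (eCls hy hn hi w.prod (M a' q)) +
          Multiset.replicate (n - ν) (hcls hy hi)))
    (hzero : ν + 1 ≤ n → ∀ a, ∀ δ : ℝ, 0 < δ → ∀ᶠ q in atTop,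
      (I (Multiset.replicate (ν + 1) (M a q) + Multiset.replicate (n - (ν + 1))
        (hcls hy hi)) : ℝ) ≤ δ * (m q : ℝ) ^ (ν + 1)) :
    HasC hy hn hi S ν := by
  classical
  have hess := hy.ess
  have cx := ctx hy hn hi
  obtain ⟨D, hDV⟩ : ∃ D : Cls ℂ (affS y i) → ℕ → Cls ℂ (affS y i), ∀ a v, D a v =
      mulCls (fin_affS i) (one_affS hi) a (hpow hy hi (v - 1)) := ⟨_, fun _ _ => rfl⟩
  obtain ⟨t, ht⟩ : ∃ t : Multiset (Cls ℂ (affS y i)) → ℝ, t = fun s => (I s : ℝ) := ⟨_, rfl⟩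
  have hLeW : ∀ {c' : ℝ} {V V' : Cls ℂ (affS y i)}, LeA hy hn hi c' V V' →
      LeW n t (EWrd hy hn hi S) c' V V' := by
    rintro c' V V' h l F ⟨w, -, -, rfl⟩ s hs
    rw [ht]
    exact h w.prod s hs
  have data : SysC n t (EWrd hy hn hi S) (hcls hy hi) (fun q => (m q : ℝ)) M D ν c ε C₁ := by
    refine ⟨?_, ?_, hn0, hν, h.hc, hε, ?_, ?_, ?_, ewrd_comp hy hn hi S, ?_, ?_, ?_, ?_,
      ?_, ?_, ?_, ?_, ?_, ?_, ?_⟩
    · -- pos
      intro s hs
      rw [ht]
      beta_reduce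
      exact_mod_cast I_pos cx hs
    · -- ex
      rw [ht]
      exact exch cx
    · -- one
      refine ⟨[], rfl, by simp, ?_⟩
      funext A
      rw [List.prod_nil, eCls_one]
      rfl
    · -- zero_id
      rintro F ⟨w, hw, -, rfl⟩
      rw [List.length_eq_zero_iff] at hw
      subst hw
      funext A
      rw [List.prod_nil, eCls_one]
      rfl
    · -- split
      rintro l k F ⟨w, hw, hwS, rfl⟩
      refine ⟨eCls hy hn hi (w.take l).prod, ⟨w.take l, by rw [List.length_take]; omega,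
        fun φ hφ => hwS φ (List.mem_of_mem_take hφ), rfl⟩,
        eCls hy hn hi (w.drop l).prod, ⟨w.drop l, by rw [List.length_drop]; omega,
        fun φ hφ => hwS φ (List.mem_of_mem_drop hφ), rfl⟩, ?_⟩
      funext A
      change _ = eCls hy hn hi _ (eCls hy hn hi _ A)
      rw [eCls_eCls, ← List.prod_append, List.take_append_drop]
    · -- deg
      rintro l F ⟨w, -, -, rfl⟩
      refine ⟨mapDegree w.prod, by exact_mod_cast mapDegree_pos hess hn w.prod, fun s hs => ?_⟩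
      rw [ht]
      beta_reduce
      exact_mod_cast I_emap hy hn hi w.prod hs
    · -- H_deg
      rintro F ⟨w, hw, hwS, rfl⟩
      obtain ⟨φ, rfl⟩ := List.length_eq_one_iff.1 hw
      rw [List.prod_singleton, ht]
      beta_reduce
      exact_mod_cast hC₁ φ (hwS φ (by simp))
    · -- m_pos
      intro q
      exact_mod_cast h.m_pos q
    · -- m_tend
      refine Filter.tendsto_atTop_mono (fun q => ?_) tendsto_natCast_atTop_atTop
      exact_mod_cast h.m_tend q
    · -- M_f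
      rintro k F ⟨w, -, hwS, rfl⟩ a
      obtain ⟨a', ha'⟩ := PullG.word hpull w hwS a
      exact ⟨a', fun q => hLeW (ha' q)⟩
    · -- M_le
      intro a
      filter_upwards [h.M_le a] with q hq
      exact hLeW hq
    · -- D_add
      rintro a v hv l F ⟨w, -, -, rfl⟩ s hs
      rw [ht, hDV]
      have e1 := I_add cx (D := eCls hy hn hi w.prod (mulCls (fin_affS i) (one_affS hi) a
        (hpow hy hi (v - 1)))) (V := eCls hy hn hi w.prod a)
        (V' := eCls hy hn hi w.prod (hpow hy hi (v - 1))) (by rw [eCls_mul]; exact le_rfl) hs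
      have e2 := I_dom_emap hy hn hi w.prod (V := hpow hy hi (v - 1))
        (B := v - 1 + 1) (f := 1) one_ne_zero (hpow_bnd hy hi (v - 1)) hs
      have e3 : v - 1 + 1 = v := by omega
      rw [e3] at e2
      beta_reduce
      exact_mod_cast e1.trans (Nat.add_le_add_left e2 _)
    · -- D_M
      intro a v hv s hs
      rw [ht, one_mul, hDV]
      refine Nat.cast_le.2 (I_mono cx (g := 1) one_ne_zero (fun w hw => ?_) hs)
      rw [one_mul]
      have := Submodule.mul_mem_mul hw (hpow hy hi (v - 1)).one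
      rwa [mul_one] at this
    · -- D_H
      intro a v hv s hs
      rw [ht, hDV]
      have e1 := I_pow cx (V := hcls hy hi)
        (D := mulCls (fin_affS i) (one_affS hi) a (hpow hy hi (v - 1))) (q := v) hv
        (fun w hw => by
          have e2 := hpow_pow hy hi (v - 1) w hw
          have e3 : v - 1 + 1 = v := by omega
          rw [e3] at e2
          have := Submodule.mul_mem_mul a.one e2
          rwa [one_mul] at this) hs
      beta_reduce
      exact_mod_cast e1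
    · -- eps
      rintro l F ⟨w, -, hwS, rfl⟩ a
      obtain ⟨a', ha', hq⟩ := heps w hwS a
      refine ⟨a', fun q => hLeW (ha' q), ?_⟩
      rw [ht]
      exact hq
    · -- zero
      intro hν1 a δ hδ
      rw [ht]
      exact hzero hν1 a δ hδ
  refine ⟨𝒜, inferInstance, fun q => (m q : ℝ), M, D, ν, c, ε, C₁, le_rfl, ?_⟩
  rw [ht] at data
  exact data

/-- **The system of commuting self-maps.** -/
theorem esys_gen (hy : NormalModel y) (hn : Algebra.trdeg ℂ K = n) (hn0 : 0 < n)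
    {i : Fin (N + 1)} (hi : y i ≠ 0) {𝒜 : Type} [Preorder 𝒜] {m : ℕ → ℕ}
    {M : 𝒜 → ℕ → Cls ℂ (affS y i)} {c : ℝ} (h : GSys hy hn hi m M c)
    {r : ℕ} {φ : (Fin r → ℕ) → (K →ₐ[ℂ] K)} (hφ : ∀ u v, φ (u + v) = φ u * φ v)
    (hpull : ∀ v, PullG hy hn hi M (φ v))
    (hmono : ∀ a a' : 𝒜, a ≤ a' → ∀ q, LeA hy hn hi 1 (M a q) (M a' q))
    {ν : ℕ} (hν : ν ≤ n) {ε : ℝ} (hε : 0 < ε)
    (heps : ∀ u, ∃ a, ∀ᶠ q in atTop, ε * (m q : ℝ) ^ ν ≤
        I (Multiset.replicate ν (eCls hy hn hi (φ u) (M a q)) +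
          Multiset.replicate (n - ν) (hcls hy hi))) :
    ESys n r (fun s : Multiset (Cls ℂ (affS y i)) => (I s : ℝ))
      (fun v => eCls hy hn hi (φ v))
      (fun j => Real.log (mapDegree (φ (Pi.single j 1)) : ℝ))
      (mulCls (fin_affS i) (one_affS hi)) (hcls hy hi) (fun q => (m q : ℝ)) M ν c ε := by
  classical
  have hess := hy.ess
  have cx := ctx hy hn hi
  obtain ⟨t, ht⟩ : ∃ t : Multiset (Cls ℂ (affS y i)) → ℝ, t = fun s => (I s : ℝ) := ⟨_, rfl⟩
  -- the degrees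
  have hφ0 : ∀ z, φ 0 z = z := by
    intro z
    have h1 := hφ 0 0
    rw [add_zero] at h1
    have h2 : φ 0 z = φ 0 (φ 0 z) := by
      conv_lhs => rw [h1]
      rfl
    exact ((φ 0).toRingHom.injective h2).symm
  have hφ0' : φ 0 = 1 := by
    ext z
    exact hφ0 z
  have hdpos : ∀ u, (0 : ℝ) < (mapDegree (φ u) : ℝ) := fun u => by
    exact_mod_cast mapDegree_pos hess hn (φ u)
  have hI : ∀ u (s : Multiset (Cls ℂ (affS y i))), s.card = n →
      t (s.map (eCls hy hn hi (φ u))) = (mapDegree (φ u) : ℝ) * t s := by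
    intro u s hs
    rw [ht]
    beta_reduce
    exact_mod_cast I_emap hy hn hi (φ u) hs
  have hmulD : ∀ u v, (mapDegree (φ (u + v)) : ℝ) = mapDegree (φ u) * mapDegree (φ v) := by
    intro u v
    have hs0 : (Multiset.replicate n (hcls hy hi)).card = n := Multiset.card_replicate _ _
    have h1 := hI (u + v) (Multiset.replicate n (hcls hy hi)) hs0
    have h2 := hI v (Multiset.replicate n (hcls hy hi)) hs0
    have h3 := hI u ((Multiset.replicate n (hcls hy hi)).map (eCls hy hn hi (φ v)))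
      (by rw [Multiset.card_map]; exact hs0)
    rw [h2, Multiset.map_map] at h3
    have e : (eCls hy hn hi (φ u)) ∘ (eCls hy hn hi (φ v)) = eCls hy hn hi (φ (u + v)) := by
      funext A
      change eCls hy hn hi (φ u) (eCls hy hn hi (φ v) A) = _
      rw [eCls_eCls, hφ]
    rw [e, h1] at h3
    have hpos : 0 < t (Multiset.replicate n (hcls hy hi)) := by
      rw [ht]
      beta_reduce
      exact_mod_cast I_pos cx hs0
    have h4 : (mapDegree (φ (u + v)) : ℝ) * t (Multiset.replicate n (hcls hy hi)) =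
        (mapDegree (φ u) * mapDegree (φ v) : ℝ) * t (Multiset.replicate n (hcls hy hi)) := by
      rw [h3]; ring
    exact mul_right_cancel₀ hpos.ne' h4
  have hexp : ∀ u : Fin r → ℕ, Real.exp (∑ j, Real.log (mapDegree (φ (Pi.single j 1)) : ℝ) *
      (u j : ℝ)) = mapDegree (φ u) := by
    intro u
    have h00 : (mapDegree (φ 0) : ℝ) = 1 := by
      have h1 := hmulD 0 0
      rw [add_zero] at h1
      have h2 := hdpos 0
      have h3 : (mapDegree (φ 0) : ℝ) * (mapDegree (φ 0) : ℝ) = (mapDegree (φ 0) : ℝ) * 1 := by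
        rw [mul_one]; exact h1.symm
      exact mul_left_cancel₀ h2.ne' h3
    let F : (Fin r → ℕ) →+ ℝ :=
      { toFun := fun u => Real.log (mapDegree (φ u) : ℝ)
        map_zero' := by rw [h00, Real.log_one]
        map_add' := fun u v => by rw [hmulD, Real.log_mul (hdpos u).ne' (hdpos v).ne'] }
    have h1 : F u = ∑ j, Real.log (mapDegree (φ (Pi.single j 1)) : ℝ) * (u j : ℝ) := by
      conv_lhs => rw [← Finset.univ_sum_single u]
      rw [map_sum]
      refine Finset.sum_congr rfl fun j _ => ?_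
      have e : (Pi.single j (u j) : Fin r → ℕ) = (u j) • Pi.single j 1 := by
        rw [← Pi.single_smul]
        simp
      rw [e, map_nsmul, nsmul_eq_mul, mul_comm]
      rfl
    rw [← h1]
    exact Real.exp_log (hdpos u)
  have hLe : ∀ {c' : ℝ} {V V' : Cls ℂ (affS y i)}, LeA hy hn hi c' V V' →
      ∀ w, Le n t c' (eCls hy hn hi (φ w) V) (eCls hy hn hi (φ w) V') := by
    intro c' V V' h w s hs
    rw [ht]
    exact h (φ w) s hs
  rw [← ht]
  refine ⟨?_, ?_, hn0, hν, h.hc, hε, ?_, ?_, ?_, ?_, ?_, ?_, ?_, ?_, ?_, ?_⟩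
  · -- pos
    intro s hs
    rw [ht]
    beta_reduce
    exact_mod_cast I_pos cx hs
  · -- ex
    rw [ht]
    exact exch cx
  · -- zero
    funext A
    beta_reduce
    rw [hφ0', eCls_one]
    rfl
  · -- add
    intro u v
    funext A
    change _ = eCls hy hn hi (φ u) (eCls hy hn hi (φ v) A)
    rw [eCls_eCls, hφ]
  · -- χ
    intro j
    exact Real.log_natCast_nonneg _
  · -- inv
    intro u s hs
    beta_reduce
    rw [hexp]
    exact hI u s hs
  · -- mul_t
    intro a b s hs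
    rw [ht]
    beta_reduce
    have h1 := I_add cx (D := mulCls (fin_affS i) (one_affS hi) a b) (V := a) (V' := b)
      le_rfl hs
    have h2 := I_mul_ge cx (D := mulCls (fin_affS i) (one_affS hi) a b) (V := a) (V' := b)
      le_rfl hs
    exact_mod_cast le_antisymm h1 h2
  · -- m_pos
    intro q
    exact_mod_cast h.m_pos q
  · -- mono
    intro a a' haa w q
    exact hLe (hmono a a' haa q) w
  · -- M_f
    intro u a
    obtain ⟨a', ha'⟩ := hpull u a
    exact ⟨a', fun w q => hLe (ha' q) w⟩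
  · -- M_le
    intro a
    filter_upwards [h.M_le a] with q hq
    rw [ht]
    exact hq.le
  · -- eps
    intro u
    obtain ⟨a, ha⟩ := heps u
    refine ⟨a, ?_⟩
    rw [ht]
    exact ha

/-- the directions of subexponential growth, for a general index set -/
theorem space_of_esys' (hy : NormalModel y) (hn : Algebra.trdeg ℂ K = n) (hn0 : 0 < n)
    {i : Fin (N + 1)} (hi : y i ≠ 0) {𝒜 : Type} [Preorder 𝒜] [IsDirected 𝒜 (· ≤ ·)]
    [Nonempty 𝒜] {r : ℕ} {φ : (Fin r → ℕ) → (K →ₐ[ℂ] K)} {ν : ℕ}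
    {m : ℕ → ℝ} {M : 𝒜 → ℕ → Cls ℂ (affS y i)} {c ε : ℝ}
    (h : ESys n r (fun s : Multiset (Cls ℂ (affS y i)) => (I s : ℝ))
        (fun v => eCls hy hn hi (φ v))
        (fun j => Real.log (mapDegree (φ (Pi.single j 1)) : ℝ))
        (mulCls (fin_affS i) (one_affS hi)) (hcls hy hi) m M ν c ε) :
    ∃ W : Submodule ℝ (Fin r → ℝ), r + ν ≤ finrank ℝ W + n ∧ ∀ w ∈ W, CorrSubexp φ y n w := by
  obtain ⟨W, hW1, hW2⟩ := semi_rank stmSJ h
  refine ⟨W, hW1, fun w hw δ hδ => ?_⟩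
  obtain ⟨B, hB⟩ := hW2 w hw δ hδ
  refine ⟨B, fun l v hv => (stmSD hy hn hn0 hi v).trans (ENNReal.ofReal_le_ofReal ?_)⟩
  refine le_trans (le_of_eq ?_) (hB l v hv)
  have hs : (Multiset.replicate n (hcls hy hi)).card = n := Multiset.card_replicate _ _
  have h1 := h.inv (ng v) (Multiset.replicate n (hcls hy hi)) hs
  have h2 := h.pos (Multiset.replicate n (hcls hy hi)) hs
  have h3 := I_emap hy hn hi (φ (ng v)) hs
  have h4 : (mapDegree (φ (ng v)) : ℝ) = Real.exp (∑ i, Real.log (mapDegree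
      (φ (Pi.single i 1)) : ℝ) * (ng v i : ℝ)) := by
    beta_reduce at h1 h2
    rw [h3] at h1
    push_cast at h1
    exact mul_right_cancel₀ h2.ne' h1
  rw [h4, Real.exp_neg, mul_comm, div_eq_mul_inv]

end

end Pool.Agent.T2h12
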