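import Pool.Agent.N110.QPull

/-!
The pull back of sections by dominant rational self-maps, with the Jacobian determinant made explicit.
-/

set_option autoImplicit false
set_option linter.overlappingInstances false
set_option linter.unusedSectionVars false

open FF Module MvPolynomial Pool.Agent.W602.GT Pool.Agent.W603.LV
open Pool.Agent.Y172 Pool.Agent.Y191 Pool.Agent.R887 Pool.Agent.W619.PQ Pool.Agent.N110

namespace Pool.Agent.T2h12

section

variable {K K' : Type} [Field K] [Algebra ℂ K] [Field K'] [Algebra ℂ K'] {N N' n : ℕ}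
  {y : Fin (N + 1) → K} {y' : Fin (N' + 1) → K'}

/-- lifts of derivations along a homomorphism -/
theorem lift_hom (hess' : Algebra.EssFiniteType ℂ K') (hn : Algebra.trdeg ℂ K = n)
    (hn' : Algebra.trdeg ℂ K' = n) (ψ : K →ₐ[ℂ] K') (D : Derivation ℂ K K) :
    ∃ D' : Derivation ℂ K' K', ∀ f, D' (ψ f) = ψ (D f) := by
  let _ : Algebra K K' := ψ.toRingHom.toAlgebra
  have hst : IsScalarTower ℂ K K' :=
    IsScalarTower.of_algebraMap_eq fun c => (ψ.commutes c).symm
  have hfd : FiniteDimensional K K' := finite_map hn hn'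
  exact exists_lift (L := K') hn D

/-- lifts of logarithmic derivations -/
theorem lift_log_hom (hess' : Algebra.EssFiniteType ℂ K') (hn : Algebra.trdeg ℂ K = n)
    (hn' : Algebra.trdeg ℂ K' = n) (ψ : K →ₐ[ℂ] K') {Q : Place ℂ K'} {P : Place ℂ K} {e : ℕ}
    (h : LiesOver ψ Q P e) {D : Derivation ℂ K K} (hD : DerLog P D)
    {D' : Derivation ℂ K' K'} (hD' : ∀ f, D' (ψ f) = ψ (D f)) : DerLog Q D' := by
  let _ : Algebra K K' := ψ.toRingHom.toAlgebra
  have hst : IsScalarTower ℂ K K' :=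
    IsScalarTower.of_algebraMap_eq fun c => (ψ.commutes c).symm
  have hfd : FiniteDimensional K K' := finite_map hn hn'
  have hov : Over Q P e := h
  exact lift_log (K := K) (L := K') hov hD hD'

/-- there is a place above a given place -/
theorem above_hom (hess' : Algebra.EssFiniteType ℂ K') (hn : Algebra.trdeg ℂ K = n)
    (hn' : Algebra.trdeg ℂ K' = n) (ψ : K →ₐ[ℂ] K') {P : Place ℂ K} (hP : Divisorial n P) :
    ∃ (Q : Place ℂ K') (e : ℕ), LiesOver ψ Q P e ∧ Divisorial n Q := by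
  let _ : Algebra K K' := ψ.toRingHom.toAlgebra
  have hst : IsScalarTower ℂ K K' :=
    IsScalarTower.of_algebraMap_eq fun c => (ψ.commutes c).symm
  have hfd : FiniteDimensional K K' := finite_map hn hn'
  obtain ⟨Q, e, hQ⟩ := exists_above (K := K) (L := K') P
  exact ⟨Q, e, hQ, divisorial_up hQ hP⟩

/-- the chain rule -/
theorem chain_hom (hess' : Algebra.EssFiniteType ℂ K') (hn : Algebra.trdeg ℂ K = n)
    (hn' : Algebra.trdeg ℂ K' = n) (ψ : K →ₐ[ℂ] K') {x : Fin n → K}
    {E : Fin n → Derivation ℂ K K} (hx : IsTranscendenceBasis ℂ x)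
    (hE : ∀ i j, E i (x j) = if i = j then 1 else 0) (D : Derivation ℂ K' K') (f : K) :
    D (ψ f) = ∑ l, D (ψ (x l)) * ψ (E l f) := by
  let _ : Algebra K K' := ψ.toRingHom.toAlgebra
  have hst : IsScalarTower ℂ K K' :=
    IsScalarTower.of_algebraMap_eq fun c => (ψ.commutes c).symm
  have hfd : FiniteDimensional K K' := finite_map hn hn'
  choose E' hE' using fun i => exists_lift (L := K') hn (E i)
  have h1 := lift_dual hE hE'
  have h2 : IsTranscendenceBasis ℂ (fun j => algebraMap K K' (x j)) := hx.algebraMap_comp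
  have h3 := Pool.Agent.W73.PG.PULL.expand _ h2 E' h1 D
  have h4 : D (algebraMap K K' f) = (∑ l, D (algebraMap K K' (x l)) • E' l) (algebraMap K K' f) := by
    rw [h3]
  rw [sum_smul_apply] at h4
  refine h4.trans (Finset.sum_congr rfl fun l _ => ?_)
  rw [hE']
  rfl

/-- the Jacobian determinant -/
noncomputable def jac (ψ : K →ₐ[ℂ] K') (x : Fin n → K) (E' : Fin n → Derivation ℂ K' K') : K' :=
  (Matrix.of fun i j => E' i (ψ (x j))).det

/-- **The pull back of sections.** -/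
theorem pull_key' (hy : NormalModel y) (hy' : NormalModel y') (hn : Algebra.trdeg ℂ K = n)
    (hn' : Algebra.trdeg ℂ K' = n) {Δ A : Place ℂ K → ℚ} (hA : Effective y A)
    {Δ' : Place ℂ K' → ℚ} (ψ : K →ₐ[ℂ] K')
    (hψ : ∀ Q : Place ℂ K', IsPrimeDivisor y' Q → ∀ (P : Place ℂ K) (e : ℕ), LiesOver ψ Q P e →
      ∃ α : ℚ, LogDisc y n Δ P α ∧ 1 - Δ' Q ≤ e * α) {x : Fin n → K}
    {E : Fin n → Derivation ℂ K K} (hx : IsTranscendenceBasis ℂ x)
    (hE : ∀ i j, E i (x j) = if i = j then 1 else 0) (hfr : IsFrame E)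
    {E' : Fin n → Derivation ℂ K' K'} {c : Place ℂ K → ℤ}
    (hc : IsDisc y E c) {c' : Place ℂ K' → ℤ} (hc' : IsDisc y' E' c') :
    ∃ A' : Place ℂ K' → ℚ, Effective y' A' ∧ ∀ m b : ℕ, 1 ≤ m →
      ∀ g ∈ Lsp y c m (m • Δ + b • A), jac ψ x E' ^ m * ψ g ∈ Lsp y' c' m (m • Δ' + b • A') := by
  classical
  have hess := hy.ess
  have hess' := hy'.ess
  let _ : Algebra K K' := ψ.toRingHom.toAlgebra
  have hst : IsScalarTower ℂ K K' :=
    IsScalarTower.of_algebraMap_eq fun c => (ψ.commutes c).symm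
  have hfd : FiniteDimensional K K' := finite_map hn hn'
  choose s hsc hs0 hs using fun j => disc_bound2 (Δ := Δ) (n := n) hy hA hfr j
  refine ⟨fun Q => ∑ j, |(Q.ord (ψ (s j)) : ℚ)|, ⟨fun Q _ => Finset.sum_nonneg fun _ _ =>
    abs_nonneg _, ?_⟩, fun m b hm g hg => ?_⟩
  · refine (Set.finite_iUnion fun j => finite_ord hy' (f := ψ (s j))
      (by rw [Ne, map_eq_zero]; exact hs0 j)).subset ?_
    rintro Q ⟨hQ, h0⟩
    by_contra hcon
    simp only [Set.mem_iUnion, not_exists] at hcon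
    apply h0
    refine Finset.sum_eq_zero fun j _ => ?_
    have h1 : Q.ord (ψ (s j)) = 0 := by
      by_contra h2
      exact hcon j ⟨hQ, h2⟩
    rw [h1]
    simp
  · have hω := frm_pluri (n := n) x m g
    have hωE : frm x m g E = g := frm_self hE m g
    have hsec : IsSection y n m (m • Δ + b • A) (frm x m g) := by
      rw [isSection_iff hc hω, hωE]
      exact hg
    have h1 : IsSection y' n m (m • Δ' + b • fun Q => ∑ j, |(Q.ord (ψ (s j)) : ℚ)|)
        (pull K' x E m (frm x m g)) := by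
      refine ⟨pull_pluri x E m _, fun Q hQ => ?_⟩
      have hov := over_bel K Q
      obtain ⟨α, hα, hα1⟩ := hψ Q hQ (bel K Q) (ram K Q) hov
      obtain ⟨j, hj⟩ := exists_centred hy (bel K Q)
      have h2 := hs j (bel K Q) hj α hα m b hm _ hsec
      have hdQ : Divisorial n Q := hQ.divisorial hy' hn'
      have hPd : Divisorial n (bel K Q) := divisorial_down hov hdQ
      obtain ⟨c1, hc1⟩ : ∃ c1 : ℤ, c1 = ⌈(m : ℚ) * (α - 1)⌉ - b * (bel K Q).ord (s j) := ⟨_, rfl⟩
      have h3 : OrdGe (bel K Q) (frm x m g) c1 := by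
        intro E' hE'
        refine (h2 E' hE').imp_right fun h => ?_
        have h3 : (m : ℚ) * (α - 1) ≤
            (((bel K Q).ord (frm x m g E') + b * (bel K Q).ord (s j) : ℤ) : ℚ) := by
          push_cast
          linarith
        have h4 := Int.ceil_le.2 h3
        rw [hc1]
        have h5 : ⌈(m : ℚ) * (α - 1)⌉ - b * (bel K Q).ord (s j) ≤
            (bel K Q).ord (frm x m g E') := by
          omega
        exact_mod_cast h5
      intro D hD
      have h4 := pull_ord (K' := K') hn hx hE hov hPd hω h3 hD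
      refine h4.imp_right fun h5 => ?_
      have h6 : ((m * (ram K Q - 1) + ram K Q * c1 : ℤ) : ℚ) ≤
          Q.ord (pull K' x E m (frm x m g) D) := by exact_mod_cast h5
      refine le_trans ?_ h6
      rw [hc1, Pi.add_apply, Pi.smul_apply, Pi.smul_apply, nsmul_eq_mul, nsmul_eq_mul]
      have h7 : (Q.ord (ψ (s j)) : ℚ) ≤ ∑ j, |(Q.ord (ψ (s j)) : ℚ)| := by
        refine (le_abs_self _).trans ?_
        exact Finset.single_le_sum (f := fun j => |(Q.ord (ψ (s j)) : ℚ)|)
          (fun _ _ => abs_nonneg _) (Finset.mem_univ j)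
      have h8 : Q.ord (ψ (s j)) = ram K Q * (bel K Q).ord (s j) := hov.2 (s j)
      have h9 : (m : ℚ) * (α - 1) ≤ ⌈(m : ℚ) * (α - 1)⌉ := Int.le_ceil _
      have hram : (0 : ℚ) ≤ ram K Q := Nat.cast_nonneg _
      have h10 := mul_le_mul_of_nonneg_left h9 hram
      have hm0 : (0 : ℚ) ≤ m := Nat.cast_nonneg _
      have h11 := mul_le_mul_of_nonneg_left hα1 hm0
      have hb0 : (0 : ℚ) ≤ b := Nat.cast_nonneg _
      have h12 := mul_le_mul_of_nonneg_left h7 hb0
      have h13 : (Q.ord (ψ (s j)) : ℚ) = ram K Q * (bel K Q).ord (s j) := by exact_mod_cast h8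
      rw [h13] at h12
      push_cast
      nlinarith
    rw [isSection_iff hc' (pull_pluri x E m _)] at h1
    have h2 : pull K' x E m (frm x m g) E' =
        (Matrix.of fun i j => E' i (ψ (x j))).det ^ m * ψ g := by
      unfold pull
      rw [hωE]
      rfl
    rw [h2] at h1
    exact h1

end

section

variable {K : Type} [Field K] [Algebra ℂ K] {N n : ℕ} {y : Fin (N + 1) → K}

theorem jac_one {x : Fin n → K} {E : Fin n → Derivation ℂ K K}
    (hE : ∀ i j, E i (x j) = if i = j then 1 else 0) : jac (1 : K →ₐ[ℂ] K) x E = 1 := by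
  have h1 : (Matrix.of fun i j => E i ((1 : K →ₐ[ℂ] K) (x j))) = 1 := by
    ext i j
    rw [Matrix.of_apply, AlgHom.one_apply, hE, Matrix.one_apply]
  unfold jac
  rw [h1, Matrix.det_one]

theorem jac_mul (hess : Algebra.EssFiniteType ℂ K) (hn : Algebra.trdeg ℂ K = n) {x : Fin n → K}
    {E : Fin n → Derivation ℂ K K} (hx : IsTranscendenceBasis ℂ x)
    (hE : ∀ i j, E i (x j) = if i = j then 1 else 0) (φ ψ : K →ₐ[ℂ] K) :
    jac (φ * ψ) x E = jac φ x E * φ (jac ψ x E) := by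
  have h1 : (Matrix.of fun i j => E i ((φ * ψ) (x j))) = (Matrix.of fun i j => E i (φ (x j))) *
      φ.toRingHom.mapMatrix (Matrix.of fun i j => E i (ψ (x j))) := by
    ext i j
    rw [Matrix.of_apply, Matrix.mul_apply]
    exact chain_hom hess hn hn φ hx hE (E i) (ψ (x j))
  unfold jac
  rw [h1, Matrix.det_mul]
  congr 1
  exact (RingHom.map_det φ.toRingHom _).symm

theorem jac_ne (hess : Algebra.EssFiniteType ℂ K) (hn : Algebra.trdeg ℂ K = n) {x : Fin n → K}
    {E : Fin n → Derivation ℂ K K} (hx : IsTranscendenceBasis ℂ x)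
    (hE : ∀ i j, E i (x j) = if i = j then 1 else 0) (hfr : IsFrame E) (φ : K →ₐ[ℂ] K) :
    jac φ x E ≠ 0 := by
  have key : ∀ {K' : Type} [Field K'] [Algebra ℂ K'] (hess' : Algebra.EssFiniteType ℂ K')
      (hn' : Algebra.trdeg ℂ K' = n) (ψ : K →ₐ[ℂ] K') (E' : Fin n → Derivation ℂ K' K')
      (hfr' : IsFrame E'), jac ψ x E' ≠ 0 := by
    intro K' _ _ hess' hn' ψ E' hfr'
    let _ : Algebra K K' := ψ.toRingHom.toAlgebra
    have hst : IsScalarTower ℂ K K' :=
      IsScalarTower.of_algebraMap_eq fun c => (ψ.commutes c).symm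
    have hfd : FiniteDimensional K K' := finite_map hn hn'
    exact pull_ne hn hE hfr'
  exact key hess hn φ E hfr

/-- pull back of sections by an endomorphism, for all divisors, with explicit Jacobian -/
def JPulls (y : Fin (N + 1) → K) (c : Place ℂ K → ℤ) (Δ : Place ℂ K → ℚ) (x : Fin n → K)
    (E : Fin n → Derivation ℂ K K) (ψ : K →ₐ[ℂ] K) : Prop :=
  ∀ A, Effective y A → ∃ A', Effective y A' ∧ ∀ m b : ℕ, 1 ≤ m →
    ∀ g ∈ Lsp y c m (m • Δ + b • A), jac ψ x E ^ m * ψ g ∈ Lsp y c m (m • Δ + b • A')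

theorem JPulls.one {x : Fin n → K} {E : Fin n → Derivation ℂ K K}
    (hE : ∀ i j, E i (x j) = if i = j then 1 else 0) (c : Place ℂ K → ℤ) (Δ : Place ℂ K → ℚ) :
    JPulls y c Δ x E 1 := by
  intro A hA
  refine ⟨A, hA, fun m b _ g hg => ?_⟩
  rw [jac_one hE, one_pow, one_mul]
  exact hg

theorem JPulls.mul (hess : Algebra.EssFiniteType ℂ K) (hn : Algebra.trdeg ℂ K = n) {x : Fin n → K}
    {E : Fin n → Derivation ℂ K K} (hx : IsTranscendenceBasis ℂ x)
    (hE : ∀ i j, E i (x j) = if i = j then 1 else 0) {c : Place ℂ K → ℤ} {Δ : Place ℂ K → ℚ}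
    {φ ψ : K →ₐ[ℂ] K} (h1 : JPulls y c Δ x E φ) (h2 : JPulls y c Δ x E ψ) :
    JPulls y c Δ x E (φ * ψ) := by
  intro A hA
  obtain ⟨A', hA', h3⟩ := h2 A hA
  obtain ⟨A'', hA'', h4⟩ := h1 A' hA'
  refine ⟨A'', hA'', fun m b hm g hg => ?_⟩
  have h5 := h4 m b hm _ (h3 m b hm g hg)
  rw [map_mul, map_pow, ← mul_assoc, ← mul_pow, ← jac_mul hess hn hx hE] at h5
  exact h5

theorem JPulls.word (hess : Algebra.EssFiniteType ℂ K) (hn : Algebra.trdeg ℂ K = n) {x : Fin n → K}
    {E : Fin n → Derivation ℂ K K} (hx : IsTranscendenceBasis ℂ x)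
    (hE : ∀ i j, E i (x j) = if i = j then 1 else 0) {c : Place ℂ K → ℤ} {Δ : Place ℂ K → ℚ}
    {S : Set (K →ₐ[ℂ] K)} (h : ∀ φ ∈ S, JPulls y c Δ x E φ) (w : List (K →ₐ[ℂ] K))
    (hw : ∀ φ ∈ w, φ ∈ S) : JPulls y c Δ x E w.prod := by
  induction w with
  | nil => exact JPulls.one hE c Δ
  | cons φ w ih =>
    rw [List.prod_cons]
    exact (h φ (hw φ (by simp))).mul hess hn hx hE (ih fun ψ hψ => hw ψ (by simp [hψ]))

theorem jpulls_of (hy : NormalModel y) (hn : Algebra.trdeg ℂ K = n) {Δ : Place ℂ K → ℚ}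
    {φ : K →ₐ[ℂ] K} (hφ : SelfPullLe φ y n Δ) {x : Fin n → K}
    {E : Fin n → Derivation ℂ K K} (hx : IsTranscendenceBasis ℂ x)
    (hE : ∀ i j, E i (x j) = if i = j then 1 else 0) (hfr : IsFrame E) {c : Place ℂ K → ℤ}
    (hc : IsDisc y E c) : JPulls y c Δ x E φ := fun _ hA =>
  pull_key' hy hy hn hn hA φ hφ hx hE hfr hc hc

end

end Pool.Agent.T2h12
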