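import Pool.Agent.T2h12.Lct

/-!
The Jacobian determinant of the affine coordinates with respect to the lifts of logarithmic vector
fields under self-maps which preserve a Kawamata log terminal pair with `K_X + Δ` pseudo-effective.
-/

set_option autoImplicit false
set_option linter.overlappingInstances false
set_option linter.unusedSectionVars false

open FF Module MvPolynomial Pool.Agent.W602.GT Pool.Agent.W603.LV
open Pool.Agent.Y172 Pool.Agent.Y191 Pool.Agent.R887 Pool.Agent.N110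

namespace Pool.Agent.T2h12

section

variable {K : Type} [Field K] [Algebra ℂ K] {N n : ℕ} {y : Fin (N + 1) → K}

/-- there are sections of `m (K + Δ) + b A`, for small `b / m`, with bounded order at `P` -/
def SecAt (y : Fin (N + 1) → K) (c : Place ℂ K → ℤ) (Δ : Place ℂ K → ℚ) (P : Place ℂ K) : Prop :=
  ∃ A : Place ℂ K → ℚ, Effective y A ∧ ∃ C₀ : ℕ, ∀ t : ℝ, 0 < t → ∃ m b : ℕ, 1 ≤ m ∧
    (b : ℝ) ≤ t * m ∧ ∃ g ∈ Lsp y c m (m • Δ + b • A), g ≠ 0 ∧ P.ord g ≤ C₀ * m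

/-- a small error is zero -/
theorem le_of_small {a C X : ℚ} (hX : 0 ≤ X)
    (h : ∀ t : ℝ, 0 < t → ∃ m b : ℕ, 1 ≤ m ∧ (b : ℝ) ≤ t * m ∧
      (m : ℚ) * a ≤ m * C + b * X) : a ≤ C := by
  by_contra hcon
  push Not at hcon
  have hX' : (0 : ℝ) ≤ X := by exact_mod_cast hX
  have hd : (0 : ℝ) < (a : ℝ) - C := by
    have : (C : ℝ) < a := by exact_mod_cast hcon
    linarith
  obtain ⟨m, b, hm, hb, h1⟩ := h (((a : ℝ) - C) / (2 * (X + 1))) (by positivity)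
  have hm' : (0 : ℝ) < m := by exact_mod_cast hm
  have h2 : (m : ℝ) * a ≤ m * C + b * X := by exact_mod_cast h1
  have h3 : (b : ℝ) * X ≤ ((a : ℝ) - C) / (2 * (X + 1)) * m * X :=
    mul_le_mul_of_nonneg_right hb hX'
  have h4 : ((a : ℝ) - C) / (2 * (X + 1)) * m * X ≤ ((a : ℝ) - C) / 2 * m := by
    have e1 : ((a : ℝ) - C) / (2 * (X + 1)) * m * X = ((a : ℝ) - C) / 2 * m * (X / (X + 1)) := by
      field_simp
    rw [e1]
    have e2 : (X : ℝ) / (X + 1) ≤ 1 := by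
      rw [div_le_one (by positivity)]
      linarith
    have e3 : 0 ≤ ((a : ℝ) - C) / 2 * m := by positivity
    nlinarith
  have h5 : (m : ℝ) * (a - C) ≤ (a - C) / 2 * m := by nlinarith
  nlinarith [mul_pos hm' hd]

/-- the poles of the sections with respect to a frame, on a chart -/
theorem chart_low (hy : NormalModel y) {Δ : Place ℂ K → ℚ}
    (hΔ : {P | IsPrimeDivisor y P ∧ Δ P ≠ 0}.Finite) {x : Fin n → K} {c : Place ℂ K → ℤ}
    (hcfin : {P | IsPrimeDivisor y P ∧ c P ≠ 0}.Finite) {j : Fin (N + 1)}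
    {F : Fin n → Derivation ℂ K K} (hF : (Matrix.of fun i l => F i (x l)).det ≠ 0) :
    ∃ s ∈ chart y j, s ≠ 0 ∧ ∀ A, Effective y A → ∃ s' ∈ chart y j, s' ≠ 0 ∧
      ∀ m b : ℕ, ∀ h ∈ Lsp y c m (m • Δ + b • A), h ≠ 0 → ∀ Q : Place ℂ K, Centred y j Q →
        -((m : ℤ) * Q.ord s) - b * Q.ord s' ≤ Q.ord (frm x m h F) := by
  classical
  obtain ⟨δ, hδ⟩ : ∃ δ, δ = (Matrix.of fun i l => F i (x l)).det := ⟨_, rfl⟩
  rw [← hδ] at hF
  have hfin : {P | IsPrimeDivisor y P ∧ Centred y j P ∧ (Δ P ≠ 0 ∨ c P ≠ 0 ∨ P.ord δ ≠ 0)}.Finite := by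
    refine ((hΔ.union hcfin).union (finite_ord hy hF)).subset ?_
    rintro P ⟨hP, -, h | h | h⟩
    · exact Or.inl (Or.inl ⟨hP, h⟩)
    · exact Or.inl (Or.inr ⟨hP, h⟩)
    · exact Or.inr ⟨hP, h⟩
  obtain ⟨s, hs, hs0, hsP⟩ := exists_high (y := y) (j := j) hfin (fun P hP => hP.2.1)
    (fun P hP => hP.1) (fun P => ⌈|Δ P| + |(c P : ℚ)| + |(P.ord δ : ℚ)|⌉₊)
  have hsA : ∀ P, IsPrimeDivisor y P → Centred y j P →
      Δ P + c P - P.ord δ ≤ (P.ord s : ℚ) := by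
    intro P hP hPc
    by_cases h0 : Δ P ≠ 0 ∨ c P ≠ 0 ∨ P.ord δ ≠ 0
    · have h6 := hsP P ⟨hP, hPc, h0⟩
      have h7 : |Δ P| + |(c P : ℚ)| + |(P.ord δ : ℚ)| ≤
          (⌈|Δ P| + |(c P : ℚ)| + |(P.ord δ : ℚ)|⌉₊ : ℚ) := Nat.le_ceil _
      have h8 : ((⌈|Δ P| + |(c P : ℚ)| + |(P.ord δ : ℚ)|⌉₊ : ℕ) : ℚ) ≤ P.ord s := by
        exact_mod_cast h6
      have e1 := le_abs_self (Δ P)
      have e2 := le_abs_self (c P : ℚ)
      have e3 := neg_abs_le (P.ord δ : ℚ)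
      linarith
    · push Not at h0
      rw [h0.1, h0.2.1, h0.2.2]
      have := (P.reg_iff hs0).1 (hPc.reg s hs)
      have : (0 : ℚ) ≤ P.ord s := by exact_mod_cast this
      simpa using this
  refine ⟨s, hs, hs0, fun A hA => ?_⟩
  obtain ⟨s', hs', hs'0, hsP'⟩ := exists_high (y := y) (j := j)
    (S := {P | IsPrimeDivisor y P ∧ Centred y j P ∧ A P ≠ 0})
    (hA.2.subset (by
      rintro P ⟨h1, -, h2⟩
      exact ⟨h1, h2⟩)) (fun P hP => hP.2.1) (fun P hP => hP.1) (fun P => ⌈A P⌉₊)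
  have hsA' : ∀ P, IsPrimeDivisor y P → Centred y j P → A P ≤ (P.ord s' : ℚ) := by
    intro P hP hPc
    by_cases hAP : A P = 0
    · rw [hAP]
      have := (P.reg_iff hs'0).1 (hPc.reg s' hs')
      exact_mod_cast this
    · have h6 := hsP' P ⟨hP, hPc, hAP⟩
      have h7 : A P ≤ (⌈A P⌉₊ : ℚ) := Nat.le_ceil _
      exact h7.trans (by exact_mod_cast h6)
  refine ⟨s', hs', hs'0, fun m b h hh h0 Q hQ => ?_⟩
  have hfrm : frm x m h F = δ ^ m * h := by
    unfold frm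
    rw [← hδ]
  have hne : frm x m h F ≠ 0 := by
    rw [hfrm]
    exact mul_ne_zero (pow_ne_zero _ hF) h0
  obtain ⟨G, hG⟩ : ∃ G, G = s ^ m * s' ^ b * frm x m h F := ⟨_, rfl⟩
  have hG0 : G ≠ 0 := by
    rw [hG]
    exact mul_ne_zero (mul_ne_zero (pow_ne_zero _ hs0) (pow_ne_zero _ hs'0)) hne
  have hord : ∀ P : Place ℂ K, P.ord G = m * P.ord s + b * P.ord s' + P.ord (frm x m h F) := by
    intro P
    rw [hG, P.ord_mul (mul_ne_zero (pow_ne_zero _ hs0) (pow_ne_zero _ hs'0)) hne,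
      P.ord_mul (pow_ne_zero _ hs0) (pow_ne_zero _ hs'0), P.ord_pow, P.ord_pow]
  have hreg : G ∈ localRing y Q := by
    refine mem_localRing_of_reg hy fun P hP hPQ => ?_
    have hPc := hPQ.centred hQ
    rw [P.reg_iff hG0, hord, hfrm, P.ord_mul (pow_ne_zero _ hF) h0, P.ord_pow]
    have h1 := (hh P hP).resolve_left h0
    rw [Pi.add_apply, Pi.smul_apply, Pi.smul_apply, nsmul_eq_mul, nsmul_eq_mul] at h1
    have h2 := mul_le_mul_of_nonneg_left (hsA P hP hPc) (Nat.cast_nonneg (α := ℚ) m)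
    have h3 := mul_le_mul_of_nonneg_left (hsA' P hP hPc) (Nat.cast_nonneg (α := ℚ) b)
    have h4 : (0 : ℚ) ≤ m * P.ord s + b * P.ord s' + (m * P.ord δ + P.ord h) := by
      have h2' : (m : ℚ) * (Δ P + c P - P.ord δ) = m * Δ P + m * c P - m * P.ord δ := by ring
      rw [h2'] at h2
      linarith
    exact_mod_cast h4
  have h5 := (Q.reg_iff hG0).1 (localRing_reg hreg)
  rw [hord] at h5
  linarith

/-- the orders of the sections on logarithmic vector fields, with a twist -/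
theorem sec_logB (hy : NormalModel y) (hn : Algebra.trdeg ℂ K = n) {Δ A : Place ℂ K → ℚ}
    (hA : Effective y A) {F : Fin n → Derivation ℂ K K} (hF : IsFrame F) {j : Fin (N + 1)} :
    ∃ s ∈ chart y j, s ≠ 0 ∧ ∀ Q : Place ℂ K, Divisorial n Q → Centred y j Q → ∀ α : ℚ,
      LogDisc y n Δ Q α → ∀ m b : ℕ, 1 ≤ m → ∀ ω, IsSection y n m (m • Δ + b • A) ω →
      ∀ D : Fin n → Derivation ℂ K K, (∀ i, DerLog Q (D i)) →
        ω D = 0 ∨ (m : ℚ) * α - b * (Q.ord s : ℤ) ≤ Q.ord (ω D) := by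
  have hess := hy.ess
  obtain ⟨s, hs, hs0, h⟩ := disc_bound2 (Δ := Δ) (n := n) hy hA hF j
  refine ⟨s, hs, hs0, fun Q hQ hj α hα m b hm ω hω D hD => ?_⟩
  have h1 := h Q hj α hα m b hm ω hω
  have h2 := log_gain (P := Q) hn hQ hω.1 (c := ((m * (α - 1) - b * (Q.ord s : ℤ) : ℚ) : ℝ))
    (fun G hG => by
      refine (h1 G hG).imp_right fun h3 => ?_
      exact_mod_cast h3) hD
  refine h2.imp_right fun h3 => ?_
  have h4 : ((m * (α - 1) - b * (Q.ord s : ℤ) + m : ℚ) : ℝ) ≤ ((Q.ord (ω D) : ℚ) : ℝ) := by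
    push_cast
    push_cast at h3
    exact h3
  have h5 : (m * (α - 1) - b * (Q.ord s : ℤ) + m : ℚ) ≤ Q.ord (ω D) := by exact_mod_cast h4
  refine le_trans (le_of_eq ?_) h5
  ring

/-- **The comparison of the Jacobian determinants**, for pseudo-effective `K + Δ`. -/
theorem lctB (hy : NormalModel y) (hn : Algebra.trdeg ℂ K = n) {Δ : Place ℂ K → ℚ}
    (hΔ : Effective y Δ) (hklt : Klt y n Δ) {x : Fin n → K}
    {E : Fin n → Derivation ℂ K K} (hx : IsTranscendenceBasis ℂ x)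
    (hE : ∀ i j, E i (x j) = if i = j then 1 else 0) (hfr : IsFrame E)
    {c : Place ℂ K → ℤ} (hcfin : {P | IsPrimeDivisor y P ∧ c P ≠ 0}.Finite)
    (hc : IsDisc y E c) (P : Place ℂ K) (hsec : SecAt y c Δ P) {Λ : Fin n → Derivation ℂ K K}
    (hΛ : ∀ i, DerLog P (Λ i)) (hΛ0 : (Matrix.of fun i j => Λ i (x j)).det ≠ 0) :
    ∃ C : ℕ, 1 ≤ C ∧ ∀ φ : K →ₐ[ℂ] K, JPulls y c Δ x E φ → ∀ (Q : Place ℂ K) (e : ℕ),
      LiesOver φ Q P e → Divisorial n Q → ∀ Λ' : Fin n → Derivation ℂ K K,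
      (∀ i f, Λ' i (φ f) = φ (Λ i f)) → ∃ j, y j ≠ 0 ∧ ∃ X : Fin n → K,
        (∀ l, X l ∈ affS y j) ∧ (∀ l, Q.Reg (X l)) ∧
        (Matrix.of fun i l => Λ' i (X l)).det ≠ 0 ∧
        Q.ord (Matrix.of fun i l => Λ' i (X l)).det ≤ C * e := by
  classical
  have hess := hy.ess
  obtain ⟨A, hA, C₀, hseq⟩ := hsec
  obtain ⟨d, hd⟩ : ∃ d, d = (Matrix.of fun i j => Λ i (x j)).det := ⟨_, rfl⟩
  rw [← hd] at hΛ0
  obtain ⟨C1, hC1⟩ : ∃ C1 : ℕ, C1 = (P.ord d).toNat + C₀ := ⟨_, rfl⟩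
  have hC1b : ∀ (m : ℕ) (g : K), g ≠ 0 → P.ord g ≤ C₀ * m → P.ord (d ^ m * g) ≤ C1 * m := by
    intro m g hg0 hg
    rw [P.ord_mul (pow_ne_zero _ hΛ0) hg0, P.ord_pow, hC1]
    have h2 := Int.self_le_toNat (P.ord d)
    have h3 : (m : ℤ) * P.ord d ≤ m * (P.ord d).toNat :=
      mul_le_mul_of_nonneg_left h2 (Int.natCast_nonneg _)
    push_cast
    nlinarith
  -- the charts
  have hch : ∀ j, ∃ (X : Fin n → K) (F : Fin n → Derivation ℂ K K) (s : K) (ε : ℚ), y j ≠ 0 →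
      IsTranscendenceBasis ℂ X ∧ (∀ l, X l ∈ affS y j) ∧
      (∀ i l, F i (X l) = if i = l then 1 else 0) ∧ s ≠ 0 ∧
      (∀ A, Effective y A → ∃ s' ∈ chart y j, s' ≠ 0 ∧
      ∀ m b : ℕ, ∀ h ∈ Lsp y c m (m • Δ + b • A), h ≠ 0 → ∀ Q : Place ℂ K, Centred y j Q →
        -((m : ℤ) * Q.ord s) - b * Q.ord s' ≤ Q.ord (frm x m h F)) ∧
      s ∈ chart y j ∧ 0 < ε ∧ ∀ Q : Place ℂ K, Divisorial n Q → Centred y j Q →
        LogDisc y n Δ Q (ε * Q.ord s) := by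
    intro j
    by_cases hj : y j = 0
    · exact ⟨x, E, 0, 0, fun h => absurd hj h⟩
    · obtain ⟨X, hX, hXs⟩ := exists_affine_basis hy hn hj
      choose F hF using fun i : Fin n => exists_der _ hX fun l => if i = l then 1 else 0
      have hFdet : (Matrix.of fun i l => F i (x l)).det ≠ 0 := by
        intro h0
        have h1 : (Matrix.of fun i l => F i (X l)) = (Matrix.of fun i l => F i (x l)) *
            (Matrix.of fun i l => E i (X l)) := by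
          ext i j
          rw [Matrix.mul_apply, Matrix.of_apply]
          have h2 := Pool.Agent.W73.PG.PULL.expand x hx E hE (F i)
          have h3 : F i (X j) = (∑ l, F i (x l) • E l) (X j) := by rw [h2]
          rw [h3, sum_smul_apply]
          rfl
        have h2 : (Matrix.of fun i l => F i (X l)) = 1 := by
          ext i j
          rw [Matrix.of_apply, hF, Matrix.one_apply]
        have h3 := congrArg Matrix.det h1
        rw [h2, Matrix.det_one, Matrix.det_mul, h0, zero_mul] at h3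
        exact one_ne_zero h3
      obtain ⟨s, hs, hs0, hsl⟩ := chart_low (j := j) hy hΔ.2 hcfin hFdet
      obtain ⟨ε, hε, hεQ⟩ := hklt j hj s hs hs0
      exact ⟨X, F, s, ε, fun _ => ⟨hX, hXs, hF, hs0, hsl, hs, hε, hεQ⟩⟩
  choose X F s ε hch using hch
  obtain ⟨C, hC⟩ : ∃ C : ℕ, C = 1 + ∑ j, ⌈(C1 : ℚ) * (1 + 1 / ε j)⌉₊ := ⟨_, rfl⟩
  refine ⟨C, by omega, fun φ hφ Q e hQ hQd Λ' hΛ' => ?_⟩
  obtain ⟨A', hA', hpull⟩ := hφ A hA
  obtain ⟨j, hj⟩ := exists_centred hy Q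
  obtain ⟨hX, hXs, hF, hs0, hsl, hsc, hε, hεQ⟩ := hch j hj.1
  obtain ⟨s', hs', hs'0, hsl'⟩ := hsl A' hA'
  obtain ⟨s'', hs'', hs''0, hlog⟩ := sec_logB (Δ := Δ) hy hn hA' hfr (j := j)
  have hlogΛ : ∀ i, DerLog Q (Λ' i) := fun i => lift_log_hom hess hn hn φ hQ (hΛ i) (hΛ' i)
  obtain ⟨dd, hdd⟩ : ∃ dd, dd = (Matrix.of fun i l => Λ' i (X j l)).det := ⟨_, rfl⟩
  have hsQ : (0 : ℤ) ≤ Q.ord (s j) := (Q.reg_iff hs0).1 (hj.reg _ hsc)
  have hsQ' : (0 : ℚ) ≤ Q.ord (s j) := by exact_mod_cast hsQ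
  have hsQ1 : (0 : ℤ) ≤ Q.ord s' := (Q.reg_iff hs'0).1 (hj.reg _ hs')
  have hsQ1' : (0 : ℚ) ≤ Q.ord s' := by exact_mod_cast hsQ1
  have hsQ2 : (0 : ℤ) ≤ Q.ord s'' := (Q.reg_iff hs''0).1 (hj.reg _ hs'')
  have hsQ2' : (0 : ℚ) ≤ Q.ord s'' := by exact_mod_cast hsQ2
  have he0 : (0 : ℚ) ≤ e := Nat.cast_nonneg _
  have hC10 : (0 : ℚ) ≤ C1 := Nat.cast_nonneg _
  -- the estimates for a section
  have key : ∀ t : ℝ, 0 < t → ∃ m b : ℕ, 1 ≤ m ∧ (b : ℝ) ≤ t * m ∧ dd ≠ 0 ∧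
      (m : ℚ) * (ε j * Q.ord (s j)) ≤ m * (e * C1) + b * Q.ord s'' ∧
      (m : ℚ) * Q.ord dd ≤ m * (e * C1 + Q.ord (s j)) + b * Q.ord s' := by
    intro t ht
    obtain ⟨m, b, hm, hb, g, hg, hg0, hgo⟩ := hseq t ht
    refine ⟨m, b, hm, hb, ?_⟩
    obtain ⟨h, hh⟩ : ∃ h, h = jac φ x E ^ m * φ g := ⟨_, rfl⟩
    have hhL : h ∈ Lsp y c m (m • Δ + b • A') := by
      rw [hh]
      exact hpull m b hm g hg
    have hh0 : h ≠ 0 := by
      rw [hh]
      exact mul_ne_zero (pow_ne_zero _ (jac_ne hess hn hx hE hfr φ)) (by rwa [Ne, map_eq_zero])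
    -- the value on the lifts
    have hval : frm x m h Λ' = φ (d ^ m * g) := by
      have h1 : (Matrix.of fun i j => Λ' i (φ (x j))) = (Matrix.of fun i j => Λ' i (x j)) *
          (Matrix.of fun i j => E i (φ (x j))) := by
        ext i j
        rw [Matrix.mul_apply, Matrix.of_apply]
        have h2 := Pool.Agent.W73.PG.PULL.expand x hx E hE (Λ' i)
        have h3 : Λ' i (φ (x j)) = (∑ l, Λ' i (x l) • E l) (φ (x j)) := by rw [h2]
        rw [h3, sum_smul_apply]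
        rfl
      have h2 : (Matrix.of fun i j => Λ' i (φ (x j))).det = φ d := by
        rw [hd]
        have h3 : (Matrix.of fun i j => Λ' i (φ (x j))) =
            φ.toRingHom.mapMatrix (Matrix.of fun i j => Λ i (x j)) := by
          ext i j
          exact hΛ' i (x j)
        rw [h3]
        exact (RingHom.map_det φ.toRingHom _).symm
      have h3 := congrArg Matrix.det h1
      rw [h2, Matrix.det_mul] at h3
      unfold frm
      rw [map_mul, map_pow, h3, mul_pow, hh]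
      unfold jac
      ring
    have hval0 : frm x m h Λ' ≠ 0 := by
      rw [hval, Ne, map_eq_zero]
      exact mul_ne_zero (pow_ne_zero _ hΛ0) hg0
    have hvalQ : Q.ord (frm x m h Λ') ≤ e * (C1 * m) := by
      rw [hval, hQ.2]
      exact mul_le_mul_of_nonneg_left (hC1b m g hg0 hgo) (Int.natCast_nonneg _)
    have hcoord := pluri_coord hX hF (frm_pluri x m h) Λ'
    rw [← hdd] at hcoord
    have hdd0 : dd ≠ 0 := by
      rintro h0
      rw [h0, zero_pow (by omega), zero_mul] at hcoord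
      exact hval0 hcoord
    have hF0 : frm x m h (F j) ≠ 0 := by
      intro h0
      rw [h0, mul_zero] at hcoord
      exact hval0 hcoord
    have hsec : IsSection y n m (m • Δ + b • A') (frm x m h) := by
      rw [isSection_iff hc (frm_pluri x m h), frm_self hE]
      exact hhL
    have h1 := (hlog Q hQd hj _ (hεQ Q hQd hj) m b hm _ hsec Λ' hlogΛ).resolve_left hval0
    have h2 := Q.ord_mul (pow_ne_zero m hdd0) hF0
    rw [← hcoord, Q.ord_pow] at h2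
    have h3 := hsl' m b h hhL hh0 Q hj
    have hvalQ' : (Q.ord (frm x m h Λ') : ℚ) ≤ e * (C1 * m) := by exact_mod_cast hvalQ
    have h3' : -((m : ℚ) * Q.ord (s j)) - b * Q.ord s' ≤ Q.ord (frm x m h (F j)) := by
      exact_mod_cast h3
    have h2' : (Q.ord (frm x m h Λ') : ℚ) = m * Q.ord dd + Q.ord (frm x m h (F j)) := by
      exact_mod_cast h2
    refine ⟨hdd0, ?_, ?_⟩
    · linarith
    · linarith
  obtain ⟨-, -, -, -, hdd0, -⟩ := key 1 one_pos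
  have k1 : ε j * Q.ord (s j) ≤ e * C1 := le_of_small hsQ2' fun t ht => by
    obtain ⟨m, b, hm, hb, -, h1, -⟩ := key t ht
    exact ⟨m, b, hm, hb, h1⟩
  have k2 : (Q.ord dd : ℚ) ≤ e * C1 + Q.ord (s j) := le_of_small hsQ1' fun t ht => by
    obtain ⟨m, b, hm, hb, -, -, h1⟩ := key t ht
    exact ⟨m, b, hm, hb, h1⟩
  refine ⟨j, hj.1, X j, hXs, fun l => ?_, ?_⟩
  · obtain ⟨i, hi⟩ := hXs l
    rw [← hi]
    exact hj.2 i
  rw [← hdd]
  refine ⟨hdd0, ?_⟩
  have h4 : (Q.ord (s j) : ℚ) ≤ e * C1 * (1 / ε j) := by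
    rw [mul_one_div, le_div_iff₀ hε, mul_comm]
    exact k1
  have h5 : (Q.ord dd : ℚ) ≤ e * (C1 * (1 + 1 / ε j)) := by
    have : (e : ℚ) * (C1 * (1 + 1 / ε j)) = e * C1 + e * C1 * (1 / ε j) := by ring
    rw [this]
    linarith
  have h6 : (C1 * (1 + 1 / ε j) : ℚ) ≤ C := by
    refine (Nat.le_ceil _).trans ?_
    rw [hC]
    have h7 := Finset.single_le_sum (f := fun j => ⌈(C1 : ℚ) * (1 + 1 / ε j)⌉₊)
      (fun _ _ => Nat.zero_le _) (Finset.mem_univ j)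
    exact_mod_cast h7.trans (Nat.le_add_left _ _)
  have h7 : (Q.ord dd : ℚ) ≤ C * e := by
    refine h5.trans ?_
    rw [mul_comm]
    exact mul_le_mul_of_nonneg_right h6 he0
  exact_mod_cast h7

end

end Pool.Agent.T2h12
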