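import Mathlib

/-!
Linear changes of the coordinates which make the degree in one variable equal to the total degree.
-/

set_option autoImplicit false

open MvPolynomial

namespace Pool.Agent.T2h12

section

variable {k : Type*} [Field k] {m : ℕ}

/-- the substitution `X_j ↦ p_j Y` -/
noncomputable def scal (p : Fin m → k) : MvPolynomial (Fin m) k →ₐ[k] Polynomial k :=
  aeval fun j => Polynomial.C (p j) * Polynomial.X

theorem scal_monomial (p : Fin m → k) (s : Fin m →₀ ℕ) (c : k) :
    scal p (monomial s c) = Polynomial.C (eval p (monomial s c)) * Polynomial.X ^ s.degree := by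
  unfold scal
  rw [aeval_monomial, eval_monomial, map_mul, mul_assoc, Polynomial.algebraMap_apply,
    Algebra.algebraMap_self, RingHom.id_apply]
  congr 1
  rw [Finsupp.prod, Finsupp.prod, map_prod, Finsupp.degree_apply, ← Finset.prod_pow_eq_pow_sum,
    ← Finset.prod_mul_distrib]
  refine Finset.prod_congr rfl fun j _ => ?_
  rw [mul_pow, map_pow]

theorem scal_coeff (p : Fin m → k) (a : MvPolynomial (Fin m) k) (d : ℕ) :
    (scal p a).coeff d = eval p (homogeneousComponent d a) := by
  classical
  have h1 : ∀ (s : Fin m →₀ ℕ) (c : k), (scal p (monomial s c)).coeff d =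
      eval p (homogeneousComponent d (monomial s c)) := by
    intro s c
    rw [scal_monomial, Polynomial.coeff_C_mul, Polynomial.coeff_X_pow,
      homogeneousComponent_of_mem (isHomogeneous_monomial c (n := s.degree) rfl)]
    split_ifs <;> simp
  induction a using MvPolynomial.induction_on' with
  | monomial s c => exact h1 s c
  | add a b ha hb => rw [map_add, Polynomial.coeff_add, ha, hb, map_add, map_add]

/-- the linear change of the coordinates -/
noncomputable def chg (p : Fin (m + 1) → k) :
    MvPolynomial (Fin (m + 1)) k →ₐ[k] Polynomial (MvPolynomial (Fin m) k) :=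
  aeval (Fin.cons (Polynomial.C (C (p 0)) * Polynomial.X)
    fun j => Polynomial.C (X j) + Polynomial.C (C (p j.succ)) * Polynomial.X)

theorem chg_zero (p : Fin (m + 1) → k) :
    chg p (X 0) = Polynomial.C (C (p 0)) * Polynomial.X := by
  unfold chg
  rw [aeval_X, Fin.cons_zero]

theorem chg_succ (p : Fin (m + 1) → k) (j : Fin m) :
    chg p (X j.succ) = Polynomial.C (X j) + Polynomial.C (C (p j.succ)) * Polynomial.X := by
  unfold chg
  rw [aeval_X, Fin.cons_succ]

theorem chg_scal (p : Fin (m + 1) → k) (a : MvPolynomial (Fin (m + 1)) k) :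
    (chg p a).map (eval (fun _ => 0 : Fin m → k)) = scal p a := by
  have h1 : ((Polynomial.mapRingHom (eval (fun _ => 0 : Fin m → k))).comp
      (chg p : MvPolynomial (Fin (m + 1)) k →+* _)) = (scal p : _ →+* Polynomial k) := by
    apply MvPolynomial.ringHom_ext
    · intro c
      simp [chg, scal, Polynomial.algebraMap_apply, MvPolynomial.algebraMap_eq]
    · intro j
      refine Fin.cases ?_ (fun j => ?_) j
      · simp [chg, scal]
      · simp [chg, scal]
  exact DFunLike.congr_fun h1 a

/-- **The change of coordinates.** -/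
theorem exists_chg [CharZero k] {a : MvPolynomial (Fin (m + 1)) k} (ha : a ≠ 0) :
    ∃ p : Fin (m + 1) → ℕ, p 0 ≠ 0 ∧
      a.totalDegree ≤ (chg (fun i => (p i : k)) a).natDegree := by
  classical
  obtain ⟨h, hh⟩ : ∃ h, h = homogeneousComponent a.totalDegree a := ⟨_, rfl⟩
  have hh0 : h ≠ 0 := by
    rw [hh]
    intro h0
    have h1 := a.totalDegree_eq
    obtain ⟨s, hs, hs2⟩ := Finset.exists_mem_eq_sup a.support
      (MvPolynomial.support_nonempty.2 ha) (fun s => s.degree)
    have h2 : a.totalDegree = s.degree := by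
      rw [← hs2]
      simp only [MvPolynomial.totalDegree, Finsupp.degree_apply]
      rfl
    have h3 := congrArg (coeff s) h0
    rw [coeff_homogeneousComponent, if_pos h2.symm, coeff_zero] at h3
    exact (mem_support_iff.1 hs) h3
  have h1 : h * X 0 ≠ 0 := mul_ne_zero hh0 (X_ne_zero _)
  have h2 : ∃ p : Fin (m + 1) → ℕ, eval (fun i => (p i : k)) (h * X 0) ≠ 0 := by
    by_contra hcon
    push Not at hcon
    apply h1
    refine funext_set (fun _ => Set.range (Nat.cast : ℕ → k)) (fun _ =>
      Set.infinite_range_of_injective Nat.cast_injective) fun x hx => ?_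
    have hx' : ∀ i, ∃ n : ℕ, (n : k) = x i := fun i => hx i (Set.mem_univ i)
    choose p hp using hx'
    have := hcon p
    rw [show (fun i => (p i : k)) = x from funext hp] at this
    rw [this, map_zero]
  obtain ⟨p, hp⟩ := h2
  rw [map_mul, eval_X] at hp
  refine ⟨p, ?_, ?_⟩
  · intro h0
    apply hp
    rw [h0, Nat.cast_zero, mul_zero]
  · have h3 : (scal (fun i => (p i : k)) a).coeff a.totalDegree ≠ 0 := by
      rw [scal_coeff, ← hh]
      exact left_ne_zero_of_mul hp
    refine (Polynomial.le_natDegree_of_ne_zero h3).trans ?_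
    rw [← chg_scal]
    exact Polynomial.natDegree_map_le

/-- the inverse change of the coordinates -/
noncomputable def chgInv (p : Fin (m + 1) → k) :
    Polynomial (MvPolynomial (Fin m) k) →+* MvPolynomial (Fin (m + 1)) k :=
  Polynomial.eval₂RingHom ((aeval fun j : Fin m => X j.succ - C (p j.succ / p 0) * X 0 :
    MvPolynomial (Fin m) k →ₐ[k] MvPolynomial (Fin (m + 1)) k) :
      MvPolynomial (Fin m) k →+* MvPolynomial (Fin (m + 1)) k) (C (p 0)⁻¹ * X 0)

theorem chgInv_C (p : Fin (m + 1) → k) (f : MvPolynomial (Fin m) k) :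
    chgInv p (Polynomial.C f) = aeval (fun j : Fin m => X j.succ - C (p j.succ / p 0) * X 0) f := by
  unfold chgInv
  rw [Polynomial.coe_eval₂RingHom, Polynomial.eval₂_C]
  rfl

theorem chgInv_X (p : Fin (m + 1) → k) :
    chgInv p Polynomial.X = C (p 0)⁻¹ * X 0 := by
  unfold chgInv
  rw [Polynomial.coe_eval₂RingHom, Polynomial.eval₂_X]

theorem chg_C (p : Fin (m + 1) → k) (c : k) : chg p (C c) = Polynomial.C (C c) := by
  have := (chg p).commutes c
  rwa [MvPolynomial.algebraMap_eq, Polynomial.algebraMap_apply,
    MvPolynomial.algebraMap_eq] at this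

theorem chg_chgInv {p : Fin (m + 1) → k} (hp : p 0 ≠ 0)
    (G : Polynomial (MvPolynomial (Fin m) k)) : chg p (chgInv p G) = G := by
  have h1 : ((chg p : MvPolynomial (Fin (m + 1)) k →+* _).comp (chgInv p)) = RingHom.id _ := by
    apply Polynomial.ringHom_ext'
    · apply MvPolynomial.ringHom_ext
      · intro c
        change chg p (chgInv p (Polynomial.C (C c))) = Polynomial.C (C c)
        rw [chgInv_C, aeval_C, MvPolynomial.algebraMap_eq, chg_C]
      · intro j
        change chg p (chgInv p (Polynomial.C (X j))) = Polynomial.C (X j)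
        rw [chgInv_C, aeval_X, map_sub, map_mul, chg_succ, chg_zero, chg_C, ← mul_assoc,
          ← Polynomial.C_mul, ← C_mul, div_mul_cancel₀ _ hp, add_sub_cancel_right]
    · change chg p (chgInv p Polynomial.X) = Polynomial.X
      rw [chgInv_X, map_mul, chg_zero, chg_C, ← mul_assoc, ← Polynomial.C_mul, ← C_mul,
        inv_mul_cancel₀ hp, C_1, Polynomial.C_1, one_mul]
  exact DFunLike.congr_fun h1 G

end

end Pool.Agent.T2h12
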