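import Pool.Agent.T2h12.WBB

/-!
The least orders of the elements of a space of functions, on a curve.
-/

set_option autoImplicit false
set_option linter.overlappingInstances false
set_option linter.unusedSectionVars false

open FF Module IntermediateField Pool.Agent.W602.GT Pool.Agent.W603.LV
open Pool.Agent.Y172 Pool.Agent.Y191 Pool.Agent.R887 Pool.Agent.N110

namespace Pool.Agent.T2h12

section

variable {K : Type} [Field K] [Algebra ℂ K] {F : IntermediateField ℂ K} [CharZero F] [IsFF F K]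

/-- the least orders of the elements of a finite set -/
noncomputable def minF (F : IntermediateField ℂ K) [CharZero F] [IsFF F K] (S : Finset K)
    (hS : S.Nonempty) : Place F K →₀ ℤ :=
  Finsupp.ofSupportFinite (fun P => S.inf' hS fun s => P.ord s) (by
    refine (S.finite_toSet.biUnion fun s _ => finite_support (k := F) s).subset ?_
    intro P hP
    by_contra hcon
    apply hP
    simp only [Set.mem_iUnion, not_exists] at hcon
    obtain ⟨s, hs, h⟩ := Finset.exists_mem_eq_inf' hS fun s => P.ord s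
    change (S.inf' hS fun s => P.ord s) = 0
    rw [h]
    have := hcon s hs
    simpa using this)

theorem minF_apply (S : Finset K) (hS : S.Nonempty) (P : Place F K) :
    minF F S hS P = S.inf' hS fun s => P.ord s := rfl

theorem minF_le {S : Finset K} (hS : S.Nonempty) {s : K} (hs : s ∈ S) (P : Place F K) :
    minF F S hS P ≤ P.ord s := by
  rw [minF_apply]
  exact Finset.inf'_le (fun s => P.ord s) hs

theorem minF_exists {S : Finset K} (hS : S.Nonempty) (P : Place F K) :
    ∃ s ∈ S, minF F S hS P = P.ord s := Finset.exists_mem_eq_inf' hS fun s => P.ord s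

theorem le_minF {S : Finset K} (hS : S.Nonempty) {P : Place F K} {N : ℤ}
    (h : ∀ s ∈ S, N ≤ P.ord s) : N ≤ minF F S hS P := by
  rw [minF_apply]
  exact Finset.le_inf' _ _ h

theorem minF_span {S : Finset K} (hS : S.Nonempty) {u : K}
    (hu : u ∈ Submodule.span ℂ (S : Set K)) (hu0 : u ≠ 0) (P : Place F K) :
    minF F S hS P ≤ P.ord u := by
  have h1 : Ge P (minF F S hS P) u := by
    induction hu using Submodule.span_induction with
    | mem z hz => exact Or.inr (minF_le hS hz P)
    | zero => exact Or.inl rfl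
    | add z w _ _ h1 h2 =>
      by_cases hz : z = 0
      · rw [hz, zero_add]
        by_cases hw : w = 0
        · exact Or.inl hw
        · exact h2 hw
      · by_cases hw : w = 0
        · rw [hw, add_zero]
          exact h1 hz
        · exact (h1 hz).add (h2 hw)
    | smul a z _ h1 =>
      by_cases hz : z = 0
      · rw [hz, smul_zero]
        exact Or.inl rfl
      · have h2 := h1 hz
        rw [Algebra.smul_def]
        have h3 : Ge P 0 (algebraMap ℂ K a) := Ge.const (k := F) (algebraMap ℂ F a)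
        have h4 := h3.mul h2
        rwa [zero_add] at h4
  exact h1.resolve_left hu0

/-- the degree of a quotient is at most the degree of the space -/
theorem ddeg_quot_le {S : Finset K} (hS : S.Nonempty) {u w : K}
    (hu : u ∈ Submodule.span ℂ (S : Set K)) (hw : w ∈ Submodule.span ℂ (S : Set K))
    (hu0 : u ≠ 0) : ddeg (polar (k := F) (w / u)) ≤ -ddeg (minF F S hS) := by
  have h1 : polar (k := F) (w / u) ≤ divisor F u - minF F S hS := by
    intro P
    rw [polar_apply, Finsupp.sub_apply, divisor_apply]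
    have h2 := minF_span hS hu hu0 P
    by_cases hw0 : w = 0
    · rw [hw0, zero_div, P.ord_zero]
      simp only [neg_zero, max_self]
      omega
    · have h3 := minF_span hS hw hw0 P
      rw [P.ord_div hw0 hu0]
      refine max_le ?_ ?_ <;> omega
  have h2 := ddeg_mono h1
  rw [ddeg_sub, ddeg_divisor] at h2
  linarith

/-- the degree of a space is the degree of a quotient -/
theorem exists_quot {S : Finset K} (hS : S.Nonempty) (hS0 : (0 : K) ∉ S) :
    ∃ w ∈ Submodule.span ℂ (S : Set K), w ≠ 0 ∧ ∀ u ∈ S,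
      -ddeg (minF F S hS) ≤ ddeg (polar (k := F) (w / u)) := by
  obtain ⟨s0, hs0⟩ := hS
  obtain ⟨w, hw, hw0, h⟩ := exists_generic (k₀ := ℂ) (k := F) S.finite_toSet
    (⋃ s ∈ S, {P : Place F K | P.ord s ≠ 0}) (S.finite_toSet.biUnion fun s _ => finite_support s)
    ⟨s0, hs0, fun h => hS0 (h ▸ hs0)⟩
  refine ⟨w, hw, hw0, fun u hu => ?_⟩
  have hu0 : u ≠ 0 := fun h => hS0 (h ▸ hu)
  have h1 : divisor F u - minF F S ⟨s0, hs0⟩ ≤ polar (k := F) (w / u) := by
    intro P
    rw [polar_apply, Finsupp.sub_apply, divisor_apply, P.ord_div hw0 hu0]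
    by_cases hP : ∃ s ∈ S, P.ord s ≠ 0
    · obtain ⟨s, hs, hsP⟩ := hP
      have h2 : P.ord w ≤ minF F S ⟨s0, hs0⟩ P := le_minF _ fun s' hs' =>
        h P (Set.mem_iUnion₂.2 ⟨s, hs, hsP⟩) s' hs' fun h => hS0 (h ▸ hs')
      refine le_trans ?_ (le_max_left _ _)
      omega
    · push Not at hP
      obtain ⟨s, hs, e⟩ := minF_exists (F := F) ⟨s0, hs0⟩ P
      rw [e, hP s hs, hP u hu]
      exact le_max_right _ _
  have h2 := ddeg_mono h1
  rw [ddeg_sub, ddeg_divisor] at h2
  linarith

theorem ddeg_sum_single (T : Finset (Place F K)) (f : Place F K → ℤ) :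
    ddeg (∑ P ∈ T, Finsupp.single P (f P)) = ∑ P ∈ T, f P * P.deg := by
  classical
  induction T using Finset.induction_on with
  | empty => simp [ddeg_zero]
  | insert P T hP ih => rw [Finset.sum_insert hP, Finset.sum_insert hP, ddeg_add, ddeg_single, ih]

/-- **The place with a drop.** -/
theorem exists_drop_place {N N' U : ℕ → Place F K →₀ ℤ} {N₁ : Place F K →₀ ℤ} {m : ℕ → ℕ}
    {m₁ : ℕ} (hm : ∀ q, 1 ≤ m q) (hm₁ : 1 ≤ m₁) {T : Set (Place F K)} (hT : T.Finite)
    (hNT : ∀ q P, P ∉ T → 0 ≤ N q P) {a η : ℝ} (hη : 0 < η)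
    (h1 : ∀ q, (a + 7 * η) * m q ≤ -ddeg (N q)) (h2 : ∀ q, (-ddeg (N' q) : ℝ) ≤ (a + η) * m q)
    (h3 : ∀ q, (a - η) * m q ≤ -ddeg (N' q))
    (h4 : ∀ q P, U q P ≤ m₁ * N' q P) (h5 : ∀ q P, U q P ≤ m q * N₁ P)
    (h6 : ∀ q, (-ddeg (U q) : ℝ) ≤ (a + η) * (m q * m₁)) :
    ∃ (P : Place F K) (c₁ : ℝ), 0 < c₁ ∧ ∀ q0, ∃ q, q0 ≤ q ∧ c₁ * m q ≤ (N' q P - N q P : ℤ) := by
  classical
  obtain ⟨T', hT'⟩ : ∃ T' : Finset (Place F K), T' = hT.toFinset ∪ N₁.support := ⟨_, rfl⟩
  obtain ⟨sd, hsd⟩ : ∃ sd : ℝ, sd = ∑ P ∈ T', (P.deg : ℝ) := ⟨_, rfl⟩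
  have hsd0 : 0 ≤ sd := by
    rw [hsd]
    exact Finset.sum_nonneg fun _ _ => Nat.cast_nonneg _
  obtain ⟨c₁, hc₁⟩ : ∃ c₁ : ℝ, c₁ = 4 * η / (1 + sd) := ⟨_, rfl⟩
  have hc₁0 : 0 < c₁ := by rw [hc₁]; positivity
  have key : ∀ q, ∃ P ∈ T', c₁ * m q ≤ (N' q P - N q P : ℤ) := by
    intro q
    by_contra hcon
    push Not at hcon
    have hmq : (0 : ℝ) < m q := by exact_mod_cast hm q
    have hm1r : (0 : ℝ) < m₁ := by exact_mod_cast hm₁
    -- the comparison of divisors
    have hle : m₁ • (N' q - N q) ≤ m₁ • (∑ P ∈ T', Finsupp.single P (max (N' q P - N q P) 0)) +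
        (m₁ • N' q - U q) := by
      intro P
      have e1 : (∑ P' ∈ T', Finsupp.single P' (max (N' q P' - N q P') 0)) P =
          if P ∈ T' then max (N' q P - N q P) 0 else 0 := by
        rw [Finsupp.finsetSum_apply]
        by_cases hP : P ∈ T'
        · rw [if_pos hP, Finset.sum_eq_single P]
          · rw [Finsupp.single_eq_same]
          · intro P' _ hne
            rw [Finsupp.single_eq_of_ne (Ne.symm hne)]
          · intro h
            exact absurd hP h
        · rw [if_neg hP]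
          refine Finset.sum_eq_zero fun P' hP' => ?_
          rw [Finsupp.single_eq_of_ne]
          rintro rfl
          exact hP hP'
      rw [Finsupp.smul_apply, Finsupp.add_apply, Finsupp.smul_apply, e1, Finsupp.sub_apply,
        Finsupp.sub_apply, Finsupp.smul_apply, nsmul_eq_mul, nsmul_eq_mul, nsmul_eq_mul]
      have h4' := h4 q P
      have hm1i : (0 : ℤ) ≤ m₁ := Int.natCast_nonneg _
      by_cases hP : P ∈ T'
      · rw [if_pos hP]
        have := mul_le_mul_of_nonneg_left (le_max_left (N' q P - N q P) 0) hm1i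
        linarith
      · rw [if_neg hP, mul_zero, zero_add]
        rw [hT', Finset.mem_union, not_or, Finsupp.notMem_support_iff, hT.mem_toFinset] at hP
        have h5' := h5 q P
        rw [hP.2, mul_zero] at h5'
        have h7 := mul_le_mul_of_nonneg_left (hNT q P hP.1) hm1i
        linarith
    have hd := ddeg_mono hle
    rw [ddeg_add, ddeg_nsmul, ddeg_nsmul, ddeg_sub, ddeg_sub, ddeg_nsmul, ddeg_sum_single] at hd
    have hd' : (m₁ : ℝ) * (ddeg (N' q) - ddeg (N q)) ≤
        m₁ * (∑ P ∈ T', (max (N' q P - N q P) 0 : ℤ) * (P.deg : ℝ)) +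
          (m₁ * ddeg (N' q) - ddeg (U q)) := by exact_mod_cast hd
    have hs : ∑ P ∈ T', ((max (N' q P - N q P) 0 : ℤ) : ℝ) * (P.deg : ℝ) ≤ c₁ * m q * sd := by
      rw [hsd, Finset.mul_sum]
      refine Finset.sum_le_sum fun P hP => mul_le_mul_of_nonneg_right ?_ (Nat.cast_nonneg _)
      push_cast
      refine max_le ?_ (by positivity)
      have := (hcon P hP).le
      push_cast at this
      exact this
    have h1' := h1 q
    have h2' := h2 q
    have h3' := h3 q
    have h6' := h6 q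
    have e1 : m₁ * (∑ P ∈ T', ((max (N' q P - N q P) 0 : ℤ) : ℝ) * (P.deg : ℝ)) ≤
        m₁ * (c₁ * m q * sd) := mul_le_mul_of_nonneg_left hs hm1r.le
    have e2 : (m₁ : ℝ) * (6 * η * m q) ≤ m₁ * (ddeg (N' q) - ddeg (N q)) := by
      refine mul_le_mul_of_nonneg_left ?_ hm1r.le
      nlinarith
    have e3 : (m₁ * ddeg (N' q) - ddeg (U q) : ℝ) ≤ m₁ * (2 * η * m q) := by
      have := mul_le_mul_of_nonneg_left h3' hm1r.le
      nlinarith
    have e4 : (m₁ : ℝ) * (4 * η * m q) ≤ m₁ * (c₁ * m q * sd) := by nlinarith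
    have e5 : 4 * η * m q ≤ c₁ * m q * sd := le_of_mul_le_mul_left e4 hm1r
    have e6 : c₁ * (1 + sd) = 4 * η := by
      rw [hc₁]
      field_simp
    have e7 : 0 < c₁ * m q := by positivity
    nlinarith
  by_contra hcon
  push Not at hcon
  have hcon' : ∀ P : Place F K, ∃ q0, ∀ q, q0 ≤ q → ((N' q P - N q P : ℤ) : ℝ) < c₁ * m q :=
    fun P => hcon P c₁ hc₁0
  choose q0 hq0 using hcon'
  obtain ⟨q, hq⟩ : ∃ q, q = T'.sup q0 := ⟨_, rfl⟩
  obtain ⟨P, hP, hPq⟩ := key q
  have h7 := hq0 P q (by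
    rw [hq]
    exact Finset.le_sup hP)
  exact absurd hPq (not_le.2 h7)

end

end Pool.Agent.T2h12
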