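import Pool.Agent.T2h12.MinOrd
import Pool.Agent.N110.QAssem

/-!
The degrees of the images of the quotients of sections.
-/

set_option autoImplicit false
set_option linter.overlappingInstances false
set_option linter.unusedSectionVars false

open FF Module IntermediateField Pool.Agent.W602.GT Pool.Agent.W603.LV
open Pool.Agent.Y172 Pool.Agent.Y191 Pool.Agent.R887 Pool.Agent.N110

namespace Pool.Agent.T2h12

section

variable {K : Type} [Field K] [Algebra ℂ K] {N n : ℕ} {y : Fin (N + 1) → K}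

theorem fin_LspB (hy : NormalModel y) (hn : Algebra.trdeg ℂ K = n) {Δ A : Place ℂ K → ℚ}
    (hΔ : Effective y Δ) (hA : Effective y A) {x : Fin n → K} {E : Fin n → Derivation ℂ K K}
    (hE : ∀ i j, E i (x j) = if i = j then 1 else 0)
    {c : Place ℂ K → ℤ} (hc : IsDisc y E c) {m b : ℕ} (hm : 1 ≤ m) :
    Module.Finite ℂ (Lsp y c m (m • Δ + b • A)) := by
  classical
  have hbA : Effective y (b • A) := by
    refine ⟨fun P hP => ?_, hA.2.subset ?_⟩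
    · rw [Pi.smul_apply, nsmul_eq_mul]
      exact mul_nonneg (Nat.cast_nonneg _) (hA.1 P hP)
    · rintro P ⟨hP, h⟩
      refine ⟨hP, fun h0 => h ?_⟩
      rw [Pi.smul_apply, h0, smul_zero]
  obtain ⟨C, hC⟩ := sec_growth hy hn hΔ hbA E
  have h1 : Module.rank ℂ (Lsp y c m (m • Δ + b • A)) ≤ (C * m ^ n : ℕ) := by
    refine rank_le fun s hs => ?_
    have h2 := hs.map' (Lsp y c m (m • Δ + b • A)).subtype (Submodule.ker_subtype _)
    have h3 := h2.comp s.equivFin.symm s.equivFin.symm.injective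
    refine hC m hm _ _ h3 fun i => ?_
    refine ⟨frm x m ((s.equivFin.symm i).1 : K), ?_, frm_self hE m _⟩
    rw [isSection_iff hc (frm_pluri x m _), frm_self hE]
    exact (s.equivFin.symm i).1.2
  exact Module.rank_lt_aleph0_iff.1 (lt_of_le_of_lt h1 Cardinal.natCast_lt_aleph0)

/-- a finite set of generators -/
theorem exists_gens {V : Submodule ℂ K} (hV : Module.Finite ℂ V) {g : K} (hg : g ∈ V)
    (hg0 : g ≠ 0) : ∃ S : Finset K, S.Nonempty ∧ (0 : K) ∉ S ∧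
      Submodule.span ℂ (S : Set K) = V := by
  classical
  have hfg : V.FG := (Module.Finite.iff_fg).1 hV
  obtain ⟨S, hS⟩ := hfg
  have h1 : Submodule.span ℂ ((S.erase 0 : Finset K) : Set K) = V := by
    rw [Finset.coe_erase, ← hS]
    exact Submodule.span_sdiff_singleton_zero
  refine ⟨S.erase 0, ?_, Finset.notMem_erase _ _, h1⟩
  rw [Finset.nonempty_iff_ne_empty]
  intro h0
  rw [h0, Finset.coe_empty, Submodule.span_empty] at h1
  rw [← h1, Submodule.mem_bot] at hg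
  exact hg0 hg

/-- the poles of the sections on a curve -/
theorem pole_div (hy : NormalModel y) {i : Fin (N + 1)} (hi : y i ≠ 0)
    {c : Place ℂ K → ℤ} (hcfin : {P | IsPrimeDivisor y P ∧ c P ≠ 0}.Finite)
    {Δ A : Place ℂ K → ℚ} (hΔ : {P | IsPrimeDivisor y P ∧ Δ P ≠ 0}.Finite)
    (hA : Effective y A) (F : IntermediateField ℂ K) [CharZero F] [IsFF F K] :
    ∃ D : Place F K →₀ ℤ, 0 ≤ D ∧ ∀ m b : ℕ, b ≤ m →
      ∀ u ∈ Lsp y c m (m • Δ + b • A), u ≠ 0 → polar (k := F) u ≤ m • D := by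
  classical
  obtain ⟨β, f, hf, hdom⟩ := dom_sections hy hi hcfin hΔ
  obtain ⟨βA, g, hg, hB⟩ := hdom A hA
  obtain ⟨D₀, hD₀⟩ : ∃ D₀ : Place F K →₀ ℤ, D₀ = ∑ s ∈ (fin_affS (y := y) i).toFinset,
      polar (k := F) s := ⟨_, rfl⟩
  have hD₀s : ∀ s ∈ affS y i, polar (k := F) s ≤ D₀ := by
    intro s hs
    rw [hD₀]
    exact Finset.single_le_sum (f := fun s => polar (k := F) s) (fun s _ => polar_nonneg s)
      ((fin_affS (y := y) i).mem_toFinset.2 hs)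
  have hD₀0 : 0 ≤ D₀ := by
    rw [hD₀]
    exact Finset.sum_nonneg fun s _ => polar_nonneg s
  obtain ⟨D, hD⟩ : ∃ D : Place F K →₀ ℤ, D = (β + βA) • D₀ + (polar (k := F) f⁻¹ +
      polar (k := F) g⁻¹) := ⟨_, rfl⟩
  have h1 := polar_nonneg (k := F) f⁻¹
  have h2 := polar_nonneg (k := F) g⁻¹
  have hD0 : 0 ≤ D := by
    rw [hD]
    exact add_nonneg (nsmul_nonneg hD₀0 _) (add_nonneg h1 h2)
  refine ⟨D, hD0, fun m b hbm u hu hu0 P => ?_⟩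
  obtain ⟨s, hs, hs0, h3⟩ := Bnd.up (hB m b u hu) P
  rw [P.ord_mul (mul_ne_zero (pow_ne_zero _ hf) (pow_ne_zero _ hg)) hu0,
    P.ord_mul (pow_ne_zero _ hf) (pow_ne_zero _ hg), P.ord_pow, P.ord_pow] at h3
  have h4 := hD₀s s hs P
  rw [polar_apply] at h4
  have h4' : -(P.ord s) ≤ D₀ P := (le_max_left _ _).trans h4
  have h5 := hD₀0 P
  simp only [Finsupp.coe_zero, Pi.zero_apply] at h5
  have h6 : P.ord f ≤ polar (k := F) f⁻¹ P := by
    rw [polar_apply, P.ord_inv, neg_neg]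
    exact le_max_left _ _
  have h7 : P.ord g ≤ polar (k := F) g⁻¹ P := by
    rw [polar_apply, P.ord_inv, neg_neg]
    exact le_max_left _ _
  have h8 := h1 P
  have h9 := h2 P
  simp only [Finsupp.coe_zero, Pi.zero_apply] at h8 h9
  rw [hD, Finsupp.smul_apply, Finsupp.add_apply, Finsupp.add_apply, Finsupp.smul_apply,
    polar_apply u, nsmul_eq_mul, nsmul_eq_mul]
  have hb : (b : ℤ) ≤ m := by exact_mod_cast hbm
  have hb0 : (0 : ℤ) ≤ b := Int.natCast_nonneg _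
  have hm0 : (0 : ℤ) ≤ m := Int.natCast_nonneg _
  have hβ : (0 : ℤ) ≤ β := Int.natCast_nonneg _
  have hβA : (0 : ℤ) ≤ βA := Int.natCast_nonneg _
  push_cast at h3 ⊢
  have k1 : (m * β + b * βA : ℤ) * -(P.ord s) ≤ (m * β + b * βA) * D₀ P :=
    mul_le_mul_of_nonneg_left h4' (by positivity)
  have k2 : (b : ℤ) * βA * D₀ P ≤ m * βA * D₀ P :=
    mul_le_mul_of_nonneg_right (mul_le_mul_of_nonneg_right hb hβA) h5
  have k3 : (m : ℤ) * P.ord f ≤ m * polar (k := F) f⁻¹ P := mul_le_mul_of_nonneg_left h6 hm0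
  have k4 : (b : ℤ) * P.ord g ≤ b * polar (k := F) g⁻¹ P := mul_le_mul_of_nonneg_left h7 hb0
  have k5 : (b : ℤ) * polar (k := F) g⁻¹ P ≤ m * polar (k := F) g⁻¹ P :=
    mul_le_mul_of_nonneg_right hb h9
  refine max_le ?_ ?_
  · nlinarith
  · positivity

/-- the degrees of the images of the quotients of sections are at most `D` -/
def DLe (y : Fin (N + 1) → K) (i : Fin (N + 1)) (n : ℕ) (c : Place ℂ K → ℤ)
    (Δ : Place ℂ K → ℚ) (φ : K →ₐ[ℂ] K) (A : Place ℂ K → ℚ) (m b : ℕ) (D : ℝ) : Prop :=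
  ∀ g ∈ Lsp y c m (m • Δ + b • A), g ≠ 0 → ∀ h ∈ Lsp y c m (m • Δ + b • A),
    ∀ W : Multiset K, W.card + 1 = n → (∀ w ∈ W, w ∈ Submodule.span ℂ (affS y i)) →
      (dm ℂ (φ (h / g) ::ₘ W) : ℝ) ≤ D

/-- the asymptotic bound -/
def BUp (y : Fin (N + 1) → K) (i : Fin (N + 1)) (n : ℕ) (c : Place ℂ K → ℤ)
    (Δ : Place ℂ K → ℚ) (φ : K →ₐ[ℂ] K) (ε : ℝ) : Prop :=
  ∀ A, Effective y A → ∃ t : ℝ, 0 < t ∧ ∃ m₀ : ℕ, ∀ m b : ℕ, 1 ≤ m → m₀ ≤ m →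
    (b : ℝ) ≤ t * m → DLe y i n c Δ φ A m b (ε * m)

/-- the asymptotic degree -/
noncomputable def eD (y : Fin (N + 1) → K) (i : Fin (N + 1)) (n : ℕ) (c : Place ℂ K → ℤ)
    (Δ : Place ℂ K → ℚ) (φ : K →ₐ[ℂ] K) : ℝ :=
  sInf {ε : ℝ | 0 ≤ ε ∧ BUp y i n c Δ φ ε}

theorem BUp.mono {i : Fin (N + 1)} {c : Place ℂ K → ℤ} {Δ : Place ℂ K → ℚ} {φ : K →ₐ[ℂ] K}
    {ε ε' : ℝ} (h : BUp y i n c Δ φ ε) (hle : ε ≤ ε') : BUp y i n c Δ φ ε' := by
  intro A hA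
  obtain ⟨t, ht, m₀, h1⟩ := h A hA
  refine ⟨t, ht, m₀, fun m b hm hm0 hb g hg hg0 h hh W hW hWs => ?_⟩
  exact (h1 m b hm hm0 hb g hg hg0 h hh W hW hWs).trans
    (mul_le_mul_of_nonneg_right hle (Nat.cast_nonneg _))

theorem exists_BUp (hy : NormalModel y) (hn : Algebra.trdeg ℂ K = n) {i : Fin (N + 1)}
    (hi : y i ≠ 0) {c : Place ℂ K → ℤ} (hcfin : {P | IsPrimeDivisor y P ∧ c P ≠ 0}.Finite)
    {Δ : Place ℂ K → ℚ} (hΔ : {P | IsPrimeDivisor y P ∧ Δ P ≠ 0}.Finite) (φ : K →ₐ[ℂ] K) :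
    ∃ ε : ℝ, 0 ≤ ε ∧ BUp y i n c Δ φ ε := by
  classical
  have cx := ctx hy hn hi
  obtain ⟨β, f, hf, hdom⟩ := dom_sections hy hi hcfin hΔ
  obtain ⟨Hy, hHy, hHP⟩ := exists_hyp hy hi
  obtain ⟨I₀, hI₀⟩ : ∃ I₀ : ℕ, I₀ = I (eCls hy hn hi φ (hcls hy hi) ::ₘ
      Multiset.replicate (n - 1) (hcls hy hi)) := ⟨_, rfl⟩
  refine ⟨((β : ℝ) + 1) * I₀, by positivity, fun A hA => ?_⟩
  have hA1 : Effective y (A + Hy) := Effective.add' hA hHy
  obtain ⟨βA, gA, hgA, hB⟩ := hdom (A + Hy) hA1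
  refine ⟨1 / (2 * ((βA : ℝ) + 1)), by positivity, 2 * βA, fun m b hm hm0 hb g hg hg0 h hh W hW
    hWs => ?_⟩
  have hmem : ∀ l, g * (y l / y i) ∈ Lsp y c m (m • Δ + (b + 1) • (A + Hy)) := fun l =>
    mul_hyp hy hA hHy hHP hi hg l
  obtain ⟨V, hV⟩ : ∃ V, V = secCls hy hi hcfin hΔ hA1 m (b + 1) hg0 hmem := ⟨_, rfl⟩
  have hVm : ∀ v, v ∈ V.V ↔ g * v ∈ Lsp y c m (m • Δ + (b + 1) • (A + Hy)) := by
    intro v
    rw [hV]
    rfl
  have hhV : h / g ∈ V.V := by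
    rw [hVm, mul_div_cancel₀ _ hg0]
    refine Lsp_mono (Nat.le_succ _) hA.1 (fun P hP => ?_) hh
    have := hHy.1 P hP
    change A P ≤ A P + Hy P
    linarith
  have h1 := I_dom_emap hy hn hi φ (V := V) (B := m * β + (b + 1) * βA)
    (f := f ^ m * gA ^ (b + 1) * g)
    (mul_ne_zero (mul_ne_zero (pow_ne_zero _ hf) (pow_ne_zero _ hgA)) hg0)
    (fun v hv => by
      rw [mul_assoc]
      exact hB m (b + 1) _ ((hVm v).1 hv))
    (s := Multiset.replicate (n - 1) (hcls hy hi)) (by rw [Multiset.card_replicate]; omega)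
  have h2 := le_I cx (s := eCls hy hn hi φ V ::ₘ Multiset.replicate (n - 1) (hcls hy hi))
    (by rw [Multiset.card_cons, Multiset.card_replicate]; omega)
    (sel_cons (eCls_mem hhV) (sel_rep.2 ⟨by omega, fun w hw => hWs w hw⟩))
  have h3 : (dm ℂ (φ (h / g) ::ₘ W) : ℝ) ≤ ((m * β + (b + 1) * βA : ℕ) : ℝ) * I₀ := by
    rw [hI₀]
    exact_mod_cast h2.trans h1
  refine h3.trans ?_
  have h4 : ((m * β + (b + 1) * βA : ℕ) : ℝ) ≤ ((β : ℝ) + 1) * m := by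
    push_cast
    have hm' : (2 * βA : ℝ) ≤ m := by exact_mod_cast hm0
    have hb' : (b : ℝ) * βA ≤ m / 2 := by
      have e1 : (b : ℝ) * βA ≤ 1 / (2 * ((βA : ℝ) + 1)) * m * βA :=
        mul_le_mul_of_nonneg_right hb (Nat.cast_nonneg _)
      have e2 : 1 / (2 * ((βA : ℝ) + 1)) * m * βA = m / 2 * (βA / (βA + 1)) := by
        field_simp
      have e3 : (βA : ℝ) / (βA + 1) ≤ 1 := by
        rw [div_le_one (by positivity)]
        linarith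
      have e4 : (0 : ℝ) ≤ m / 2 := by positivity
      rw [e2] at e1
      nlinarith
    nlinarith
  calc ((m * β + (b + 1) * βA : ℕ) : ℝ) * I₀ ≤ ((β : ℝ) + 1) * m * I₀ :=
        mul_le_mul_of_nonneg_right h4 (Nat.cast_nonneg _)
    _ = _ := by ring

theorem eD_nonneg (i : Fin (N + 1)) (c : Place ℂ K → ℤ) (Δ : Place ℂ K → ℚ)
    (φ : K →ₐ[ℂ] K) : 0 ≤ eD y i n c Δ φ := Real.sInf_nonneg fun _ h => h.1

theorem BUp_of_lt (hy : NormalModel y) (hn : Algebra.trdeg ℂ K = n) {i : Fin (N + 1)}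
    (hi : y i ≠ 0) {c : Place ℂ K → ℤ} (hcfin : {P | IsPrimeDivisor y P ∧ c P ≠ 0}.Finite)
    {Δ : Place ℂ K → ℚ} (hΔ : {P | IsPrimeDivisor y P ∧ Δ P ≠ 0}.Finite) {φ : K →ₐ[ℂ] K}
    {ε : ℝ} (h : eD y i n c Δ φ < ε) : BUp y i n c Δ φ ε := by
  obtain ⟨ε₀, h0, h1⟩ := exists_BUp hy hn hi hcfin hΔ φ
  have hne : {ε : ℝ | 0 ≤ ε ∧ BUp y i n c Δ φ ε}.Nonempty := ⟨ε₀, h0, h1⟩
  obtain ⟨ε', h2, h3⟩ := exists_lt_of_csInf_lt hne h
  exact h2.2.mono h3.le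

theorem not_BUp {i : Fin (N + 1)} {c : Place ℂ K → ℤ} {Δ : Place ℂ K → ℚ} {φ : K →ₐ[ℂ] K}
    {ε : ℝ} (h0 : 0 ≤ ε) (h : ε < eD y i n c Δ φ) : ¬ BUp y i n c Δ φ ε := by
  intro h1
  have hbd : BddBelow {ε : ℝ | 0 ≤ ε ∧ BUp y i n c Δ φ ε} := ⟨0, fun _ h => h.1⟩
  have hmem : ε ∈ {ε : ℝ | 0 ≤ ε ∧ BUp y i n c Δ φ ε} := ⟨h0, h1⟩
  exact absurd (csInf_le hbd hmem) (not_le.2 h)

end

end Pool.Agent.T2h12
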