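import Pool.Agent.T2h12.NM1
import Pool.Agent.T2h12.BaseW

/-!
A place at which the images of the sections have larger orders than the sections.
-/

set_option autoImplicit false
set_option linter.overlappingInstances false
set_option linter.unusedSectionVars false

open FF Module IntermediateField MvPolynomial Pool.Agent.W602.GT Pool.Agent.W603.LV
open Pool.Agent.Y172 Pool.Agent.Y191 Pool.Agent.R887 Pool.Agent.N110

namespace Pool.Agent.T2h12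

section

variable {K : Type} [Field K] [Algebra ℂ K]

/-- the map `v ↦ J φ v` -/
def tw (J : K) (φ : K →ₐ[ℂ] K) : K →ₗ[ℂ] K := (LinearMap.mulLeft ℂ J).comp φ.toLinearMap

theorem tw_apply (J : K) (φ : K →ₐ[ℂ] K) (v : K) : tw J φ v = J * φ v := rfl

variable [DecidableEq K]

theorem im_zero {S : Finset K} (hS0 : (0 : K) ∉ S) {J : K} (hJ : J ≠ 0) (φ : K →ₐ[ℂ] K) :
    (0 : K) ∉ S.image (tw J φ) := by
  rw [Finset.mem_image]
  rintro ⟨v, hv, h⟩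
  rw [tw_apply] at h
  rcases mul_eq_zero.1 h with h | h
  · exact hJ h
  · rw [map_eq_zero] at h
    exact hS0 (h ▸ hv)

theorem im_span (S : Finset K) (J : K) (φ : K →ₐ[ℂ] K) :
    Submodule.span ℂ ((S.image (tw J φ) : Finset K) : Set K) =
      (Submodule.span ℂ (S : Set K)).map (tw J φ) := by
  rw [Finset.coe_image, Submodule.span_image]

theorem im_mem {S : Finset K} (J : K) (φ : K →ₐ[ℂ] K) {v : K}
    (hv : v ∈ Submodule.span ℂ (S : Set K)) :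
    J * φ v ∈ Submodule.span ℂ ((S.image (tw J φ) : Finset K) : Set K) := by
  rw [im_span]
  exact ⟨v, hv, rfl⟩

variable {F : IntermediateField ℂ K} [CharZero F] [IsFF F K]

theorem im_exists {S : Finset K} (hS : S.Nonempty) (hS0 : (0 : K) ∉ S) {J : K} (hJ : J ≠ 0)
    (φ : K →ₐ[ℂ] K) : ∃ v ∈ Submodule.span ℂ (S : Set K), ∃ u ∈ S,
      (-ddeg (minF F (S.image (tw J φ)) (hS.image _)) : ℤ) ≤ finrank F⟮φ (v / u)⟯ K := by
  obtain ⟨w, hw, hw0, h⟩ := exists_quot (F := F) (hS.image (tw J φ)) (im_zero hS0 hJ φ)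
  rw [im_span] at hw
  obtain ⟨v, hv, rfl⟩ := hw
  obtain ⟨u, hu⟩ := hS
  refine ⟨v, hv, u, hu, ?_⟩
  have h1 := h (tw J φ u) (Finset.mem_image_of_mem _ hu)
  have e1 : tw J φ v / tw J φ u = φ (v / u) := by
    rw [tw_apply, tw_apply, map_div₀, mul_div_mul_left _ _ hJ]
  have hne : φ (v / u) ≠ 0 := by
    rw [← e1]
    refine div_ne_zero hw0 ?_
    intro h0
    exact im_zero hS0 hJ φ (h0 ▸ Finset.mem_image_of_mem _ hu)
  rw [e1] at h1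
  exact h1.trans (ddeg_polar_le hne)

theorem im_quot {S : Finset K} (hS : S.Nonempty) {J : K} (hJ : J ≠ 0)
    (φ : K →ₐ[ℂ] K) {u v : K} (hu : u ∈ Submodule.span ℂ (S : Set K))
    (hv : v ∈ Submodule.span ℂ (S : Set K)) (hu0 : u ≠ 0) :
    ddeg (polar (k := F) (φ (v / u))) ≤ -ddeg (minF F (S.image (tw J φ)) (hS.image _)) := by
  have h1 := ddeg_quot_le (F := F) (hS.image (tw J φ)) (im_mem J φ hu) (im_mem J φ hv)
    (mul_ne_zero hJ (by rwa [Ne, map_eq_zero]))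
  rwa [mul_div_mul_left _ _ hJ, ← map_div₀] at h1

end

section

variable {K : Type} [Field K] [Algebra ℂ K] {N p : ℕ} {y : Fin (N + 1) → K}

theorem eff_add {A B : Place ℂ K → ℚ} (hA : Effective y A) (hB : Effective y B) :
    Effective y (A + B) := Effective.add' hA hB

theorem Lsp_add_left {c : Place ℂ K → ℤ} {m b b' : ℕ} {Δ A B : Place ℂ K → ℚ} (hbb : b ≤ b')
    (hA : Effective y A) (hB : Effective y B) :
    Lsp y c m (m • Δ + b • A) ≤ Lsp y c m (m • Δ + b' • (A + B)) :=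
  Lsp_mono hbb hA.1 fun P hP => by
    have := hB.1 P hP
    change A P ≤ A P + B P
    linarith

theorem Lsp_add_right {c : Place ℂ K → ℤ} {m b b' : ℕ} {Δ A B : Place ℂ K → ℚ} (hbb : b ≤ b')
    (hA : Effective y A) (hB : Effective y B) :
    Lsp y c m (m • Δ + b • B) ≤ Lsp y c m (m • Δ + b' • (A + B)) :=
  Lsp_mono hbb hB.1 fun P hP => by
    have := hA.1 P hP
    change B P ≤ A P + B P
    linarith

/-- sections of almost maximal degrees, for two maps -/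
theorem two_seq (hn : Algebra.trdeg ℂ K = (p + 1 : ℕ)) {i : Fin (N + 1)} {Δ : Place ℂ K → ℚ}
    {c : Place ℂ K → ℤ} {φ₀ : K →ₐ[ℂ] K} {A1 A2 : Place ℂ K → ℚ} (hA1 : Effective y A1)
    (hA2 : Effective y A2) {a1 a2 : ℝ}
    (h1 : ∀ t : ℝ, 0 < t → ∀ m₀ : ℕ, ∃ m b : ℕ, 1 ≤ m ∧ m₀ ≤ m ∧ (b : ℝ) ≤ t * m ∧
      ∃ g ∈ Lsp y c m (m • Δ + b • A1), g ≠ 0 ∧ ∃ h ∈ Lsp y c m (m • Δ + b • A1),
        ∃ W : Multiset K, W.card + 1 = p + 1 ∧ (∀ w ∈ W, w ∈ Submodule.span ℂ (affS y i)) ∧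
        a1 * m < dm ℂ ((h / g) ::ₘ W))
    (h2 : ∀ t : ℝ, 0 < t → ∀ m₀ : ℕ, ∃ m b : ℕ, 1 ≤ m ∧ m₀ ≤ m ∧ (b : ℝ) ≤ t * m ∧
      ∃ g ∈ Lsp y c m (m • Δ + b • A2), g ≠ 0 ∧ ∃ h ∈ Lsp y c m (m • Δ + b • A2),
        ∃ W : Multiset K, W.card + 1 = p + 1 ∧ (∀ w ∈ W, w ∈ Submodule.span ℂ (affS y i)) ∧
        a2 * m ≤ dm ℂ (φ₀ (h / g) ::ₘ W))
    {t : ℝ} (ht : 0 < t) (m₀ : ℕ) : ∃ m b : ℕ, 1 ≤ m ∧ m₀ ≤ m ∧ (b : ℝ) ≤ t * m ∧
      (∃ g ∈ Lsp y c m (m • Δ + b • (A1 + A2)), g ≠ 0 ∧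
        ∃ h ∈ Lsp y c m (m • Δ + b • (A1 + A2)),
        ∃ W : Multiset K, W.card + 1 = p + 1 ∧ (∀ w ∈ W, w ∈ Submodule.span ℂ (affS y i)) ∧
        a1 * m ≤ dm ℂ ((h / g) ::ₘ W)) ∧
      ∃ g ∈ Lsp y c m (m • Δ + b • (A1 + A2)), g ≠ 0 ∧
        ∃ h ∈ Lsp y c m (m • Δ + b • (A1 + A2)),
        ∃ W : Multiset K, W.card + 1 = p + 1 ∧ (∀ w ∈ W, w ∈ Submodule.span ℂ (affS y i)) ∧
        a2 * m ≤ dm ℂ (φ₀ (h / g) ::ₘ W) := by
  obtain ⟨m1, b1, hm1, hm10, hb1, g1, hg1, hg10, x1, hx1, W1, hW1, hW1s, hd1⟩ :=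
    h1 (t / 2) (by positivity) m₀
  obtain ⟨m2, b2, hm2, -, hb2, g2, hg2, hg20, x2, hx2, W2, hW2, hW2s, hd2⟩ :=
    h2 (t / 2) (by positivity) 1
  have hm1r : (0 : ℝ) < m1 := by exact_mod_cast hm1
  have hm2r : (0 : ℝ) < m2 := by exact_mod_cast hm2
  have hpow : ∀ {z : K} {W : Multiset K} {k : ℕ}, W.card + 1 = p + 1 → 1 ≤ k →
      (k : ℝ) * dm ℂ (z ::ₘ W) ≤ dm ℂ (z ^ k ::ₘ W) := by
    intro z W k hW hk
    exact_mod_cast dm_pow hn hW hk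
  refine ⟨m1 * m2, b1 * m2 + b2 * m1, Nat.mul_pos hm1 hm2, ?_, ?_, ?_, ?_⟩
  · calc m₀ ≤ m1 * 1 := by omega
      _ ≤ m1 * m2 := Nat.mul_le_mul_left _ hm2
  · push_cast
    have e1 := mul_le_mul_of_nonneg_right hb1 hm2r.le
    have e2 := mul_le_mul_of_nonneg_right hb2 hm1r.le
    nlinarith
  · have hmem : ∀ z ∈ Lsp y c m1 (m1 • Δ + b1 • A1), z ^ m2 ∈
        Lsp y c (m1 * m2) ((m1 * m2) • Δ + (b1 * m2 + b2 * m1) • (A1 + A2)) := fun z hz =>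
      Lsp_add_left (Nat.le_add_right _ _) hA1 hA2 (pow_Lsp hz hm2)
    refine ⟨g1 ^ m2, hmem _ hg1, pow_ne_zero _ hg10, x1 ^ m2, hmem _ hx1, W1, hW1, hW1s, ?_⟩
    rw [← div_pow]
    refine le_trans ?_ (hpow hW1 hm2)
    push_cast
    calc a1 * (m1 * m2) = m2 * (a1 * m1) := by ring
      _ ≤ _ := mul_le_mul_of_nonneg_left hd1.le hm2r.le
  · have hmem : ∀ z ∈ Lsp y c m2 (m2 • Δ + b2 • A2), z ^ m1 ∈
        Lsp y c (m1 * m2) ((m1 * m2) • Δ + (b1 * m2 + b2 * m1) • (A1 + A2)) := fun z hz => by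
      have := pow_Lsp hz hm1
      rw [mul_comm m2 m1] at this
      exact Lsp_add_right (Nat.le_add_left _ _) hA1 hA2 this
    refine ⟨g2 ^ m1, hmem _ hg2, pow_ne_zero _ hg20, x2 ^ m1, hmem _ hx2, W2, hW2, hW2s, ?_⟩
    rw [← div_pow, map_pow]
    refine le_trans ?_ (hpow hW2 hm1)
    push_cast
    calc a2 * (m1 * m2) = m1 * (a2 * m2) := by ring
      _ ≤ _ := mul_le_mul_of_nonneg_left hd2 hm1r.le

/-- common functions for the two sequences -/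
theorem common_two (hn : Algebra.trdeg ℂ K = (p + 1 : ℕ)) (i : Fin (N + 1))
    {z1 z2 : ℕ → K} {W1 W2 : ℕ → Multiset K} (hc1 : ∀ q, (W1 q).card + 1 = p + 1)
    (hs1 : ∀ q, ∀ w ∈ W1 q, w ∈ Submodule.span ℂ (affS y i))
    (hc2 : ∀ q, (W2 q).card + 1 = p + 1)
    (hs2 : ∀ q, ∀ w ∈ W2 q, w ∈ Submodule.span ℂ (affS y i))
    (hd1 : ∀ q, dm ℂ (z1 q ::ₘ W1 q) ≠ 0) :
    ∃ W : Multiset K, W.card + 1 = p + 1 ∧ (∀ w ∈ W, w ∈ Submodule.span ℂ (affS y i)) ∧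
      ∀ q, dm ℂ (z1 q ::ₘ W1 q) ≤ dm ℂ (z1 q ::ₘ W) ∧
        dm ℂ (z2 q ::ₘ W2 q) ≤ dm ℂ (z2 q ::ₘ W) := by
  classical
  obtain ⟨Z, hZ⟩ : ∃ Z : ℕ → K × Multiset K, ∀ k, Z k = if k % 2 = 0 then (z1 (k / 2), W1 (k / 2))
      else if dm ℂ (z2 (k / 2) ::ₘ W2 (k / 2)) = 0 then (z1 (k / 2), W1 (k / 2))
      else (z2 (k / 2), W2 (k / 2)) := ⟨_, fun _ => rfl⟩
  have hcases : ∀ k, Z k = (z1 (k / 2), W1 (k / 2)) ∨
      (Z k = (z2 (k / 2), W2 (k / 2)) ∧ dm ℂ (z2 (k / 2) ::ₘ W2 (k / 2)) ≠ 0) := by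
    intro k
    rw [hZ]
    split_ifs with h1 h2
    · exact Or.inl rfl
    · exact Or.inl rfl
    · exact Or.inr ⟨rfl, h2⟩
  have ecs : ∀ (x : K) (Z : Multiset K), Z + (x ::ₘ 0) = x ::ₘ Z := by
    intro x Z
    rw [Multiset.add_cons, add_zero]
  obtain ⟨W, hW, hle⟩ := common_seq hn (Multiset.replicate p (Submodule.span ℂ (affS y i))) (by
    intro V hV
    obtain ⟨d, s, hs⟩ := exists_enum (fin_affS (y := y) i)
    exact ⟨d, s, by rw [Multiset.eq_of_mem_replicate hV, ← hs]⟩) (fun k => (Z k).2)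
    (fun k => (Z k).1 ::ₘ 0) (fun k => by
      rw [selS_rep]
      rcases hcases k with h | ⟨h, -⟩
      · rw [h]
        exact ⟨by have := hc1 (k / 2); change (W1 (k / 2)).card = p; omega, hs1 _⟩
      · rw [h]
        exact ⟨by have := hc2 (k / 2); change (W2 (k / 2)).card = p; omega, hs2 _⟩)
    (fun k => by
      rw [ecs, Multiset.card_cons]
      rcases hcases k with h | ⟨h, -⟩
      · rw [h]
        exact hc1 _
      · rw [h]
        exact hc2 _) (fun k => by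
      rw [ecs]
      rcases hcases k with h | ⟨h, h'⟩
      · rw [h]
        exact hd1 _
      · rw [h]
        exact h')
  rw [selS_rep] at hW
  refine ⟨W, by rw [hW.1], hW.2, fun q => ⟨?_, ?_⟩⟩
  · have h1 := hle (2 * q)
    have e1 : Z (2 * q) = (z1 q, W1 q) := by
      rw [hZ, if_pos (by omega)]
      have : 2 * q / 2 = q := by omega
      rw [this]
    rw [ecs, ecs, e1] at h1
    exact h1
  · by_cases h0 : dm ℂ (z2 q ::ₘ W2 q) = 0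
    · rw [h0]
      exact Nat.zero_le _
    have h1 := hle (2 * q + 1)
    have e0 : (2 * q + 1) / 2 = q := by omega
    have e1 : Z (2 * q + 1) = (z2 q, W2 q) := by
      rw [hZ, if_neg (by omega), e0, if_neg h0]
    rw [ecs, ecs, e1] at h1
    exact h1

end

end Pool.Agent.T2h12
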