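import Pool.Agent.T2h12.NM2

/-!
A place at which the images of the sections have larger orders than the sections.
-/

set_option autoImplicit false
set_option linter.overlappingInstances false
set_option linter.unusedSectionVars false

open FF Module IntermediateField MvPolynomial Pool.Agent.W602.GT Pool.Agent.W603.LV
open Pool.Agent.Y172 Pool.Agent.Y191 Pool.Agent.R887 Pool.Agent.N110

namespace Pool.Agent.T2h12

section

variable {K : Type} [Field K] [Algebra ℂ K] {N p : ℕ} {y : Fin (N + 1) → K}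

/-- **The place with a drop.** -/
theorem drop_main (hy : NormalModel y) (hn : Algebra.trdeg ℂ K = (p + 1 : ℕ)) {i : Fin (N + 1)}
    (hi : y i ≠ 0) {Δ : Place ℂ K → ℚ} (hΔ : Effective y Δ) {x : Fin (p + 1) → K}
    {E : Fin (p + 1) → Derivation ℂ K K} (hx : IsTranscendenceBasis ℂ x)
    (hE : ∀ i j, E i (x j) = if i = j then 1 else 0) (hfr : IsFrame E) {c : Place ℂ K → ℤ}
    (hcfin : {P | IsPrimeDivisor y P ∧ c P ≠ 0}.Finite) (hc : IsDisc y E c)
    {φ₀ : K →ₐ[ℂ] K} (hφ₀ : JPulls y c Δ x E φ₀)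
    (hlt : eD y i (p + 1) c Δ φ₀ < eD y i (p + 1) c Δ 1) :
    ∃ A, Effective y A ∧ ∃ c₁ : ℝ, 0 < c₁ ∧ ∃ (l : Fin p → K) (P : Place ℂ K) (C₀ : ℕ),
      Divisorial (p + 1) P ∧
      (∀ f ∈ IntermediateField.adjoin ℂ (Set.range (Fin.elim0 : Fin 0 → K)), f ≠ 0 →
        P.ord f = 0) ∧
      (∀ F : MvPolynomial (Fin p)
        (IntermediateField.adjoin ℂ (Set.range (Fin.elim0 : Fin 0 → K))), F ≠ 0 →
        aeval l F ≠ 0 ∧ P.ord (aeval l F) = 0) ∧
      ∀ t : ℝ, 0 < t → ∀ k0 : ℕ, ∃ k : ℕ, k0 ≤ k ∧ 1 ≤ k ∧ ∃ b : ℕ, (b : ℝ) ≤ t * k ∧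
        ∃ u ∈ Lsp y c k (k • Δ + b • A), ∃ u' ∈ Lsp y c k (k • Δ + b • A), u ≠ 0 ∧ u' ≠ 0 ∧
        c₁ * k ≤ (P.ord (u' / u) : ℤ) ∧ P.ord u ≤ C₀ * k := by
  classical
  have hess := hy.ess
  have hΔf := hΔ.2
  obtain ⟨J, hJ⟩ : ∃ J, J = jac φ₀ x E := ⟨_, rfl⟩
  have hJ0 : J ≠ 0 := by rw [hJ]; exact jac_ne hess hn hx hE hfr φ₀
  obtain ⟨a, ha⟩ : ∃ a, a = eD y i (p + 1) c Δ φ₀ := ⟨_, rfl⟩
  have ha0 : 0 ≤ a := by rw [ha]; exact eD_nonneg _ _ _ _
  obtain ⟨η, hη⟩ : ∃ η, η = (eD y i (p + 1) c Δ 1 - a) / 8 := ⟨_, rfl⟩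
  have hη0 : 0 < η := by
    rw [hη, ha]
    linarith
  have he1 : eD y i (p + 1) c Δ 1 = a + 8 * η := by rw [hη]; ring
  have hup : BUp y i (p + 1) c Δ φ₀ (a + η) := BUp_of_lt hy hn hi hcfin hΔf (by
    rw [← ha]; linarith)
  have hlow1 : ¬ BUp y i (p + 1) c Δ 1 (a + 7 * η) := not_BUp (by positivity) (by
    rw [he1]; linarith)
  unfold BUp DLe at hlow1
  push Not at hlow1
  obtain ⟨A1, hA1, hs1⟩ := hlow1
  have hs1' : ∀ t : ℝ, 0 < t → ∀ m₀ : ℕ, ∃ m b : ℕ, 1 ≤ m ∧ m₀ ≤ m ∧ (b : ℝ) ≤ t * m ∧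
      ∃ g ∈ Lsp y c m (m • Δ + b • A1), g ≠ 0 ∧ ∃ h ∈ Lsp y c m (m • Δ + b • A1),
        ∃ W : Multiset K, W.card + 1 = p + 1 ∧ (∀ w ∈ W, w ∈ Submodule.span ℂ (affS y i)) ∧
        (a + 7 * η) * m < dm ℂ ((h / g) ::ₘ W) := by
    intro t ht m₀
    obtain ⟨m, b, hm, hm0, hb, g, hg, hg0, h, hh, W, hW, hWs, hd⟩ := hs1 t ht m₀
    exact ⟨m, b, hm, hm0, hb, g, hg, hg0, h, hh, W, hW, hWs, hd⟩
  have hs2' : ∃ A2, Effective y A2 ∧ ∀ t : ℝ, 0 < t → ∀ m₀ : ℕ, ∃ m b : ℕ, 1 ≤ m ∧ m₀ ≤ m ∧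
      (b : ℝ) ≤ t * m ∧ ∃ g ∈ Lsp y c m (m • Δ + b • A2), g ≠ 0 ∧
        ∃ h ∈ Lsp y c m (m • Δ + b • A2),
        ∃ W : Multiset K, W.card + 1 = p + 1 ∧ (∀ w ∈ W, w ∈ Submodule.span ℂ (affS y i)) ∧
        (a - η) * m ≤ dm ℂ (φ₀ (h / g) ::ₘ W) := by
    by_cases h0 : 0 ≤ a - η
    · have hlow2 : ¬ BUp y i (p + 1) c Δ φ₀ (a - η) := not_BUp h0 (by
        rw [← ha]; linarith)
      unfold BUp DLe at hlow2
      push Not at hlow2
      obtain ⟨A2, hA2, hs2⟩ := hlow2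
      refine ⟨A2, hA2, fun t ht m₀ => ?_⟩
      obtain ⟨m, b, hm, hm0, hb, g, hg, hg0, h, hh, W, hW, hWs, hd⟩ := hs2 t ht m₀
      exact ⟨m, b, hm, hm0, hb, g, hg, hg0, h, hh, W, hW, hWs, hd.le⟩
    · refine ⟨A1, hA1, fun t ht m₀ => ?_⟩
      obtain ⟨m, b, hm, hm0, hb, g, hg, hg0, h, hh, W, hW, hWs, hd⟩ := hs1' t ht m₀
      refine ⟨m, b, hm, hm0, hb, g, hg, hg0, h, hh, W, hW, hWs, ?_⟩
      have h1 : (a - η) * m ≤ 0 := mul_nonpos_of_nonpos_of_nonneg (by linarith)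
        (Nat.cast_nonneg _)
      exact h1.trans (Nat.cast_nonneg _)
  obtain ⟨A2, hA2, hs2'⟩ := hs2'
  obtain ⟨A, hAd⟩ : ∃ A, A = A1 + A2 := ⟨_, rfl⟩
  have hA : Effective y A := by rw [hAd]; exact eff_add hA1 hA2
  obtain ⟨t₀, ht₀, m₀, hupA⟩ := hup A hA
  have hseq : ∀ q : ℕ, ∃ m b : ℕ, 1 ≤ m ∧ max (q + 1) m₀ ≤ m ∧
      (b : ℝ) ≤ min (1 / ((q : ℝ) + 1)) (min (t₀ / 2) 1) * m ∧
      (∃ g ∈ Lsp y c m (m • Δ + b • A), g ≠ 0 ∧ ∃ h ∈ Lsp y c m (m • Δ + b • A),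
        ∃ W : Multiset K, W.card + 1 = p + 1 ∧ (∀ w ∈ W, w ∈ Submodule.span ℂ (affS y i)) ∧
        (a + 7 * η) * m ≤ dm ℂ ((h / g) ::ₘ W)) ∧
      ∃ g ∈ Lsp y c m (m • Δ + b • A), g ≠ 0 ∧ ∃ h ∈ Lsp y c m (m • Δ + b • A),
        ∃ W : Multiset K, W.card + 1 = p + 1 ∧ (∀ w ∈ W, w ∈ Submodule.span ℂ (affS y i)) ∧
        (a - η) * m ≤ dm ℂ (φ₀ (h / g) ::ₘ W) := fun q => by
    rw [hAd]
    exact two_seq hn hA1 hA2 hs1' hs2' (by positivity) _
  choose m b hm hm0 hb hE1 hE2 using hseq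
  choose g1 hg1 hg10 h1 hh1 W1 hW1 hW1s hd1 using hE1
  choose g2 hg2 hg20 h2 hh2 W2 hW2 hW2s hd2 using hE2
  have hmr : ∀ q, (0 : ℝ) < m q := fun q => by exact_mod_cast hm q
  have hbm : ∀ q, b q ≤ m q := fun q => by
    have h3 := (hb q).trans (mul_le_mul_of_nonneg_right ((min_le_right _ _).trans
      (min_le_right _ _)) (hmr q).le)
    rw [one_mul] at h3
    exact_mod_cast h3
  have hbt : ∀ q, (b q : ℝ) ≤ t₀ / 2 * m q := fun q =>
    (hb q).trans (mul_le_mul_of_nonneg_right ((min_le_right _ _).trans (min_le_left _ _))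
      (hmr q).le)
  have hd1' : ∀ q, dm ℂ ((h1 q / g1 q) ::ₘ W1 q) ≠ 0 := by
    intro q h0
    have h3 := hd1 q
    rw [h0, Nat.cast_zero] at h3
    have := hmr q
    have : 0 < (a + 7 * η) * m q := by positivity
    linarith
  obtain ⟨W, hW, hWs, hWd⟩ := common_two hn i (z1 := fun q => h1 q / g1 q)
    (z2 := fun q => φ₀ (h2 q / g2 q)) hW1 hW1s hW2 hW2s hd1'
  have hd1W : ∀ q, (a + 7 * η) * m q ≤ dm ℂ ((h1 q / g1 q) ::ₘ W) := fun q =>
    (hd1 q).trans (by exact_mod_cast (hWd q).1)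
  have hd2W : ∀ q, (a - η) * m q ≤ dm ℂ (φ₀ (h2 q / g2 q) ::ₘ W) := fun q =>
    (hd2 q).trans (by exact_mod_cast (hWd q).2)
  have hne1 : ∀ q, dm ℂ ((h1 q / g1 q) ::ₘ W) ≠ 0 := by
    intro q h0
    have h3 := hd1W q
    rw [h0, Nat.cast_zero] at h3
    have := hmr q
    have : 0 < (a + 7 * η) * m q := by positivity
    linarith
  have hIF := ff_of_dm hn hW (hne1 0)
  have hcz := cz_gen (k := ℂ) W
  -- the spaces
  have hgens : ∀ q, ∃ S : Finset K, S.Nonempty ∧ (0 : K) ∉ S ∧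
      Submodule.span ℂ (S : Set K) = Lsp y c (m q) (m q • Δ + b q • A) := fun q =>
    exists_gens (fin_LspB hy hn hΔ hA hE hc (hm q)) (hg1 q) (hg10 q)
  choose S hS hS0 hSV using hgens
  obtain ⟨m₁, hm₁⟩ : ∃ m₁, m₁ = m 0 := ⟨_, rfl⟩
  obtain ⟨b₁, hb₁⟩ : ∃ b₁, b₁ = b 0 := ⟨_, rfl⟩
  have hm₁1 : 1 ≤ m₁ := by rw [hm₁]; exact hm 0
  have hpow1 : ∀ q, ∀ z ∈ Lsp y c (m q) (m q • Δ + b q • A), z ^ m₁ ∈
      Lsp y c (m q * m₁) ((m q * m₁) • Δ + (b q * m₁ + b₁ * m q) • A) := fun q z hz =>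
    Lsp_mono (Nat.le_add_right _ _) hA.1 (fun _ _ => le_rfl) (pow_Lsp hz hm₁1)
  have hpow2 : ∀ q, ∀ z ∈ Lsp y c (m 0) (m 0 • Δ + b 0 • A), z ^ m q ∈
      Lsp y c (m q * m₁) ((m q * m₁) • Δ + (b q * m₁ + b₁ * m q) • A) := fun q z hz => by
    have h3 := pow_Lsp hz (hm q)
    rw [← hm₁, ← hb₁, mul_comm m₁ (m q)] at h3
    exact Lsp_mono (Nat.le_add_left _ _) hA.1 (fun _ _ => le_rfl) h3
  have hgensU : ∀ q, ∃ S : Finset K, S.Nonempty ∧ (0 : K) ∉ S ∧
      Submodule.span ℂ (S : Set K) =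
        Lsp y c (m q * m₁) ((m q * m₁) • Δ + (b q * m₁ + b₁ * m q) • A) := fun q =>
    exists_gens (fin_LspB hy hn hΔ hA hE hc (Nat.mul_pos (hm q) hm₁1))
      (hpow1 q _ (hg1 q)) (pow_ne_zero _ (hg10 q))
  choose T hT hT0 hTV using hgensU
  -- the divisors
  obtain ⟨F, hF⟩ : ∃ F, F = gen ℂ W := ⟨_, rfl⟩
  rw [← hF] at hIF hcz
  obtain ⟨Nq, hNq⟩ : ∃ Nq : ℕ → Place F K →₀ ℤ, ∀ q, Nq q = minF F (S q) (hS q) :=
    ⟨_, fun _ => rfl⟩
  obtain ⟨N', hN'⟩ : ∃ N' : ℕ → Place F K →₀ ℤ, ∀ q, N' q =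
      minF F ((S q).image (tw (J ^ m q) φ₀)) ((hS q).image _) := ⟨_, fun _ => rfl⟩
  obtain ⟨U, hU⟩ : ∃ U : ℕ → Place F K →₀ ℤ, ∀ q, U q =
      minF F ((T q).image (tw (J ^ (m q * m₁)) φ₀)) ((hT q).image _) := ⟨_, fun _ => rfl⟩
  have hfin : ∀ z : K, dm ℂ (z ::ₘ W) = finrank F⟮z⟯ K := by
    intro z
    rw [hF]
    exact dm_cons z W
  obtain ⟨D, hD0, hD⟩ := pole_div hy hi hcfin hΔf hA F
  have hNT : ∀ q P, P ∉ (D.support : Set (Place F K)) → 0 ≤ Nq q P := by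
    intro q P hP
    rw [hNq]
    refine le_minF _ fun s hs => ?_
    have hsV : s ∈ Lsp y c (m q) (m q • Δ + b q • A) := by
      rw [← hSV]
      exact Submodule.subset_span hs
    have h3 := hD (m q) (b q) (hbm q) s hsV (fun h => hS0 q (h ▸ hs)) P
    rw [Finset.mem_coe, Finsupp.notMem_support_iff] at hP
    rw [polar_apply, Finsupp.smul_apply, hP, smul_zero] at h3
    have := (le_max_left (-P.ord s) 0).trans h3
    omega
  have hN1 : ∀ q, (a + 7 * η) * m q ≤ -ddeg (Nq q) := by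
    intro q
    have htr : Transcendental F (h1 q / g1 q) := by
      rw [hF]
      exact transc_of_dm hn hW (hne1 q)
    have h3 := ddeg_quot_le (F := F) (hS q) (u := g1 q) (w := h1 q) (by rw [hSV]; exact hg1 q)
      (by rw [hSV]; exact hh1 q) (hg10 q)
    rw [ddeg_polar htr, ← hfin, ← hNq] at h3
    refine (hd1W q).trans ?_
    exact_mod_cast h3
  have hupq : ∀ (m' b' : ℕ) (S' : Finset K) (hS' : S'.Nonempty), (0 : K) ∉ S' → 1 ≤ m' →
      m₀ ≤ m' → (b' : ℝ) ≤ t₀ * m' →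
      Submodule.span ℂ (S' : Set K) = Lsp y c m' (m' • Δ + b' • A) →
      (-ddeg (minF F (S'.image (tw (J ^ m') φ₀)) (hS'.image _)) : ℝ) ≤ (a + η) * m' := by
    intro m' b' S' hS' hS0' hm' hm0' hb' hSV'
    obtain ⟨v, hv, u, hu, h3⟩ := im_exists (F := F) hS' hS0' (pow_ne_zero m' hJ0) φ₀
    have h4 := hupA m' b' hm' hm0' hb' u (by rw [← hSV']; exact Submodule.subset_span hu)
      (fun h => hS0' (h ▸ hu)) v (by rw [← hSV']; exact hv) W hW hWs
    rw [hfin] at h4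
    refine le_trans ?_ h4
    exact_mod_cast h3
  have hN2 : ∀ q, (-ddeg (N' q) : ℝ) ≤ (a + η) * m q := by
    intro q
    rw [hN']
    refine hupq (m q) (b q) (S q) (hS q) (hS0 q) (hm q) ((le_max_right _ _).trans (hm0 q)) ?_
      (hSV q)
    have := hbt q
    have := hmr q
    nlinarith
  have hN3 : ∀ q, (a - η) * m q ≤ -ddeg (N' q) := by
    intro q
    have h3 := im_quot (F := F) (hS q) (pow_ne_zero (m q) hJ0) φ₀ (u := g2 q) (v := h2 q)
      (by rw [hSV]; exact hg2 q) (by rw [hSV]; exact hh2 q) (hg20 q)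
    rw [← hN'] at h3
    refine (hd2W q).trans ?_
    rw [hfin]
    by_cases htr : Transcendental F (φ₀ (h2 q / g2 q))
    · rw [ddeg_polar htr] at h3
      exact_mod_cast h3
    · have h4 : finrank F⟮φ₀ (h2 q / g2 q)⟯ K = 0 := by
        rw [← hfin]
        by_contra h0
        apply htr
        rw [hF]
        exact transc_of_dm hn hW h0
      rw [h4, Nat.cast_zero]
      have h5 : (0 : ℤ) ≤ ddeg (polar (k := F) (φ₀ (h2 q / g2 q))) :=
        ddeg_nonneg (polar_nonneg _)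
      exact_mod_cast h5.trans h3
  have hU4 : ∀ q P, U q P ≤ m₁ * N' q P := by
    intro q P
    obtain ⟨s, hs, e⟩ := minF_exists (F := F) ((hS q).image (tw (J ^ m q) φ₀)) P
    rw [hN', e]
    rw [Finset.mem_image] at hs
    obtain ⟨v, hv, rfl⟩ := hs
    have hvV : v ^ m₁ ∈ Submodule.span ℂ (T q : Set K) := by
      rw [hTV]
      exact hpow1 q v (by rw [← hSV]; exact Submodule.subset_span hv)
    have h3 := minF_span (F := F) ((hT q).image (tw (J ^ (m q * m₁)) φ₀))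
      (im_mem (J ^ (m q * m₁)) φ₀ hvV) (mul_ne_zero (pow_ne_zero _ hJ0) (by
        rw [Ne, map_eq_zero]
        exact pow_ne_zero _ fun h => hS0 q (h ▸ hv))) P
    rw [← hU] at h3
    refine h3.trans (le_of_eq ?_)
    rw [tw_apply, map_pow, pow_mul, ← mul_pow, P.ord_pow]
  have hU5 : ∀ q P, U q P ≤ m q * N' 0 P := by
    intro q P
    obtain ⟨s, hs, e⟩ := minF_exists (F := F) ((hS 0).image (tw (J ^ m 0) φ₀)) P
    rw [hN', e]
    rw [Finset.mem_image] at hs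
    obtain ⟨v, hv, rfl⟩ := hs
    have hvV : v ^ m q ∈ Submodule.span ℂ (T q : Set K) := by
      rw [hTV]
      exact hpow2 q v (by rw [← hSV]; exact Submodule.subset_span hv)
    have h3 := minF_span (F := F) ((hT q).image (tw (J ^ (m q * m₁)) φ₀))
      (im_mem (J ^ (m q * m₁)) φ₀ hvV) (mul_ne_zero (pow_ne_zero _ hJ0) (by
        rw [Ne, map_eq_zero]
        exact pow_ne_zero _ fun h => hS0 0 (h ▸ hv))) P
    rw [← hU] at h3
    refine h3.trans (le_of_eq ?_)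
    rw [tw_apply, map_pow, mul_comm (m q) m₁, hm₁, pow_mul, ← mul_pow, P.ord_pow]
  have hU6 : ∀ q, (-ddeg (U q) : ℝ) ≤ (a + η) * (m q * m₁) := by
    intro q
    rw [hU]
    have h3 := hupq (m q * m₁) (b q * m₁ + b₁ * m q) (T q) (hT q) (hT0 q)
      (Nat.mul_pos (hm q) hm₁1) (by
        calc m₀ ≤ m q * 1 := by
              rw [mul_one]
              exact (le_max_right _ _).trans (hm0 q)
          _ ≤ m q * m₁ := Nat.mul_le_mul_left _ hm₁1) (by
        push_cast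
        have e1 := mul_le_mul_of_nonneg_right (hbt q) (Nat.cast_nonneg (α := ℝ) m₁)
        have e2 := mul_le_mul_of_nonneg_right (hbt 0) (hmr q).le
        rw [← hb₁, ← hm₁] at e2
        nlinarith) (hTV q)
    push_cast at h3
    exact h3
  obtain ⟨P, c₁, hc₁, hP⟩ := exists_drop_place (N := Nq) (N' := N') (U := U) (N₁ := N' 0)
    hm hm₁1 D.support.finite_toSet hNT hη0 hN1 hN2 hN3 hU4 hU5 hU6
  -- the pull back
  obtain ⟨A', hA', hpull⟩ := hφ₀ A hA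
  -- the bound of the orders
  obtain ⟨C₀, hC₀⟩ : ∃ C₀ : ℕ, C₀ = (ddeg D).toNat := ⟨_, rfl⟩
  have hordC : ∀ q, ∀ u ∈ Lsp y c (m q) (m q • Δ + b q • A), u ≠ 0 → P.ord u ≤ C₀ * m q := by
    intro q u hu hu0
    have h3 := ddeg_mono (hD (m q) (b q) (hbm q) u hu hu0)
    rw [ddeg_nsmul] at h3
    have h4 : ddeg (polar (k := F) u⁻¹) = ddeg (polar (k := F) u) := by
      have h5 : divisor F u = polar (k := F) u⁻¹ - polar (k := F) u := by
        ext Q
        rw [Finsupp.sub_apply, polar_apply, polar_apply, divisor_apply, Q.ord_inv]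
        omega
      have h6 := ddeg_divisor (k := F) u
      rw [h5, ddeg_sub] at h6
      linarith
    have h5 : Finsupp.single P (max (P.ord u) 0) ≤ polar (k := F) u⁻¹ := by
      intro Q
      by_cases hQ : Q = P
      · rw [hQ, Finsupp.single_eq_same, polar_apply, P.ord_inv, neg_neg]
      · rw [Finsupp.single_eq_of_ne hQ]
        exact polar_nonneg _ Q
    have h6 := ddeg_mono h5
    rw [ddeg_single, h4] at h6
    have h7 : (1 : ℤ) ≤ P.deg := by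
      exact_mod_cast P.deg_pos
    have h8 : P.ord u ≤ max (P.ord u) 0 * P.deg := by
      have := le_max_left (P.ord u) 0
      have := le_max_right (P.ord u) 0
      nlinarith
    have h9 : ddeg D ≤ C₀ := by
      rw [hC₀]
      exact Int.self_le_toNat _
    have h10 : (m q : ℤ) * ddeg D ≤ m q * C₀ := mul_le_mul_of_nonneg_left h9 (Int.natCast_nonneg _)
    rw [mul_comm (C₀ : ℤ)]
    linarith
  obtain ⟨l, hl⟩ := exists_toM W (k := p) (by omega)
  have hlW : ∀ j, l j ∈ W := fun j => by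
    rw [← hl]
    exact mem_toM.2 ⟨j, rfl⟩
  have hbot : ∀ f ∈ IntermediateField.adjoin ℂ (Set.range (Fin.elim0 : Fin 0 → K)), f ∈ F := by
    intro f hf
    have h3 : IntermediateField.adjoin ℂ (Set.range (Fin.elim0 : Fin 0 → K)) ≤ F := by
      rw [IntermediateField.adjoin_le_iff]
      rintro _ ⟨j, rfl⟩
      exact j.elim0
    exact h3 hf
  have hPF : ∀ f ∈ F, f ≠ 0 → P.ord f = 0 := by
    intro f hf hf0
    have := P.ord_const (c := (⟨f, hf⟩ : F)) (fun h => hf0 (congrArg Subtype.val h))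
    exact this
  have hlF : ∀ j, l j ∈ F := fun j => by
    rw [hF]
    exact IntermediateField.subset_adjoin _ _ (hlW j)
  have hui : AlgebraicIndependent ℂ l := by
    have h3 : AlgebraicIndependent ℂ (Fin.cons (h1 0 / g1 0) l : Fin (p + 1) → K) := by
      refine indep_of_dm (by rw [hn]) ?_
      rw [toM_cons, hl]
      exact hne1 0
    have h4 := h3.comp Fin.succ (Fin.succ_injective _)
    exact h4
  have hr0 : AlgebraicIndependent ℂ (Fin.elim0 : Fin 0 → K) :=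
    algebraicIndependent_empty_type_iff.2 (algebraMap ℂ K).injective
  have hF1 : Algebra.trdeg (IntermediateField.adjoin ℂ (Set.range (Fin.elim0 : Fin 0 → K))) K =
      (p + 1 : ℕ) := trdeg_over (p := p + 1) (κ := 0) hn hr0
  have hli : AlgebraicIndependent
      (IntermediateField.adjoin ℂ (Set.range (Fin.elim0 : Fin 0 → K))) l := by
    have h3 : AlgebraicIndependent
        (IntermediateField.adjoin ℂ (Set.range (Fin.elim0 : Fin 0 → K)))
        (Fin.cons (h1 0 / g1 0) l : Fin (p + 1) → K) := by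
      refine indep_of_dm hF1 ?_
      have e0 : toM (Fin.elim0 : Fin 0 → K) = 0 := rfl
      rw [toM_cons, dm_over, hl, e0, add_zero]
      exact hne1 0
    have h4 := h3.comp Fin.succ (Fin.succ_injective _)
    exact h4
  refine ⟨A + A', eff_add hA hA', c₁, hc₁, l, down F P, C₀, ?_, ?_, ?_, ?_⟩
  · refine ⟨l, fun G hG => ?_⟩
    have h5 : aeval l G ≠ 0 := by
      intro h0
      apply hG
      exact (injective_iff_map_eq_zero _).1 hui G h0
    exact ⟨h5, hPF _ (aeval_gen' hlF G) h5⟩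
  · intro f hf hf0
    exact hPF f (hbot f hf) hf0
  · intro G hG
    have h5 : aeval l G ≠ 0 := by
      intro h0
      apply hG
      exact (injective_iff_map_eq_zero _).1 hli G h0
    exact ⟨h5, hPF _ (aeval_gen (fun f hf => hbot f hf) hlF G) h5⟩
  · intro t ht k0
    obtain ⟨q1, hq1⟩ := exists_nat_gt (1 / t)
    obtain ⟨q, hq, hPq⟩ := hP (max k0 q1)
    have hqk0 : k0 ≤ q := (le_max_left _ _).trans hq
    have hqq1 : q1 ≤ q := (le_max_right _ _).trans hq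
    have hmq : q + 1 ≤ m q := (le_max_left _ _).trans (hm0 q)
    refine ⟨m q, by omega, hm q, b q, ?_, ?_⟩
    · refine (hb q).trans (mul_le_mul_of_nonneg_right ?_ (hmr q).le)
      refine (min_le_left _ _).trans ?_
      have h3 : 1 / t < q := hq1.trans_le (by exact_mod_cast hqq1)
      rw [div_lt_iff₀ ht] at h3
      rw [div_le_iff₀ (by positivity)]
      nlinarith
    · obtain ⟨u, hu, eu⟩ := minF_exists (F := F) (hS q) P
      obtain ⟨s, hs, es⟩ := minF_exists (F := F) ((hS q).image (tw (J ^ m q) φ₀)) P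
      rw [Finset.mem_image] at hs
      obtain ⟨v, hv, rfl⟩ := hs
      have huV : u ∈ Lsp y c (m q) (m q • Δ + b q • A) := by
        rw [← hSV]
        exact Submodule.subset_span hu
      have hvV : v ∈ Lsp y c (m q) (m q • Δ + b q • A) := by
        rw [← hSV]
        exact Submodule.subset_span hv
      have hu0 : u ≠ 0 := fun h => hS0 q (h ▸ hu)
      have hv0 : v ≠ 0 := fun h => hS0 q (h ▸ hv)
      have hJv : J ^ m q * φ₀ v ≠ 0 := mul_ne_zero (pow_ne_zero _ hJ0) (by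
        rwa [Ne, map_eq_zero])
      refine ⟨u, Lsp_add_left le_rfl hA hA' huV, J ^ m q * φ₀ v,
        Lsp_add_right le_rfl hA hA' ?_, hu0, hJv, ?_, hordC q u huV hu0⟩
      · rw [hJ]
        exact hpull (m q) (b q) (hm q) v hvV
      · refine hPq.trans (le_of_eq ?_)
        have e1 : (down F P).ord (J ^ m q * φ₀ v / u) = P.ord (J ^ m q * φ₀ v / u) := rfl
        rw [e1, P.ord_div hJv hu0, hN', hNq, es, eu, tw_apply]

end

end Pool.Agent.T2h12
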