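import Pool.Agent.T2h12.LctB
import Pool.Agent.T2h12.WB

/-!
The degrees of the images of a function with a pole of high order, for pseudo-effective `K + Δ`.
-/

set_option autoImplicit false
set_option linter.overlappingInstances false
set_option linter.unusedSectionVars false

open FF Module MvPolynomial Pool.Agent.W602.GT Pool.Agent.W603.LV
open Pool.Agent.Y172 Pool.Agent.Y191 Pool.Agent.R887 Pool.Agent.N110

namespace Pool.Agent.T2h12

section

variable {K : Type} [Field K] [Algebra ℂ K] {N κ m : ℕ} {y : Fin (N + 1) → K}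

/-- **The degrees of the images of a function with a pole of high order.** -/
theorem word_boundB (hy : NormalModel y) (hn : Algebra.trdeg ℂ K = (m + 1 + κ : ℕ))
    {Δ : Place ℂ K → ℚ} (hΔ : Effective y Δ) (hklt : Klt y (m + 1 + κ) Δ)
    {x : Fin (m + 1 + κ) → K} {E : Fin (m + 1 + κ) → Derivation ℂ K K}
    (hx : IsTranscendenceBasis ℂ x) (hE : ∀ i j, E i (x j) = if i = j then 1 else 0)
    (hfr : IsFrame E) {c : Place ℂ K → ℤ} (hcfin : {P | IsPrimeDivisor y P ∧ c P ≠ 0}.Finite)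
    (hc : IsDisc y E c) {r : Fin κ → K}
    (hr : AlgebraicIndependent ℂ r) {P : Place ℂ K} (hsec : SecAt y c Δ P)
    (hPd : Divisorial (m + 1 + κ) P)
    (htriv : ∀ f ∈ IntermediateField.adjoin ℂ (Set.range r), f ≠ 0 → P.ord f = 0)
    {l : Fin m → K} (hl : ∀ F : MvPolynomial (Fin m) (IntermediateField.adjoin ℂ (Set.range r)),
      F ≠ 0 → aeval l F ≠ 0 ∧ P.ord (aeval l F) = 0) {i : Fin (N + 1)} (hi : y i ≠ 0) :
    ∃ C : ℕ, 1 ≤ C ∧ ∀ φ : K →ₐ[ℂ] K, JPulls y c Δ x E φ → ∀ (v : K) (T : ℕ), 1 ≤ T →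
      ((T * C : ℕ) : ℤ) ≤ -P.ord v → ∃ Q' : Multiset K,
        Sel Q' (Multiset.replicate m (hcls hy hi)) ∧
        T ≤ dm ℂ (φ v ::ₘ ((toM fun j => φ (r j)) + Q')) := by
  classical
  have hess := hy.ess
  obtain ⟨Λ, hΛ, hΛr, hΛ0⟩ := exists_frame hess hn hr hPd htriv hl hx hE
  obtain ⟨C, hC1, hC⟩ := lctB hy hn hΔ hklt hx hE hfr hcfin hc P hsec hΛ hΛ0
  refine ⟨C, hC1, fun φ hφ v T hT1 hT => ?_⟩
  obtain ⟨Q, e, hQ, hQd⟩ := above_hom hess hn hn φ hPd
  choose Λ' hΛ' using fun i => lift_hom hess hn hn φ (Λ i)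
  obtain ⟨j, hj, X, hXs, hXr, hdet, hdetQ⟩ := hC φ hφ Q e hQ hQd Λ' hΛ'
  have hlog : ∀ i, DerLog Q (Λ' i) := fun i => lift_log_hom hess hn hn φ hQ (hΛ i) (hΛ' i)
  obtain ⟨J, hJ0, hJ⟩ := exists_minor Q κ (Matrix.of fun i l => Λ' i (X l))
    (fun a b => DerLog.ge (hlog a) (hXr b)) hdet
  -- the base field
  obtain ⟨F, hF⟩ : ∃ F, F = IntermediateField.adjoin ℂ (Set.range fun j => φ (r j)) := ⟨_, rfl⟩
  have hFmap : F = (IntermediateField.adjoin ℂ (Set.range r)).map φ := by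
    rw [hF, IntermediateField.adjoin_map, ← Set.range_comp]
    rfl
  have htriv' : ∀ f ∈ F, f ≠ 0 → Q.ord f = 0 := by
    intro f hf hf0
    rw [hFmap] at hf
    obtain ⟨g, hg, rfl⟩ := hf
    have hg0 : g ≠ 0 := by
      rintro rfl
      exact hf0 (map_zero φ)
    change Q.ord (φ g) = 0
    rw [hQ.2, htriv g hg hg0, mul_zero]
  have hker : ∀ a : Fin (m + 1), ∀ f ∈ F, Λ' (Fin.castAdd κ a) f = 0 := by
    intro a
    rw [hF]
    refine der_adjoin ?_
    rintro _ ⟨j, rfl⟩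
    rw [hΛ', hΛr, map_zero]
  have hr' : AlgebraicIndependent ℂ (fun j => φ (r j)) := by
    have := hr.map' (f := φ) φ.toRingHom.injective
    exact this
  have hnF : Algebra.trdeg F K = (m + 1 : ℕ) := by
    rw [hF]
    exact trdeg_over (p := m + 1) hn hr'
  have hcz : CharZero F := charZero_of_injective_algebraMap (algebraMap ℂ F).injective
  have hess' : Algebra.EssFiniteType F K := Algebra.EssFiniteType.of_comp ℂ _ K
  have he1 : 1 ≤ e := hQ.1
  have hv0 : v ≠ 0 := by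
    rintro rfl
    rw [P.ord_zero, neg_zero] at hT
    have : 1 ≤ T * C := Nat.mul_pos hT1 hC1
    omega
  obtain ⟨p, hp0, hp⟩ := alpha (k := F) (K := K) (m := m) hnF (Q := upPlace F Q htriv')
    (x := fun b => X (J b)) (fun b => hXr (J b))
    (Λ := fun a => upDer F (Λ' (Fin.castAdd κ a)) (hker a))
    (fun a f => hlog (Fin.castAdd κ a) f) (A := C * e) hJ0 (by
      refine hJ.trans (hdetQ.trans (le_of_eq ?_))
      push_cast
      ring) (Nat.mul_pos hC1 he1) (z := (φ v)⁻¹) hT1 (by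
      change ((T * (C * e) : ℕ) : ℤ) ≤ Q.ord (φ v)⁻¹
      rw [Q.ord_inv, hQ.2]
      have h1 := mul_le_mul_of_nonneg_left hT (show (0 : ℤ) ≤ e from Int.natCast_nonneg _)
      have h2 : ((T * (C * e) : ℕ) : ℤ) = e * ((T * C : ℕ) : ℤ) := by
        push_cast
        ring
      rw [h2]
      linarith)
  obtain ⟨u, hu⟩ : ∃ u : Fin m → K, u = fun b : Fin m => X (J b.succ) -
      ((p b.succ : K) / (p 0 : K)) * X (J 0) := ⟨_, rfl⟩
  rw [← hu] at hp
  have hus : ∀ b, u b ∈ Submodule.span ℂ (affS y j) := by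
    intro b
    rw [hu]
    refine Submodule.sub_mem _ (Submodule.subset_span (hXs _)) ?_
    have e1 : ((p b.succ : K) / (p 0 : K)) * X (J 0) =
        ((p b.succ : ℂ) / (p 0 : ℂ)) • X (J 0) := by
      rw [Algebra.smul_def, map_div₀, map_natCast, map_natCast]
    rw [e1]
    exact Submodule.smul_mem _ _ (Submodule.subset_span (hXs _))
  have hdm : dm F ((φ v)⁻¹ ::ₘ toM u) = dm ℂ (toM u + (φ v ::ₘ toM fun j => φ (r j))) := by
    rw [hF, dm_over, Multiset.cons_add]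
    unfold dm
    rw [gen_inv, Multiset.add_cons]
  rw [hdm] at hp
  obtain ⟨Q', hQ', hle⟩ := replace_pencils' hy hn hi (toM u) (φ v ::ₘ toM fun j => φ (r j))
    (by rw [Multiset.card_add, Multiset.card_cons, toM_card, toM_card]; ring) (fun z hz => by
      obtain ⟨b, rfl⟩ := mem_toM.1 hz
      exact pencil_span hj (hus b))
  rw [toM_card] at hQ'
  refine ⟨Q', hQ', hp.trans (hle.trans (le_of_eq ?_))⟩
  congr 1
  rw [Multiset.add_cons, add_comm Q']

end

end Pool.Agent.T2h12
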