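import Pool.Agent.T2h12.NM3
import Pool.Agent.T2h12.WBB

/-!
Uniform lower bounds for the images of the quotients of sections.
-/

set_option autoImplicit false
set_option linter.overlappingInstances false
set_option linter.unusedSectionVars false

open FF Module IntermediateField MvPolynomial Pool.Agent.W602.GT Pool.Agent.W603.LV
open Pool.Agent.Y172 Pool.Agent.Y191 Pool.Agent.R887 Pool.Agent.N110

namespace Pool.Agent.T2h12

section

variable {K : Type} [Field K] [Algebra ℂ K] {N p : ℕ} {y : Fin (N + 1) → K}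

/-- quotients of sections whose images under all maps in `Φ` have large degrees -/
def UL (y : Fin (N + 1) → K) (i : Fin (N + 1)) (n : ℕ) (c : Place ℂ K → ℤ)
    (Δ : Place ℂ K → ℚ) (Φ : Set (K →ₐ[ℂ] K)) (A : Place ℂ K → ℚ) (a : ℝ) : Prop :=
  ∀ t : ℝ, 0 < t → ∀ m₀ : ℕ, ∃ m b : ℕ, 1 ≤ m ∧ m₀ ≤ m ∧ (b : ℝ) ≤ t * m ∧
    ∀ φ ∈ Φ, ∃ g ∈ Lsp y c m (m • Δ + b • A), g ≠ 0 ∧ ∃ h ∈ Lsp y c m (m • Δ + b • A),
      ∃ W : Multiset K, W.card + 1 = n ∧ (∀ w ∈ W, w ∈ Submodule.span ℂ (affS y i)) ∧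
      a * m ≤ dm ℂ (φ (h / g) ::ₘ W)

theorem UL.mono {i : Fin (N + 1)} {n : ℕ} {c : Place ℂ K → ℤ} {Δ : Place ℂ K → ℚ}
    {Φ Φ' : Set (K →ₐ[ℂ] K)} {A : Place ℂ K → ℚ} {a a' : ℝ} (h : UL y i n c Δ Φ A a)
    (hΦ : Φ' ⊆ Φ) (ha : a' ≤ a) : UL y i n c Δ Φ' A a' := by
  intro t ht m₀
  obtain ⟨m, b, hm, hm0, hb, h1⟩ := h t ht m₀
  refine ⟨m, b, hm, hm0, hb, fun φ hφ => ?_⟩
  obtain ⟨g, hg, hg0, x, hx, W, hW, hWs, hd⟩ := h1 φ (hΦ hφ)
  exact ⟨g, hg, hg0, x, hx, W, hW, hWs,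
    (mul_le_mul_of_nonneg_right ha (Nat.cast_nonneg _)).trans hd⟩

/-- multiplication by a power of a function -/
theorem mul_norm {c : Place ℂ K → ℤ} {Δ A Hy : Place ℂ K → ℚ} {w : K} (hw : w ≠ 0) {d : ℕ}
    (hd : ∀ P, IsPrimeDivisor y P → A P ≤ P.ord w + d * Hy P) {m b : ℕ} {g : K}
    (hg : g ∈ Lsp y c m (m • Δ + b • A)) : w ^ b * g ∈ Lsp y c m (m • Δ + (b * d) • Hy) := by
  intro P hP
  by_cases hg0 : g = 0
  · left
    rw [hg0, mul_zero]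
  right
  have h1 := (hg P hP).resolve_left hg0
  rw [Pi.add_apply, Pi.smul_apply, Pi.smul_apply, nsmul_eq_mul, nsmul_eq_mul] at h1 ⊢
  rw [P.ord_mul (pow_ne_zero _ hw) hg0, P.ord_pow]
  have h2 := mul_le_mul_of_nonneg_left (hd P hP) (show (0 : ℚ) ≤ b from Nat.cast_nonneg _)
  push_cast
  nlinarith

theorem UL.norm {i : Fin (N + 1)} {n : ℕ} {c : Place ℂ K → ℤ} {Δ : Place ℂ K → ℚ}
    {Φ : Set (K →ₐ[ℂ] K)} {A Hy : Place ℂ K → ℚ} {a : ℝ} (h : UL y i n c Δ Φ A a)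
    (hy : NormalModel y) (hi : y i ≠ 0) (hA : Effective y A) (hHy : Effective y Hy)
    (hHP : ∀ P l, IsPrimeDivisor y P → Centred y l P → Hy P = P.ord (y i / y l)) :
    UL y i n c Δ Φ Hy a := by
  obtain ⟨w, d, hw, hd⟩ := dominate hy hA hi hHy hHP
  intro t ht m₀
  obtain ⟨m, b, hm, hm0, hb, h1⟩ := h (t / (d + 1)) (by positivity) m₀
  refine ⟨m, b * d, hm, hm0, ?_, fun φ hφ => ?_⟩
  · push_cast
    have e1 : (b : ℝ) * (d + 1) ≤ t * m := by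
      rw [div_mul_eq_mul_div, le_div_iff₀ (by positivity)] at hb
      exact hb
    have e2 : (0 : ℝ) ≤ b := Nat.cast_nonneg _
    nlinarith
  · obtain ⟨g, hg, hg0, x, hx, W, hW, hWs, hle⟩ := h1 φ hφ
    refine ⟨w ^ b * g, mul_norm hw hd hg, mul_ne_zero (pow_ne_zero _ hw) hg0,
      w ^ b * x, mul_norm hw hd hx, W, hW, hWs, ?_⟩
    rw [mul_div_mul_left _ _ (pow_ne_zero _ hw)]
    exact hle

theorem UL.insert (hn : Algebra.trdeg ℂ K = (p + 1 : ℕ)) {i : Fin (N + 1)}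
    {c : Place ℂ K → ℤ} {Δ : Place ℂ K → ℚ}
    {Φ : Set (K →ₐ[ℂ] K)} {A : Place ℂ K → ℚ} (hA : Effective y A) {a : ℝ}
    (h : UL y i (p + 1) c Δ Φ A a)
    {ψ : K →ₐ[ℂ] K} (h' : UL y i (p + 1) c Δ {ψ} A a) :
    UL y i (p + 1) c Δ (insert ψ Φ) A a := by
  intro t ht m₀
  obtain ⟨m1, b1, hm1, hm10, hb1, h1⟩ := h (t / 2) (by positivity) m₀
  obtain ⟨m2, b2, hm2, -, hb2, h2⟩ := h' (t / 2) (by positivity) 1
  have hm1r : (0 : ℝ) < m1 := by exact_mod_cast hm1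
  have hm2r : (0 : ℝ) < m2 := by exact_mod_cast hm2
  have hpow : ∀ {z : K} {W : Multiset K} {k : ℕ}, W.card + 1 = p + 1 → 1 ≤ k →
      (k : ℝ) * dm ℂ (z ::ₘ W) ≤ dm ℂ (z ^ k ::ₘ W) := by
    intro z W k hW hk
    exact_mod_cast dm_pow hn hW hk
  refine ⟨m1 * m2, b1 * m2 + b2 * m1, Nat.mul_pos hm1 hm2, ?_, ?_, ?_⟩
  · calc m₀ ≤ m1 * 1 := by omega
      _ ≤ m1 * m2 := Nat.mul_le_mul_left _ hm2
  · push_cast
    have e1 := mul_le_mul_of_nonneg_right hb1 hm2r.le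
    have e2 := mul_le_mul_of_nonneg_right hb2 hm1r.le
    nlinarith
  · have key : ∀ (φ : K →ₐ[ℂ] K) (m b k b' : ℕ), 1 ≤ k → b * k ≤ b' →
        (∃ g ∈ Lsp y c m (m • Δ + b • A), g ≠ 0 ∧ ∃ x ∈ Lsp y c m (m • Δ + b • A),
          ∃ W : Multiset K, W.card + 1 = p + 1 ∧
            (∀ w ∈ W, w ∈ Submodule.span ℂ (affS y i)) ∧ a * m ≤ dm ℂ (φ (x / g) ::ₘ W)) →
        ∃ g ∈ Lsp y c (m * k) ((m * k) • Δ + b' • A), g ≠ 0 ∧
          ∃ x ∈ Lsp y c (m * k) ((m * k) • Δ + b' • A),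
          ∃ W : Multiset K, W.card + 1 = p + 1 ∧
            (∀ w ∈ W, w ∈ Submodule.span ℂ (affS y i)) ∧
            a * (m * k : ℕ) ≤ dm ℂ (φ (x / g) ::ₘ W) := by
      rintro φ m b k b' hk hbb ⟨g, hg, hg0, x, hx, W, hW, hWs, hle⟩
      refine ⟨g ^ k, Lsp_mono hbb hA.1 (fun _ _ => le_rfl) (pow_Lsp hg hk), pow_ne_zero _ hg0,
        x ^ k, Lsp_mono hbb hA.1 (fun _ _ => le_rfl) (pow_Lsp hx hk), W, hW, hWs, ?_⟩
      rw [← div_pow, map_pow]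
      refine le_trans ?_ (hpow hW hk)
      push_cast
      calc a * (m * k) = k * (a * m) := by ring
        _ ≤ _ := mul_le_mul_of_nonneg_left hle (Nat.cast_nonneg _)
    intro φ hφ
    rcases Set.mem_insert_iff.1 hφ with h0 | h0
    · have h3 := key φ m2 b2 m1 (b1 * m2 + b2 * m1) hm1 (Nat.le_add_left _ _)
        (h2 φ (by rw [h0]; rfl))
      rw [mul_comm m2 m1] at h3
      exact h3
    · exact key φ m1 b1 m2 (b1 * m2 + b2 * m1) hm2 (Nat.le_add_right _ _) (h1 φ h0)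

theorem UL.finite (hn : Algebra.trdeg ℂ K = (p + 1 : ℕ)) {i : Fin (N + 1)}
    {c : Place ℂ K → ℤ} {Δ : Place ℂ K → ℚ}
    {Φ : Set (K →ₐ[ℂ] K)} (hΦ : Φ.Finite) {A : Place ℂ K → ℚ} (hA : Effective y A) {a : ℝ}
    (h : ∀ φ ∈ Φ, UL y i (p + 1) c Δ {φ} A a) : UL y i (p + 1) c Δ Φ A a := by
  induction Φ, hΦ using Set.Finite.induction_on with
  | empty =>
    intro t ht m₀
    refine ⟨m₀ + 1, 0, by omega, by omega, ?_, by simp⟩
    rw [Nat.cast_zero]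
    positivity
  | insert _ _ ih =>
    exact UL.insert hn hA (ih fun φ hφ => h φ (Set.mem_insert_of_mem _ hφ))
      (h _ (Set.mem_insert _ _))

/-- the asymptotic degree of the identity is positive -/
theorem eD_pos (hy : NormalModel y) (hn : Algebra.trdeg ℂ K = (p + 1 : ℕ)) {i : Fin (N + 1)}
    (hi : y i ≠ 0) {Δ : Place ℂ K → ℚ} (hΔ : Effective y Δ)
    {E : Fin (p + 1) → Derivation ℂ K K} (hfr : IsFrame E) {c : Place ℂ K → ℤ}
    (hcfin : {P | IsPrimeDivisor y P ∧ c P ≠ 0}.Finite) (hc : IsDisc y E c)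
    (hnum : ¬ NumDimLt y (p + 1) Δ 1) : 0 < eD y i (p + 1) c Δ 1 := by
  classical
  by_contra hcon
  apply hnum
  intro A hA ε hε
  obtain ⟨t, ht, m₀, h⟩ := BUp_of_lt hy hn hi hcfin hΔ.2 (φ := 1) (ε := ε) (by linarith) A hA
  refine ⟨t, ht, max m₀ 1, fun m b hm hb u hu ω E' hω hω0 => ?_⟩
  have hm0 : m₀ ≤ m := (le_max_left _ _).trans hm
  have hm1 : 1 ≤ m := (le_max_right _ _).trans hm
  have hω0E : ω 0 E ≠ 0 := (Pool.Agent.N110.ratio_frame hfr (hω 0).1 (hω 0).1 hω0).1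
  have hmem : ∀ j, ω j E ∈ Lsp y c m (m • Δ + b • A) := fun j =>
    (isSection_iff hc (hω j).1).1 (hω j)
  have e1 : (fun j : Fin 1 => ω j.succ E' / ω 0 E') = fun j : Fin 1 => ω j.succ E / ω 0 E := by
    funext j
    exact (Pool.Agent.N110.ratio_frame hfr (hω 0).1 (hω j.succ).1 hω0).2
  rw [e1]
  have e2 : degreeOver u (fun j : Fin 1 => ω j.succ E / ω 0 E) =
      dm ℂ (toM u + toM (fun j : Fin 1 => ω j.succ E / ω 0 E)) :=
    deg_dm (toM_set _) (toM_set _)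
  obtain ⟨Q', hQ', e3⟩ := replace_pencils' hy hn hi (toM u)
    (toM (fun j : Fin 1 => ω j.succ E / ω 0 E))
    (by rw [Multiset.card_add, toM_card, toM_card]; omega) (fun z hz => by
      obtain ⟨j, rfl⟩ := mem_toM.1 hz
      exact hu j)
  rw [toM_card, sel_rep] at hQ'
  have e4 : toM (fun j : Fin 1 => ω j.succ E / ω 0 E) = {ω 1 E / ω 0 E} := by
    rfl
  rw [e4] at e3
  have e5 := h m b hm1 hm0 hb _ (hmem 0) hω0E _ (hmem 1) Q' (by rw [hQ'.1]; omega)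
    (fun w hw => hQ'.2 w hw)
  rw [e2, e4, pow_one]
  refine le_trans ?_ e5
  have e6 : Q' + {ω 1 E / ω 0 E} = (1 : K →ₐ[ℂ] K) (ω 1 E / ω 0 E) ::ₘ Q' := by
    rw [AlgHom.one_apply, add_comm, Multiset.singleton_add]
  rw [← e6]
  exact_mod_cast e3

/-- **The uniform lower bounds.** -/
theorem exists_UL (hy : NormalModel y) (hn : Algebra.trdeg ℂ K = (p + 1 : ℕ)) {i : Fin (N + 1)}
    (hi : y i ≠ 0) {Δ : Place ℂ K → ℚ} (hΔ : Effective y Δ) (hklt : Klt y (p + 1) Δ)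
    {x : Fin (p + 1) → K} {E : Fin (p + 1) → Derivation ℂ K K} (hx : IsTranscendenceBasis ℂ x)
    (hE : ∀ i j, E i (x j) = if i = j then 1 else 0) (hfr : IsFrame E) {c : Place ℂ K → ℤ}
    (hcfin : {P | IsPrimeDivisor y P ∧ c P ≠ 0}.Finite) (hc : IsDisc y E c)
    (hnum : ¬ NumDimLt y (p + 1) Δ 1) {Hy : Place ℂ K → ℚ} (hHy : Effective y Hy)
    (hHP : ∀ P l, IsPrimeDivisor y P → Centred y l P → Hy P = P.ord (y i / y l)) :
    ∃ a : ℝ, 0 < a ∧ ∀ Φ : Set (K →ₐ[ℂ] K), Φ.Finite → (∀ φ ∈ Φ, JPulls y c Δ x E φ) →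
      UL y i (p + 1) c Δ Φ Hy a := by
  classical
  have hpos := eD_pos hy hn hi hΔ hfr hcfin hc hnum
  by_cases hcase : ∃ φ₀, JPulls y c Δ x E φ₀ ∧ eD y i (p + 1) c Δ φ₀ < eD y i (p + 1) c Δ 1
  swap
  · push Not at hcase
    refine ⟨eD y i (p + 1) c Δ 1 / 2, by positivity, fun Φ hΦ hJ => ?_⟩
    refine UL.finite hn hΦ hHy fun φ hφ => ?_
    have h1 : ¬ BUp y i (p + 1) c Δ φ (eD y i (p + 1) c Δ 1 / 2) := not_BUp (by positivity) (by
      have := hcase φ (hJ φ hφ)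
      linarith)
    unfold BUp DLe at h1
    push Not at h1
    obtain ⟨A, hA, h2⟩ := h1
    refine UL.norm (A := A) ?_ hy hi hA hHy hHP
    intro t ht m₀
    obtain ⟨m, b, hm, hm0, hb, g, hg, hg0, z, hz, W, hW, hWs, hlt⟩ := h2 t ht m₀
    refine ⟨m, b, hm, hm0, hb, fun φ' hφ' => ?_⟩
    rw [Set.mem_singleton_iff] at hφ'
    subst hφ'
    exact ⟨g, hg, hg0, z, hz, W, hW, hWs, hlt.le⟩
  · obtain ⟨φ₀, hφ₀, hlt⟩ := hcase
    obtain ⟨A, hA, c₁, hc₁, l, P, C₀, hPd, htriv, hl, hseq⟩ :=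
      drop_main hy hn hi hΔ hx hE hfr hcfin hc hφ₀ hlt
    have hsec : SecAt y c Δ P := by
      refine ⟨A, hA, C₀, fun t ht => ?_⟩
      obtain ⟨k, -, hk1, b, hb, u, hu, -, -, hu0, -, -, hC⟩ := hseq t ht 0
      exact ⟨k, b, hk1, hb, u, hu, hu0, hC⟩
    obtain ⟨C, hC1, hC⟩ := word_boundB (κ := 0) hy hn hΔ hklt hx hE hfr hcfin hc
      (r := Fin.elim0) (by
        rw [algebraicIndependent_empty_type_iff]
        exact (algebraMap ℂ K).injective) hsec hPd htriv hl hi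
    refine ⟨c₁ / (2 * C), by positivity, fun Φ _ hJ => ?_⟩
    refine UL.norm (A := A) ?_ hy hi hA hHy hHP
    intro t ht m₀
    obtain ⟨k0, hk0⟩ := exists_nat_gt (2 * C / c₁)
    obtain ⟨k, hk, hk1, b, hb, u, hu, u', hu', hu0, hu'0, hord, -⟩ := hseq t ht (max m₀ k0)
    refine ⟨k, b, hk1, (le_max_left _ _).trans hk, hb, fun φ hφ => ?_⟩
    have hkr : (2 : ℝ) * C / c₁ < k := by
      have : (k0 : ℝ) ≤ k := by exact_mod_cast (le_max_right m₀ k0).trans hk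
      linarith
    have hCr : (0 : ℝ) < C := by exact_mod_cast hC1
    have hk2 : (2 : ℝ) * C ≤ c₁ * k := by
      rw [div_lt_iff₀ hc₁] at hkr
      linarith
    obtain ⟨T, hT⟩ : ∃ T : ℕ, T = ⌊c₁ * k / C⌋₊ := ⟨_, rfl⟩
    have h2 : (2 : ℝ) ≤ c₁ * k / C := by
      rw [le_div_iff₀ hCr]
      exact hk2
    have hT1 : 1 ≤ T := by
      rw [hT]
      exact Nat.le_floor (by push_cast; linarith)
    have hT2 : (T : ℝ) ≤ c₁ * k / C := by
      rw [hT]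
      exact Nat.floor_le (by linarith)
    have hT3 : c₁ * k / C < T + 1 := by
      rw [hT]
      exact Nat.lt_floor_add_one _
    obtain ⟨Q', hQ', hle⟩ := hC φ (hJ φ hφ) (u / u') T hT1 (by
      have e1 : P.ord (u / u') = -P.ord (u' / u) := by
        rw [← P.ord_inv, inv_div]
      rw [e1, neg_neg]
      have e2 : ((T * C : ℕ) : ℝ) ≤ ((P.ord (u' / u) : ℤ) : ℝ) := by
        refine le_trans ?_ hord
        rw [le_div_iff₀ hCr] at hT2
        push_cast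
        exact hT2
      exact_mod_cast e2)
    rw [sel_rep] at hQ'
    refine ⟨u', hu', hu'0, u, hu, Q', by rw [hQ'.1], fun w hw => hQ'.2 w hw, ?_⟩
    have e3 : (toM fun j => φ ((Fin.elim0 : Fin 0 → K) j)) = 0 := by
      rfl
    rw [e3, zero_add] at hle
    have e4 : (T : ℝ) ≤ dm ℂ (φ (u / u') ::ₘ Q') := by exact_mod_cast hle
    refine le_trans ?_ e4
    have e5 : c₁ / (2 * C) * k = c₁ * k / C / 2 := by
      field_simp
    rw [e5]
    linarith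

end

end Pool.Agent.T2h12
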