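import Pool.Agent.T2h12.NP2
import Pool.Agent.T2h12.RFin

/-!
The system for the words in a finite set of self-maps which preserve a klt pair of numerical
dimension at least one.
-/

set_option autoImplicit false
set_option linter.overlappingInstances false
set_option linter.unusedSectionVars false

open FF Module MvPolynomial Pool.Agent.W602.GT Pool.Agent.W603.LV
open Pool.Agent.Y172 Pool.Agent.Y191 Pool.Agent.R887 Pool.Agent.N110

namespace Pool.Agent.T2h12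

section

variable {K : Type} [Field K] [Algebra ℂ K] {N n p : ℕ} {y : Fin (N + 1) → K}

/-- the lower bounds for the classes -/
theorem UL.class (hy : NormalModel y) (hn : Algebra.trdeg ℂ K = (p + 1 : ℕ)) {i : Fin (N + 1)}
    (hi : y i ≠ 0) {Δ : Place ℂ K → ℚ} {c : Place ℂ K → ℤ} {Hy : Place ℂ K → ℚ}
    (hHy : Effective y Hy)
    (hHP : ∀ P l, IsPrimeDivisor y P → Centred y l P → Hy P = P.ord (y i / y l))
    {M : ℕ → ℕ → K → Cls ℂ (affS y i)} (hM : MFam y i c Δ (Hy + Hy) M)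
    {Φ : Set (K →ₐ[ℂ] K)} (hne : Φ.Nonempty) {a : ℝ} (h : UL y i (p + 1) c Δ Φ Hy a)
    {t : ℝ} (ht : 0 < t) (m₀ : ℕ) :
    ∃ k, m₀ ≤ k ∧ ∃ (b : ℕ) (G : K), OkG y i c Δ (Hy + Hy) k b G ∧ (b : ℝ) ≤ t * k ∧
      ∀ φ ∈ Φ, a * (k : ℝ) ≤ I (eCls hy hn hi φ (M k b G) ::ₘ
        Multiset.replicate p (hcls hy hi)) := by
  classical
  have cx := ctx hy hn hi
  obtain ⟨k0, hk0⟩ := exists_nat_gt (2 / t)
  obtain ⟨k, b, hk1, hk, hb, h1⟩ := h (t / 2) (by positivity) (max m₀ k0)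
  obtain ⟨φ₀, hφ₀⟩ := hne
  obtain ⟨G, hG, hG0, -⟩ := h1 φ₀ hφ₀
  have hok : OkG y i c Δ (Hy + Hy) k (b + 1) G :=
    ⟨hk1, by omega, hG0, fun l => mul_hyp hy hHy hHy hHP hi hG l⟩
  refine ⟨k, (le_max_left _ _).trans hk, b + 1, G, hok, ?_, fun φ hφ => ?_⟩
  · have h2 : (k0 : ℝ) ≤ k := by exact_mod_cast (le_max_right m₀ k0).trans hk
    have h3 : 2 / t < k := lt_of_lt_of_le hk0 h2
    rw [div_lt_iff₀ ht] at h3
    push_cast
    nlinarith
  · obtain ⟨g, hg, hg0, z, hz, W, hW, hWs, hle⟩ := h1 φ hφ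
    have hokg : OkG y i c Δ (Hy + Hy) k (b + 1) g :=
      ⟨hk1, by omega, hg0, fun l => mul_hyp hy hHy hHy hHP hi hg l⟩
    have hzg : z / g ∈ (M k (b + 1) g).V := by
      rw [hM.mem k (b + 1) g hokg, mul_div_cancel₀ _ hg0]
      refine Lsp_mono (Nat.le_succ _) hHy.1 (fun P hP => ?_) hz
      have := hHy.1 P hP
      change Hy P ≤ Hy P + Hy P
      linarith
    have h2 := le_I cx (s := eCls hy hn hi φ (M k (b + 1) g) ::ₘ
      Multiset.replicate p (hcls hy hi))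
      (by rw [Multiset.card_cons, Multiset.card_replicate])
      (sel_cons (eCls_mem hzg) (sel_rep.2 ⟨by omega, fun w hw => hWs w hw⟩))
    have h3 : I (eCls hy hn hi φ (M k (b + 1) g) ::ₘ Multiset.replicate p (hcls hy hi)) ≤
        I (eCls hy hn hi φ (M k (b + 1) G) ::ₘ Multiset.replicate p (hcls hy hi)) := by
      refine I_mono cx (g := φ (g / G)) ?_ ?_ (by rw [Multiset.card_replicate])
      · rw [Ne, map_eq_zero]
        exact div_ne_zero hg0 hG0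
      · rintro _ ⟨v, hv, rfl⟩
        refine ⟨g / G * v, ?_, map_mul φ (g / G) v⟩
        have h4 := (hM.mem k (b + 1) g hokg v).1 hv
        have h5 : G * (g / G * v) = g * v := by
          field_simp
        exact (hM.mem k (b + 1) G hok _).2 (by rw [h5]; exact h4)
    exact hle.trans (by exact_mod_cast h2.trans h3)

/-- **The system for the words in a finite set of self-maps of a klt pair of positive numerical
dimension.** -/
theorem hasC_kltN (hy : NormalModel y) (hn : Algebra.trdeg ℂ K = n) {i : Fin (N + 1)}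
    (hi : y i ≠ 0) {Δ : Place ℂ K → ℚ}
    (hΔ : Effective y Δ) (hklt : Klt y n Δ) {S : Set (K →ₐ[ℂ] K)} (hS : S.Finite)
    (h1 : ∀ φ ∈ S, SelfPullLe φ y n Δ) (hn1 : 1 ≤ n)
    (hnum : ¬ NumDimLt y n Δ 1) : HasC hy hn hi S 1 := by
  classical
  obtain ⟨p, hp⟩ : ∃ p, n = p + 1 := ⟨n - 1, by omega⟩
  subst hp
  have hess := hy.ess
  obtain ⟨x, E, hx, hE⟩ := exists_crd hn (k := ℂ) (K := K)
  have hfr : IsFrame E := fun F => ⟨fun j => F (x j),
    (Pool.Agent.W73.PG.PULL.expand x hx E hE F).symm⟩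
  obtain ⟨c, hcfin, hc⟩ := exists_ordc hy hn hx hE
  have hc' : IsDisc y E c := hc
  obtain ⟨Hy, hHy, hHP⟩ := exists_hyp hy hi
  obtain ⟨a, ha, hUL⟩ := exists_UL hy hn hi hΔ hklt hx hE hfr hcfin hc' hnum hHy hHP
  have hA₀ : Effective y (Hy + Hy) := eff_add hHy hHy
  obtain ⟨M, hM⟩ := exists_MFam hy hi hcfin hΔ.2 hA₀
  have hJ1 : ∀ φ ∈ S, JPulls y c Δ x E φ := fun φ hφ => jpulls_of hy hn (h1 φ hφ) hx hE hfr hc'
  have hJ : ∀ w : List (K →ₐ[ℂ] K), (∀ φ ∈ w, φ ∈ S) → JPulls y c Δ x E w.prod := fun w hw =>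
    JPulls.word hess hn hx hE hJ1 w hw
  refine hasC_wordG hy hn (by omega) hΔ.2 hx hE hfr hcfin hi hA₀ hM hS hJ1 (by omega) ha ?_
  intro L t ht k0
  have hfin := (words_finite hS L).image List.prod
  obtain ⟨k, hk, b, G, hok, hb, h2⟩ := UL.class hy hn hi hHy hHP hM
    (Φ := List.prod '' {w : List (K →ₐ[ℂ] K) | w.length ≤ L ∧ ∀ φ ∈ w, φ ∈ S})
    ⟨_, [], ⟨by simp, by simp⟩, rfl⟩ (hUL _ hfin (by
      rintro _ ⟨w, ⟨-, hw⟩, rfl⟩
      exact hJ w hw)) ht k0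
  refine ⟨k, hk, b, G, hok, hb, fun w hw hwS => ?_⟩
  have h3 := h2 w.prod ⟨w, ⟨hw, hwS⟩, rfl⟩
  rw [pow_one, Multiset.replicate_one, Multiset.singleton_add]
  exact h3

end

end Pool.Agent.T2h12
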