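import Pool.Agent.T2h12.NP3
import Pool.Agent.T2h12.Gen
import Pool.Agent.T2h12.Comm

/-!
Commuting self-maps of klt pairs of positive numerical dimension.
-/

set_option autoImplicit false
set_option linter.overlappingInstances false
set_option linter.unusedSectionVars false

open Filter Topology FF Module
open Pool.Agent.W602.GT Pool.Agent.W603.LV Pool.Agent.Y172 Pool.Agent.Y191 Pool.Agent.R887
open Pool.Agent.N110.RK Pool.Agent.N110.SE Pool.Agent.N110 Pool.Agent.W619.PQ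

namespace Pool.Agent.T2h12

section

variable {K : Type} [Field K] [Algebra ℂ K] {N n : ℕ} {y : Fin (N + 1) → K}

/-- **The rank of commuting self-maps of a klt pair of positive numerical dimension.** -/
theorem comm_N (hy : NormalModel y) (hn : Algebra.trdeg ℂ K = n) (hn1 : 1 ≤ n)
    {Δ : Place ℂ K → ℚ} (hΔ : Effective y Δ) (hklt : Klt y n Δ) {r s : ℕ}
    {φ : (Fin r → ℕ) → (K →ₐ[ℂ] K)} (hφ : ∀ u v, φ (u + v) = φ u * φ v)
    (hP : ∀ v, SelfPullLe (φ v) y n Δ) (hrank : CorrRankGe φ y n s)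
    (hnum : ¬ NumDimLt y n Δ 1) : s + 1 ≤ n := by
  classical
  obtain ⟨i, hi⟩ := hy.ne
  obtain ⟨p, hp⟩ : ∃ p, n = p + 1 := ⟨n - 1, by omega⟩
  subst hp
  have hess := hy.ess
  have cx := ctx hy hn hi
  obtain ⟨x, E, hx, hE⟩ := exists_crd hn (k := ℂ) (K := K)
  have hfr : IsFrame E := fun F => ⟨fun j => F (x j),
    (Pool.Agent.W73.PG.PULL.expand x hx E hE F).symm⟩
  obtain ⟨c, hcfin, hc⟩ := exists_ordc hy hn hx hE
  have hc' : IsDisc y E c := hc
  obtain ⟨Hy, hHy, hHP⟩ := exists_hyp hy hi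
  obtain ⟨ε, hε, hUL⟩ := exists_UL hy hn hi hΔ hklt hx hE hfr hcfin hc' hnum hHy hHP
  obtain ⟨A₀, hA₀d⟩ : ∃ A₀, A₀ = Hy + Hy := ⟨_, rfl⟩
  have hA₀ : Effective y A₀ := by rw [hA₀d]; exact eff_add hHy hHy
  obtain ⟨M₀, hM₀⟩ := exists_MFam hy hi hcfin hΔ.2 hA₀
  have hJ : ∀ v, JPulls y c Δ x E (φ v) := fun v => jpulls_of hy hn (hP v) hx hE hfr hc'
  -- the sequences
  have hseq : ∀ q : ℕ, ∃ (k b : ℕ) (G : K), q + 1 ≤ k ∧ OkG y i c Δ A₀ k b G ∧
      (b : ℝ) ≤ 1 / ((q : ℝ) + 1) * k ∧ ∀ u : Fin r → ℕ, (∀ j, u j ≤ q) →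
        ε * (k : ℝ) ≤ I (eCls hy hn hi (φ u) (M₀ k b G) ::ₘ
          Multiset.replicate p (hcls hy hi)) := by
    intro q
    have hfin : {u : Fin r → ℕ | ∀ j, u j ≤ q}.Finite := by
      refine (Set.finite_Iic (fun _ : Fin r => q)).subset ?_
      intro u hu j
      exact hu j
    have hM₀' : MFam y i c Δ (Hy + Hy) M₀ := by rw [← hA₀d]; exact hM₀
    obtain ⟨k, hk, b, G, hok, hb, h2⟩ := UL.class hy hn hi hHy hHP hM₀'
      (Φ := φ '' {u : Fin r → ℕ | ∀ j, u j ≤ q}) ⟨_, 0, fun _ => Nat.zero_le _, rfl⟩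
      (hUL _ (hfin.image _) (by
        rintro _ ⟨u, -, rfl⟩
        exact hJ u)) (t := 1 / ((q : ℝ) + 1)) (by positivity) (q + 1)
    refine ⟨k, b, G, hk, by rw [hA₀d]; exact hok, hb, fun u hu => h2 _ ⟨u, hu, rfl⟩⟩
  choose k b G hk hok hbt heps using hseq
  have hk1 : ∀ q, 1 ≤ k q := fun q => by have := hk q; omega
  have hG0 : ∀ q, G q ≠ 0 := fun q => (hok q).2.2.1
  have hbk : ∀ q, b q * (q + 1) ≤ k q := by
    intro q
    have h1 := hbt q
    rw [one_div, inv_mul_eq_div, le_div_iff₀ (by positivity)] at h1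
    exact_mod_cast h1
  have hmem : ∀ A : EffT y, ∀ q l, G q * (y l / y i) ∈
      Lsp y c (k q) (k q • Δ + b q • (A₀ + A.A)) := by
    intro A q l
    refine Lsp_mono le_rfl hA₀.1 (fun P hP => ?_) ((hok q).2.2.2 l)
    have := A.eff.1 P hP
    change A₀ P ≤ A₀ P + A.A P
    linarith
  obtain ⟨M, hMV⟩ : ∃ M : EffT y → ℕ → Cls ℂ (affS y i), ∀ A q,
      M A q = secCls hy hi hcfin hΔ.2 (Effective.add' hA₀ A.eff) (k q) (b q) (hG0 q)
        (hmem A q) := ⟨_, fun _ _ => rfl⟩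
  have hMmem : ∀ A q v, v ∈ (M A q).V ↔
      G q * v ∈ Lsp y c (k q) (k q • Δ + b q • (A₀ + A.A)) := by
    intro A q v
    rw [hMV]
    rfl
  have hBM : ∀ A q v, v ∈ (M₀ (k q) (b q) (G q)).V → v ∈ (M A q).V := by
    intro A q v hv
    rw [hMmem]
    have h2 := (hM₀.mem _ _ _ (hok q) v).1 hv
    refine Lsp_mono le_rfl hA₀.1 (fun P hP => ?_) h2
    have := A.eff.1 P hP
    change A₀ P ≤ A₀ P + A.A P
    linarith
  obtain ⟨β, f, hf, hdom⟩ := dom_sections hy hi hcfin hΔ.2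
  have hGS : GSys hy hn hi k M ((β : ℝ) + 1) := by
    refine ⟨by positivity, hk1, fun q => by have := hk q; omega, fun A => ?_⟩
    obtain ⟨βA, gA, hgA, hdomA⟩ := hdom (A₀ + A.A) (Effective.add' hA₀ A.eff)
    filter_upwards [Filter.eventually_ge_atTop βA] with q hq
    intro ψ s hs
    have e1 := I_dom_emap hy hn hi ψ (V := M A q)
      (B := k q * β + b q * βA) (f := f ^ k q * gA ^ b q * G q)
      (mul_ne_zero (mul_ne_zero (pow_ne_zero _ hf) (pow_ne_zero _ hgA)) (hG0 q))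
      (fun v hv => by
        rw [mul_assoc (f ^ k q * gA ^ b q)]
        exact hdomA (k q) (b q) _ ((hMmem A q v).1 hv)) hs
    have e2 : ((k q * β + b q * βA : ℕ) : ℝ) ≤ ((β : ℝ) + 1) * k q := by
      have e3 : k q * β + b q * βA ≤ (β + 1) * k q := by
        have e4 : b q * βA ≤ k q :=
          (Nat.mul_le_mul_left _ (by omega : βA ≤ q + 1)).trans (hbk q)
        nlinarith
      exact_mod_cast e3
    calc ((I (eCls hy hn hi ψ (M A q) ::ₘ s) : ℕ) : ℝ) ≤
          ((k q * β + b q * βA : ℕ) : ℝ) *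
          (I (eCls hy hn hi ψ (hcls hy hi) ::ₘ s) : ℝ) := by exact_mod_cast e1
      _ ≤ ((β : ℝ) + 1) * k q * (I (eCls hy hn hi ψ (hcls hy hi) ::ₘ s) : ℝ) :=
        mul_le_mul_of_nonneg_right e2 (Nat.cast_nonneg _)
  have hpull : ∀ v, PullG hy hn hi M (φ v) := by
    intro v A
    obtain ⟨B, hB, hB1⟩ := hJ v (A₀ + A.A) (Effective.add' hA₀ A.eff)
    refine ⟨⟨B, hB⟩, fun q => ?_⟩
    refine LeA.of_mul (g := jac (φ v) x E ^ k q * (φ v) (G q) / G q)
      (div_ne_zero (mul_ne_zero (pow_ne_zero _ (jac_ne hess hn hx hE hfr (φ v)))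
        (by rw [Ne, map_eq_zero]; exact hG0 q)) (hG0 q)) ?_
    rintro _ ⟨v', hv', rfl⟩
    have hv'' := (hMmem A q v').1 hv'
    rw [hMmem]
    have e1 := hB1 (k q) (b q) (hk1 q) _ hv''
    have e2 : G q * (jac (φ v) x E ^ k q * (φ v) (G q) / G q * (φ v).toLinearMap v') =
        jac (φ v) x E ^ k q * (φ v) (G q * v') := by
      rw [map_mul]
      have := hG0 q
      change G q * (jac (φ v) x E ^ k q * (φ v) (G q) / G q * (φ v) v') = _
      field_simp
    rw [e2]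
    refine Lsp_mono le_rfl hB.1 (fun P hP => ?_) e1
    have := hA₀.1 P hP
    change B P ≤ A₀ P + B P
    linarith
  have hmono : ∀ A A' : EffT y, A ≤ A' → ∀ q, LeA hy hn hi 1 (M A q) (M A' q) := by
    intro A A' hAA q
    refine LeA.of_mul one_ne_zero fun v hv => ?_
    rw [one_mul]
    rw [hMmem] at hv ⊢
    refine Lsp_mono le_rfl (Effective.add' hA₀ A.eff).1 (fun P hP => ?_) hv
    have := hAA P hP
    change A₀ P + A.A P ≤ A₀ P + A'.A P
    linarith
  have hES := esys_gen hy hn (by omega) hi hGS hφ hpull hmono (ν := 1) (by omega) hε (by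
    intro u
    refine ⟨zeroE y, ?_⟩
    filter_upwards [Filter.eventually_ge_atTop (∑ j, u j)] with q hq
    have h1 := heps q u (fun j => (Finset.single_le_sum (f := u) (fun _ _ => Nat.zero_le _)
      (Finset.mem_univ j)).trans hq)
    rw [pow_one, Multiset.replicate_one, Multiset.singleton_add]
    refine h1.trans ?_
    refine Nat.cast_le.2 (I_mono cx (g := 1) one_ne_zero ?_ (by rw [Multiset.card_replicate]))
    rintro _ ⟨v, hv, rfl⟩
    rw [one_mul]
    exact ⟨v, hBM _ q v hv, rfl⟩)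
  haveI : Nonempty (EffT y) := ⟨zeroE y⟩
  obtain ⟨W, hW1, hW2⟩ := space_of_esys' hy hn (by omega) hi hES
  have := hrank W hW2
  omega

end

end Pool.Agent.T2h12
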