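import Pool.Agent.T2h12.Gen
import Pool.Agent.N110.QEps
import Pool.Agent.T2H06.DYL.PosL
import Pool.Agent.T2H06.DYR.GeoR

/-!
The systems of the multiples of `q D + H`, for a nef divisor `D`.
-/

set_option autoImplicit false
set_option linter.overlappingInstances false
set_option linter.unusedSectionVars false

open FF Module MvPolynomial Pool.Agent.W602.GT Pool.Agent.W603.LV
open Pool.Agent.Y172 Pool.Agent.Y191 Pool.Agent.R887 Pool.Agent.W619.PQ Pool.Agent.N110
open Pool.Agent.T2H06.DYL (IsDivisor IsSec LocalEquation Cartier Nef IitakaGe IitakaEq NumLt NumEq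
  PullLe sec_ge)

namespace Pool.Agent.T2h12

section

variable {K : Type} [Field K] [Algebra ℂ K] {N n : ℕ} {y : Fin (N + 1) → K}

theorem mem_Lsp0 {D : Place ℂ K → ℚ} {m : ℕ} {g : K} :
    g ∈ Lsp y 0 m D ↔ IsSec y D g := by
  constructor
  · intro h P hP
    refine (h P hP).imp_right fun h1 => ?_
    rw [Pi.zero_apply, Int.cast_zero, mul_zero, zero_add] at h1
    exact h1
  · intro h P hP
    refine (h P hP).imp_right fun h1 => ?_
    rw [Pi.zero_apply, Int.cast_zero, mul_zero, zero_add]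
    exact h1

/-- **The systems of the multiples of `q D + H`.** -/
theorem nef_seqL (hy : NormalModel y) (hn : Algebra.trdeg ℂ K = n) (hn0 : 0 < n)
    {D : Place ℂ K → ℚ} (hnef : Nef y n D) {i : Fin (N + 1)} (hi : y i ≠ 0)
    {Hy : Place ℂ K → ℚ} (hHy : Effective y Hy)
    (hHP : ∀ P l, IsPrimeDivisor y P → Centred y l P → Hy P = P.ord (y i / y l)) (q : ℕ)
    (hq : 1 ≤ q) : ∃ M : ℕ, 1 ≤ M ∧ ∃ σ : K, σ ≠ 0 ∧
      (∀ l, σ * (y l / y i) ∈ Lsp y 0 (M * q) ((M * q) • D + M • Hy)) ∧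
      ∀ Q, Divisorial n Q → ∃ g, GenAt y 0 (M * q) ((M * q) • D + M • Hy) Q g := by
  obtain ⟨m, hm, hgen⟩ := hnef i hi (2 * q) (by omega)
  have hm1 : (1 : ℚ) ≤ m := by exact_mod_cast hm
  -- the generators
  have key : ∀ Q, Divisorial n Q → ∃ g, GenAt y 0 (m * (2 * q)) ((m * (2 * q)) • D + m • Hy)
      Q g := by
    intro Q hQ
    obtain ⟨g, hg0, hg, hgg⟩ := hgen Q hQ
    refine ⟨g, hg0, fun P hP => ?_, fun P hP hT => ?_⟩
    · obtain ⟨l, hl⟩ := exists_centred hy P
      have h1 := hg P l hP hl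
      right
      rw [Pi.add_apply, Pi.smul_apply, Pi.smul_apply, nsmul_eq_mul, nsmul_eq_mul,
        hHP P l hP hl, Pi.zero_apply, Int.cast_zero, mul_zero, zero_add]
      push_cast at h1 ⊢
      linarith
    · obtain ⟨l, hl⟩ := exists_centred hy P
      have h1 := hgg P l hP hT hl
      rw [Pi.add_apply, Pi.smul_apply, Pi.smul_apply, nsmul_eq_mul, nsmul_eq_mul,
        hHP P l hP hl, Pi.zero_apply, Int.cast_zero, mul_zero, zero_add, h1]
      push_cast
      ring
  obtain ⟨Q0, hQ0⟩ := exists_divisorial hy hn hn0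
  obtain ⟨τ, hτ0, hτ, -⟩ := key Q0 hQ0
  refine ⟨2 * m, by omega, τ, hτ0, fun l => ?_, fun Q hQ => ?_⟩
  · intro P hP
    by_cases hl : y l = 0
    · left
      rw [hl, zero_div, mul_zero]
    right
    have h1 := (hτ P hP).resolve_left hτ0
    have h2 := (ord_coord hy hi hHP hP hl).1
    have h3 := hHy.1 P hP
    rw [Pi.add_apply, Pi.smul_apply, Pi.smul_apply, nsmul_eq_mul, nsmul_eq_mul] at h1 ⊢
    rw [P.ord_mul hτ0 (div_ne_zero hl hi)]
    push_cast at h1 h2 ⊢
    rw [Pi.zero_apply, Int.cast_zero, mul_zero] at h1 ⊢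
    nlinarith
  · obtain ⟨g, hg0, hg, hgQ⟩ := key Q hQ
    obtain ⟨l, hl⟩ := exists_centred hy Q
    have hli : y l / y i ≠ 0 := div_ne_zero hl.1 hi
    refine ⟨g * (y l / y i) ^ m, mul_ne_zero hg0 (pow_ne_zero _ hli), fun P hP => ?_,
      fun P hP hT => ?_⟩
    · right
      have h1 := (hg P hP).resolve_left hg0
      have h2 := (ord_coord hy hi hHP hP hl.1).1
      rw [Pi.add_apply, Pi.smul_apply, Pi.smul_apply, nsmul_eq_mul, nsmul_eq_mul] at h1 ⊢
      rw [P.ord_mul hg0 (pow_ne_zero _ hli), P.ord_pow]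
      push_cast at h1 h2 ⊢
      rw [Pi.zero_apply, Int.cast_zero, mul_zero] at h1 ⊢
      nlinarith
    · have h1 := hgQ P hP hT
      have h2 := (ord_coord hy hi hHP hP hl.1).2 (hT.centred hl)
      rw [Pi.add_apply, Pi.smul_apply, Pi.smul_apply, nsmul_eq_mul, nsmul_eq_mul] at h1 ⊢
      rw [P.ord_mul hg0 (pow_ne_zero _ hli), P.ord_pow]
      push_cast at h1 h2 ⊢
      rw [Pi.zero_apply, Int.cast_zero, mul_zero] at h1 ⊢
      rw [← h2]
      linarith

/-- **The lower bound from the numerical dimension.** -/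
theorem base_posL (hy : NormalModel y) (hn : Algebra.trdeg ℂ K = n) {i : Fin (N + 1)}
    (hi : y i ≠ 0) {D Hy : Place ℂ K → ℚ}
    (hHy : Effective y Hy)
    (hHP : ∀ P l, IsPrimeDivisor y P → Centred y l P → Hy P = P.ord (y i / y l)) {ν : ℕ}
    (hν : ν ≤ n) (hnum : ¬ NumLt y n D ν) : ∃ ε : ℝ, 0 < ε ∧ ∀ (q M : ℕ) (σ : K)
      (B : Cls ℂ (affS y i)), 1 ≤ q → NefSys y i n 0 D Hy q M σ B →
      ε * (M * q : ℕ) ^ ν ≤ I (Multiset.replicate ν B + Multiset.replicate (n - ν)
        (hcls hy hi)) := by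
  classical
  have cx := ctx hy hn hi
  unfold NumLt at hnum
  push Not at hnum
  obtain ⟨A0, hA0, ε, hε, hseq⟩ := hnum
  obtain ⟨f, s, hf, hfs⟩ := dominate hy hA0 hi hHy hHP
  refine ⟨ε, hε, fun q M σ B hq h => ?_⟩
  have hM := h.hM
  have hσ := h.hσ
  have hq0 : (0 : ℝ) < q := by exact_mod_cast hq
  obtain ⟨m, b, hm, hb, u, hu, g, hg, hg0, hlt⟩ := hseq (1 / (q * (s + 1)))
    (by positivity) 1
  have hbm : q * b * s ≤ m := by
    have h1 : (b : ℝ) * (q * (s + 1)) ≤ m := by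
      have h2 : (1 / ((q : ℝ) * (s + 1))) * m = m / (q * (s + 1)) := by ring
      rw [h2, le_div_iff₀ (by positivity)] at hb
      exact hb
    have h3 : (q * b * s : ℝ) ≤ m := by
      have h4 : (0 : ℝ) ≤ b := Nat.cast_nonneg _
      nlinarith [mul_nonneg h4 hq0.le]
    exact_mod_cast h3
  obtain ⟨k, hk⟩ : ∃ k, k = M * q := ⟨_, rfl⟩
  have hk1 : 1 ≤ k := by rw [hk]; exact Nat.mul_pos hM hq
  obtain ⟨h', hh'⟩ : ∃ h', h' = (f ^ b * g 0) ^ k / σ ^ m := ⟨_, rfl⟩
  have hfg0 : f ^ b * g 0 ≠ 0 := mul_ne_zero (pow_ne_zero _ hf) hg0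
  have hh0 : h' ≠ 0 := by
    rw [hh']
    exact div_ne_zero (pow_ne_zero _ hfg0) (pow_ne_zero _ hσ)
  have hdb : ∀ j, DBnd n ℂ (B.V : Set K) m (h' * (g j / g 0) ^ k) := by
    intro j Q hQ
    by_cases hj : g j = 0
    · refine ⟨1, B.one, one_ne_zero, ?_⟩
      rw [hj, zero_div, zero_pow (by omega), mul_zero, Q.ord_one, Q.ord_zero]
      simp
    obtain ⟨g', hg'⟩ := h.gen Q hQ
    have hmem : g' / σ ∈ B.V := by
      rw [h.mem, mul_div_cancel₀ _ hσ]
      exact hg'.2.1
    refine ⟨g' / σ, hmem, div_ne_zero hg'.1 hσ, ?_⟩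
    have e2 : h' * (g j / g 0) ^ k = (f ^ b * g j) ^ k / σ ^ m := by
      rw [hh', div_mul_eq_mul_div, ← mul_pow]
      congr 2
      field_simp
    have hfj : f ^ b * g j ≠ 0 := mul_ne_zero (pow_ne_zero _ hf) hj
    have i1 := ord_le_of_through hy (Q := Q) (f := (f ^ b * g j) ^ k) (g := g' ^ m)
      (pow_ne_zero _ hfj) (pow_ne_zero _ hg'.1) fun P hP hT => by
        have i1 := hg'.2.2 P hP hT
        have i2 := (hg j P hP).resolve_left hj
        have i3 := hfs P hP
        have i4 := hHy.1 P hP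
        rw [Pi.add_apply, Pi.smul_apply, Pi.smul_apply, nsmul_eq_mul, nsmul_eq_mul] at i1 i2
        rw [Pi.zero_apply, Int.cast_zero, mul_zero, zero_add] at i1
        rw [P.ord_pow, P.ord_pow, P.ord_mul (pow_ne_zero _ hf) hj, P.ord_pow]
        have hb0 : (0 : ℚ) ≤ b := Nat.cast_nonneg _
        have hk0 : (0 : ℚ) ≤ k := Nat.cast_nonneg _
        have hm0 : (0 : ℚ) ≤ m := Nat.cast_nonneg _
        have hM0 : (0 : ℚ) ≤ M := Nat.cast_nonneg _
        have hkq : (k : ℚ) = M * q := by rw [hk]; push_cast; ring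
        have i5 : (P.ord g' : ℚ) = -(M * q * D P + M * Hy P) := by
          push_cast at i1
          linarith
        have i6 := mul_le_mul_of_nonneg_left i3 hb0
        have i7 : -(m * D P) - b * s * Hy P ≤ (b * P.ord f + P.ord (g j) : ℚ) := by
          linarith
        have i8 := mul_le_mul_of_nonneg_left i7 hk0
        have i9 : (q * b * s : ℚ) ≤ m := by exact_mod_cast hbm
        have i10 := mul_le_mul_of_nonneg_right i9 (mul_nonneg hM0 i4)
        have i11 : (m * P.ord g' : ℚ) ≤ k * (b * P.ord f + P.ord (g j)) := by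
          refine le_trans ?_ i8
          rw [i5, hkq]
          nlinarith
        exact_mod_cast i11
    rw [e2, Q.ord_div (pow_ne_zero _ hfj) (pow_ne_zero _ hσ), Q.ord_pow σ, Q.ord_div hg'.1 hσ]
    rw [Q.ord_pow g'] at i1
    linarith
  obtain ⟨W', hW', hle⟩ := repl_many hn (B := B) hk1 hh0 (by
      have := hdb 0
      rwa [div_self hg0] at this) (toM fun j : Fin ν => g j.succ / g 0) (toM u)
    (by rw [Multiset.card_add, toM_card, toM_card]; omega) (fun w hw => by
      obtain ⟨j, rfl⟩ := mem_toM.1 hw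
      exact hdb j.succ)
  rw [toM_card] at hW' hle
  have hW'c : W'.card = ν := by rw [hW'.card, Multiset.card_replicate]
  obtain ⟨Q', hQ', hle'⟩ := replace_pencils' hy hn hi (toM u) W'
    (by rw [Multiset.card_add, toM_card, hW'c]; omega) (fun z hz => by
      obtain ⟨j, rfl⟩ := mem_toM.1 hz
      exact hu j)
  rw [toM_card] at hQ'
  have hcard : (Multiset.replicate ν B + Multiset.replicate (n - ν) (hcls hy hi)).card = n := by
    rw [Multiset.card_add, Multiset.card_replicate, Multiset.card_replicate]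
    omega
  have hle2 := le_I cx hcard (sel_add hW' hQ')
  have e3 : degreeOver u (fun j : Fin ν => g j.succ / g 0) =
      dm ℂ ((toM fun j : Fin ν => g j.succ / g 0) + toM u) :=
    (deg_dm (toM_set _) (toM_set _)).trans (congrArg (dm ℂ) (add_comm _ _))
  rw [e3] at hlt
  rw [add_comm W' Q'] at hle2
  rw [add_comm W' (toM u)] at hle
  have e4 : k ^ ν * dm ℂ ((toM fun j : Fin ν => g j.succ / g 0) + toM u) ≤
      m ^ ν * I (Multiset.replicate ν B + Multiset.replicate (n - ν) (hcls hy hi)) :=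
    hle.trans (Nat.mul_le_mul_left _ (hle'.trans hle2))
  have e5 : ((k : ℝ) ^ ν * dm ℂ ((toM fun j : Fin ν => g j.succ / g 0) + toM u)) ≤
      m ^ ν * I (Multiset.replicate ν B + Multiset.replicate (n - ν) (hcls hy hi)) := by
    exact_mod_cast e4
  have hm0 : (0 : ℝ) < m := by
    have : 0 < m := by omega
    exact_mod_cast this
  rw [← hk]
  have hk0 : (0 : ℝ) < k := by exact_mod_cast (by omega : 0 < k)
  have e6 : (m : ℝ) ^ ν * (ε * k ^ ν) ≤ (m : ℝ) ^ ν *
      I (Multiset.replicate ν B + Multiset.replicate (n - ν) (hcls hy hi)) := by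
    calc (m : ℝ) ^ ν * (ε * k ^ ν) = k ^ ν * (ε * m ^ ν) := by ring
      _ ≤ k ^ ν * dm ℂ ((toM fun j : Fin ν => g j.succ / g 0) + toM u) :=
        mul_le_mul_of_nonneg_left hlt.le (by positivity)
      _ ≤ _ := e5
  exact le_of_mul_le_mul_left e6 (by positivity)

end

end Pool.Agent.T2h12
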