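import Pool.Agent.T2h12.NefL

/-!
The system of spaces of sections of the multiples of a nef divisor `D`, and its pull back by
dominant rational self-maps.
-/

set_option autoImplicit false
set_option linter.overlappingInstances false
set_option linter.unusedSectionVars false

open Filter FF Module MvPolynomial Pool.Agent.W602.GT Pool.Agent.W603.LV
open Pool.Agent.Y172 Pool.Agent.Y191 Pool.Agent.R887 Pool.Agent.W619.PQ Pool.Agent.N110
open Pool.Agent.T2H06.DYL (IsDivisor IsSec LocalEquation Cartier Nef IitakaGe IitakaEq NumLt NumEq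
  PullLe sec_ge)

namespace Pool.Agent.T2h12

section

variable {K : Type} [Field K] [Algebra ℂ K] {N n : ℕ} {y : Fin (N + 1) → K}

theorem gen_shift (hy : NormalModel y) {i : Fin (N + 1)}
    (hi : y i ≠ 0) {D Hy : Place ℂ K → ℚ}
    (hHP : ∀ P l, IsPrimeDivisor y P → Centred y l P → Hy P = P.ord (y i / y l)) {m b : ℕ}
    {Q : Place ℂ K} {g : K} (h : GenAt y 0 m (m • D + b • Hy) Q g) (e : ℕ) :
    ∃ g', GenAt y 0 m (m • D + (b + e) • Hy) Q g' := by
  obtain ⟨hg0, hg, hgQ⟩ := h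
  obtain ⟨l, hl⟩ := exists_centred hy Q
  have hli : y l / y i ≠ 0 := div_ne_zero hl.1 hi
  refine ⟨g * (y l / y i) ^ e, mul_ne_zero hg0 (pow_ne_zero _ hli), fun P hP => ?_,
    fun P hP hT => ?_⟩
  · right
    have h1 := (hg P hP).resolve_left hg0
    have h2 := (ord_coord hy hi hHP hP hl.1).1
    rw [Pi.add_apply, Pi.smul_apply, Pi.smul_apply, nsmul_eq_mul, nsmul_eq_mul,
      Pi.zero_apply, Int.cast_zero, mul_zero, zero_add] at h1 ⊢
    rw [P.ord_mul hg0 (pow_ne_zero _ hli), P.ord_pow]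
    push_cast at h1 h2 ⊢
    have h3 := mul_le_mul_of_nonneg_left h2 (show (0 : ℚ) ≤ e from Nat.cast_nonneg e)
    linarith
  · have h1 := hgQ P hP hT
    have h2 := (ord_coord hy hi hHP hP hl.1).2 (hT.centred hl)
    rw [Pi.add_apply, Pi.smul_apply, Pi.smul_apply, nsmul_eq_mul, nsmul_eq_mul,
      Pi.zero_apply, Int.cast_zero, mul_zero, zero_add] at h1 ⊢
    rw [P.ord_mul hg0 (pow_ne_zero _ hli), P.ord_pow]
    push_cast at h1 h2 ⊢
    rw [← h2]
    linarith

/-- a place under a divisorial place, for an endomorphism -/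
theorem below_div (hess : Algebra.EssFiniteType ℂ K) (hn : Algebra.trdeg ℂ K = n)
    (φ : K →ₐ[ℂ] K) {Q : Place ℂ K} (hQ : Divisorial n Q) :
    ∃ (P : Place ℂ K) (e : ℕ), LiesOver φ Q P e ∧ Divisorial n P := by
  have key : ∀ {K' : Type} [Field K'] [Algebra ℂ K'] (hess' : Algebra.EssFiniteType ℂ K')
      (hn' : Algebra.trdeg ℂ K' = n) (ψ : K →ₐ[ℂ] K') (Q : Place ℂ K'), Divisorial n Q →
      ∃ (P : Place ℂ K) (e : ℕ), LiesOver ψ Q P e ∧ Divisorial n P := by
    intro K' _ _ hess' hn' ψ Q hQ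
    let _ : Algebra K K' := ψ.toRingHom.toAlgebra
    have hst : IsScalarTower ℂ K K' :=
      IsScalarTower.of_algebraMap_eq fun c => (ψ.commutes c).symm
    have hfd : FiniteDimensional K K' := finite_map hn hn'
    exact ⟨bel K Q, ram K Q, over_bel K Q, divisorial_down (over_bel K Q) hQ⟩
  exact key hess hn φ Q hQ

/-- the data of the system for a nef divisor -/
structure NefG (hy : NormalModel y) (hn : Algebra.trdeg ℂ K = n) {i : Fin (N + 1)}
    (hi : y i ≠ 0) (D : Place ℂ K → ℚ) (m : ℕ → ℕ) (M : ℕ → ℕ → Cls ℂ (affS y i))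
    (c : ℝ) : Prop where
  sys : GSys hy hn hi m M c
  pull : ∀ φ : K →ₐ[ℂ] K, PullLe y D φ 1 → PullG hy hn hi M φ
  mono : ∀ a a', a ≤ a' → ∀ q, LeA hy hn hi 1 (M a q) (M a' q)
  eps : ∀ ν, ν ≤ n → ¬ NumLt y n D ν → ∃ ε : ℝ, 0 < ε ∧ ∀ (ψ : K →ₐ[ℂ] K) (a : ℕ),
    ∀ᶠ q in atTop, ε * (m q : ℝ) ^ ν ≤ I (Multiset.replicate ν (eCls hy hn hi ψ (M a q)) +
      Multiset.replicate (n - ν) (hcls hy hi))
  zero : ∀ ν, ν + 1 ≤ n → NumLt y n D (ν + 1) → ∀ (a : ℕ) (δ : ℝ), 0 < δ →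
    ∀ᶠ q in atTop, (I (Multiset.replicate (ν + 1) (M a q) + Multiset.replicate (n - (ν + 1))
        (hcls hy hi)) : ℝ) ≤ δ * (m q : ℝ) ^ (ν + 1)

theorem exists_nefG (hy : NormalModel y) (hn : Algebra.trdeg ℂ K = n) (hn0 : 0 < n)
    {i : Fin (N + 1)} (hi : y i ≠ 0) {D : Place ℂ K → ℚ} (hD : IsDivisor y D)
    (hcar : Cartier y n D) (hnef : Nef y n D) :
    ∃ (m : ℕ → ℕ) (M : ℕ → ℕ → Cls ℂ (affS y i)) (c : ℝ), NefG hy hn hi D m M c := by
  classical
  have hess := hy.ess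
  have cx := ctx hy hn hi
  obtain ⟨Hy, hHy, hHP⟩ := exists_hyp hy hi
  have hc0 : {P : Place ℂ K | IsPrimeDivisor y P ∧ (0 : Place ℂ K → ℤ) P ≠ 0}.Finite :=
    Set.finite_empty.subset (by rintro P ⟨-, h⟩; exact h rfl)
  -- the base point free systems
  have hseq : ∀ q : ℕ, ∃ (M : ℕ) (σ : K), 1 ≤ q → (1 ≤ M ∧ σ ≠ 0 ∧
      (∀ l, σ * (y l / y i) ∈ Lsp y 0 (M * q) ((M * q) • D + M • Hy)) ∧
      ∀ Q, Divisorial n Q → ∃ g, GenAt y 0 (M * q) ((M * q) • D + M • Hy) Q g) := by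
    intro q
    by_cases hq : 1 ≤ q
    · obtain ⟨M, hM, σ, hσ, h2, h3⟩ := nef_seqL hy hn hn0 hnef hi hHy hHP q hq
      exact ⟨M, σ, fun _ => ⟨hM, hσ, h2, h3⟩⟩
    · exact ⟨0, 0, fun h => absurd h hq⟩
  choose Mq σ hMσ using hseq
  have hBex : ∀ q : ℕ, ∃ B : Cls ℂ (affS y i), 1 ≤ q →
      NefSys y i n 0 D Hy q (Mq q) (σ q) B := by
    intro q
    by_cases hq : 1 ≤ q
    · obtain ⟨hM, hσ, h2, h3⟩ := hMσ q hq
      refine ⟨secCls hy hi hc0 hD hHy (Mq q * q) (Mq q) hσ h2, fun _ => ⟨hM, hσ, fun v => ?_,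
        h3⟩⟩
      rfl
    · exact ⟨hcls hy hi, fun h => absurd h hq⟩
  choose B hB using hBex
  -- the spaces
  obtain ⟨m, hm⟩ : ∃ m : ℕ → ℕ, ∀ q, m q = Mq (q + 1) * (q + 1) := ⟨_, fun _ => rfl⟩
  obtain ⟨b, hb⟩ : ∃ b : ℕ → ℕ, ∀ q, b q = Mq (q + 1) := ⟨_, fun _ => rfl⟩
  obtain ⟨g0, hg0d⟩ : ∃ g0 : ℕ → K, ∀ q, g0 q = σ (q + 1) := ⟨_, fun _ => rfl⟩
  have hb1 : ∀ q, 1 ≤ b q := fun q => by
    rw [hb]
    exact (hMσ (q + 1) (by omega)).1
  have hmb : ∀ q, m q = b q * (q + 1) := fun q => by rw [hm, hb]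
  have hg0 : ∀ q, g0 q ≠ 0 := fun q => by
    rw [hg0d]
    exact (hMσ (q + 1) (by omega)).2.1
  have hm1 : ∀ q, q + 1 ≤ m q := fun q => by
    rw [hmb]
    exact Nat.le_mul_of_pos_left _ (hb1 q)
  have hm1' : ∀ q, 1 ≤ m q := fun q => by have := hm1 q; omega
  have hmem0 : ∀ q l, g0 q * (y l / y i) ∈ Lsp y 0 (m q) (m q • D + b q • Hy) := by
    intro q l
    have := (hMσ (q + 1) (by omega)).2.2.1 l
    rw [← hb, ← hg0d, ← hmb] at this
    exact this
  have hmem : ∀ a q l, g0 q * (y l / y i) ∈ Lsp y 0 (m q) (m q • D + ((a + 1) * b q) • Hy) := by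
    intro a q l
    exact Lsp_mono (Nat.le_mul_of_pos_left _ (by omega)) hHy.1 (fun P _ => le_rfl) (hmem0 q l)
  obtain ⟨M, hMV⟩ : ∃ M : ℕ → ℕ → Cls ℂ (affS y i), ∀ a q,
      M a q = secCls hy hi hc0 hD hHy (m q) ((a + 1) * b q) (hg0 q) (hmem a q) :=
    ⟨_, fun _ _ => rfl⟩
  have hMmem : ∀ a q v, v ∈ (M a q).V ↔
      g0 q * v ∈ Lsp y 0 (m q) (m q • D + ((a + 1) * b q) • Hy) := by
    intro a q v
    rw [hMV]
    rfl
  have hBM : ∀ a q v, v ∈ (B (q + 1)).V → v ∈ (M a q).V := by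
    intro a q v hv
    rw [hMmem]
    have h2 := ((hB (q + 1) (by omega)).mem v).1 hv
    rw [← hb, ← hg0d, ← hmb] at h2
    exact Lsp_mono (Nat.le_mul_of_pos_left _ (by omega)) hHy.1 (fun P _ => le_rfl) h2
  have hgen : ∀ a q Q, Divisorial n Q →
      ∃ g, GenAt y 0 (m q) (m q • D + ((a + 1) * b q) • Hy) Q g := by
    intro a q Q hQ
    obtain ⟨g, hg⟩ := (hMσ (q + 1) (by omega)).2.2.2 Q hQ
    rw [← hb, ← hmb] at hg
    obtain ⟨g', hg'⟩ := gen_shift hy hi hHP hg (a * b q)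
    rw [show b q + a * b q = (a + 1) * b q by ring] at hg'
    exact ⟨g', hg'⟩
  obtain ⟨β, f, hf, hdom⟩ := dom_sections hy hi hc0 hD
  obtain ⟨βA, gA, hgA, hdomA⟩ := hdom Hy hHy
  refine ⟨m, M, (β : ℝ) + 1, ⟨⟨by positivity, hm1', fun q => by have := hm1 q; omega, fun a => ?_⟩,
    fun φ hφ a => ?_, fun a a' haa q => ?_, fun ν hν hnum => ?_, fun ν hν hnum a δ hδ => ?_⟩⟩
  · -- M_le
    filter_upwards [Filter.eventually_ge_atTop ((a + 1) * βA)] with q hq
    intro ψ s hs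
    have e1 := I_dom_emap hy hn hi ψ (V := M a q)
      (B := m q * β + (a + 1) * b q * βA) (f := f ^ m q * gA ^ ((a + 1) * b q) * g0 q)
      (mul_ne_zero (mul_ne_zero (pow_ne_zero _ hf) (pow_ne_zero _ hgA)) (hg0 q))
      (fun v hv => by
        rw [mul_assoc (f ^ m q * gA ^ ((a + 1) * b q))]
        exact hdomA (m q) ((a + 1) * b q) _ ((hMmem a q v).1 hv)) hs
    have e2 : ((m q * β + (a + 1) * b q * βA : ℕ) : ℝ) ≤ ((β : ℝ) + 1) * m q := by
      have e3 : m q * β + (a + 1) * b q * βA ≤ (β + 1) * m q := by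
        have e4 : (a + 1) * b q * βA ≤ m q := by
          rw [hmb]
          calc (a + 1) * b q * βA = b q * ((a + 1) * βA) := by ring
            _ ≤ b q * (q + 1) := Nat.mul_le_mul_left _ (by omega)
        nlinarith
      exact_mod_cast e3
    calc ((I (eCls hy hn hi ψ (M a q) ::ₘ s) : ℕ) : ℝ) ≤
          ((m q * β + (a + 1) * b q * βA : ℕ) : ℝ) *
          (I (eCls hy hn hi ψ (hcls hy hi) ::ₘ s) : ℝ) := by exact_mod_cast e1
      _ ≤ ((β : ℝ) + 1) * m q * (I (eCls hy hn hi ψ (hcls hy hi) ::ₘ s) : ℝ) :=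
        mul_le_mul_of_nonneg_right e2 (Nat.cast_nonneg _)
  · -- pull back
    obtain ⟨C0, q0, -, hq0, hpole⟩ := Pool.Agent.T2H06.DYR.exists_pole hy hi φ
    refine ⟨(a + 1) * C0, fun q => ?_⟩
    obtain ⟨α, hα, w, hw, hle⟩ := hφ i hi (q + 1) (by omega)
    intro ψ s hs
    obtain ⟨a', ha'⟩ : ∃ a', a' = (a + 1) * C0 := ⟨_, rfl⟩
    rw [← ha']
    obtain ⟨h', hh'⟩ : ∃ h', h' = φ (g0 q) ^ α * w ^ b q * q0 ^ (α * ((a + 1) * b q)) /
      g0 q ^ α := ⟨_, rfl⟩
    have hφg : φ (g0 q) ≠ 0 := by rw [Ne, map_eq_zero]; exact hg0 q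
    have hh0 : h' ≠ 0 := by
      rw [hh']
      exact div_ne_zero (mul_ne_zero (mul_ne_zero (pow_ne_zero _ hφg) (pow_ne_zero _ hw))
        (pow_ne_zero _ hq0)) (pow_ne_zero _ (hg0 q))
    have hdb : ∀ v ∈ (eCls hy hn hi φ (M a q)).V,
        DBnd n ℂ ((M a' q).V : Set K) α (h' * v ^ α) := by
      rintro _ ⟨v0, hv0, rfl⟩ Q hQ
      change ∃ s ∈ ((M a' q).V : Set K), s ≠ 0 ∧ (α : ℤ) * Q.ord s ≤ Q.ord (h' * φ v0 ^ α)
      by_cases hv00 : v0 = 0
      · refine ⟨1, (M a' q).one, one_ne_zero, ?_⟩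
        rw [hv00, map_zero, zero_pow (by omega), mul_zero, Q.ord_one, Q.ord_zero]
        simp
      obtain ⟨g', hg'⟩ := hgen a' q Q hQ
      have hmem' : g' / g0 q ∈ (M a' q).V := by
        rw [hMmem, mul_div_cancel₀ _ (hg0 q)]
        exact hg'.2.1
      refine ⟨g' / g0 q, hmem', div_ne_zero hg'.1 (hg0 q), ?_⟩
      have hf0 : g0 q * v0 ≠ 0 := mul_ne_zero (hg0 q) hv00
      have hφf0 : φ (g0 q * v0) ≠ 0 := by rwa [Ne, map_eq_zero]
      obtain ⟨F, hF⟩ : ∃ F, F = φ (g0 q * v0) ^ α * w ^ b q * q0 ^ (α * ((a + 1) * b q)) :=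
        ⟨_, rfl⟩
      have hF0 : F ≠ 0 := by
        rw [hF]
        exact mul_ne_zero (mul_ne_zero (pow_ne_zero _ hφf0) (pow_ne_zero _ hw))
          (pow_ne_zero _ hq0)
      have e1 : h' * φ v0 ^ α = F / g0 q ^ α := by
        rw [hh', hF, map_mul, mul_pow]
        ring
      have hsec := mem_Lsp0.1 ((hMmem a q v0).1 hv0)
      have i1 := ord_le_of_through hy (Q := Q) (f := F) (g := g' ^ α) hF0
        (pow_ne_zero _ hg'.1) fun P hP hT => by
          have i1 := hg'.2.2 P hP hT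
          obtain ⟨P', e, hPP, hP'⟩ := below_div hess hn φ (hP.divisorial hy hn)
          obtain ⟨gP, hgP⟩ := hcar P' hP'
          obtain ⟨l', hl'⟩ := exists_centred hy P'
          obtain ⟨l, hl⟩ := exists_centred hy P
          have i2 := sec_ge hy hi hHP hsec hf0 hl' hgP
          have i3 := hle P P' e l gP hP hPP hl hgP
          have i4 := hpole P l' l hl'.1 hl
          have i5 : (e : ℤ) * -((m q : ℤ) * P'.ord gP + ((a + 1) * b q : ℕ) *
              P'.ord (y i / y l')) ≤ e * P'.ord (g0 q * v0) :=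
            mul_le_mul_of_nonneg_left i2 (Int.natCast_nonneg _)
          rw [← hPP.2] at i5
          have i6 : -((m q : ℤ) * P.ord (φ gP) + ((a + 1) * b q : ℕ) *
              P.ord (φ (y i / y l'))) ≤ P.ord (φ (g0 q * v0)) := by
            rw [hPP.2 gP, hPP.2 (y i / y l')]
            refine le_trans (le_of_eq ?_) i5
            ring
          rw [hF, P.ord_mul (mul_ne_zero (pow_ne_zero _ hφf0) (pow_ne_zero _ hw))
            (pow_ne_zero _ hq0), P.ord_mul (pow_ne_zero _ hφf0) (pow_ne_zero _ hw), P.ord_pow,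
            P.ord_pow, P.ord_pow, P.ord_pow]
          rw [Pi.add_apply, Pi.smul_apply, Pi.smul_apply, nsmul_eq_mul, nsmul_eq_mul,
            Pi.zero_apply, Int.cast_zero, mul_zero, zero_add, hHP P l hP hl] at i1
          obtain ⟨X, hX⟩ : ∃ X : ℚ, X = ((P.ord (φ (g0 q * v0)) : ℤ) : ℚ) := ⟨_, rfl⟩
          obtain ⟨E, hE⟩ : ∃ E : ℚ, E = ((P.ord (φ gP) : ℤ) : ℚ) := ⟨_, rfl⟩
          obtain ⟨H, hH⟩ : ∃ H : ℚ, H = ((P.ord (φ (y i / y l')) : ℤ) : ℚ) := ⟨_, rfl⟩
          obtain ⟨h, hh⟩ : ∃ h : ℚ, h = ((P.ord (y i / y l) : ℤ) : ℚ) := ⟨_, rfl⟩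
          obtain ⟨w', hw'⟩ : ∃ w' : ℚ, w' = ((P.ord w : ℤ) : ℚ) := ⟨_, rfl⟩
          obtain ⟨z, hz⟩ : ∃ z : ℚ, z = ((P.ord q0 : ℤ) : ℚ) := ⟨_, rfl⟩
          have i6' : -((m q : ℚ) * E + ((a + 1) * b q) * H) ≤ X := by
            rw [hE, hH, hX]
            exact_mod_cast i6
          have i4' : H ≤ C0 * h + z := by
            rw [hH, hh, hz]
            exact_mod_cast i4
          rw [← hE, ← hh, ← hw'] at i3
          rw [← hh] at i1
          push_cast at i3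
          have hmq : (m q : ℚ) = b q * (q + 1) := by rw [hmb]; push_cast; ring
          have haq : (a' : ℚ) = (a + 1) * C0 := by rw [ha']; push_cast; ring
          have hbq0 : (0 : ℚ) ≤ b q := Nat.cast_nonneg _
          have hα0 : (0 : ℚ) ≤ α := Nat.cast_nonneg _
          have j1 := mul_le_mul_of_nonneg_left i3 hbq0
          have j2 := mul_le_mul_of_nonneg_left i4'
            (show (0 : ℚ) ≤ α * ((a + 1) * b q) by positivity)
          have j3 := mul_le_mul_of_nonneg_left i6' hα0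
          have j4 : (α * P.ord g' : ℚ) ≤ α * X + b q * w' + α * ((a + 1) * b q) * z := by
            rw [i1]
            push_cast
            rw [haq]
            have k1 : (b q : ℚ) * (α * ((q + 1) * E)) = α * (m q * E) := by rw [hmq]; ring
            have k2 : (b q : ℚ) * (α * ((q + 1) * (1 * D P) + h) + w') =
                α * (m q * D P) + α * b q * h + b q * w' := by rw [hmq]; ring
            rw [k1, k2] at j1
            linarith
          rw [hX, hw', hz] at j4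
          have j5 : ((α : ℤ) * P.ord g' : ℤ) ≤ α * P.ord (φ (g0 q * v0)) + b q * P.ord w +
              ((α * ((a + 1) * b q) : ℕ) : ℤ) * P.ord q0 := by
            exact_mod_cast j4
          exact j5
      rw [e1, Q.ord_div hF0 (pow_ne_zero _ (hg0 q)), Q.ord_pow (g0 q), Q.ord_div hg'.1 (hg0 q)]
      rw [Q.ord_pow g'] at i1
      linarith
    have h1 := I_rat_emap hy hn hi ψ hα hh0 hdb hs
    have hα0 : (0 : ℝ) < α := by exact_mod_cast hα
    have h2 : (α : ℝ) * I (eCls hy hn hi ψ (eCls hy hn hi φ (M a q)) ::ₘ s) ≤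
        α * I (eCls hy hn hi ψ (M a' q) ::ₘ s) := by exact_mod_cast h1
    rw [one_mul]
    exact le_of_mul_le_mul_left h2 hα0
  · -- mono
    refine LeA.of_mul one_ne_zero fun v hv => ?_
    rw [one_mul]
    rw [hMmem] at hv ⊢
    exact Lsp_mono (Nat.mul_le_mul_right _ (by omega)) hHy.1 (fun P _ => le_rfl) hv
  · -- eps
    obtain ⟨ε, hε, hbase⟩ := base_posL hy hn hi hHy hHP hν hnum
    have heps := eps_all hy hn hi hHP hB hν hε
      (fun q hq => hbase q (Mq q) (σ q) (B q) hq (hB q hq))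
    have hM1 : (0 : ℝ) < Mq 1 := by exact_mod_cast (hMσ 1 le_rfl).1
    refine ⟨1 / (2 * (Mq 1 : ℝ) ^ ν), by positivity, fun ψ a => ?_⟩
    have e1 := (Filter.tendsto_add_atTop_nat 1).eventually (heps ψ)
    filter_upwards [e1] with q hq
    rw [← hm] at hq
    have e6 : LeA hy hn hi 1 (B (q + 1)) (M a q) := LeA.of_mul one_ne_zero fun v hv => by
      rw [one_mul]
      exact hBM a q v hv
    have e7 := (e6.emap ψ).le.rep zero_le_one ν (Multiset.replicate (n - ν) (hcls hy hi))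
      (by rw [Multiset.card_replicate]; omega)
    rw [one_pow, one_mul] at e7
    exact hq.trans e7
  · -- zero
    obtain ⟨tt, htt, m0, hnd⟩ := hnum Hy hHy δ hδ
    obtain ⟨q0, hq0⟩ := exists_nat_gt ((a + 1) / tt)
    filter_upwards [Filter.eventually_ge_atTop (max m0 q0)] with q hq
    have hq1 : m0 ≤ q := (le_max_left _ _).trans hq
    have hq2 : q0 ≤ q := (le_max_right _ _).trans hq
    have hcard : (Multiset.replicate (ν + 1) (M a q) + Multiset.replicate (n - (ν + 1))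
        (hcls hy hi)).card = n := by
      rw [Multiset.card_add, Multiset.card_replicate, Multiset.card_replicate]
      omega
    obtain ⟨W, hW, e⟩ := exists_max cx hcard
    obtain ⟨W1, W2, s1, s2, rfl⟩ := sel_add_right hW
    rw [sel_rep] at s1 s2
    obtain ⟨w1, hw1⟩ := exists_fin W1 s1.1
    obtain ⟨w2, hw2⟩ := exists_fin W2 s2.1
    have hw1m : ∀ j, w1 j ∈ (M a q).V := by
      intro j
      have h3 : w1 j ∈ {x | x ∈ W1} := by
        rw [hw1]
        exact ⟨j, rfl⟩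
      exact s1.2 _ h3
    have hw2m : ∀ j, w2 j ∈ Submodule.span ℂ (affS y i) := by
      intro j
      have h3 : w2 j ∈ {x | x ∈ W2} := by
        rw [hw2]
        exact ⟨j, rfl⟩
      exact s2.2 _ h3
    have hbt : (((a + 1) * b q : ℕ) : ℝ) ≤ tt * m q := by
      have e1 : ((a : ℝ) + 1) ≤ tt * (q + 1) := by
        have e2 : ((a : ℝ) + 1) / tt < q + 1 := by
          have : (q0 : ℝ) ≤ q := by exact_mod_cast hq2
          linarith
        rw [div_lt_iff₀ htt] at e2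
        linarith
      have e2 : (m q : ℝ) = b q * (q + 1) := by
        rw [hmb]
        push_cast
        ring
      rw [e2]
      have e3 := mul_le_mul_of_nonneg_left e1 (show (0 : ℝ) ≤ b q from Nat.cast_nonneg _)
      push_cast
      linarith
    have hbd := hnd (m q) ((a + 1) * b q) (by have := hm1 q; omega) hbt w2
      (fun a => pencil_span hi (hw2m a))
      (Fin.cons (g0 q) fun j => g0 q * w1 j) (fun j => by
        refine Fin.cases ?_ (fun j => ?_) j
        · rw [Fin.cons_zero]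
          have := hmem a q i
          rw [div_self hi, mul_one] at this
          exact mem_Lsp0.1 this
        · rw [Fin.cons_succ]
          exact mem_Lsp0.1 ((hMmem a q _).1 (hw1m j))) (by
        rw [Fin.cons_zero]
        exact hg0 q)
    have e1 : (fun j : Fin (ν + 1) => (Fin.cons (g0 q)
        (fun j => g0 q * w1 j) : Fin (ν + 1 + 1) → K) j.succ /
        (Fin.cons (g0 q) (fun j => g0 q * w1 j) : Fin (ν + 1 + 1) → K) 0) = w1 := by
      funext j
      rw [Fin.cons_succ, Fin.cons_zero]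
      exact mul_div_cancel_left₀ _ (hg0 q)
    rw [e1, deg_dm hw2 hw1, add_comm W2 W1, e] at hbd
    exact hbd

end

end Pool.Agent.T2h12
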