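import Pool.Agent.T2h12.NefM
import Pool.Agent.T2h12.RFin

/-!
Nef divisors and dominant rational self-maps: systems, plateau and rank.
-/

set_option autoImplicit false
set_option linter.overlappingInstances false
set_option linter.unusedSectionVars false

open Filter FF Module MvPolynomial Pool.Agent.W602.GT Pool.Agent.W603.LV
open Pool.Agent.Y172 Pool.Agent.Y191 Pool.Agent.R887 Pool.Agent.W619.PQ Pool.Agent.N110
open Pool.Agent.N110.SE
open Pool.Agent.T2H06.DYL (IsDivisor IsSec LocalEquation Cartier Nef IitakaGe IitakaEq NumLt NumEq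
  PullLe sec_ge)

namespace Pool.Agent.T2h12

section

variable {K : Type} [Field K] [Algebra ℂ K] {N n : ℕ} {y : Fin (N + 1) → K}

theorem hasC_nefL (hy : NormalModel y) (hn : Algebra.trdeg ℂ K = n) (hn0 : 0 < n)
    {i : Fin (N + 1)} (hi : y i ≠ 0) {D : Place ℂ K → ℚ} (hD : IsDivisor y D)
    (hcar : Cartier y n D) (hnef : Nef y n D)
    {S : Set (K →ₐ[ℂ] K)} (h1 : ∀ φ ∈ S, PullLe y D φ 1)
    {C₁ : ℕ} (hC₁ : ∀ φ ∈ S, I (eCls hy hn hi φ (hcls hy hi) ::ₘ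
      Multiset.replicate (n - 1) (hcls hy hi)) ≤ C₁) {ν : ℕ} (hν : ν ≤ n)
    (hnum : ¬ NumLt y n D ν) : HasC hy hn hi S ν := by
  classical
  obtain ⟨ν', hν'⟩ : ∃ ν', ν' = Nat.findGreatest (fun j => ¬ NumLt y n D j) n := ⟨_, rfl⟩
  have hle : ν ≤ ν' := by rw [hν']; exact Nat.le_findGreatest hν hnum
  have hν'n : ν' ≤ n := by rw [hν']; exact Nat.findGreatest_le n
  have hnum1 : ¬ NumLt y n D ν' := by
    rw [hν']
    exact Nat.findGreatest_spec (P := fun j => ¬ NumLt y n D j) hν hnum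
  have hnum2 : ν' + 1 ≤ n → NumLt y n D (ν' + 1) := by
    intro h
    by_contra hcon
    exact Nat.findGreatest_is_greatest (P := fun j => ¬ NumLt y n D j) (n := n)
      (k := ν' + 1) (by rw [← hν']; omega) h hcon
  obtain ⟨m, M, c, hG⟩ := exists_nefG hy hn hn0 hi hD hcar hnef
  obtain ⟨ε, hε, heps⟩ := hG.eps ν' hν'n hnum1
  refine (hasC_gen hy hn hn0 hi hG.sys (fun φ hφ => hG.pull φ (h1 φ hφ)) hC₁ hν'n hε
    (fun w _ a => ⟨a, fun q => LeA.refl hy hn hi _, heps w.prod a⟩)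
    (fun h a δ hδ => hG.zero ν' h (hnum2 h) a δ hδ)).mono hle

/-- **The plateau theorem** for nef divisors. -/
theorem plateau_nefL (hy : NormalModel y) (hn : Algebra.trdeg ℂ K = n) (hn0 : 0 < n)
    {D : Place ℂ K → ℚ} (hD : IsDivisor y D)
    (hcar : Cartier y n D) (hnef : Nef y n D)
    {S : Set (K →ₐ[ℂ] K)} (h1 : ∀ φ ∈ S, PullLe y D φ 1)
    {C₁ : ℕ} (hC₁ : ∀ φ ∈ S, selfDegree φ y n 1 ≤ C₁) {ν : ℕ} (hν : ν ≤ n)
    (hnum : ¬ NumLt y n D ν) :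
    ∃ j, j + ν ≤ n ∧ ∀ a ≤ ν, ∀ p ≤ n, selfJointDegree S y n p ≤ selfJointDegree S y n (j + a) := by
  obtain ⟨i, hi⟩ := hy.ne
  refine hasC_plateau hy hn hi (hasC_nefL hy hn hn0 hi hD hcar hnef h1 (C₁ := C₁)
    (fun φ hφ => ?_) hν hnum)
  have h3 := hC₁ φ hφ
  rw [selfDegree_eq hy hn hi φ (by omega : 1 ≤ n), Nat.cast_le, Multiset.replicate_one,
    Multiset.singleton_add] at h3
  exact h3

/-- **The rank theorem** for nef divisors. -/
theorem rank_nefL (hy : NormalModel y) (hn : Algebra.trdeg ℂ K = n) (hn0 : 0 < n)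
    {D : Place ℂ K → ℚ} (hD : IsDivisor y D)
    (hcar : Cartier y n D) (hnef : Nef y n D) {r s : ℕ}
    {φ : (Fin r → ℕ) → (K →ₐ[ℂ] K)} (hφ : ∀ u v, φ (u + v) = φ u * φ v)
    (h1 : ∀ v, PullLe y D (φ v) 1)
    (hrank : CorrRankGe φ y n s) {ν : ℕ} (hν : ν ≤ n) (hνs : n < s + ν) :
    NumLt y n D ν := by
  by_contra hnum
  obtain ⟨i, hi⟩ := hy.ne
  obtain ⟨m, M, c, hG⟩ := exists_nefG hy hn hn0 hi hD hcar hnef
  obtain ⟨ε, hε, heps⟩ := hG.eps ν hν hnum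
  obtain ⟨W, hW1, hW⟩ := space_of_esys' hy hn hn0 hi
    (esys_gen hy hn hn0 hi hG.sys hφ (fun v => hG.pull _ (h1 v)) hG.mono hν hε
      (fun u => ⟨0, heps (φ u) 0⟩))
  have := hrank W hW
  omega

end

end Pool.Agent.T2h12
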