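import Pool.Agent.T2h12.Coef
import Pool.Agent.T2h12.JPull
import Pool.Agent.T2h12.BaseA

/-!
The push forward of sections: the coefficients of the characteristic polynomial of a section.
-/

set_option autoImplicit false
set_option linter.overlappingInstances false
set_option linter.unusedSectionVars false

open FF Module MvPolynomial Pool.Agent.W602.GT Pool.Agent.W603.LV
open Pool.Agent.Y172 Pool.Agent.Y191 Pool.Agent.R887 Pool.Agent.W619.PQ Pool.Agent.N110

namespace Pool.Agent.T2h12

section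

variable {K K' : Type} [Field K] [Algebra ℂ K] [Field K'] [Algebra ℂ K'] {N N' n : ℕ}
  {y : Fin (N + 1) → K} {y' : Fin (N' + 1) → K'}

/-- **The order of a form in comparison with a pulled back frame.** -/
theorem push_ord (hy : NormalModel y) (hy' : NormalModel y') (hn : Algebra.trdeg ℂ K = n)
    (hn' : Algebra.trdeg ℂ K' = n) (φ : K →ₐ[ℂ] K') {x : Fin n → K}
    {E : Fin n → Derivation ℂ K K} (hE : ∀ i j, E i (x j) = if i = j then 1 else 0)
    (hfr : IsFrame E) {c : Place ℂ K → ℤ} (hc : IsDisc y E c) {x' : Fin n → K'}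
    {E' : Fin n → Derivation ℂ K' K'} (hx' : IsTranscendenceBasis ℂ x')
    (hE' : ∀ i j, E' i (x' j) = if i = j then 1 else 0) {P : Place ℂ K}
    (hP : IsPrimeDivisor y P) {Q : Place ℂ K'} {e : ℕ} (hQ : LiesOver φ Q P e) {m : ℕ} {g : K'}
    (hg : g ≠ 0) {k : ℚ} (hk : OrdGe Q (frm x' m g) k) :
    k + m - e * m - e * m * c P ≤ Q.ord (g / jac φ x E' ^ m) := by
  classical
  have hess := hy.ess
  have hess' := hy'.ess
  let _ : Algebra K K' := φ.toRingHom.toAlgebra
  have hst : IsScalarTower ℂ K K' :=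
    IsScalarTower.of_algebraMap_eq fun c => (φ.commutes c).symm
  have hfd : FiniteDimensional K K' := finite_map hn hn'
  have hov : Over Q P e := hQ
  have hPd : Divisorial n P := hP.divisorial hy hn
  have hQd : Divisorial n Q := divisorial_up hov hPd
  obtain ⟨xP, EP, i0, hl⟩ := exists_loc hn hPd
  choose EL hEL using fun i => exists_lift (L := K') hn (EP i)
  have h1 := down_ge hn' hov hQd hl hEL (frm_pluri x' m g) (c := (k : ℝ)) (fun G hG =>
    (hk G hG).imp_right fun h => by exact_mod_cast h)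
  obtain ⟨δ, hδ⟩ : ∃ δ : K, δ = (Matrix.of fun i j => EP i (x j)).det := ⟨_, rfl⟩
  have hδ0 : δ ≠ 0 := by
    have hfl : IsFrame EP := fun F => ⟨fun j => F (xP j),
      (Pool.Agent.W73.PG.PULL.expand xP hl.bas EP hl.dual F).symm⟩
    rw [hδ]
    choose a ha using fun i => hfl (E i)
    have h2 : Matrix.of a * (Matrix.of fun i j => EP i (x j)) = 1 := by
      ext i j
      rw [Matrix.mul_apply, Matrix.one_apply]
      have h3 := hE i j
      rw [ha i, sum_smul_apply] at h3
      exact h3
    intro h0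
    have h3 := congrArg Matrix.det h2
    rw [Matrix.det_mul, h0, mul_zero, Matrix.det_one] at h3
    exact zero_ne_one h3
  have hdet : (Matrix.of fun i j => EL i (φ (x j))).det = φ δ := by
    rw [hδ]
    have h2 : (Matrix.of fun i j => EL i (φ (x j))) =
        φ.toRingHom.mapMatrix (Matrix.of fun i j => EP i (x j)) := by
      ext i j
      exact hEL i (x j)
    rw [h2]
    exact (RingHom.map_det φ.toRingHom _).symm
  have hchain : (Matrix.of fun i j => EL i (φ (x j))) =
      (Matrix.of fun i j => EL i (x' j)) * (Matrix.of fun i j => E' i (φ (x j))) := by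
    ext i j
    rw [Matrix.mul_apply]
    have h2 := (Pool.Agent.W73.PG.PULL.expand x' hx' E' hE' (EL i))
    have h3 : EL i (φ (x j)) = (∑ l, EL i (x' l) • E' l) (φ (x j)) := by rw [h2]
    rw [sum_smul_apply] at h3
    exact h3
  rw [hchain, Matrix.det_mul] at hdet
  change (Matrix.of fun i j => EL i (x' j)).det * jac φ x E' = φ δ at hdet
  have hφδ : φ δ ≠ 0 := by rwa [Ne, map_eq_zero]
  have hj0 : jac φ x E' ≠ 0 := by
    intro h0
    rw [h0, mul_zero] at hdet
    exact hφδ hdet.symm
  obtain ⟨z, hz⟩ : ∃ z : K', z = g / jac φ x E' ^ m := ⟨_, rfl⟩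
  have hz0 : z ≠ 0 := by rw [hz]; exact div_ne_zero hg (pow_ne_zero _ hj0)
  have hW : frm x' m g EL = φ δ ^ m * z := by
    unfold frm
    rw [hz, ← hdet, mul_pow]
    field_simp
  rw [← hz]
  rw [hW] at h1
  have h2 := h1.resolve_left (mul_ne_zero (pow_ne_zero _ hφδ) hz0)
  rw [Q.ord_mul (pow_ne_zero _ hφδ) hz0, Q.ord_pow, hQ.2] at h2
  -- the order of `δ`
  have h3 : P.ord δ ≤ c P := by
    have h4 : OrdGe P (frm x 1 (1 : K)) (P.ord δ) := by
      intro D hD
      have h5 := pluri_coord hl.bas hl.dual (frm_pluri x 1 (1 : K)) D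
      have h6 : frm x 1 (1 : K) EP = δ := by
        unfold frm
        rw [pow_one, mul_one, hδ]
      rw [h6, pow_one] at h5
      have h7 : Ge P 0 (Matrix.of fun i j => D i (xP j)).det := by
        refine ge_det P _ fun i j => ?_
        exact hD i _ (hl.reg j)
      rcases h7 with h7 | h7
      · left
        rw [h5, h7, zero_mul]
      · by_cases h8 : (Matrix.of fun i j => D i (xP j)).det = 0
        · left
          rw [h5, h8, zero_mul]
        right
        rw [h5, P.ord_mul h8 hδ0]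
        push_cast
        have h9 : (0 : ℚ) ≤ P.ord (Matrix.of fun i j => D i (xP j)).det := by exact_mod_cast h7
        linarith
    have h5 := (hc P hP 1 _ (frm_pluri x 1 (1 : K)) _).1 h4
    rw [frm_self hE] at h5
    have h6 := h5.resolve_left one_ne_zero
    rw [P.ord_one] at h6
    push_cast at h6
    rw [one_mul, add_zero] at h6
    exact_mod_cast h6
  have h4 : (k : ℝ) + m - e * m ≤ m * (e * P.ord δ) + Q.ord z := by
    push_cast at h2
    linarith
  have h5 : k + m - e * m ≤ m * (e * P.ord δ) + Q.ord z := by exact_mod_cast h4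
  have h6 : (P.ord δ : ℚ) ≤ c P := by exact_mod_cast h3
  have h7 : (m : ℚ) * (e * P.ord δ) ≤ e * m * c P := by
    have h8 := mul_le_mul_of_nonneg_left h6 (show (0 : ℚ) ≤ m * e by positivity)
    linarith
  linarith

/-- **The push forward of sections**: a section upstairs is bounded by the coefficients of its
characteristic polynomial, which are sections downstairs. -/
theorem push_dom (hy : NormalModel y) (hy' : NormalModel y') (hn : Algebra.trdeg ℂ K = n)
    (hn' : Algebra.trdeg ℂ K' = n) {Δ : Place ℂ K → ℚ} {Δ' : Place ℂ K' → ℚ} (φ : K →ₐ[ℂ] K')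
    (hφ : ∀ P : Place ℂ K, IsPrimeDivisor y P → ∀ (Q : Place ℂ K') (e : ℕ), LiesOver φ Q P e →
      ∃ α : ℚ, LogDisc y' n Δ' Q α ∧ e * (1 - Δ P) ≤ α) {x : Fin n → K}
    {E : Fin n → Derivation ℂ K K}
    (hE : ∀ i j, E i (x j) = if i = j then 1 else 0) (hfr : IsFrame E) {c : Place ℂ K → ℤ}
    (hc : IsDisc y E c) {x' : Fin n → K'} {E' : Fin n → Derivation ℂ K' K'}
    (hx' : IsTranscendenceBasis ℂ x') (hE' : ∀ i j, E' i (x' j) = if i = j then 1 else 0)
    (hfr' : IsFrame E') {c' : Place ℂ K' → ℤ} (hc' : IsDisc y' E' c') :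
    ∃ d : ℕ, 1 ≤ d ∧ ∀ A : Place ℂ K' → ℚ, Effective y' A → ∃ A' : Place ℂ K → ℚ,
      Effective y A' ∧ ∀ m b : ℕ, 1 ≤ m → (∀ P, IsPrimeDivisor y P → ∃ z : ℤ, m * Δ P = z) →
        ∀ g ∈ Lsp y' c' m (m • Δ' + b • A), g ≠ 0 → ∀ Q : Place ℂ K', ∃ h : K, h ≠ 0 ∧
          h ∈ Lsp y c (m * d) ((m * d) • Δ + (b * d) • A') ∧
          Q.ord (φ h) ≤ d * Q.ord (g / jac φ x E' ^ m) := by
  classical
  have hess := hy.ess
  have hess' := hy'.ess
  let _ : Algebra K K' := φ.toRingHom.toAlgebra
  have hst : IsScalarTower ℂ K K' :=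
    IsScalarTower.of_algebraMap_eq fun c => (φ.commutes c).symm
  have hfd : FiniteDimensional K K' := finite_map hn hn'
  obtain ⟨d, hd⟩ : ∃ d, d = (Module.finrank K K').factorial := ⟨_, rfl⟩
  have hd1 : 1 ≤ d := by rw [hd]; exact Nat.factorial_pos _
  refine ⟨d, hd1, fun A hA => ?_⟩
  choose s hsc hs0 hs using fun j => disc_bound2 (Δ := Δ') (n := n) hy' hA hfr' j
  obtain ⟨A', hA'⟩ : ∃ A' : Place ℂ K → ℚ, A' = fun P => ∑ j,
      ∑ i ∈ Finset.range ((minpoly K (s j)⁻¹).natDegree + 1),
        |(P.ord ((minpoly K (s j)⁻¹).coeff i) : ℚ)| := ⟨_, rfl⟩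
  have hA'n : ∀ P, ∃ z : ℤ, A' P = z := by
    intro P
    rw [hA']
    refine ⟨∑ j, ∑ i ∈ Finset.range ((minpoly K (s j)⁻¹).natDegree + 1),
        |P.ord ((minpoly K (s j)⁻¹).coeff i)|, ?_⟩
    push_cast
    rfl
  have hA'e : Effective y A' := by
    refine ⟨fun P _ => ?_, ?_⟩
    · rw [hA']
      exact Finset.sum_nonneg fun _ _ => Finset.sum_nonneg fun _ _ => abs_nonneg _
    · have hfin : ∀ (j : Fin (N' + 1)) (i : ℕ),
          {P | IsPrimeDivisor y P ∧ P.ord ((minpoly K (s j)⁻¹).coeff i) ≠ 0}.Finite := by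
        intro j i
        by_cases h0 : (minpoly K (s j)⁻¹).coeff i = 0
        · refine Set.finite_empty.subset ?_
          rintro P ⟨-, h⟩
          rw [h0, P.ord_zero] at h
          exact h rfl
        · exact finite_ord hy h0
      refine (Set.finite_iUnion fun j => ((Finset.range
        ((minpoly K (s j)⁻¹).natDegree + 1)).finite_toSet.biUnion fun i _ =>
          hfin j i)).subset ?_
      rintro P ⟨hP, h0⟩
      by_contra hcon
      simp only [Set.mem_iUnion, not_exists] at hcon
      apply h0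
      rw [hA']
      refine Finset.sum_eq_zero fun j _ => Finset.sum_eq_zero fun i hi => ?_
      have h1 : P.ord ((minpoly K (s j)⁻¹).coeff i) = 0 := by
        by_contra h2
        exact hcon j i (by exact_mod_cast hi) ⟨hP, h2⟩
      rw [h1]
      simp
  refine ⟨A', hA'e, fun m b hm hint g hg hg0 Q => ?_⟩
  obtain ⟨z, hz⟩ : ∃ z : K', z = g / jac φ x E' ^ m := ⟨_, rfl⟩
  have hj0 : jac φ x E' ≠ 0 := pull_ne hn hE hfr'
  have hz0 : z ≠ 0 := by rw [hz]; exact div_ne_zero hg0 (pow_ne_zero _ hj0)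
  rw [← hz]
  -- the coefficients
  have hcoef : ∀ P, IsPrimeDivisor y P → ∀ i, i ≤ (minpoly K z).natDegree →
      (minpoly K z).coeff ((minpoly K z).natDegree - i) = 0 ∨
      -(((i * m : ℕ) : ℚ) * Δ P + ((i * b : ℕ) : ℚ) * A' P) ≤ ((i * m : ℕ) : ℚ) * c P +
        P.ord ((minpoly K z).coeff ((minpoly K z).natDegree - i)) := by
    intro P hP i hi
    obtain ⟨z1, hz1⟩ := hint P hP
    obtain ⟨z2, hz2⟩ := hA'n P
    have h1 := ord_coeff P (z := z) (s := -(m * c P + z1 + b * z2)) (fun Q e hQ => by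
      right
      obtain ⟨α, hα, hα1⟩ := hφ P hP Q e hQ
      obtain ⟨j, hj⟩ := exists_centred hy' Q
      have hωE : frm x' m g E' = g := frm_self hE' m g
      have hsec : IsSection y' n m (m • Δ' + b • A) (frm x' m g) := by
        rw [isSection_iff hc' (frm_pluri x' m g), hωE]
        exact hg
      have h2 := hs j Q hj α hα m b hm _ hsec
      have h3 := push_ord hy hy' hn hn' φ hE hfr hc hx' hE' hP hQ hg0 h2
      rw [← hz] at h3
      -- the order of `s j`
      have h4 : (Q.ord (s j) : ℚ) ≤ e * A' P := by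
        obtain ⟨i', hi'1, hi'2, hne, hle⟩ := ord_root (K := K) Q (inv_ne_zero (hs0 j))
        have h5 : (|(P.ord ((minpoly K (s j)⁻¹).coeff
            ((minpoly K (s j)⁻¹).natDegree - i')) : ℚ)|) ≤ A' P := by
          rw [hA']
          refine (Finset.single_le_sum (f := fun i =>
            |(P.ord ((minpoly K (s j)⁻¹).coeff i) : ℚ)|) (fun _ _ => abs_nonneg _)
            (Finset.mem_range.2 (by omega : (minpoly K (s j)⁻¹).natDegree - i' <
              (minpoly K (s j)⁻¹).natDegree + 1))).trans ?_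
          exact Finset.single_le_sum (f := fun j => ∑ i ∈ Finset.range
            ((minpoly K (s j)⁻¹).natDegree + 1), |(P.ord ((minpoly K (s j)⁻¹).coeff i) : ℚ)|)
            (fun _ _ => Finset.sum_nonneg fun _ _ => abs_nonneg _) (Finset.mem_univ j)
        rw [hQ.2, Q.ord_inv] at hle
        have h6 : ((e * P.ord ((minpoly K (s j)⁻¹).coeff
            ((minpoly K (s j)⁻¹).natDegree - i')) : ℤ) : ℚ) ≤
            ((i' * -Q.ord (s j) : ℤ) : ℚ) := by exact_mod_cast hle
        push_cast at h6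
        have he0 : (0 : ℚ) ≤ e := Nat.cast_nonneg _
        have h7 := mul_le_mul_of_nonneg_left h5 he0
        have h8 := mul_le_mul_of_nonneg_left (neg_abs_le (P.ord ((minpoly K (s j)⁻¹).coeff
            ((minpoly K (s j)⁻¹).natDegree - i')) : ℚ)) he0
        have hi'r : (1 : ℚ) ≤ i' := by exact_mod_cast hi'1
        have h9 : (0 : ℚ) ≤ e * A' P := mul_nonneg he0 (hA'e.1 P hP)
        by_cases h10 : (Q.ord (s j) : ℚ) ≤ 0
        · linarith
        · push Not at h10
          nlinarith
      have h5 : (e : ℚ) * (-(m * c P + z1 + b * z2)) ≤ Q.ord z := by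
        have hm0 : (0 : ℚ) ≤ m := Nat.cast_nonneg _
        have hb0 : (0 : ℚ) ≤ b := Nat.cast_nonneg _
        have h6 := mul_le_mul_of_nonneg_left hα1 hm0
        have h7 := mul_le_mul_of_nonneg_left h4 hb0
        rw [← hz1, ← hz2]
        have h8 : (e : ℚ) * (-(m * c P + m * Δ P + b * A' P)) =
            m * (e * (1 - Δ P)) - b * (e * A' P) - e * m - e * m * c P := by ring
        rw [h8]
        linarith
      exact_mod_cast h5) ((minpoly K z).natDegree - i)
    refine h1.imp_right fun h2 => ?_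
    rw [show (minpoly K z).natDegree - ((minpoly K z).natDegree - i) = i by omega] at h2
    have h3 : ((i * (-(m * c P + z1 + b * z2)) : ℤ) : ℚ) ≤
        P.ord ((minpoly K z).coeff ((minpoly K z).natDegree - i)) := by exact_mod_cast h2
    push_cast at h3 ⊢
    rw [← hz1, ← hz2] at h3
    have h4 : (i : ℚ) * (-(m * c P + m * Δ P + b * A' P)) =
        -(i * m * Δ P + i * b * A' P) - i * m * c P := by ring
    rw [h4] at h3
    linarith
  obtain ⟨i, hi1, hi2, hne, hle⟩ := ord_root (K := K) Q hz0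
  have hid : i ∣ d := by
    rw [hd]
    exact Nat.dvd_factorial hi1 (hi2.trans (minpoly.natDegree_le z))
  obtain ⟨r, hr⟩ := hid
  have hr1 : 1 ≤ r := by
    rcases Nat.eq_zero_or_pos r with h0 | h0
    · rw [h0, mul_zero] at hr
      omega
    · exact h0
  refine ⟨(minpoly K z).coeff ((minpoly K z).natDegree - i) ^ r, pow_ne_zero _ hne, ?_, ?_⟩
  · have h1 : (minpoly K z).coeff ((minpoly K z).natDegree - i) ∈
        Lsp y c (i * m) ((i * m) • Δ + (i * b) • A') := by
      intro P hP
      refine (hcoef P hP i hi2).imp_right fun h2 => ?_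
      rw [Pi.add_apply, Pi.smul_apply, Pi.smul_apply, nsmul_eq_mul, nsmul_eq_mul]
      exact h2
    have h2 := pow_Lsp h1 hr1
    rwa [show i * m * r = m * d by rw [hr]; ring, show i * b * r = b * d by rw [hr]; ring] at h2
  · rw [map_pow, Q.ord_pow, hr]
    have h1 : Q.ord (φ ((minpoly K z).coeff ((minpoly K z).natDegree - i))) ≤ i * Q.ord z := hle
    have hr0 : (0 : ℤ) ≤ r := Nat.cast_nonneg _
    have h2 := mul_le_mul_of_nonneg_left h1 hr0
    push_cast
    linarith

end

end Pool.Agent.T2h12
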