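import Pool.Agent.N110.Cls

/-!
A function of large degree with bounded poles has a pole of large order at one of finitely many
places.
-/

set_option autoImplicit false
set_option linter.overlappingInstances false
set_option linter.unusedSectionVars false

open FF Module IntermediateField Pool.Agent.R887 Pool.Agent.N110

namespace Pool.Agent.T2h12

section

variable {F K : Type} [Field F] [CharZero F] [Field K] [Algebra F K] [IsFF F K]

theorem pole_one {T : Set (Place F K)} (hT : T.Finite) {c : ℝ} (hc : 0 < c) :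
    ∃ c₁ : ℝ, 0 < c₁ ∧ ∀ (v : K) (q : ℕ), 1 ≤ q → Transcendental F v →
      (∀ P, P ∉ T → 0 ≤ P.ord v) → c * q ≤ finrank F⟮v⟯ K →
      ∃ P ∈ T, c₁ * q ≤ ((-P.ord v : ℤ) : ℝ) := by
  classical
  obtain ⟨χ, hχ⟩ : ∃ χ : Place F K →₀ ℤ, χ = ∑ P ∈ hT.toFinset, Finsupp.single P 1 := ⟨_, rfl⟩
  have hχP : ∀ P, χ P = if P ∈ T then 1 else 0 := by
    intro P
    rw [hχ, Finsupp.finsetSum_apply]
    by_cases hP : P ∈ T
    · rw [if_pos hP, Finset.sum_eq_single P]
      · rw [Finsupp.single_eq_same]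
      · intro P' _ hne
        rw [Finsupp.single_eq_of_ne (Ne.symm hne)]
      · intro h
        exact absurd (hT.mem_toFinset.2 hP) h
    · rw [if_neg hP]
      refine Finset.sum_eq_zero fun P' hP' => ?_
      rw [Finsupp.single_eq_of_ne]
      rintro rfl
      exact hP (hT.mem_toFinset.1 hP')
  have hχ0 : 0 ≤ ddeg χ := ddeg_nonneg fun P => by
    rw [hχP]
    split_ifs <;> simp
  obtain ⟨G, hG⟩ : ∃ G : ℝ, G = (ddeg χ : ℝ) + 1 := ⟨_, rfl⟩
  have hG0 : 0 < G := by
    rw [hG]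
    have : (0 : ℝ) ≤ ddeg χ := by exact_mod_cast hχ0
    linarith
  refine ⟨c / G, by positivity, fun v q hq htr hv hle => ?_⟩
  by_contra hcon
  push Not at hcon
  obtain ⟨M, hM⟩ : ∃ M : ℕ, M = hT.toFinset.sup fun P => (-P.ord v).toNat := ⟨_, rfl⟩
  have hpol : polar (k := F) v ≤ M • χ := by
    intro P
    rw [polar_apply, Finsupp.smul_apply, hχP]
    by_cases hP : P ∈ T
    · rw [if_pos hP]
      have h1 : (-P.ord v).toNat ≤ M := by
        rw [hM]
        exact Finset.le_sup (f := fun P => (-P.ord v).toNat) (hT.mem_toFinset.2 hP)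
      have h2 := Int.self_le_toNat (-P.ord v)
      rw [nsmul_eq_mul, mul_one]
      refine max_le ?_ (Int.natCast_nonneg _)
      exact h2.trans (by exact_mod_cast h1)
    · rw [if_neg hP, smul_zero]
      refine max_le ?_ le_rfl
      have := hv P hP
      omega
  have h1 := ddeg_mono hpol
  rw [ddeg_polar htr, ddeg_nsmul] at h1
  have h2 : (finrank F⟮v⟯ K : ℝ) ≤ M * ddeg χ := by exact_mod_cast h1
  have hq' : (1 : ℝ) ≤ q := by exact_mod_cast hq
  have hM0 : 0 < M := by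
    rcases Nat.eq_zero_or_pos M with h | h
    · rw [h, Nat.cast_zero, zero_mul] at h2
      have : 0 < c * q := by positivity
      linarith
    · exact h
  have hne : hT.toFinset.Nonempty := by
    rw [Finset.nonempty_iff_ne_empty]
    intro h
    rw [h, Finset.sup_empty] at hM
    rw [hM] at hM0
    exact absurd hM0 (lt_irrefl _)
  obtain ⟨P, hP, hPM⟩ := Finset.exists_mem_eq_sup hT.toFinset hne fun P => (-P.ord v).toNat
  rw [← hM] at hPM
  have h3 := hcon P (hT.mem_toFinset.1 hP)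
  have h4 : (-P.ord v) = (M : ℤ) := by
    rw [hPM]
    rw [hPM] at hM0
    rw [Int.toNat_of_nonneg]
    omega
  rw [h4] at h3
  have h5 : ((M : ℤ) : ℝ) < c / G * q := h3
  rw [Int.cast_natCast, div_mul_eq_mul_div, lt_div_iff₀ hG0] at h5
  have h6 : (M : ℝ) * ddeg χ ≤ M * G := by
    rw [hG]
    have : (0 : ℝ) ≤ M := Nat.cast_nonneg _
    nlinarith
  linarith

end

section

variable {K : Type} [Field K] [Algebra ℂ K]

/-- a sequence of functions of large degrees with bounded poles -/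
theorem pole_seq {F : IntermediateField ℂ K} [CharZero F] [IsFF F K] {S : Set K} (hS : S.Finite)
    {f g : K} (hf : f ≠ 0) (hg : g ≠ 0) {v : ℕ → K} {k b B : ℕ → ℕ} (hk : ∀ q, 1 ≤ k q)
    (hB : ∀ q, Bnd ℂ S (B q) (f ^ k q * g ^ b q * v q)) (htr : ∀ q, Transcendental F (v q))
    {c : ℝ} (hc : 0 < c) (hle : ∀ q, c * k q ≤ finrank F⟮v q⟯ K) :
    ∃ c₁ : ℝ, 0 < c₁ ∧ ∃ P : Place F K, ∀ q0, ∃ q, q0 ≤ q ∧
      c₁ * k q ≤ ((-P.ord (v q) : ℤ) : ℝ) := by
  classical
  obtain ⟨T, hTd⟩ : ∃ T : Set (Place F K), T = (⋃ s ∈ S, {P : Place F K | P.ord s ≠ 0}) ∪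
      ({P : Place F K | P.ord f ≠ 0} ∪ {P : Place F K | P.ord g ≠ 0}) := ⟨_, rfl⟩
  have hT : T.Finite := by
    rw [hTd]
    exact (hS.biUnion fun s _ => finite_support s).union
      ((finite_support f).union (finite_support g))
  obtain ⟨c₁, hc₁, h1⟩ := pole_one (F := F) (K := K) hT hc
  refine ⟨c₁, hc₁, ?_⟩
  have h2 : ∀ q, ∃ P ∈ T, c₁ * k q ≤ ((-P.ord (v q) : ℤ) : ℝ) := by
    intro q
    refine h1 (v q) (k q) (hk q) (htr q) (fun P hP => ?_) (hle q)
    rw [hTd] at hP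
    simp only [Set.mem_union, Set.mem_iUnion, Set.mem_ofPred_eq, not_or, not_exists, not_not] at hP
    obtain ⟨hP1, hP2, hP3⟩ := hP
    obtain ⟨s, hs, -, h3⟩ := Bnd.up (hB q) P
    have hv0 : v q ≠ 0 := by
      intro h0
      have := htr q
      rw [h0] at this
      exact this isAlgebraic_zero
    rw [P.ord_mul (mul_ne_zero (pow_ne_zero _ hf) (pow_ne_zero _ hg)) hv0,
      P.ord_mul (pow_ne_zero _ hf) (pow_ne_zero _ hg), P.ord_pow, P.ord_pow, hP1 s hs, hP2, hP3,
      mul_zero, mul_zero, mul_zero, zero_add, zero_add] at h3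
    exact h3
  by_contra hcon
  push Not at hcon
  choose q0 hq0 using hcon
  obtain ⟨q, hq⟩ : ∃ q, q = hT.toFinset.sup q0 := ⟨_, rfl⟩
  obtain ⟨P, hP, hPq⟩ := h2 q
  have h3 := hq0 P q (by
    rw [hq]
    exact Finset.le_sup (hT.mem_toFinset.2 hP))
  exact absurd hPq (not_le.2 h3)

end

end Pool.Agent.T2h12
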