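import Mathlib

/-!
The primitive algebraic relation of an element over a factorial domain.
-/

set_option autoImplicit false

open Polynomial

namespace Pool.Agent.T2h12

/-- **The primitive relation.** -/
theorem exists_rel {S K : Type*} [CommRing S] [IsDomain S] [UniqueFactorizationMonoid S] [Field K]
    [Algebra S K] [FaithfulSMul S K] {z : K} (hz : IsAlgebraic S z) :
    ∃ F : S[X], F ≠ 0 ∧ aeval z F = 0 ∧ ∀ G : S[X], aeval z G = 0 → F ∣ G := by
  classical
  let _ : Algebra (FractionRing S) K := FractionRing.liftAlgebra S K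
  have hst : IsScalarTower S (FractionRing S) K := inferInstance
  let _ : NormalizedGCDMonoid S := Nonempty.some inferInstance
  have hz' : IsAlgebraic (FractionRing S) z := hz.extendScalars (FaithfulSMul.algebraMap_injective _ _)
  obtain ⟨m, hm⟩ : ∃ m, m = minpoly (FractionRing S) z := ⟨_, rfl⟩
  have hm0 : m ≠ 0 := by
    rw [hm]
    exact minpoly.ne_zero hz'.isIntegral
  have hmz : aeval z m = 0 := by
    rw [hm]
    exact minpoly.aeval _ _
  obtain ⟨b, hb, hb2⟩ := IsLocalization.integerNormalization_spec (nonZeroDivisors S) m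
  obtain ⟨g, hg⟩ : ∃ g, g = IsLocalization.integerNormalization (nonZeroDivisors S) m := ⟨_, rfl⟩
  rw [← hg] at hb2
  have hb0 : b ≠ 0 := nonZeroDivisors.ne_zero hb
  have hg0 : g ≠ 0 := by
    intro h
    rw [h, Polynomial.map_zero] at hb2
    have := smul_eq_zero.1 hb2.symm
    rcases this with h | h
    · exact hb0 h
    · exact hm0 h
  have hgz : aeval z g = 0 := by
    have h1 : aeval z (g.map (algebraMap S (FractionRing S))) = aeval z g :=
      aeval_map_algebraMap _ _ _
    rw [← h1, hb2, Algebra.smul_def, map_mul, hmz, mul_zero]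
  refine ⟨g.primPart, primPart_ne_zero g, aeval_primPart_eq_zero hg0 hgz, fun G hG => ?_⟩
  refine (isPrimitive_primPart g).dvd_of_fraction_map_dvd_fraction_map (K := FractionRing S) ?_
  have h1 : m ∣ G.map (algebraMap S (FractionRing S)) := by
    rw [hm]
    exact minpoly.dvd _ _ (by rw [aeval_map_algebraMap]; exact hG)
  refine dvd_trans ?_ h1
  have h2 : g.primPart.map (algebraMap S (FractionRing S)) ∣
      g.map (algebraMap S (FractionRing S)) :=
    Polynomial.map_dvd _ (primPart_dvd g)
  refine h2.trans ?_
  rw [hb2]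
  have h3 : IsUnit (C (algebraMap S (FractionRing S) b)) := by
    rw [isUnit_C, isUnit_iff_ne_zero, Ne, map_eq_zero_iff _ (IsFractionRing.injective S (FractionRing S))]
    exact hb0
  have h4 : b • m = C (algebraMap S (FractionRing S) b) * m := by
    rw [Algebra.smul_def, Polynomial.algebraMap_apply]
  rw [h4]
  exact (h3.mul_left_dvd).2 dvd_rfl

end Pool.Agent.T2h12
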