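import Pool.Agent.N110.Assem

/-!
Degrees for products, powers, and dominated functions.
-/

set_option autoImplicit false
set_option linter.overlappingInstances false
set_option linter.unusedSectionVars false

open FF Module Pool.Agent.R887 Pool.Agent.N110 Pool.Agent.W603.LV

namespace Pool.Agent.T2h12

section

variable {K : Type} [Field K] [Algebra ℂ K] {n : ℕ}

/-- the degree for a product of spaces -/
theorem prod_split (hn : Algebra.trdeg ℂ K = n) {A B : Submodule ℂ K} (hA1 : (1 : K) ∈ A)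
    (hB1 : (1 : K) ∈ B) {z : K} (hz : z ∈ A * B) {W : Multiset K} (hW : W.card + 1 = n) :
    ∃ u₁ ∈ A, ∃ u₂ ∈ B, dm ℂ (z ::ₘ W) ≤ dm ℂ (u₁ ::ₘ W) + dm ℂ (u₂ ::ₘ W) := by
  classical
  have hprod : ∀ z ∈ A * B, ∃ S₁ S₂ : Set K, S₁.Finite ∧ S₂.Finite ∧ 1 ∈ S₁ ∧ 1 ∈ S₂ ∧
      S₁ ⊆ A ∧ S₂ ⊆ B ∧ ∀ P : Place ℂ K, z = 0 ∨ ∃ s₁ ∈ S₁, ∃ s₂ ∈ S₂, s₁ ≠ 0 ∧ s₂ ≠ 0 ∧
        P.ord s₁ + P.ord s₂ ≤ P.ord z := by
    intro z hz
    induction hz using Submodule.mul_induction_on' with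
    | mem_mul_mem a ha b hb =>
      refine ⟨{1, a}, {1, b}, by simp, by simp, by simp, by simp, ?_, ?_, fun P => ?_⟩
      · rintro z (rfl | rfl)
        · exact hA1
        · exact ha
      · rintro z (rfl | rfl)
        · exact hB1
        · exact hb
      · by_cases ha0 : a = 0
        · left
          rw [ha0, zero_mul]
        by_cases hb0 : b = 0
        · left
          rw [hb0, mul_zero]
        right
        exact ⟨a, by simp, b, by simp, ha0, hb0, by rw [P.ord_mul ha0 hb0]⟩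
    | add a ha b hb iha ihb =>
      obtain ⟨S₁, S₂, f1, f2, o1, o2, v1, v2, h1⟩ := iha
      obtain ⟨T₁, T₂, f1', f2', o1', o2', v1', v2', h1'⟩ := ihb
      refine ⟨S₁ ∪ T₁, S₂ ∪ T₂, f1.union f1', f2.union f2', Or.inl o1, Or.inl o2,
        Set.union_subset v1 v1', Set.union_subset v2 v2', fun P => ?_⟩
      by_cases hab : a + b = 0
      · exact Or.inl hab
      right
      rcases h1 P with ha0 | ⟨s₁, hs₁, s₂, hs₂, n1, n2, h2⟩
      · rcases h1' P with hb0 | ⟨s₁, hs₁, s₂, hs₂, n1, n2, h2⟩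
        · rw [ha0, hb0, add_zero] at hab
          exact absurd rfl hab
        · exact ⟨s₁, Or.inr hs₁, s₂, Or.inr hs₂, n1, n2, by rwa [ha0, zero_add]⟩
      · rcases h1' P with hb0 | ⟨s₁', hs₁', s₂', hs₂', n1', n2', h2'⟩
        · exact ⟨s₁, Or.inl hs₁, s₂, Or.inl hs₂, n1, n2, by rwa [hb0, add_zero]⟩
        · by_cases ha0 : a = 0
          · exact ⟨s₁', Or.inr hs₁', s₂', Or.inr hs₂', n1', n2', by rwa [ha0, zero_add]⟩
          by_cases hb0 : b = 0
          · exact ⟨s₁, Or.inl hs₁, s₂, Or.inl hs₂, n1, n2, by rwa [hb0, add_zero]⟩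
          have h3 := P.ord_add ha0 hb0 hab
          rcases le_total (P.ord a) (P.ord b) with h4 | h4
          · rw [min_eq_left h4] at h3
            exact ⟨s₁, Or.inl hs₁, s₂, Or.inl hs₂, n1, n2, h2.trans h3⟩
          · rw [min_eq_right h4] at h3
            exact ⟨s₁', Or.inr hs₁', s₂', Or.inr hs₂', n1', n2', h2'.trans h3⟩
  by_cases hz0 : z = 0
  · have h0 : dm ℂ (z ::ₘ W) = 0 := by
      by_contra h0
      have := transc_of_dm hn hW h0
      rw [hz0] at this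
      exact this isAlgebraic_zero
    refine ⟨1, hA1, 1, hB1, ?_⟩
    rw [h0]
    exact Nat.zero_le _
  obtain ⟨S₁, S₂, f1, f2, o1, o2, v1, v2, h1⟩ := hprod z hz
  obtain ⟨u₁, hu₁, u₂, hu₂, hle⟩ := repl_add hn f1 f2 o1 o2 (fun P => (h1 P).resolve_left hz0) hW
  exact ⟨u₁, Submodule.span_le.2 v1 hu₁, u₂, Submodule.span_le.2 v2 hu₂, hle⟩

/-- the degree for a power of a space -/
theorem pow_split (hn : Algebra.trdeg ℂ K = n) {S : Set K} (hS : S.Finite) (h1 : (1 : K) ∈ S)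
    {k : ℕ} {z : K} (hz : z ∈ (Submodule.span ℂ S) ^ k) {W : Multiset K} (hW : W.card + 1 = n) :
    ∃ u ∈ Submodule.span ℂ S, dm ℂ (z ::ₘ W) ≤ k * dm ℂ (u ::ₘ W) := by
  obtain ⟨μ, hμ⟩ := exists_isMin (k := ℂ) hS ⟨1, h1, one_ne_zero⟩
  have key : ∀ k : ℕ, ∀ z ∈ (Submodule.span ℂ S) ^ k, ∀ P : Place ℂ K, Ge P ((k : ℤ) * μ P) z := by
    intro k
    induction k with
    | zero =>
      intro z hz P
      rw [pow_zero, Submodule.mem_one] at hz
      obtain ⟨c, rfl⟩ := hz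
      rw [Nat.cast_zero, zero_mul]
      exact Ge.const c
    | succ k ih =>
      intro z hz P
      rw [pow_succ] at hz
      induction hz using Submodule.mul_induction_on' with
      | mem_mul_mem u hu w hw =>
        have h1 := (ih u hu P).mul (ge_span hμ hw P)
        refine h1.mono ?_
        push_cast
        linarith
      | add u _ w _ h1 h2 => exact h1.add h2
  have hb : ∀ z ∈ (Submodule.span ℂ S) ^ k, Bnd ℂ S k z := fun z hz =>
    bnd_of_ge hμ h1 (key k z hz)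
  have hone : (1 : K) ∈ (Submodule.span ℂ S) ^ k := by
    have := Submodule.pow_mem_pow (Submodule.span ℂ S) (Submodule.subset_span h1) k
    rwa [one_pow] at this
  obtain ⟨v, hv, hle⟩ := repl hn hS h1 (B := k) (f₀ := 1) (f₁ := z) one_ne_zero
    (hb 1 hone) (hb z hz) hW
  rw [div_one] at hle
  exact ⟨v, hv, hle⟩

/-- the function `z` is dominated by `B` times the space spanned by `S` -/
def Dmn (S : Set K) (B : ℕ) (z : K) : Prop :=
  ∃ f : K, f ≠ 0 ∧ Bnd ℂ S B f ∧ Bnd ℂ S B (f * z)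

theorem Dmn.one_le (hn : Algebra.trdeg ℂ K = n) {S : Set K} (hS : S.Finite) (h1 : (1 : K) ∈ S)
    {B : ℕ} {z : K} (hz : Dmn S B z) {W : Multiset K} (hW : W.card + 1 = n) :
    ∃ v ∈ Submodule.span ℂ S, dm ℂ (z ::ₘ W) ≤ B * dm ℂ (v ::ₘ W) := by
  obtain ⟨f, hf, hf1, hf2⟩ := hz
  obtain ⟨v, hv, hle⟩ := repl hn hS h1 (B := B) (f₀ := f) (f₁ := f * z) hf hf1 hf2 hW
  rw [mul_div_cancel_left₀ _ hf] at hle
  exact ⟨v, hv, hle⟩

theorem dom_all (hn : Algebra.trdeg ℂ K = n) {S : Set K} (hS : S.Finite) (h1 : (1 : K) ∈ S)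
    {B : ℕ} {I₀ : ℕ} (X : Multiset K) : ∀ (Y : Multiset K), (X + Y).card = n →
    (∀ x ∈ X, Dmn S B x) →
    (∀ Z : Multiset K, Z.card = X.card → (∀ z ∈ Z, z ∈ Submodule.span ℂ S) →
      dm ℂ (Z + Y) ≤ I₀) → dm ℂ (X + Y) ≤ B ^ X.card * I₀ := by
  induction X using Multiset.induction_on with
  | empty =>
    intro Y _ _ h
    have := h 0 rfl (by simp)
    rwa [Multiset.card_zero, pow_zero, one_mul]
  | cons x X ih =>
    intro Y hc hX h
    rw [Multiset.cons_add, Multiset.card_cons] at hc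
    obtain ⟨v, hv, hle⟩ := (hX x (Multiset.mem_cons_self _ _)).one_le hn hS h1 hc
    have h2 := ih (v ::ₘ Y) (by rw [Multiset.add_cons, Multiset.card_cons]; exact hc)
      (fun x hx => hX x (Multiset.mem_cons_of_mem hx)) (fun Z hZ hZs => by
        have h3 := h (v ::ₘ Z) (by rw [Multiset.card_cons, Multiset.card_cons, hZ]) (by
          intro z hz
          rcases Multiset.mem_cons.1 hz with rfl | hz
          · exact hv
          · exact hZs z hz)
        rwa [Multiset.cons_add, ← Multiset.add_cons] at h3)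
    rw [Multiset.add_cons] at h2
    rw [Multiset.cons_add, Multiset.card_cons, pow_succ]
    calc dm ℂ (x ::ₘ (X + Y)) ≤ B * dm ℂ (v ::ₘ (X + Y)) := hle
      _ ≤ B * (B ^ X.card * I₀) := Nat.mul_le_mul_left _ h2
      _ = B ^ X.card * B * I₀ := by ring

theorem dm_pow_all (hn : Algebra.trdeg ℂ K = n) {q : ℕ} (hq : 1 ≤ q) (X : Multiset K) :
    ∀ Y : Multiset K, (X + Y).card = n →
      q ^ X.card * dm ℂ (X + Y) ≤ dm ℂ (X.map (fun x => x ^ q) + Y) := by
  induction X using Multiset.induction_on with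
  | empty =>
    intro Y _
    rw [Multiset.card_zero, pow_zero, one_mul, Multiset.map_zero]
  | cons x X ih =>
    intro Y hc
    rw [Multiset.cons_add, Multiset.card_cons] at hc
    have h1 := dm_pow hn (z := x) (W := X + Y) hc hq
    have h2 := ih ((x ^ q) ::ₘ Y) (by rw [Multiset.add_cons, Multiset.card_cons]; exact hc)
    rw [Multiset.add_cons, Multiset.add_cons] at h2
    rw [Multiset.cons_add, Multiset.map_cons, Multiset.cons_add, Multiset.card_cons, pow_succ]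
    calc q ^ X.card * q * dm ℂ (x ::ₘ (X + Y)) = q ^ X.card * (q * dm ℂ (x ::ₘ (X + Y))) := by ring
      _ ≤ q ^ X.card * dm ℂ ((x ^ q) ::ₘ (X + Y)) := Nat.mul_le_mul_left _ h1
      _ ≤ _ := h2

/-- logarithmic concavity -/
theorem seq_chain (κ : ℕ) : ∃ C : ℝ, 0 < C ∧ ∀ a : ℕ → ℝ, (∀ j ≤ κ + 1, 0 < a j) →
    (∀ j, j + 2 ≤ κ + 1 → a j * a (j + 2) ≤ 4 * a (j + 1) ^ 2) →
    a 0 * a (κ + 1) ^ κ ≤ C * a κ ^ (κ + 1) := by
  induction κ with
  | zero =>
    refine ⟨1, one_pos, fun a _ _ => ?_⟩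
    rw [pow_zero, mul_one, one_mul, zero_add, pow_one]
  | succ κ ih =>
    obtain ⟨C, hC, h⟩ := ih
    refine ⟨C * 4 ^ (κ + 1), by positivity, fun a ha hlc => ?_⟩
    have h1 := h a (fun j hj => ha j (by omega)) fun j hj => hlc j (by omega)
    have h2 := hlc κ (by omega)
    have p0 := ha 0 (by omega)
    have p1 := ha κ (by omega)
    have p2 := ha (κ + 1) (by omega)
    have p3 := ha (κ + 1 + 1) (by omega)
    have h3 : (a κ * a (κ + 2)) ^ (κ + 1) ≤ (4 * a (κ + 1) ^ 2) ^ (κ + 1) :=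
      pow_le_pow_left₀ (mul_nonneg p1.le p3.le) h2 _
    rw [mul_pow, mul_pow, ← pow_mul] at h3
    have h4 : a 0 * a (κ + 1) ^ κ * a (κ + 1 + 1) ^ (κ + 1) ≤
        C * (4 ^ (κ + 1) * a (κ + 1) ^ (2 * (κ + 1))) := by
      calc a 0 * a (κ + 1) ^ κ * a (κ + 1 + 1) ^ (κ + 1) ≤
            C * a κ ^ (κ + 1) * a (κ + 1 + 1) ^ (κ + 1) :=
          mul_le_mul_of_nonneg_right h1 (pow_nonneg p3.le _)
        _ = C * (a κ ^ (κ + 1) * a (κ + 1 + 1) ^ (κ + 1)) := by ring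
        _ ≤ _ := mul_le_mul_of_nonneg_left h3 hC.le
    have e1 : a (κ + 1) ^ (2 * (κ + 1)) = a (κ + 1) ^ κ * a (κ + 1) ^ (κ + 2) := by
      rw [← pow_add]
      congr 1
      ring
    rw [e1] at h4
    have h5 : a (κ + 1) ^ κ * (a 0 * a (κ + 1 + 1) ^ (κ + 1)) ≤
        a (κ + 1) ^ κ * (C * 4 ^ (κ + 1) * a (κ + 1) ^ (κ + 2)) := by
      calc a (κ + 1) ^ κ * (a 0 * a (κ + 1 + 1) ^ (κ + 1)) =
            a 0 * a (κ + 1) ^ κ * a (κ + 1 + 1) ^ (κ + 1) := by ring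
        _ ≤ _ := h4
        _ = _ := by ring
    exact le_of_mul_le_mul_left h5 (pow_pos p2 _)

end

end Pool.Agent.T2h12
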