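import Pool.Agent.T2h12.SysB

/-!
The abstract plateau theorem for means over words.
-/

set_option autoImplicit false

open Multiset Filter Topology

open Pool.Agent.N110

namespace Pool.Agent.T2h12

/-- growth of a sequence -/
theorem seq_growth {C A L L' : ℝ} (hCp : 0 < C) (hA : 0 < A) (hL : 0 < L) (hlt : L < L')
    {N : ℕ → ℝ} (hN : ∀ l, 0 ≤ N l)
    (h : ∀ l k (z : ℝ), 1 ≤ z →
      N (l + k) ≤ C * ((N k + z * (A * L ^ k)) * (N l + z * (A * L ^ l)) / z)) :
    ∃ A', 0 < A' ∧ ∀ l, N l ≤ A' * L' ^ l := by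
  have hL' : 0 < L' := hL.trans hlt
  obtain ⟨θ, hθ⟩ : ∃ θ : ℝ, θ = L' / L := ⟨_, rfl⟩
  have hθ1 : 1 < θ := by rw [hθ, lt_div_iff₀ hL, one_mul]; exact hlt
  obtain ⟨L0, hL0⟩ := pow_unbounded_of_one_lt (4 * C * A) hθ1
  obtain ⟨bb, hbb⟩ : ∃ bb : ℕ → ℝ, ∀ l, bb l = N l / L' ^ l := ⟨_, fun _ => rfl⟩
  have hbb0 : ∀ l, 0 ≤ bb l := fun l => by
    rw [hbb]
    have := hN l
    positivity
  obtain ⟨A', hA'⟩ : ∃ A' : ℝ, A' = A + ∑ l ∈ Finset.range (2 * L0 + 2), bb l := ⟨_, rfl⟩
  have hsum0 : 0 ≤ ∑ l ∈ Finset.range (2 * L0 + 2), bb l :=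
    Finset.sum_nonneg fun l _ => hbb0 l
  have hAA' : A ≤ A' := by rw [hA']; linarith
  have hA'0 : 0 < A' := hA.trans_le hAA'
  refine ⟨A', hA'0, fun l => ?_⟩
  induction l using Nat.strong_induction_on with
  | _ l ih =>
    by_cases hl : l < 2 * L0 + 2
    · rw [← div_le_iff₀ (by positivity), ← hbb]
      have h2 : bb l ≤ ∑ l ∈ Finset.range (2 * L0 + 2), bb l :=
        Finset.single_le_sum (f := fun l => bb l) (fun _ _ => hbb0 _) (Finset.mem_range.2 hl)
      rw [hA']
      linarith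
    · obtain ⟨l1, hl1⟩ : ∃ l1, l1 = l / 2 := ⟨_, rfl⟩
      obtain ⟨l2, hl2⟩ : ∃ l2, l2 = l - l1 := ⟨_, rfl⟩
      have e12 : l1 + l2 = l := by omega
      have hl12 : l1 ≤ l2 := by omega
      have hL01 : L0 ≤ l1 := by omega
      obtain ⟨z, hz⟩ : ∃ z : ℝ, z = A' * L' ^ l2 / (A * L ^ l2) := ⟨_, rfl⟩
      have hz' : z = A' / A * θ ^ l2 := by
        rw [hz, hθ, div_pow, mul_div_mul_comm]
      have hz1 : 1 ≤ z := by
        rw [hz', ← one_mul (1 : ℝ)]
        refine mul_le_mul ?_ (one_le_pow₀ hθ1.le) zero_le_one (by positivity)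
        rwa [le_div_iff₀ hA, one_mul]
      have hz0 : 0 < z := by linarith
      have hst := h l1 l2 z hz1
      rw [e12] at hst
      have i1 := ih l1 (by omega)
      have i2 := ih l2 (by omega)
      have e1 : z * (A * L ^ l2) = A' * L' ^ l2 := by
        rw [hz]
        field_simp
      have e2 : A' * L' ^ l1 ≤ z * (A * L ^ l1) := by
        have h1 : A' * L' ^ l1 = A' / A * θ ^ l1 * (A * L ^ l1) := by
          rw [hθ, div_pow]
          field_simp
        rw [h1]
        refine mul_le_mul_of_nonneg_right ?_ (by positivity)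
        rw [hz']
        exact mul_le_mul_of_nonneg_left (pow_le_pow_right₀ hθ1.le hl12) (by positivity)
      have p1 := hN l1
      have p2 := hN l2
      have e3 : (N l2 + z * (A * L ^ l2)) * (N l1 + z * (A * L ^ l1)) / z ≤
          4 * (A' * L' ^ l2) * (A * L ^ l1) := by
        rw [div_le_iff₀ hz0]
        have h2 : N l2 + z * (A * L ^ l2) ≤ 2 * (A' * L' ^ l2) := by
          rw [e1]
          linarith
        have h3 : N l1 + z * (A * L ^ l1) ≤ 2 * (z * (A * L ^ l1)) := by linarith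
        calc (N l2 + z * (A * L ^ l2)) * (N l1 + z * (A * L ^ l1)) ≤
              (2 * (A' * L' ^ l2)) * (2 * (z * (A * L ^ l1))) :=
            mul_le_mul h2 h3 (by positivity) (by positivity)
          _ = 4 * (A' * L' ^ l2) * (A * L ^ l1) * z := by ring
      calc N l ≤ C * ((N l2 + z * (A * L ^ l2)) * (N l1 + z * (A * L ^ l1)) / z) := hst
        _ ≤ C * (4 * (A' * L' ^ l2) * (A * L ^ l1)) := mul_le_mul_of_nonneg_left e3 hCp.le
        _ = A' * L' ^ l2 * ((4 * C * A) * L ^ l1) := by ring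
        _ ≤ A' * L' ^ l2 * (θ ^ l1 * L ^ l1) := by
          refine mul_le_mul_of_nonneg_left (mul_le_mul_of_nonneg_right ?_ (by positivity))
            (by positivity)
          exact hL0.le.trans (pow_le_pow_right₀ hθ1.le hL01)
        _ = A' * L' ^ l := by
          rw [← e12, pow_add, hθ, div_pow]
          field_simp

theorem add_rpow_le' {x y s : ℝ} (hx : 0 ≤ x) (hy : 0 ≤ y) (hs : 0 < s) :
    (x + y) ^ s ≤ 2 ^ s * (x ^ s + y ^ s) := by
  have h1 : x + y ≤ 2 * max x y := by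
    have := le_max_left x y
    have := le_max_right x y
    linarith
  have h2 : 0 ≤ max x y := le_max_of_le_left hx
  calc (x + y) ^ s ≤ (2 * max x y) ^ s := Real.rpow_le_rpow (by positivity) h1 hs.le
    _ = 2 ^ s * (max x y) ^ s := Real.mul_rpow (by norm_num) h2
    _ ≤ 2 ^ s * (x ^ s + y ^ s) := by
      refine mul_le_mul_of_nonneg_left ?_ (by positivity)
      rcases le_total x y with h | h
      · rw [max_eq_right h]
        have := Real.rpow_nonneg hx s
        linarith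
      · rw [max_eq_left h]
        have := Real.rpow_nonneg hy s
        linarith

theorem sum_rpow_le {ι : Type*} (T : Finset ι) {x : ι → ℝ} (hx : ∀ i, 0 ≤ x i) {s : ℝ}
    (hs : 0 < s) : (∑ i ∈ T, x i) ^ s ≤ (2 ^ s) ^ T.card * ∑ i ∈ T, x i ^ s := by
  classical
  induction T using Finset.induction_on with
  | empty => simp [Real.zero_rpow hs.ne']
  | insert a T ha ih =>
    rw [Finset.sum_insert ha, Finset.sum_insert ha, Finset.card_insert_of_notMem ha]
    have h1 : (1 : ℝ) ≤ 2 ^ s := Real.one_le_rpow (by norm_num) hs.le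
    have h2 : (1 : ℝ) ≤ (2 ^ s) ^ T.card := one_le_pow₀ h1
    have h3 := Real.rpow_nonneg (hx a) s
    have h4 : 0 ≤ ∑ i ∈ T, x i := Finset.sum_nonneg fun i _ => hx i
    have h5 : 0 ≤ ∑ i ∈ T, x i ^ s := Finset.sum_nonneg fun i _ => Real.rpow_nonneg (hx i) s
    calc (x a + ∑ i ∈ T, x i) ^ s ≤ 2 ^ s * (x a ^ s + (∑ i ∈ T, x i) ^ s) :=
          add_rpow_le' (hx a) h4 hs
      _ ≤ 2 ^ s * ((2 ^ s) ^ T.card * x a ^ s + (2 ^ s) ^ T.card * ∑ i ∈ T, x i ^ s) := by
        refine mul_le_mul_of_nonneg_left ?_ (by positivity)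
        refine add_le_add ?_ ih
        exact le_mul_of_one_le_left h3 h2
      _ = _ := by rw [pow_succ]; ring

section

variable {ι : Type*} [Fintype ι]

/-- sums over words of length `l + k` -/
theorem sum_append (l k : ℕ) (f : (Fin (l + k) → ι) → ℝ) :
    ∑ v : Fin (l + k) → ι, f v = ∑ u : Fin l → ι, ∑ v : Fin k → ι, f (Fin.append u v) := by
  classical
  rw [← Fintype.sum_prod_type']
  refine (Fintype.sum_equiv (Fin.appendEquiv l k) _ _ fun p => ?_).symm
  rfl

/-- the weight of a word -/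
def wt (w : ι → ℝ) {l : ℕ} (v : Fin l → ι) : ℝ := ∏ i, w (v i)

theorem wt_append (w : ι → ℝ) {l k : ℕ} (u : Fin l → ι) (v : Fin k → ι) :
    wt w (Fin.append u v) = wt w u * wt w v := by
  unfold wt
  rw [Fin.prod_univ_add]
  congr 1
  · refine Finset.prod_congr rfl fun i _ => ?_
    rw [Fin.append_left]
  · refine Finset.prod_congr rfl fun i _ => ?_
    rw [Fin.append_right]

theorem wt_nonneg {w : ι → ℝ} (hw : ∀ i, 0 ≤ w i) {l : ℕ} (v : Fin l → ι) : 0 ≤ wt w v :=
  Finset.prod_nonneg fun i _ => hw _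

end

end Pool.Agent.T2h12
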