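import Pool.Agent.T2h12.SysC
import Pool.Agent.T2h12.Wgt

/-!
The abstract plateau theorem for means over words.
-/

set_option autoImplicit false

open Multiset Filter Topology

open Pool.Agent.N110

namespace Pool.Agent.T2h12

variable {α 𝒜 : Type*}

/-- the best bound for the products -/
noncomputable def Xb (n : ℕ) (t : Multiset α → ℝ) (H : α) (m : ℕ → ℝ) (M : 𝒜 → ℕ → α)
    (F : α → α) (i : ℕ) : ℝ :=
  sInf {B : ℝ | 0 < B ∧ ∀ p, i + p ≤ n → Bw n t H m M F i p B}

/-- the sum of the best bounds above `i` -/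
noncomputable def Yb (n : ℕ) (t : Multiset α → ℝ) (H : α) (m : ℕ → ℝ) (M : 𝒜 → ℕ → α) (ν : ℕ)
    (F : α → α) (i : ℕ) : ℝ :=
  ∑ i' ∈ Finset.Ioc i ν, Xb n t H m M F i'

theorem xb_nonneg {n : ℕ} {t : Multiset α → ℝ} {H : α} {m : ℕ → ℝ} {M : 𝒜 → ℕ → α}
    (F : α → α) (i : ℕ) : 0 ≤ Xb n t H m M F i :=
  Real.sInf_nonneg fun _ h => h.1.le

theorem yb_nonneg {n : ℕ} {t : Multiset α → ℝ} {H : α} {m : ℕ → ℝ} {M : 𝒜 → ℕ → α} {ν : ℕ}
    (F : α → α) (i : ℕ) : 0 ≤ Yb n t H m M ν F i :=
  Finset.sum_nonneg fun _ _ => xb_nonneg _ _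

theorem xb_le {n : ℕ} {t : Multiset α → ℝ} {H : α} {m : ℕ → ℝ} {M : 𝒜 → ℕ → α}
    {F : α → α} {i : ℕ} {B : ℝ} (hB : 0 < B) (h : ∀ p, i + p ≤ n → Bw n t H m M F i p B) :
    Xb n t H m M F i ≤ B :=
  csInf_le ⟨0, fun _ h => h.1.le⟩ ⟨hB, h⟩

namespace SysC

variable {n : ℕ} {t : Multiset α → ℝ} {W : ℕ → Set (α → α)} {H : α} {m : ℕ → ℝ}
  {M : 𝒜 → ℕ → α} {D : α → ℕ → α} {ν : ℕ} {c ε C₁ : ℝ}

theorem x_nonempty (h : SysC n t W H m M D ν c ε C₁) {l : ℕ} {F : α → α} (hF : F ∈ W l)
    (i : ℕ) : ({B : ℝ | 0 < B ∧ ∀ p, i + p ≤ n → Bw n t H m M F i p B}).Nonempty := by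
  obtain ⟨β, hβ0, hβ⟩ := h.F_le l
  have hc := h.hc
  have hH : 0 < t (replicate n H) := h.pos _ (card_replicate _ _)
  have h0 : ∀ p ∈ Finset.range (n + 1), 0 ≤ c ^ i * (β ^ (i + p) * t (replicate n H)) :=
    fun p _ => by positivity
  refine ⟨1 + ∑ p ∈ Finset.range (n + 1), c ^ i * (β ^ (i + p) * t (replicate n H)), ?_,
    fun p hp => h.bw_mono (h.bw_exists hβ0 hF (hβ F hF) hp) ?_⟩
  · have := Finset.sum_nonneg h0
    linarith
  · have := Finset.single_le_sum h0 (Finset.mem_range.2 (by omega : p < n + 1))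
    linarith

theorem xb_add (h : SysC n t W H m M D ν c ε C₁) {l : ℕ} {F : α → α} (hF : F ∈ W l)
    (i : ℕ) {δ : ℝ} (hδ : 0 < δ) {p : ℕ} (hp : i + p ≤ n) :
    Bw n t H m M F i p (Xb n t H m M F i + δ) := by
  obtain ⟨B, hB, hlt⟩ := exists_lt_of_csInf_lt (h.x_nonempty hF i)
    (lt_add_of_pos_right (Xb n t H m M F i) hδ)
  exact h.bw_mono (hB.2 p hp) hlt.le

theorem deg_le (h : SysC n t W H m M D ν c ε C₁) (h𝒜 : Nonempty 𝒜) {l : ℕ} {F : α → α}
    (hF : F ∈ W l) {p : ℕ} (hp : p ≤ n) :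
    t (replicate p (F H) + replicate (n - p) H) ≤ Xb n t H m M F 0 := by
  refine le_csInf (h.x_nonempty hF 0) ?_
  rintro B ⟨hB, h1⟩
  obtain ⟨a⟩ := h𝒜
  obtain ⟨q, hq⟩ := (h1 p (by omega) a).exists
  simpa using hq

/-- the main inequality for the best bounds -/
theorem step_x (h : SysC n t W H m M D ν c ε C₁) {i l k : ℕ} (hi : i < ν) {z : ℝ}
    (hz : 1 ≤ z) {F G : α → α} (hF : F ∈ W l) (hG : G ∈ W k) :
    Xb n t H m M (F ∘ G) i ≤ 4 ^ (n * n + n) / ε *
      ((Xb n t H m M G i + z * Yb n t H m M ν G i) *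
        (Xb n t H m M F i + z * Yb n t H m M ν F i) / z) := by
  have hν := h.hν
  have hε := h.hε
  have hz0 : 0 < z := by linarith
  obtain ⟨g, hg⟩ : ∃ g : ℝ → ℝ, g = fun δ => 4 ^ (n * n + n) / ε *
      (((Xb n t H m M G i + δ) + z * (Yb n t H m M ν G i + δ)) *
        ((Xb n t H m M F i + δ) + z * (Yb n t H m M ν F i + δ)) / z) := ⟨_, rfl⟩
  have hcont : Continuous g := by
    rw [hg]
    fun_prop
  have hle : ∀ δ, 0 < δ → Xb n t H m M (F ∘ G) i ≤ g δ := by
    intro δ hδ
    have x1 := xb_nonneg (n := n) (t := t) (H := H) (m := m) (M := M) F i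
    have x2 := xb_nonneg (n := n) (t := t) (H := H) (m := m) (M := M) G i
    have y1 := yb_nonneg (n := n) (t := t) (H := H) (m := m) (M := M) (ν := ν) F i
    have y2 := yb_nonneg (n := n) (t := t) (H := H) (m := m) (M := M) (ν := ν) G i
    have hY : ∀ (k : ℕ) (E : α → α), E ∈ W k → ∀ i' p, i < i' → i' ≤ ν → i' + p ≤ n →
        Bw n t H m M E i' p (Yb n t H m M ν E i + δ) := by
      intro k E hE i' p h1 h2 h3
      refine h.bw_mono (h.xb_add hE i' hδ h3) ?_
      have := Finset.single_le_sum (f := fun i' => Xb n t H m M E i')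
        (fun i' _ => xb_nonneg E i') (Finset.mem_Ioc.2 ⟨h1, h2⟩)
      unfold Yb
      linarith
    have hst := h.step hi hz (l := l) (k := k) (bl := Xb n t H m M F i + δ)
      (bk := Xb n t H m M G i + δ) (gl := Yb n t H m M ν F i + δ)
      (gk := Yb n t H m M ν G i + δ) (by positivity) (by positivity) (by positivity)
      (by positivity) hF hG (fun p hp => h.xb_add hF i hδ hp) (fun p hp => h.xb_add hG i hδ hp)
      (hY l F hF) (hY k G hG)
    rw [hg]
    refine xb_le ?_ hst
    have := h.hn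
    positivity
  have h1 : Tendsto g (𝓝[>] 0) (𝓝 (g 0)) := (hcont.tendsto 0).mono_left nhdsWithin_le_nhds
  have h2 : Xb n t H m M (F ∘ G) i ≤ g 0 := by
    refine ge_of_tendsto h1 ?_
    filter_upwards [self_mem_nhdsWithin] with δ hδ
    exact hle δ hδ
  rw [hg] at h2
  simpa only [add_zero] using h2

/-- the bound for the products with `ν` elements `M` -/
theorem top_bw (h : SysC n t W H m M D ν c ε C₁) {l : ℕ} {F : α → α} (hF : F ∈ W l) {p a : ℕ}
    (hp : ν + p ≤ n) (ha : a ≤ ν) : Bw n t H m M F ν p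
      (c ^ ν * t (replicate (p + a) (F H) + replicate (n - (p + a)) H)) := by
  intro r
  obtain ⟨r', hr'⟩ := h.M_f l F hF r
  filter_upwards [h.M_le r', h.M_le r] with q hq hq2
  have hm := h.m_pos q
  have hc := h.hc
  have hq3 : Le n t (c * m q) (F (M r q)) H := by
    have := (h.leW_one (hr' q)).trans zero_le_one (h.leW_one hq)
    rwa [one_mul] at this
  have g1 := (hq2 l F hF).rep (mul_pos hc hm).le a (replicate (ν - a) (F (M r q)) +
    (replicate p (F H) + replicate (n - ν - p) H))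
    (by simp only [card_add, card_replicate]; omega)
  have g2 := hq3.rep (mul_pos hc hm).le (ν - a) (replicate a (F H) +
    (replicate p (F H) + replicate (n - ν - p) H))
    (by simp only [card_add, card_replicate]; omega)
  have e1 : replicate a (F (M r q)) + (replicate (ν - a) (F (M r q)) +
      (replicate p (F H) + replicate (n - ν - p) H)) =
      replicate ν (F (M r q)) + (replicate p (F H) +
        replicate (n - ν - p) H) := by
    rw [← add_assoc, ← replicate_add]
    congr 2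
    omega
  have e2 : replicate a (F H) + (replicate (ν - a) (F (M r q)) +
      (replicate p (F H) + replicate (n - ν - p) H)) =
      replicate (ν - a) (F (M r q)) + (replicate a (F H) +
      (replicate p (F H) + replicate (n - ν - p) H)) := by
    rw [add_left_comm]
  have e3 : replicate (ν - a) H + (replicate a (F H) +
      (replicate p (F H) + replicate (n - ν - p) H)) =
      replicate (p + a) (F H) + replicate (n - (p + a)) H := by
    have e4 : n - (p + a) = (ν - a) + (n - ν - p) := by omega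
    rw [e4, replicate_add, replicate_add]
    abel
  rw [e1, e2] at g1
  rw [e3] at g2
  calc _ ≤ (c * m q) ^ a * _ := g1
    _ ≤ (c * m q) ^ a * ((c * m q) ^ (ν - a) * t (replicate (p + a)
      (F H) + replicate (n - (p + a)) H)) :=
      mul_le_mul_of_nonneg_left g2 (by positivity)
    _ = c ^ ν * t (replicate (p + a) (F H) + replicate (n - (p + a)) H) * m q ^ ν := by
      rw [← mul_assoc, ← pow_add, show a + (ν - a) = ν by omega, mul_pow]
      ring

theorem top_x (h : SysC n t W H m M D ν c ε C₁) {l : ℕ} {F : α → α} (hF : F ∈ W l)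
    (a : ℕ → ℕ) (ha : ∀ p, a p ≤ ν) : Xb n t H m M F ν ≤
      ∑ p ∈ Finset.range (n - ν + 1),
        c ^ ν * t (replicate (p + a p) (F H) + replicate (n - (p + a p)) H) := by
  have hν := h.hν
  have hc := h.hc
  have hpos : ∀ p ∈ Finset.range (n - ν + 1),
      0 < c ^ ν * t (replicate (p + a p) (F H) + replicate (n - (p + a p)) H) := by
    intro p hp
    rw [Finset.mem_range] at hp
    have h1 := ha p
    have h2 := h.pos (replicate (p + a p) (F H) + replicate (n - (p + a p)) H)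
      (by simp only [card_add, card_replicate]; omega)
    positivity
  refine xb_le (Finset.sum_pos hpos ⟨0, by simp⟩) fun p hp => ?_
  refine h.bw_mono (h.top_bw hF hp (ha p)) ?_
  exact Finset.single_le_sum
    (f := fun p => c ^ ν * t (replicate (p + a p) (F H) + replicate (n - (p + a p)) H))
    (fun p hp => (hpos p hp).le) (Finset.mem_range.2 (by omega : p < n - ν + 1))

end SysC

/-- bounds for the long words are bounds for all words -/
theorem all_of_ev {E : ℕ → ℝ} (hE : ∀ l, 0 ≤ E l) {A L : ℝ} (hL : 0 < L) {l0 : ℕ}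
    (h : ∀ l, l0 ≤ l → E l ≤ A * L ^ l) : ∃ A', 0 < A' ∧ ∀ l, E l ≤ A' * L ^ l := by
  have h0 : ∀ l ∈ Finset.range l0, 0 ≤ E l / L ^ l := fun l _ => by
    have := hE l
    positivity
  have hs := Finset.sum_nonneg h0
  refine ⟨|A| + 1 + ∑ l ∈ Finset.range l0, E l / L ^ l, by positivity, fun l => ?_⟩
  by_cases hl : l0 ≤ l
  · refine (h l hl).trans (mul_le_mul_of_nonneg_right ?_ (by positivity))
    linarith [le_abs_self A]
  · rw [← div_le_iff₀ (by positivity)]
    have := Finset.single_le_sum h0 (Finset.mem_range.2 (not_le.1 hl))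
    linarith [abs_nonneg A]

namespace SysC

variable {n : ℕ} {t : Multiset α → ℝ} {W : ℕ → Set (α → α)} {H : α} {m : ℕ → ℝ}
  {M : 𝒜 → ℕ → α} {D : α → ℕ → α} {ν : ℕ} {c ε C₁ : ℝ}

section

variable {ι : Type*} [Fintype ι]

/-- the mean of the best bounds -/
noncomputable def Nw (n : ℕ) (t : Multiset α → ℝ) (H : α) (m : ℕ → ℝ) (M : 𝒜 → ℕ → α)
    (w : ι → ℝ) (Fw : ∀ l, (Fin l → ι) → α → α) (s : ℝ) (i l : ℕ) : ℝ :=
  ∑ v : Fin l → ι, wt w v * Xb n t H m M (Fw l v) i ^ s

theorem nw_nonneg {w : ι → ℝ} (hw : ∀ i, 0 ≤ w i) (Fw : ∀ l, (Fin l → ι) → α → α) (s : ℝ)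
    (i l : ℕ) : 0 ≤ Nw n t H m M w Fw s i l :=
  Finset.sum_nonneg fun v _ => mul_nonneg (wt_nonneg hw v) (Real.rpow_nonneg (xb_nonneg _ _) _)

theorem nw_step (h : SysC n t W H m M D ν c ε C₁) {w : ι → ℝ} (hw : ∀ i, 0 ≤ w i)
    {Fw : ∀ l, (Fin l → ι) → α → α} (hFw : ∀ l v, Fw l v ∈ W l)
    (hap : ∀ l k (u : Fin l → ι) (v : Fin k → ι), Fw (l + k) (Fin.append u v) =
      Fw l u ∘ Fw k v) {s : ℝ} (hs : 0 < s) {i : ℕ} (hi : i < ν) {A L : ℝ}
    (hY : ∀ l, ∑ v : Fin l → ι, wt w v * Yb n t H m M ν (Fw l v) i ^ s ≤ A * L ^ l)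
    (l k : ℕ) {z : ℝ} (hz : 1 ≤ z) :
    Nw n t H m M w Fw s i (l + k) ≤ ((4 ^ (n * n + n) / ε) ^ s * 2 ^ s * 2 ^ s) *
      ((Nw n t H m M w Fw s i k + z * (A * L ^ k)) *
        (Nw n t H m M w Fw s i l + z * (A * L ^ l)) / z) := by
  classical
  have hε := h.hε
  obtain ⟨x, hx1, hxz⟩ : ∃ x : ℝ, 1 ≤ x ∧ x ^ s = z := by
    refine ⟨z ^ (s⁻¹), Real.one_le_rpow hz (by positivity), ?_⟩
    rw [← Real.rpow_mul (by linarith), inv_mul_cancel₀ hs.ne', Real.rpow_one]
  have hx0 : 0 < x := by linarith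
  have hz0 : 0 < z := by linarith
  obtain ⟨C, hC⟩ : ∃ C : ℝ, C = 4 ^ (n * n + n) / ε := ⟨_, rfl⟩
  have hC0 : 0 < C := by rw [hC]; positivity
  rw [← hC]
  obtain ⟨X, hX⟩ : ∃ X : ∀ l, (Fin l → ι) → ℝ, X = fun l v => Xb n t H m M (Fw l v) i :=
    ⟨_, rfl⟩
  obtain ⟨Y, hYd⟩ : ∃ Y : ∀ l, (Fin l → ι) → ℝ, Y = fun l v => Yb n t H m M ν (Fw l v) i :=
    ⟨_, rfl⟩
  have hX0 : ∀ l v, 0 ≤ X l v := fun l v => by
    rw [hX]
    exact xb_nonneg _ _
  have hY0 : ∀ l v, 0 ≤ Y l v := fun l v => by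
    rw [hYd]
    exact yb_nonneg _ _
  have hN : ∀ l, Nw n t H m M w Fw s i l = ∑ v : Fin l → ι, wt w v * X l v ^ s := fun l => by
    rw [hX]
    rfl
  have hY' : ∀ l, ∑ v : Fin l → ι, wt w v * Y l v ^ s ≤ A * L ^ l := fun l => by
    rw [hYd]
    exact hY l
  obtain ⟨P, hP⟩ : ∃ P : ∀ l, (Fin l → ι) → ℝ,
      P = fun l v => wt w v * (2 ^ s * (X l v ^ s + z * Y l v ^ s)) := ⟨_, rfl⟩
  have hPs : ∀ l, ∑ v : Fin l → ι, P l v ≤
      2 ^ s * (Nw n t H m M w Fw s i l + z * (A * L ^ l)) := by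
    intro l
    have e1 : ∑ v : Fin l → ι, P l v = 2 ^ s * (Nw n t H m M w Fw s i l +
        z * ∑ v : Fin l → ι, wt w v * Y l v ^ s) := by
      rw [hN, hP, Finset.mul_sum, ← Finset.sum_add_distrib, Finset.mul_sum]
      refine Finset.sum_congr rfl fun v _ => ?_
      ring
    rw [e1]
    have := hY' l
    gcongr
  have hP0 : ∀ l v, 0 ≤ P l v := by
    intro l v
    rw [hP]
    have h1 := Real.rpow_nonneg (hX0 l v) s
    have h2 := Real.rpow_nonneg (hY0 l v) s
    have h3 := wt_nonneg hw v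
    positivity
  have hbase : ∀ l v, 0 ≤ X l v + x * Y l v := fun l v => by
    have := hX0 l v
    have := hY0 l v
    positivity
  have hPle : ∀ l v, wt w v * (X l v + x * Y l v) ^ s ≤ P l v := by
    intro l v
    rw [hP]
    refine mul_le_mul_of_nonneg_left ?_ (wt_nonneg hw v)
    refine (add_rpow_le' (hX0 l v) (mul_nonneg hx0.le (hY0 l v)) hs).trans (le_of_eq ?_)
    rw [Real.mul_rpow hx0.le (hY0 l v), hxz]
  have hterm : ∀ (u : Fin l → ι) (v : Fin k → ι), wt w (Fin.append u v) *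
      X (l + k) (Fin.append u v) ^ s ≤ C ^ s / z * (P k v * P l u) := by
    intro u v
    have h1 : X (l + k) (Fin.append u v) ≤
        C * ((X k v + x * Y k v) * (X l u + x * Y l u) / x) := by
      rw [hX, hYd]
      beta_reduce
      rw [hap, hC]
      exact h.step_x hi hx1 (hFw l u) (hFw k v)
    have h2 := Real.rpow_le_rpow (hX0 _ _) h1 hs.le
    have e1 : (C * ((X k v + x * Y k v) * (X l u + x * Y l u) / x)) ^ s =
        C ^ s * ((X k v + x * Y k v) ^ s * (X l u + x * Y l u) ^ s / z) := by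
      have b1 := hbase k v
      have b2 := hbase l u
      rw [Real.mul_rpow hC0.le (by positivity), Real.div_rpow (by positivity) hx0.le,
        Real.mul_rpow b1 b2, hxz]
    rw [e1] at h2
    rw [wt_append]
    have h3 := mul_le_mul_of_nonneg_left h2 (mul_nonneg (wt_nonneg hw u) (wt_nonneg hw v))
    have h4 : wt w u * wt w v *
        (C ^ s * ((X k v + x * Y k v) ^ s * (X l u + x * Y l u) ^ s / z)) =
        C ^ s / z * ((wt w v * (X k v + x * Y k v) ^ s) *
          (wt w u * (X l u + x * Y l u) ^ s)) := by ring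
    rw [h4] at h3
    refine h3.trans ?_
    have h5 : 0 ≤ wt w u * (X l u + x * Y l u) ^ s :=
      mul_nonneg (wt_nonneg hw u) (Real.rpow_nonneg (hbase l u) s)
    refine mul_le_mul_of_nonneg_left ?_ (by positivity)
    exact mul_le_mul (hPle k v) (hPle l u) h5 (hP0 k v)
  rw [hN (l + k), sum_append]
  calc ∑ u : Fin l → ι, ∑ v : Fin k → ι, wt w (Fin.append u v) *
        X (l + k) (Fin.append u v) ^ s
      ≤ ∑ u : Fin l → ι, ∑ v : Fin k → ι, C ^ s / z * (P k v * P l u) :=
        Finset.sum_le_sum fun u _ => Finset.sum_le_sum fun v _ => hterm u v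
    _ = C ^ s / z * ((∑ v : Fin k → ι, P k v) * ∑ u : Fin l → ι, P l u) := by
        rw [Finset.sum_mul_sum, Finset.mul_sum, Finset.sum_comm]
        refine Finset.sum_congr rfl fun v _ => ?_
        rw [Finset.mul_sum]
    _ ≤ C ^ s / z * ((2 ^ s * (Nw n t H m M w Fw s i k + z * (A * L ^ k))) *
        (2 ^ s * (Nw n t H m M w Fw s i l + z * (A * L ^ l)))) := by
        refine mul_le_mul_of_nonneg_left ?_ (by positivity)
        refine mul_le_mul (hPs k) (hPs l) (Finset.sum_nonneg fun u _ => hP0 l u) ?_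
        exact (Finset.sum_nonneg fun v _ => hP0 k v).trans (hPs k)
    _ = _ := by ring

/-- **The abstract plateau theorem for means over words.** -/
theorem weighted (h : SysC n t W H m M D ν c ε C₁) (h𝒜 : Nonempty 𝒜) {w : ι → ℝ}
    (hw : ∀ i, 0 ≤ w i) {Fw : ∀ l, (Fin l → ι) → α → α} (hFw : ∀ l v, Fw l v ∈ W l)
    (hap : ∀ l k (u : Fin l → ι) (v : Fin k → ι), Fw (l + k) (Fin.append u v) =
      Fw l u ∘ Fw k v) {s : ℝ} (hs : 0 < s) {L L' : ℝ} (hL : 0 < L) (hlt : L < L')
    (hyp : ∀ j, j + ν ≤ n → ∃ a ≤ ν, ∃ A : ℝ, ∃ l0 : ℕ, ∀ l, l0 ≤ l →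
      ∑ v : Fin l → ι, wt w v * t (replicate (j + a) (Fw l v H) +
        replicate (n - (j + a)) H) ^ s ≤ A * L ^ l) :
    ∃ A : ℝ, ∀ l, ∀ p, p ≤ n → ∑ v : Fin l → ι, wt w v * t (replicate p (Fw l v H) +
        replicate (n - p) H) ^ s ≤ A * L' ^ l := by
  classical
  have hν := h.hν
  have hc := h.hc
  have htp : ∀ p, p ≤ n → ∀ l (v : Fin l → ι),
      0 < t (replicate p (Fw l v H) + replicate (n - p) H) := fun p hp l v =>
    h.pos _ (by simp only [card_add, card_replicate]; omega)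
  -- the top
  have htop : ∃ A, 0 < A ∧ ∀ l, Nw n t H m M w Fw s ν l ≤ A * L ^ l := by
    have hyp' : ∀ j, ∃ a ≤ ν, j + ν ≤ n → ∃ A : ℝ, 0 < A ∧ ∀ l,
        ∑ v : Fin l → ι, wt w v * t (replicate (j + a) (Fw l v H) +
          replicate (n - (j + a)) H) ^ s ≤ A * L ^ l := by
      intro j
      by_cases hj : j + ν ≤ n
      · obtain ⟨a, ha, A, l0, h1⟩ := hyp j hj
        refine ⟨a, ha, fun _ => all_of_ev (fun l => Finset.sum_nonneg fun v _ =>
          mul_nonneg (wt_nonneg hw v) (Real.rpow_nonneg (htp _ (by omega) l v).le _)) hL h1⟩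
      · exact ⟨0, Nat.zero_le _, fun hj' => absurd hj' hj⟩
    choose a ha hA using hyp'
    choose! A hA0 hA using hA
    refine ⟨(2 ^ s) ^ (n - ν + 1) * (c ^ ν) ^ s * ∑ p ∈ Finset.range (n - ν + 1), A p, ?_,
      fun l => ?_⟩
    · have : 0 < ∑ p ∈ Finset.range (n - ν + 1), A p :=
        Finset.sum_pos (fun p hp => by
          rw [Finset.mem_range] at hp
          exact hA0 p (by omega)) ⟨0, by simp⟩
      positivity
    · have h1 : ∀ v : Fin l → ι, Xb n t H m M (Fw l v) ν ^ s ≤ (2 ^ s) ^ (n - ν + 1) *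
          ∑ p ∈ Finset.range (n - ν + 1), (c ^ ν) ^ s *
            t (replicate (p + a p) (Fw l v H) + replicate (n - (p + a p)) H) ^ s := by
        intro v
        have h2 := Real.rpow_le_rpow (xb_nonneg _ _) (h.top_x (hFw l v) a ha) hs.le
        refine h2.trans ?_
        have h3 := sum_rpow_le (Finset.range (n - ν + 1)) (x := fun p =>
          max 0 (c ^ ν * t (replicate (p + a p) (Fw l v H) + replicate (n - (p + a p)) H)))
          (fun p => le_max_left _ _) hs
        have e1 : ∀ p ∈ Finset.range (n - ν + 1),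
            max 0 (c ^ ν * t (replicate (p + a p) (Fw l v H) +
              replicate (n - (p + a p)) H)) =
            c ^ ν * t (replicate (p + a p) (Fw l v H) + replicate (n - (p + a p)) H) := by
          intro p hp
          rw [Finset.mem_range] at hp
          refine max_eq_right ?_
          have h4 := htp (p + a p) (by have := ha p; omega) l v
          positivity
        rw [Finset.sum_congr rfl e1, Finset.card_range] at h3
        refine h3.trans (le_of_eq ?_)
        congr 1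
        refine Finset.sum_congr rfl fun p hp => ?_
        rw [e1 p hp]
        rw [Finset.mem_range] at hp
        rw [Real.mul_rpow (by positivity) (htp (p + a p) (by have := ha p; omega) l v).le]
      calc Nw n t H m M w Fw s ν l ≤ ∑ v : Fin l → ι, wt w v * ((2 ^ s) ^ (n - ν + 1) *
            ∑ p ∈ Finset.range (n - ν + 1), (c ^ ν) ^ s *
              t (replicate (p + a p) (Fw l v H) + replicate (n - (p + a p)) H) ^ s) :=
            Finset.sum_le_sum fun v _ => mul_le_mul_of_nonneg_left (h1 v) (wt_nonneg hw v)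
        _ = (2 ^ s) ^ (n - ν + 1) * (c ^ ν) ^ s * ∑ p ∈ Finset.range (n - ν + 1),
            ∑ v : Fin l → ι, wt w v * t (replicate (p + a p) (Fw l v H) +
              replicate (n - (p + a p)) H) ^ s := by
            rw [Finset.sum_comm, Finset.mul_sum]
            refine Finset.sum_congr rfl fun v _ => ?_
            rw [Finset.mul_sum, Finset.mul_sum, Finset.mul_sum]
            refine Finset.sum_congr rfl fun p _ => ?_
            ring
        _ ≤ (2 ^ s) ^ (n - ν + 1) * (c ^ ν) ^ s *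
            ∑ p ∈ Finset.range (n - ν + 1), A p * L ^ l := by
            refine mul_le_mul_of_nonneg_left (Finset.sum_le_sum fun p hp => ?_) (by positivity)
            rw [Finset.mem_range] at hp
            exact hA p (by omega) l
        _ = _ := by
            rw [← Finset.sum_mul]
            ring
  -- the descending induction
  have hdesc : ∀ k, k ≤ ν → ∀ L' : ℝ, L < L' → ∃ A, 0 < A ∧ ∀ i', ν - k ≤ i' → i' ≤ ν →
      ∀ l, Nw n t H m M w Fw s i' l ≤ A * L' ^ l := by
    intro k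
    induction k with
    | zero =>
      intro _ L' hlt
      obtain ⟨A, hA0, hA⟩ := htop
      refine ⟨A, hA0, fun i' h1 h2 l => ?_⟩
      obtain rfl : i' = ν := by omega
      exact (hA l).trans (mul_le_mul_of_nonneg_left (pow_le_pow_left₀ hL.le hlt.le l) hA0.le)
    | succ k ih =>
      intro hk L' hlt
      obtain ⟨A, hA0, hA⟩ := ih (by omega) ((L + L') / 2) (by linarith)
      obtain ⟨i, hi⟩ : ∃ i, i = ν - (k + 1) := ⟨_, rfl⟩
      have hiν : i < ν := by omega
      have hYb : ∀ l, ∑ v : Fin l → ι, wt w v * Yb n t H m M ν (Fw l v) i ^ s ≤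
          ((2 ^ s) ^ (Finset.Ioc i ν).card * ((Finset.Ioc i ν).card * A + 1)) *
            ((L + L') / 2) ^ l := by
        intro l
        have h1 : ∀ v : Fin l → ι, Yb n t H m M ν (Fw l v) i ^ s ≤
            (2 ^ s) ^ (Finset.Ioc i ν).card *
              ∑ i' ∈ Finset.Ioc i ν, Xb n t H m M (Fw l v) i' ^ s := fun v =>
          sum_rpow_le (Finset.Ioc i ν) (x := fun i' => Xb n t H m M (Fw l v) i')
            (fun i' => xb_nonneg _ _) hs
        have hLp : 0 < (L + L') / 2 := by linarith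
        calc ∑ v : Fin l → ι, wt w v * Yb n t H m M ν (Fw l v) i ^ s ≤
              ∑ v : Fin l → ι, wt w v * ((2 ^ s) ^ (Finset.Ioc i ν).card *
                ∑ i' ∈ Finset.Ioc i ν, Xb n t H m M (Fw l v) i' ^ s) :=
              Finset.sum_le_sum fun v _ => mul_le_mul_of_nonneg_left (h1 v) (wt_nonneg hw v)
          _ = (2 ^ s) ^ (Finset.Ioc i ν).card *
              ∑ i' ∈ Finset.Ioc i ν, Nw n t H m M w Fw s i' l := by
              unfold Nw
              rw [Finset.sum_comm, Finset.mul_sum]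
              refine Finset.sum_congr rfl fun v _ => ?_
              rw [Finset.mul_sum, Finset.mul_sum, Finset.mul_sum]
              refine Finset.sum_congr rfl fun p _ => ?_
              ring
          _ ≤ (2 ^ s) ^ (Finset.Ioc i ν).card *
              ∑ i' ∈ Finset.Ioc i ν, A * ((L + L') / 2) ^ l := by
              refine mul_le_mul_of_nonneg_left (Finset.sum_le_sum fun i' hi' => ?_)
                (by positivity)
              rw [Finset.mem_Ioc] at hi'
              exact hA i' (by omega) hi'.2 l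
          _ ≤ _ := by
              rw [Finset.sum_const, nsmul_eq_mul]
              have h5 : (0 : ℝ) < ((L + L') / 2) ^ l := by positivity
              have h6 : ((2 : ℝ) ^ s) ^ (Finset.Ioc i ν).card *
                  (((Finset.Ioc i ν).card : ℝ) * (A * ((L + L') / 2) ^ l)) =
                  ((2 : ℝ) ^ s) ^ (Finset.Ioc i ν).card *
                  (((Finset.Ioc i ν).card : ℝ) * A) * ((L + L') / 2) ^ l := by ring
              rw [h6]
              refine mul_le_mul_of_nonneg_right ?_ h5.le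
              refine mul_le_mul_of_nonneg_left ?_ (by positivity)
              linarith
      obtain ⟨A', hA'0, hA'⟩ := seq_growth
        (C := (4 ^ (n * n + n) / ε) ^ s * 2 ^ s * 2 ^ s)
        (A := (2 ^ s) ^ (Finset.Ioc i ν).card * ((Finset.Ioc i ν).card * A + 1))
        (L := (L + L') / 2) (L' := L') (by have := h.hε; positivity) (by positivity)
        (by linarith) (by linarith) (N := fun l => Nw n t H m M w Fw s i l)
        (fun l => nw_nonneg hw Fw s i l)
        (fun l k z hz => h.nw_step hw hFw hap hs hiν hYb l k hz)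
      refine ⟨A + A', by positivity, fun i' h1 h2 l => ?_⟩
      have hLp : 0 < (L + L') / 2 := by linarith
      have hL'0 : 0 < L' := hL.trans hlt
      rcases Nat.eq_or_lt_of_le h1 with h3 | h3
      · have h4 : i' = i := by omega
        rw [h4]
        refine (hA' l).trans (mul_le_mul_of_nonneg_right (by linarith) (by positivity))
      · refine (hA i' (by omega) h2 l).trans ?_
        refine mul_le_mul (by linarith) (pow_le_pow_left₀ hLp.le (by linarith) l)
          (by positivity) (by positivity)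
  obtain ⟨A, hA0, hA⟩ := hdesc ν le_rfl L' hlt
  refine ⟨A, fun l p hp => le_trans ?_ (hA 0 (by omega) (Nat.zero_le _) l)⟩
  refine Finset.sum_le_sum fun v _ => mul_le_mul_of_nonneg_left ?_ (wt_nonneg hw v)
  exact Real.rpow_le_rpow (htp p hp l v).le (h.deg_le h𝒜 (hFw l v) hp) hs.le

end

end SysC

end Pool.Agent.T2h12
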