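import Pool.Agent.T2h12.WgtC

/-!
The abstract plateau theorem for the means of the logarithms over words.
-/

set_option autoImplicit false

open Multiset Filter Topology

open Pool.Agent.N110

namespace Pool.Agent.T2h12

/-- power means of small exponent are near the geometric mean -/
theorem small_exp {κ : Type*} [Fintype κ] {p x : κ → ℝ} (hp1 : ∑ k, p k = 1)
    (hx : ∀ k, 0 < x k) {Y : ℝ} (hY : 0 < Y) (h : ∑ k, p k * Real.log (x k) < Real.log Y) :
    ∀ᶠ s in 𝓝[>] (0 : ℝ), ∑ k, p k * x k ^ s < Y ^ s := by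
  obtain ⟨φ, hφ⟩ : ∃ φ : ℝ → ℝ, φ = fun s => ∑ k, p k * x k ^ s - Y ^ s := ⟨_, rfl⟩
  have hd : HasDerivAt φ (∑ k, p k * Real.log (x k) - Real.log Y) 0 := by
    rw [hφ]
    refine HasDerivAt.sub (HasDerivAt.fun_sum fun k _ => ?_) ?_
    · have h1 := (Real.hasStrictDerivAt_const_rpow (hx k) 0).hasDerivAt.const_mul (p k)
      rwa [Real.rpow_zero, one_mul] at h1
    · have h1 := (Real.hasStrictDerivAt_const_rpow hY 0).hasDerivAt
      rwa [Real.rpow_zero, one_mul] at h1
  have h0 : φ 0 = 0 := by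
    rw [hφ]
    simp [hp1]
  rw [hasDerivAt_iff_tendsto_slope] at hd
  have h1 : ∀ᶠ s in 𝓝[≠] (0 : ℝ), slope φ 0 s < 0 :=
    hd.eventually (gt_mem_nhds (by linarith))
  have h2 : ∀ᶠ s in 𝓝[>] (0 : ℝ), slope φ 0 s < 0 :=
    h1.filter_mono (nhdsWithin_mono _ fun s hs => ne_of_gt hs)
  filter_upwards [h2, self_mem_nhdsWithin] with s hs hs0
  rw [slope_def_field, h0, sub_zero, sub_zero] at hs
  have h3 : φ s < 0 := by
    by_contra hcon
    exact absurd hs (not_lt.2 (div_nonneg (not_lt.1 hcon) (le_of_lt hs0)))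
  rw [hφ] at h3
  linarith

/-- Jensen's inequality -/
theorem mean_log_le {κ : Type*} [Fintype κ] {p x : κ → ℝ} (hp : ∀ k, 0 ≤ p k)
    (hp1 : ∑ k, p k = 1) (hx : ∀ k, 0 < x k) {s B : ℝ} (hs : 0 < s)
    (h : ∑ k, p k * x k ^ s ≤ B) : ∑ k, p k * Real.log (x k) ≤ Real.log B / s := by
  have h1 := strictConcaveOn_log_Ioi.concaveOn.le_map_sum (t := Finset.univ) (w := p)
    (p := fun k => x k ^ s) (fun k _ => hp k) hp1 (fun k _ => Real.rpow_pos_of_pos (hx k) s)
  simp only [smul_eq_mul] at h1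
  have h2 : ∑ k, p k * Real.log (x k ^ s) = s * ∑ k, p k * Real.log (x k) := by
    rw [Finset.mul_sum]
    refine Finset.sum_congr rfl fun k _ => ?_
    rw [Real.log_rpow (hx k)]
    ring
  rw [h2] at h1
  have h3 : 0 < ∑ k, p k * x k ^ s := by
    by_contra hcon
    have h4 : ∀ k ∈ Finset.univ, 0 ≤ p k * x k ^ s := fun k _ =>
      mul_nonneg (hp k) (Real.rpow_pos_of_pos (hx k) s).le
    have h5 := (Finset.sum_eq_zero_iff_of_nonneg h4).1
      (le_antisymm (not_lt.1 hcon) (Finset.sum_nonneg h4))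
    have h6 : ∑ k, p k = 0 := Finset.sum_eq_zero fun k hk => by
      rcases mul_eq_zero.1 (h5 k hk) with h7 | h7
      · exact h7
      · exact absurd h7 (Real.rpow_pos_of_pos (hx k) s).ne'
    rw [h6] at hp1
    exact zero_ne_one hp1
  rw [le_div_iff₀ hs]
  have h4 := Real.log_le_log h3 h
  linarith

/-- growth of submultiplicative sequences -/
theorem submul_growth {e : ℕ → ℝ} (he : ∀ l, 0 ≤ e l) (hsub : ∀ l k, e (l + k) ≤ e l * e k)
    {L : ℝ} (hL : 0 < L) {l1 : ℕ} (hl1 : 1 ≤ l1) (h1 : e l1 ≤ L ^ l1) :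
    ∃ A, 0 < A ∧ ∀ l, e l ≤ A * L ^ l := by
  have h0 : ∀ l ∈ Finset.range l1, 0 ≤ e l / L ^ l := fun l _ => by
    have := he l
    positivity
  have hs := Finset.sum_nonneg h0
  obtain ⟨A, hA⟩ : ∃ A, A = 1 + ∑ l ∈ Finset.range l1, e l / L ^ l := ⟨_, rfl⟩
  have hA0 : 0 < A := by rw [hA]; linarith
  refine ⟨A, hA0, fun l => ?_⟩
  induction l using Nat.strong_induction_on with
  | _ l ih =>
    by_cases hl : l < l1
    · rw [← div_le_iff₀ (by positivity)]
      have := Finset.single_le_sum h0 (Finset.mem_range.2 hl)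
      rw [hA]
      linarith
    · obtain ⟨k, rfl⟩ : ∃ k, l = l1 + k := ⟨l - l1, by omega⟩
      have h2 := ih k (by omega)
      calc e (l1 + k) ≤ e l1 * e k := hsub _ _
        _ ≤ L ^ l1 * (A * L ^ k) := mul_le_mul h1 h2 (he k) (by positivity)
        _ = A * L ^ (l1 + k) := by rw [pow_add]; ring

section

variable {ι : Type*} [Fintype ι]

theorem sum_wt {w : ι → ℝ} (hw1 : ∑ i, w i = 1) (l : ℕ) : ∑ v : Fin l → ι, wt w v = 1 := by
  unfold wt
  rw [← Fintype.sum_pow, hw1, one_pow]

end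

variable {α 𝒜 : Type*}

namespace SysC

variable {n : ℕ} {t : Multiset α → ℝ} {W : ℕ → Set (α → α)} {H : α} {m : ℕ → ℝ}
  {M : 𝒜 → ℕ → α} {D : α → ℕ → α} {ν : ℕ} {c ε C₁ : ℝ}

/-- the degrees are submultiplicative -/
theorem deg_mul (h : SysC n t W H m M D ν c ε C₁) {l k p : ℕ} (hp : p ≤ n) {F G : α → α}
    (hF : F ∈ W l) (_hG : G ∈ W k) : t (replicate p ((F ∘ G) H) + replicate (n - p) H) ≤
      4 ^ (n * n) / t (replicate n H) * (t (replicate p (F H) + replicate (n - p) H) *
        t (replicate p (G H) + replicate (n - p) H)) := by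
  obtain ⟨δ, hδ, hd⟩ := h.deg l F hF
  have hH : 0 < t (replicate n H) := h.pos _ (card_replicate _ _)
  have hrkt := rkt h.pos h.ex (F H) (replicate p (F (G H)))
    (replicate (n - p) H) 0 (by simp only [card_replicate, card_zero]; omega)
  simp only [card_replicate, add_zero] at hrkt
  rw [show p + (n - p) = n by omega] at hrkt
  have e1 : replicate n (F H) = (replicate n H).map F := by rw [map_replicate]
  have e2 : replicate p (F (G H)) + replicate (n - p) (F H) =
      (replicate p (G H) + replicate (n - p) H).map F := by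
    rw [Multiset.map_add, map_replicate, map_replicate]
  rw [e1, e2, hd _ (card_replicate _ _),
    hd _ (by simp only [card_add, card_replicate]; omega),
    add_comm (replicate (n - p) H) (replicate p (F H))] at hrkt
  have hpF : 0 < t (replicate p (F H) + replicate (n - p) H) :=
    h.pos _ (by simp only [card_add, card_replicate]; omega)
  have hpG : 0 < t (replicate p (G H) + replicate (n - p) H) :=
    h.pos _ (by simp only [card_add, card_replicate]; omega)
  have h1 : δ * (t (replicate p (F (G H)) + replicate (n - p) H) * t (replicate n H)) ≤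
      δ * (4 ^ (n * n) * (t (replicate p (F H) + replicate (n - p) H) *
        t (replicate p (G H) + replicate (n - p) H))) := by
    have h2 : (4 : ℝ) ^ (n * (n - p)) ≤ 4 ^ (n * n) :=
      pow_le_pow_right₀ (by norm_num) (Nat.mul_le_mul_left _ (by omega))
    have h3 := mul_le_mul_of_nonneg_right h2 (show 0 ≤
      δ * t (replicate p (G H) + replicate (n - p) H) *
        t (replicate p (F H) + replicate (n - p) H) by positivity)
    linarith
  have h2 := le_of_mul_le_mul_left h1 hδ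
  change t (replicate p (F (G H)) + replicate (n - p) H) ≤ _
  rw [div_mul_eq_mul_div, le_div_iff₀ hH]
  exact h2

section

variable {ι : Type*} [Fintype ι]

/-- **The abstract plateau theorem for the means of the logarithms over words.** -/
theorem weighted_log (h : SysC n t W H m M D ν c ε C₁) (h𝒜 : Nonempty 𝒜) {w : ι → ℝ}
    (hw : ∀ i, 0 ≤ w i) (hw1 : ∑ i, w i = 1) {Fw : ∀ l, (Fin l → ι) → α → α}
    (hFw : ∀ l v, Fw l v ∈ W l)
    (hap : ∀ l k (u : Fin l → ι) (v : Fin k → ι), Fw (l + k) (Fin.append u v) =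
      Fw l u ∘ Fw k v) {L L' : ℝ} (hL : 0 < L) (hlt : L < L')
    (hyp : ∀ j, j + ν ≤ n → ∃ a ≤ ν, ∃ l0 : ℕ, ∀ l, l0 ≤ l →
      ∑ v : Fin l → ι, wt w v * Real.log (t (replicate (j + a) (Fw l v H) +
        replicate (n - (j + a)) H)) ≤ l * Real.log L) :
    ∃ B : ℝ, ∀ l, ∀ p, p ≤ n → ∑ v : Fin l → ι, wt w v *
      Real.log (t (replicate p (Fw l v H) + replicate (n - p) H)) ≤ B + l * Real.log L' := by
  classical
  have hH : 0 < t (replicate n H) := h.pos _ (card_replicate _ _)
  obtain ⟨d, hd⟩ : ∃ d : ℕ → ∀ l, (Fin l → ι) → ℝ, d = fun p l v =>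
      t (replicate p (Fw l v H) + replicate (n - p) H) := ⟨_, rfl⟩
  have hd0 : ∀ p, p ≤ n → ∀ l v, 0 < d p l v := fun p hp l v => by
    rw [hd]
    exact h.pos _ (by simp only [card_add, card_replicate]; omega)
  obtain ⟨C, hC⟩ : ∃ C : ℝ, C = 4 ^ (n * n) / t (replicate n H) := ⟨_, rfl⟩
  have hC0 : 0 < C := by rw [hC]; positivity
  have hdm : ∀ p, p ≤ n → ∀ l k (u : Fin l → ι) (v : Fin k → ι),
      C * d p (l + k) (Fin.append u v) ≤ (C * d p l u) * (C * d p k v) := by
    intro p hp l k u v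
    have h1 := h.deg_mul hp (hFw l u) (hFw k v)
    rw [← hap, ← hC] at h1
    have h2 := mul_le_mul_of_nonneg_left h1 hC0.le
    rw [hd]
    refine h2.trans (le_of_eq ?_)
    ring
  obtain ⟨L1, hL1, hL1'⟩ : ∃ L1, L < L1 ∧ L1 < L' := ⟨(L + L') / 2, by linarith, by linarith⟩
  have hL10 : 0 < L1 := hL.trans hL1
  have hL'0 : 0 < L' := hL10.trans hL1'
  -- the choices
  have hyp' : ∀ j, ∃ a ≤ ν, ∃ l0 : ℕ, j + ν ≤ n → ∀ l, l0 ≤ l →
      ∑ v : Fin l → ι, wt w v * Real.log (d (j + a) l v) ≤ l * Real.log L := by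
    intro j
    by_cases hj : j + ν ≤ n
    · obtain ⟨a, ha, l0, h1⟩ := hyp j hj
      refine ⟨a, ha, l0, fun _ => ?_⟩
      rw [hd]
      exact h1
    · exact ⟨0, Nat.zero_le _, 0, fun hj' => absurd hj' hj⟩
  choose a ha l0 hl0 using hyp'
  obtain ⟨l2, hl2⟩ := exists_nat_gt (Real.log C / (Real.log L1 - Real.log L))
  have hlogL : 0 < Real.log L1 - Real.log L := by
    have := Real.log_lt_log hL hL1
    linarith
  obtain ⟨l1, hl1d⟩ : ∃ l1, l1 = 1 + l2 + ∑ j ∈ Finset.range (n + 1), l0 j := ⟨_, rfl⟩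
  have hl11 : 1 ≤ l1 := by omega
  have hl12 : l2 ≤ l1 := by omega
  have hl10 : ∀ j, j ≤ n → l0 j ≤ l1 := by
    intro j hj
    have := Finset.single_le_sum (f := l0) (fun _ _ => Nat.zero_le _)
      (Finset.mem_range.2 (by omega : j < n + 1))
    omega
  have hsmall : ∀ j ∈ Finset.range (n + 1), ∀ᶠ s in 𝓝[>] (0 : ℝ), j + ν ≤ n →
      ∑ v : Fin l1 → ι, wt w v * (C * d (j + a j) l1 v) ^ s < (L1 ^ l1) ^ s := by
    intro j hjr
    by_cases hj : j + ν ≤ n
    · have hja : j + a j ≤ n := by have := ha j; omega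
      have h1 : ∑ v : Fin l1 → ι, wt w v * Real.log (C * d (j + a j) l1 v) <
          Real.log (L1 ^ l1) := by
        have h2 := hl0 j hj l1 (hl10 j (by omega))
        have h3 : ∑ v : Fin l1 → ι, wt w v * Real.log (C * d (j + a j) l1 v) =
            Real.log C + ∑ v : Fin l1 → ι, wt w v * Real.log (d (j + a j) l1 v) := by
          have h4 : ∀ v : Fin l1 → ι, wt w v * Real.log (C * d (j + a j) l1 v) =
              wt w v * Real.log C + wt w v * Real.log (d (j + a j) l1 v) := by
            intro v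
            rw [Real.log_mul hC0.ne' (hd0 _ hja l1 v).ne']
            ring
          rw [Finset.sum_congr rfl fun v _ => h4 v, Finset.sum_add_distrib, ← Finset.sum_mul,
            sum_wt hw1, one_mul]
        rw [h3, Real.log_pow]
        have h5 : Real.log C < l1 * (Real.log L1 - Real.log L) := by
          rw [div_lt_iff₀ hlogL] at hl2
          have h6 : (l2 : ℝ) ≤ l1 := by exact_mod_cast hl12
          nlinarith
        linarith
      filter_upwards [small_exp (sum_wt hw1 l1) (fun v => mul_pos hC0 (hd0 _ hja l1 v))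
        (pow_pos hL10 l1) h1] with s hs _
      exact hs
    · exact Filter.Eventually.of_forall fun s hj' => absurd hj' hj
  have hsmall2 := (Filter.eventually_all_finset (Finset.range (n + 1))).2 hsmall
  obtain ⟨s, hs1, hs0⟩ := (hsmall2.and self_mem_nhdsWithin).exists
  have hs0' : (0 : ℝ) < s := hs0
  -- the growth of the means of exponent `s`
  have hgr : ∀ j, j + ν ≤ n → ∃ a ≤ ν, ∃ A : ℝ, ∃ l0 : ℕ, ∀ l, l0 ≤ l →
      ∑ v : Fin l → ι, wt w v * t (replicate (j + a) (Fw l v H) +
        replicate (n - (j + a)) H) ^ s ≤ A * (L1 ^ s) ^ l := by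
    intro j hj
    have hja : j + a j ≤ n := by have := ha j; omega
    obtain ⟨A, hA0, hA⟩ := submul_growth
      (e := fun l => ∑ v : Fin l → ι, wt w v * (C * d (j + a j) l v) ^ s)
      (fun l => Finset.sum_nonneg fun v _ => mul_nonneg (wt_nonneg hw v)
        (Real.rpow_nonneg (mul_pos hC0 (hd0 _ hja l v)).le s)) (fun l k => by
        beta_reduce
        rw [sum_append, Finset.sum_mul_sum]
        refine Finset.sum_le_sum fun u _ => Finset.sum_le_sum fun v _ => ?_
        rw [wt_append]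
        have h1 := Real.rpow_le_rpow (mul_pos hC0 (hd0 _ hja _ _)).le
          (hdm (j + a j) hja l k u v) hs0'.le
        rw [Real.mul_rpow (mul_pos hC0 (hd0 _ hja _ _)).le
          (mul_pos hC0 (hd0 _ hja _ _)).le] at h1
        have h2 := mul_le_mul_of_nonneg_left h1 (mul_nonneg (wt_nonneg hw u) (wt_nonneg hw v))
        refine h2.trans (le_of_eq ?_)
        ring) (L := L1 ^ s) (Real.rpow_pos_of_pos hL10 s) hl11 (by
        have h1 := hs1 j (Finset.mem_range.2 (by omega)) hj
        refine h1.le.trans (le_of_eq ?_)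
        rw [← Real.rpow_natCast, ← Real.rpow_natCast, ← Real.rpow_mul hL10.le,
          ← Real.rpow_mul hL10.le, mul_comm])
    refine ⟨a j, ha j, A / C ^ s, 0, fun l _ => ?_⟩
    have h1 := hA l
    have h2 : ∑ v : Fin l → ι, wt w v * (C * d (j + a j) l v) ^ s =
        C ^ s * ∑ v : Fin l → ι, wt w v * d (j + a j) l v ^ s := by
      rw [Finset.mul_sum]
      refine Finset.sum_congr rfl fun v _ => ?_
      rw [Real.mul_rpow hC0.le (hd0 _ hja l v).le]
      ring
    rw [h2] at h1
    have hCs : 0 < C ^ s := Real.rpow_pos_of_pos hC0 s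
    rw [div_mul_eq_mul_div, le_div_iff₀ hCs, mul_comm]
    rw [hd] at h1
    exact h1
  obtain ⟨A, hA⟩ := h.weighted h𝒜 hw hFw hap hs0' (L := L1 ^ s) (L' := L' ^ s)
    (Real.rpow_pos_of_pos hL10 s) (Real.rpow_lt_rpow hL10.le hL1' hs0') hgr
  have hA0 : 0 < A := by
    have h1 := hA 0 0 (Nat.zero_le _)
    rw [pow_zero, mul_one] at h1
    refine lt_of_lt_of_le ?_ h1
    have h2 : ∀ v : Fin 0 → ι, 0 < wt w v * t (replicate 0 (Fw 0 v H) +
        replicate (n - 0) H) ^ s := fun v => by
      have h3 : wt w v = 1 := by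
        unfold wt
        simp
      rw [h3, one_mul]
      exact Real.rpow_pos_of_pos (h.pos _ (by simp)) s
    exact Finset.sum_pos (fun v _ => h2 v) ⟨fun i => i.elim0, Finset.mem_univ _⟩
  refine ⟨Real.log A / s, fun l p hp => ?_⟩
  have h1 := mean_log_le (fun v => wt_nonneg hw v) (sum_wt hw1 l)
    (fun v => h.pos (replicate p (Fw l v H) + replicate (n - p) H)
      (by simp only [card_add, card_replicate]; omega)) hs0' (hA l p hp)
  refine h1.trans (le_of_eq ?_)
  rw [Real.log_mul hA0.ne' (by positivity), Real.log_pow, Real.log_rpow hL'0]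
  field_simp

end

end SysC

end Pool.Agent.T2h12
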