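import Pool.Agent.T2h12.BaseD
import Pool.Agent.T2h12.Pole

/-!
The intersection numbers of the images of the spaces of sections under dominant self-maps.
-/

set_option autoImplicit false
set_option linter.overlappingInstances false
set_option linter.unusedSectionVars false

open FF Module MvPolynomial Pool.Agent.W602.GT Pool.Agent.W603.LV
open Pool.Agent.Y172 Pool.Agent.Y191 Pool.Agent.R887 Pool.Agent.N110

namespace Pool.Agent.T2h12

section

variable {K : Type} [Field K] [Algebra ℂ K]

theorem exists_toM {α : Type} (W : Multiset α) {k : ℕ} (hk : W.card = k) :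
    ∃ v : Fin k → α, toM v = W := by
  obtain ⟨l, rfl⟩ : ∃ l : List α, (l : Multiset α) = W := ⟨W.toList, W.coe_toList⟩
  have hl : l.length = k := hk
  subst hl
  refine ⟨fun j => l.get j, ?_⟩
  unfold toM
  rw [Fin.univ_val_map, List.ofFn_get]

theorem exists_enum {T : Set K} (hT : T.Finite) : ∃ (d : ℕ) (s : Fin d → K), T = Set.range s := by
  classical
  obtain ⟨v, hv⟩ := exists_toM hT.toFinset.val (k := hT.toFinset.card) rfl
  refine ⟨_, v, ?_⟩
  rw [← toM_set, hv]
  ext x
  change x ∈ T ↔ x ∈ hT.toFinset.val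
  rw [Finset.mem_val, Set.Finite.mem_toFinset]

theorem toM_cons {α : Type} {k : ℕ} (v : α) (u : Fin k → α) :
    toM (Fin.cons v u : Fin (k + 1) → α) = v ::ₘ toM u := by
  unfold toM
  rw [Fin.univ_val_map, Fin.univ_val_map, List.ofFn_succ]
  simp

/-- independence from a finite degree -/
theorem indep_of_dm {F : Type} [Field F] [Algebra F K] {p : ℕ}
    (hn : Algebra.trdeg F K = (p : ℕ)) {w : Fin p → K} (h : dm F (toM w) ≠ 0) :
    AlgebraicIndependent F w := by
  refine (basis_of_dg (w := w) (by rw [hn, Nat.card_fin]) ?_).1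
  unfold dg
  unfold dm gen at h
  rwa [toM_set] at h

theorem gen_ord {W : Multiset K} (P : Place (gen ℂ W) K) {f : K} (hf : f ∈ gen ℂ W)
    (hf0 : f ≠ 0) : P.ord f = 0 := by
  have := P.ord_const (c := (⟨f, hf⟩ : gen ℂ W)) (fun h => hf0 (congrArg Subtype.val h))
  exact this

theorem aeval_gen {F : IntermediateField ℂ K} {L : IntermediateField ℂ K} (hFL : F ≤ L) {p : ℕ}
    {u : Fin p → K} (hu : ∀ j, u j ∈ L) (G : MvPolynomial (Fin p) F) : aeval u G ∈ L := by
  induction G using MvPolynomial.induction_on with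
  | C a =>
    rw [aeval_C]
    exact hFL a.2
  | add f g hf hg =>
    rw [map_add]
    exact L.add_mem hf hg
  | mul_X f j hf =>
    rw [map_mul, aeval_X]
    exact L.mul_mem hf (hu j)

theorem aeval_gen' {L : IntermediateField ℂ K} {p : ℕ}
    {u : Fin p → K} (hu : ∀ j, u j ∈ L) (G : MvPolynomial (Fin p) ℂ) : aeval u G ∈ L := by
  induction G using MvPolynomial.induction_on with
  | C a =>
    rw [aeval_C]
    exact L.algebraMap_mem a
  | add f g hf hg =>
    rw [map_add]
    exact L.add_mem hf hg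
  | mul_X f j hf =>
    rw [map_mul, aeval_X]
    exact L.mul_mem hf (hu j)

end

section

variable {K : Type} [Field K] [Algebra ℂ K] {m κ : ℕ}

/-- **A place at which the functions have poles of large order.** -/
theorem exists_pole (hn : Algebra.trdeg ℂ K = (m + 1 + κ : ℕ)) {S T : Set K} (hS : S.Finite)
    (hT : T.Finite) {f g : K} (hf : f ≠ 0) (hg : g ≠ 0) {v : ℕ → K} {k b B : ℕ → ℕ}
    (hk : ∀ q, 1 ≤ k q) (hB : ∀ q, Bnd ℂ S (B q) (f ^ k q * g ^ b q * v q))
    {W : ℕ → Multiset K} (hW : ∀ q, SelS (W q) (Multiset.replicate κ (Submodule.span ℂ T) +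
      Multiset.replicate m (Submodule.span ℂ S))) {c : ℝ} (hc : 0 < c)
    (hle : ∀ q, c * k q ≤ dm ℂ (v q ::ₘ W q)) :
    ∃ c₁ : ℝ, 0 < c₁ ∧ ∃ r : Fin κ → K, (∀ j, r j ∈ Submodule.span ℂ T) ∧
      AlgebraicIndependent ℂ r ∧ ∃ (l : Fin m → K) (P : Place ℂ K),
        Divisorial (m + 1 + κ) P ∧
        (∀ f ∈ IntermediateField.adjoin ℂ (Set.range r), f ≠ 0 → P.ord f = 0) ∧
        (∀ F : MvPolynomial (Fin m) (IntermediateField.adjoin ℂ (Set.range r)), F ≠ 0 →
          aeval l F ≠ 0 ∧ P.ord (aeval l F) = 0) ∧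
        ∀ q0, ∃ q, q0 ≤ q ∧ c₁ * k q ≤ ((-P.ord (v q) : ℤ) : ℝ) := by
  classical
  have hkr : ∀ q, (1 : ℝ) ≤ k q := fun q => by exact_mod_cast hk q
  have hne : ∀ q, dm ℂ (v q ::ₘ W q) ≠ 0 := by
    intro q h0
    have h1 := hle q
    rw [h0, Nat.cast_zero] at h1
    have : 0 < c * k q := by
      have := hkr q
      positivity
    linarith
  have hcW : ∀ q, (W q).card = κ + m := by
    intro q
    rw [(hW q).card, Multiset.card_add, Multiset.card_replicate, Multiset.card_replicate]
  have ecs : ∀ (x : K) (Z : Multiset K), Z + (x ::ₘ 0) = x ::ₘ Z := by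
    intro x Z
    rw [Multiset.add_cons, add_zero]
  obtain ⟨W', hW', hle'⟩ := common_seq hn (Multiset.replicate κ (Submodule.span ℂ T) +
      Multiset.replicate m (Submodule.span ℂ S)) (by
    intro V hV
    rcases Multiset.mem_add.1 hV with hV | hV
    · obtain ⟨d, s, hs⟩ := exists_enum hT
      exact ⟨d, s, by rw [Multiset.eq_of_mem_replicate hV, ← hs]⟩
    · obtain ⟨d, s, hs⟩ := exists_enum hS
      exact ⟨d, s, by rw [Multiset.eq_of_mem_replicate hV, ← hs]⟩) W (fun q => v q ::ₘ 0) hW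
    (fun q => by
      rw [ecs, Multiset.card_cons, hcW]
      omega) (fun q => by
      rw [ecs]
      exact hne q)
  obtain ⟨W1, W2, h1, h2, rfl⟩ := selS_add_right hW'
  rw [selS_rep] at h1 h2
  obtain ⟨r, rfl⟩ := exists_toM W1 h1.1
  obtain ⟨l, rfl⟩ := exists_toM W2 h2.1
  obtain ⟨G, hG⟩ : ∃ G, G = toM r + toM l := ⟨_, rfl⟩
  have hGc : G.card + 1 = m + 1 + κ := by
    rw [hG, Multiset.card_add, toM_card, toM_card]
    omega
  have hle2 : ∀ q, c * k q ≤ dm ℂ (v q ::ₘ G) := by
    intro q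
    have h3 := hle' q
    rw [ecs, ecs, ← hG] at h3
    exact (hle q).trans (by exact_mod_cast h3)
  have hne2 : ∀ q, dm ℂ (v q ::ₘ G) ≠ 0 := by
    intro q h0
    have h1 := hle2 q
    rw [h0, Nat.cast_zero] at h1
    have : 0 < c * k q := by
      have := hkr q
      positivity
    linarith
  -- independence
  have hri : AlgebraicIndependent ℂ r := by
    obtain ⟨w, hw⟩ : ∃ w : Fin (m + 1) ⊕ Fin κ → K, w = Sum.elim (Fin.cons (v 0) l) r := ⟨_, rfl⟩
    have h3 : IsTranscendenceBasis ℂ w := by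
      refine basis_of_dg (by rw [hn, Nat.card_sum, Nat.card_fin, Nat.card_fin]) ?_
      have h4 := hne2 0
      unfold dg
      unfold dm gen at h4
      have h5 : Set.range w = {x | x ∈ v 0 ::ₘ G} := by
        rw [hw, Set.Sum.elim_range, ← toM_set, ← toM_set, toM_cons, hG]
        ext x
        simp only [Set.mem_union]
        change (x ∈ v 0 ::ₘ toM l ∨ x ∈ toM r) ↔ x ∈ v 0 ::ₘ (toM r + toM l)
        rw [Multiset.mem_cons, Multiset.mem_cons, Multiset.mem_add]
        tauto
      rwa [h5]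
    have h4 := h3.1.comp Sum.inr Sum.inr_injective
    rw [hw] at h4
    exact h4
  have hF1 : Algebra.trdeg (IntermediateField.adjoin ℂ (Set.range r)) K = (m + 1 : ℕ) :=
    trdeg_over hn hri
  have hli : AlgebraicIndependent (IntermediateField.adjoin ℂ (Set.range r)) l := by
    have h3 : AlgebraicIndependent (IntermediateField.adjoin ℂ (Set.range r))
        (Fin.cons (v 0) l : Fin (m + 1) → K) := by
      refine indep_of_dm hF1 ?_
      rw [toM_cons, dm_over, Multiset.cons_add, add_comm (toM l), ← hG]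
      exact hne2 0
    have h4 := h3.comp Fin.succ (Fin.succ_injective _)
    exact h4
  have hIF := ff_of_dm hn hGc (hne2 0)
  have hcz := cz_gen (k := ℂ) G
  obtain ⟨c₁, hc₁, P, hP⟩ := pole_seq (F := gen ℂ G) hS hf hg hk hB
    (fun q => transc_of_dm hn hGc (hne2 q)) hc (fun q => by
      have := hle2 q
      rwa [dm_cons] at this)
  have hrG : ∀ j, r j ∈ gen ℂ G := fun j =>
    IntermediateField.subset_adjoin _ _ (by
      change r j ∈ G
      rw [hG]
      exact Multiset.mem_add.2 (Or.inl (mem_toM.2 ⟨j, rfl⟩)))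
  have hlG : ∀ j, l j ∈ gen ℂ G := fun j =>
    IntermediateField.subset_adjoin _ _ (by
      change l j ∈ G
      rw [hG]
      exact Multiset.mem_add.2 (Or.inr (mem_toM.2 ⟨j, rfl⟩)))
  have hrle : IntermediateField.adjoin ℂ (Set.range r) ≤ gen ℂ G := by
    rw [IntermediateField.adjoin_le_iff]
    rintro _ ⟨j, rfl⟩
    exact hrG j
  refine ⟨c₁, hc₁, r, fun j => h1.2 _ (mem_toM.2 ⟨j, rfl⟩), hri, l, down (gen ℂ G) P, ?_, ?_, ?_,
    hP⟩
  · obtain ⟨u, hu⟩ := exists_toM G (k := m + 1 + κ - 1) (by omega)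
    refine ⟨u, fun F hF => ?_⟩
    have hui : AlgebraicIndependent ℂ u := by
      have h3 : AlgebraicIndependent ℂ (Fin.cons (v 0) u : Fin (m + 1 + κ - 1 + 1) → K) := by
        refine indep_of_dm (by rw [hn]; congr 1; omega) ?_
        rw [toM_cons, hu]
        exact hne2 0
      have h4 := h3.comp Fin.succ (Fin.succ_injective _)
      exact h4
    have h5 : aeval u F ≠ 0 := by
      intro h0
      apply hF
      exact (injective_iff_map_eq_zero _).1 hui F h0
    refine ⟨h5, ?_⟩
    refine gen_ord P (aeval_gen' (fun j => ?_) F) h5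
    refine IntermediateField.subset_adjoin _ _ ?_
    change u j ∈ G
    rw [← hu]
    exact mem_toM.2 ⟨j, rfl⟩
  · intro f hf hf0
    exact gen_ord P (hrle hf) hf0
  · intro F hF
    have h5 : aeval l F ≠ 0 := by
      intro h0
      apply hF
      exact (injective_iff_map_eq_zero _).1 hli F h0
    exact ⟨h5, gen_ord P (aeval_gen hrle hlG F) h5⟩

end

end Pool.Agent.T2h12
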